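import Mathlib

set_option autoImplicit false

namespace Pool.Agent.R259

open Filter Topology Polynomial

/-- `P = a ∏_{i<n} (X - c i)` with `a > 0` and `c` strictly increasing on `i < n`. -/
def Fac (P : ℝ[X]) (n : ℕ) (c : ℕ → ℝ) : Prop :=
  0 < P.leadingCoeff ∧ (∀ i j, i < j → j < n → c i < c j) ∧
    P = C P.leadingCoeff * ∏ i ∈ Finset.range n, (X - C (c i))

lemma Fac.natDegree {P : ℝ[X]} {n : ℕ} {c : ℕ → ℝ} (h : Fac P n c) : P.natDegree = n := by
  obtain ⟨h1, _, h3⟩ := h
  rw [h3, natDegree_C_mul h1.ne', natDegree_prod_of_monic _ _ fun i _ => monic_X_sub_C _]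
  simp

lemma Fac.eval {P : ℝ[X]} {n : ℕ} {c : ℕ → ℝ} (h : Fac P n c) (x : ℝ) :
    P.eval x = P.leadingCoeff * ∏ i ∈ Finset.range n, (x - c i) := by
  conv_lhs => rw [h.2.2]
  rw [eval_mul, eval_C, eval_prod]
  simp

lemma Fac.root {P : ℝ[X]} {n : ℕ} {c : ℕ → ℝ} (h : Fac P n c) {i : ℕ} (hi : i < n) :
    P.eval (c i) = 0 := by
  rw [h.eval, Finset.prod_eq_zero (Finset.mem_range.2 hi) (sub_self _), mul_zero]

lemma Fac.zeros {P : ℝ[X]} {n : ℕ} {c : ℕ → ℝ} (h : Fac P n c) {z : ℂ} (hz : aeval z P = 0) :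
    ∃ i < n, z = c i := by
  have h1 : aeval z P = (P.leadingCoeff : ℂ) * ∏ i ∈ Finset.range n, (z - (c i : ℂ)) := by
    conv_lhs => rw [h.2.2]
    rw [map_mul, aeval_C, map_prod]
    simp
  rw [h1] at hz
  rcases mul_eq_zero.1 hz with h2 | h2
  · exfalso
    have := h.1
    have h3 : P.leadingCoeff = 0 := by exact_mod_cast h2
    linarith
  · obtain ⟨i, hi, h3⟩ := Finset.prod_eq_zero_iff.1 h2
    exact ⟨i, Finset.mem_range.1 hi, sub_eq_zero.1 h3⟩

lemma Fac.zeros_real {P : ℝ[X]} {n : ℕ} {c : ℕ → ℝ} (h : Fac P n c) {x : ℝ} (hz : P.eval x = 0) :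
    ∃ i < n, x = c i := by
  rw [h.eval] at hz
  rcases mul_eq_zero.1 hz with h2 | h2
  · exact absurd h2 h.1.ne'
  · obtain ⟨i, hi, h3⟩ := Finset.prod_eq_zero_iff.1 h2
    exact ⟨i, Finset.mem_range.1 hi, sub_eq_zero.1 h3⟩

/-- Alternating signs at `n + 1` points give the factorisation. -/
theorem alt_roots {P : ℝ[X]} {n : ℕ} (hdeg : P.natDegree ≤ n) {x : ℕ → ℝ}
    (hx : ∀ i < n, x i < x (i + 1)) (hs : ∀ i ≤ n, 0 < (-1 : ℝ) ^ (n - i) * P.eval (x i)) :
    ∃ c : ℕ → ℝ, (∀ i < n, x i < c i ∧ c i < x (i + 1)) ∧ Fac P n c := by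
  have hne : P ≠ 0 := by
    intro h
    have := hs n le_rfl
    rw [h] at this; simp at this
  have hroot : ∀ m : ℕ, m < n → ∃ c : ℝ, x m < c ∧ c < x (m + 1) ∧ P.eval c = 0 := by
    intro m hm
    have h1 := hs m hm.le
    have h2 := hs (m + 1) hm
    have e : n - m = (n - (m + 1)) + 1 := by omega
    have hcont : ContinuousOn (fun c => (-1 : ℝ) ^ (n - (m + 1)) * P.eval c) (Set.Icc (x m) (x (m + 1))) :=
      (continuous_const.mul P.continuous).continuousOn
    have h3 : (0 : ℝ) ∈ Set.Ioo ((fun c => (-1 : ℝ) ^ (n - (m + 1)) * P.eval c) (x m))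
        ((fun c => (-1 : ℝ) ^ (n - (m + 1)) * P.eval c) (x (m + 1))) := by
      refine ⟨?_, h2⟩
      simp only
      rw [e, pow_succ] at h1
      linarith
    obtain ⟨c, hc, hc0⟩ := intermediate_value_Ioo (hx m hm).le hcont h3
    refine ⟨c, hc.1, hc.2, ?_⟩
    have hp : (-1 : ℝ) ^ (n - (m + 1)) ≠ 0 := by positivity
    exact (mul_eq_zero.1 hc0).resolve_left hp
  choose! c hc1 hc2 hc3 using hroot
  have hxm : ∀ j, j ≤ n → ∀ i, i ≤ j → x i ≤ x j := by
    intro j
    induction j with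
    | zero => intro _ i hi; rw [Nat.le_zero.1 hi]
    | succ j ih =>
      intro hj i hi
      rcases Nat.lt_or_ge i (j + 1) with h | h
      · exact (ih (by omega) i (by omega)).trans (hx j hj).le
      · rw [show i = j + 1 by omega]
  have hmono : ∀ i j, i < j → j < n → c i < c j := by
    intro i j hij hj
    have h1 : x j < c j := hc1 j hj
    have h2 : c i < x (i + 1) := hc2 i (by omega)
    have h3 : x (i + 1) ≤ x j := hxm j hj.le _ hij
    linarith
  have hinj : Set.InjOn c (Finset.range n : Set ℕ) := by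
    intro i hi j hj hij
    rcases lt_trichotomy i j with h | h | h
    · have := hmono i j h (Finset.mem_range.1 hj); linarith
    · exact h
    · have := hmono j i h (Finset.mem_range.1 hi); linarith
  have hsub : (Finset.range n).image c ⊆ P.roots.toFinset := by
    intro y hy
    obtain ⟨m, hm, rfl⟩ := Finset.mem_image.1 hy
    rw [Multiset.mem_toFinset, mem_roots hne]
    exact hc3 m (Finset.mem_range.1 hm)
  have hcard : n ≤ P.roots.toFinset.card := by
    have := Finset.card_le_card hsub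
    rwa [Finset.card_image_of_injOn hinj, Finset.card_range] at this
  have hcard2 : Multiset.card P.roots = P.natDegree := by
    apply le_antisymm (card_roots' _)
    exact hdeg.trans (hcard.trans (Multiset.toFinset_card_le _))
  have hfac := C_leadingCoeff_mul_prod_multiset_X_sub_C hcard2
  have hcardeq : P.roots.toFinset.card = n := by
    apply le_antisymm _ hcard
    exact (Multiset.toFinset_card_le _).trans ((card_roots' _).trans hdeg)
  have hroots : P.roots.toFinset = (Finset.range n).image c := by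
    symm
    apply Finset.eq_of_subset_of_card_le hsub
    rw [Finset.card_image_of_injOn hinj, Finset.card_range, hcardeq]
  have hdedup : P.roots = P.roots.toFinset.val := by
    rw [Multiset.toFinset_val]
    symm
    apply Multiset.eq_of_le_of_card_le (Multiset.dedup_le _)
    rw [hcard2]
    have : Multiset.card P.roots.dedup = P.roots.toFinset.card := rfl
    rw [this, hcardeq]
    exact hdeg
  have hP : P = C P.leadingCoeff * ∏ i ∈ Finset.range n, (X - C (c i)) := by
    conv_lhs => rw [← hfac, hdedup, hroots]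
    congr 1
    rw [← Finset.prod_image (s := Finset.range n) (g := c) (f := fun a => X - C a) hinj]
    rfl
  refine ⟨c, fun i hi => ⟨hc1 i hi, hc2 i hi⟩, ?_, hmono, hP⟩
  have h1 := hs n le_rfl
  rw [Nat.sub_self, pow_zero, one_mul, hP, eval_mul, eval_C, eval_prod] at h1
  have h2 : 0 < ∏ i ∈ Finset.range n, (x n - c i) := by
    refine Finset.prod_pos fun i hi => ?_
    have h3 := hc2 i (Finset.mem_range.1 hi)
    have h4 := hxm n le_rfl (i + 1) (Finset.mem_range.1 hi)
    linarith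
  simp only [eval_sub, eval_X, eval_C] at h1
  exact pos_of_mul_pos_left h1 h2.le

/-- the derivative has alternating signs at the zeros -/
theorem Fac.deriv_sign {P : ℝ[X]} {n : ℕ} {c : ℕ → ℝ} (h : Fac P n c) {i : ℕ} (hi : i < n) :
    0 < (-1 : ℝ) ^ (n - 1 - i) * P.derivative.eval (c i) := by
  obtain ⟨h1, h2, h3⟩ := h
  have e1 : P.derivative.eval (c i) =
      P.leadingCoeff * ∏ j ∈ (Finset.range n).erase i, (c i - c j) := by
    have hP : P = C P.leadingCoeff * Lagrange.nodal (Finset.range n) c := by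
      conv_lhs => rw [h3]
      rfl
    conv_lhs => rw [hP]
    rw [derivative_C_mul, eval_mul, eval_C,
      Lagrange.eval_nodal_derivative_eval_node_eq (Finset.mem_range.2 hi), Lagrange.eval_nodal]
  have e2 : (Finset.range n).erase i = Finset.range i ∪ Finset.Ico (i + 1) n := by
    ext j
    simp only [Finset.mem_erase, Finset.mem_range, Finset.mem_union, Finset.mem_Ico]
    omega
  have e3 : Disjoint (Finset.range i) (Finset.Ico (i + 1) n) := by
    rw [Finset.disjoint_left]
    intro j hj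
    simp only [Finset.mem_range] at hj
    simp only [Finset.mem_Ico, not_and, not_lt]
    omega
  have e4 : ∏ j ∈ Finset.Ico (i + 1) n, (c i - c j) =
      (-1) ^ (n - 1 - i) * ∏ j ∈ Finset.Ico (i + 1) n, (c j - c i) := by
    have : ∀ j ∈ Finset.Ico (i + 1) n, c i - c j = (-1) * (c j - c i) := fun j _ => by ring
    rw [Finset.prod_congr rfl this, Finset.prod_mul_distrib, Finset.prod_const, Nat.card_Ico]
    congr 2
    omega
  rw [e1, e2, Finset.prod_union e3, e4]
  have p1 : 0 < ∏ j ∈ Finset.range i, (c i - c j) :=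
    Finset.prod_pos fun j hj => sub_pos.2 (h2 j i (Finset.mem_range.1 hj) hi)
  have p2 : 0 < ∏ j ∈ Finset.Ico (i + 1) n, (c j - c i) :=
    Finset.prod_pos fun j hj => sub_pos.2 (by
      have := Finset.mem_Ico.1 hj
      exact h2 i j (by omega) this.2)
  have p3 : ((-1 : ℝ) ^ (n - 1 - i)) * (-1) ^ (n - 1 - i) = 1 := by
    rw [← mul_pow]; simp
  have : (-1 : ℝ) ^ (n - 1 - i) * (P.leadingCoeff * ((∏ j ∈ Finset.range i, (c i - c j)) *
      ((-1) ^ (n - 1 - i) * ∏ j ∈ Finset.Ico (i + 1) n, (c j - c i)))) =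
      P.leadingCoeff * ((∏ j ∈ Finset.range i, (c i - c j)) *
        ∏ j ∈ Finset.Ico (i + 1) n, (c j - c i)) := by
    linear_combination (P.leadingCoeff * ((∏ j ∈ Finset.range i, (c i - c j)) *
        ∏ j ∈ Finset.Ico (i + 1) n, (c j - c i))) * p3
  rw [this]
  positivity

lemma far_right {P : ℝ[X]} (hn : 0 < P.natDegree) (h : 0 < P.leadingCoeff) (t : ℝ) :
    ∃ x, t < x ∧ 0 < P.eval x := by
  have h1 := P.tendsto_atTop_of_leadingCoeff_nonneg (natDegree_pos_iff_degree_pos.1 hn) h.le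
  obtain ⟨x, hx1, hx2⟩ := ((h1.eventually_gt_atTop 0).and (eventually_gt_atTop t)).exists
  exact ⟨x, hx2, hx1⟩

lemma far_left {P : ℝ[X]} {n : ℕ} (hn : P.natDegree = n) (hn0 : 0 < n) (h : 0 < P.leadingCoeff)
    (t : ℝ) : ∃ x, x < t ∧ 0 < (-1 : ℝ) ^ n * P.eval x := by
  set Q : ℝ[X] := C ((-1 : ℝ) ^ n) * P.comp (-X) with hQ
  have hd : (P.comp (-X)).natDegree = n := by
    rw [natDegree_comp]; simp [hn]
  have hp : ((-1 : ℝ) ^ n) * (-1) ^ n = 1 := by rw [← mul_pow]; simp
  have hlc : Q.leadingCoeff = P.leadingCoeff := by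
    rw [hQ, leadingCoeff_mul, leadingCoeff_C, leadingCoeff_comp (by simp), hn]
    simp only [leadingCoeff_neg, leadingCoeff_X]
    linear_combination P.leadingCoeff * hp
  have hQd : 0 < Q.natDegree := by
    rw [hQ, natDegree_C_mul (by positivity), hd]; exact hn0
  obtain ⟨x, hx1, hx2⟩ := far_right hQd (by rw [hlc]; exact h) (-t)
  refine ⟨-x, by linarith, ?_⟩
  rw [hQ] at hx2
  simpa using hx2

/-- rescaling -/
lemma Fac.scale {P : ℝ[X]} {n : ℕ} {c : ℕ → ℝ} (h : Fac P n c) {s : ℝ} (hs : 0 < s) :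
    Fac (P.comp (C s * X)) n (fun i => c i / s) := by
  have hlc : (P.comp (C s * X)).leadingCoeff = P.leadingCoeff * s ^ n := by
    rw [leadingCoeff_comp (by rw [natDegree_C_mul_X _ hs.ne']; exact one_ne_zero), h.natDegree]
    simp
  refine ⟨by rw [hlc]; exact mul_pos h.1 (pow_pos hs n), fun i j hij hj => ?_, ?_⟩
  · exact div_lt_div_of_pos_right (h.2.1 i j hij hj) hs
  · rw [hlc]
    conv_lhs => rw [h.2.2]
    rw [mul_comp, C_comp, prod_comp, C_mul, mul_assoc]
    congr 1
    rw [C_pow, ← Finset.card_range n, ← Finset.prod_const, Finset.card_range,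
      ← Finset.prod_mul_distrib]
    refine Finset.prod_congr rfl fun i _ => ?_
    rw [sub_comp, X_comp, C_comp, mul_sub, ← C_mul]
    congr 2
    field_simp

/-- bounds for alternating sums -/
lemma alt_sum {t : ℕ → ℝ} (h0 : ∀ m, 0 ≤ t m) (ha : ∀ m, t (m + 1) ≤ t m) (N : ℕ) :
    0 ≤ ∑ m ∈ Finset.range N, (-1 : ℝ) ^ m * t m ∧
      ∑ m ∈ Finset.range N, (-1 : ℝ) ^ m * t m ≤ t 0 := by
  induction N generalizing t with
  | zero => simpa using h0 0
  | succ N ih =>
    rw [Finset.sum_range_succ']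
    have h1 := ih (t := fun m => t (m + 1)) (fun m => h0 _) (fun m => ha _)
    have h2 : ∑ m ∈ Finset.range N, (-1 : ℝ) ^ (m + 1) * t (m + 1) =
        - ∑ m ∈ Finset.range N, (-1 : ℝ) ^ m * t (m + 1) := by
      rw [← Finset.sum_neg_distrib]
      refine Finset.sum_congr rfl fun m _ => ?_
      rw [pow_succ]; ring
    rw [h2]
    simp only [pow_zero, one_mul]
    have h3 := ha 0
    simp only [zero_add] at h1 h3
    constructor <;> linarith [h1.1, h1.2]

end Pool.Agent.R259
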