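import Mathlib
import Pool.Agent.R259.Alt

set_option autoImplicit false

namespace Pool.Agent.R259

open Filter Topology Polynomial

/-- rising factorial -/
noncomputable def poch (b : ℝ) (m : ℕ) : ℝ := ∏ i ∈ Finset.range m, (b + i)

lemma poch_zero (b : ℝ) : poch b 0 = 1 := by simp [poch]

lemma poch_succ (b : ℝ) (m : ℕ) : poch b (m + 1) = poch b m * (b + m) := by
  rw [poch, Finset.prod_range_succ]; rfl

lemma poch_pos {b : ℝ} (hb : 0 < b) (m : ℕ) : 0 < poch b m :=
  Finset.prod_pos fun i _ => by positivity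

/-- the polynomials `∑ binom(N,m) x^m / (b)_m` -/
noncomputable def lag (b : ℝ) (N : ℕ) : ℝ[X] :=
  ∑ m ∈ Finset.range (N + 1), C ((N.choose m : ℝ) / poch b m) * X ^ m

lemma lag_coeff (b : ℝ) (N m : ℕ) : (lag b N).coeff m = (N.choose m : ℝ) / poch b m := by
  unfold lag
  rw [finsetSum_coeff]
  simp only [coeff_C_mul, coeff_X_pow]
  rcases Nat.lt_or_ge N m with h | h
  · rw [Nat.choose_eq_zero_of_lt h, Finset.sum_eq_zero]
    · simp
    · intro k hk
      rw [Finset.mem_range] at hk
      rw [if_neg (by omega), mul_zero]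
  · rw [Finset.sum_eq_single m]
    · simp
    · intro k _ hk
      rw [if_neg (by omega), mul_zero]
    · intro h2
      exact absurd (Finset.mem_range.2 (by omega)) h2

lemma choose_rel (N m : ℕ) : ((N : ℝ) - m) * (N.choose m : ℝ) = (m + 1) * (N.choose (m + 1) : ℝ) := by
  rcases Nat.lt_or_ge N m with h | h
  · rw [Nat.choose_eq_zero_of_lt h, Nat.choose_eq_zero_of_lt (by omega)]; simp
  · have h1 := Nat.choose_succ_right_eq N m
    have h2 : ((N.choose (m + 1) * (m + 1) : ℕ) : ℝ) = ((N.choose m * (N - m) : ℕ) : ℝ) := by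
      rw [h1]
    push_cast [Nat.cast_sub h] at h2
    linarith

lemma lag_rec {b : ℝ} (hb : 0 < b) (N : ℕ) :
    C ((N : ℝ) + b) * lag b (N + 1) = X * derivative (lag b N) + (C ((N : ℝ) + b) + X) * lag b N := by
  ext m
  rcases m with _ | m
  · rw [coeff_C_mul, lag_coeff, coeff_add, add_mul (C ((N : ℝ) + b)) X, coeff_add, coeff_C_mul,
      lag_coeff]
    simp [poch_zero]
  · rw [coeff_C_mul, lag_coeff, coeff_add, add_mul (C ((N : ℝ) + b)) X, coeff_add, coeff_C_mul,
      lag_coeff,
      coeff_X_mul, coeff_X_mul, coeff_derivative, lag_coeff, lag_coeff, poch_succ,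
      Nat.choose_succ_succ']
    have h1 := poch_pos hb m
    have h2 : 0 < b + m := by positivity
    have h3 := choose_rel N m
    push_cast
    field_simp
    linear_combination h3

lemma lag_natDegree_le (b : ℝ) (N : ℕ) : (lag b N).natDegree ≤ N := by
  rw [natDegree_le_iff_coeff_eq_zero]
  intro m hm
  rw [lag_coeff, Nat.choose_eq_zero_of_lt hm]; simp

lemma lag_natDegree {b : ℝ} (hb : 0 < b) (N : ℕ) : (lag b N).natDegree = N := by
  apply le_antisymm (lag_natDegree_le b N)
  apply le_natDegree_of_ne_zero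
  rw [lag_coeff, Nat.choose_self]
  have := poch_pos hb N
  positivity

lemma lag_lead {b : ℝ} (hb : 0 < b) (N : ℕ) : 0 < (lag b N).leadingCoeff := by
  rw [leadingCoeff, lag_natDegree hb, lag_coeff, Nat.choose_self]
  have := poch_pos hb N
  positivity

lemma lag_eval_pos {b : ℝ} (hb : 0 < b) (N : ℕ) {x : ℝ} (hx : 0 ≤ x) : 0 < (lag b N).eval x := by
  rw [eval_eq_sum_range' (Nat.lt_succ_of_le (lag_natDegree_le b N)), Finset.sum_range_succ',
    lag_coeff]
  have h0 : 0 ≤ ∑ k ∈ Finset.range N, (lag b N).coeff (k + 1) * x ^ (k + 1) := by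
    refine Finset.sum_nonneg fun k _ => ?_
    rw [lag_coeff]
    have := poch_pos hb (k + 1)
    positivity
  have : 0 < ((N.choose 0 : ℕ) : ℝ) / poch b 0 * x ^ 0 := by simp [poch_zero]
  linarith

/-- General interlacing step: if `Q` takes at the zeros of `P` the same signs as `P'`,
has one more sign change to the left or right, ... -/
theorem Fac.step {P Q : ℝ[X]} {n : ℕ} {c : ℕ → ℝ} (h : Fac P n c) {e : ℝ}
    (hc : ∀ i < n, c i < e)
    (hQ : ∀ i < n, Q.eval (c i) * P.derivative.eval (c i) < 0) (hQd : Q.natDegree = n + 1)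
    (hQl : 0 < Q.leadingCoeff) (hQe : 0 < Q.eval e) :
    ∃ d, Fac Q (n + 1) d ∧ ∀ i < n + 1, d i < e := by
  obtain ⟨x0, hx0, hx0'⟩ := far_left hQd (Nat.succ_pos n) hQl (min e (c 0))
  set x : ℕ → ℝ := fun i => if i = 0 then x0 else if i ≤ n then c (i - 1) else e with hx
  have hx00 : x 0 = x0 := by simp [hx]
  have hxm : ∀ i, i < n → x (i + 1) = c i := by
    intro i hi
    simp only [hx, Nat.succ_ne_zero, if_false, Nat.add_sub_cancel]
    rw [if_pos (by omega)]
  have hxe : x (n + 1) = e := by
    simp only [hx, Nat.succ_ne_zero, if_false]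
    rw [if_neg (by omega)]
  obtain ⟨d, hd1, hd2⟩ := alt_roots (P := Q) (n := n + 1) hQd.le (x := x) (by
    intro i hi
    rcases Nat.eq_zero_or_pos i with rfl | hi0
    · rcases Nat.eq_zero_or_pos n with rfl | hn
      · rw [hx00]
        simp only [zero_add] at hxe ⊢
        rw [hxe]
        exact hx0.trans_le (min_le_left _ _)
      · rw [hx00, hxm 0 hn]
        exact hx0.trans_le (min_le_right _ _)
    · obtain ⟨j, rfl⟩ : ∃ j, i = j + 1 := ⟨i - 1, by omega⟩
      rw [hxm j (by omega)]
      rcases Nat.lt_or_ge (j + 1) n with h1 | h1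
      · rw [hxm (j + 1) h1]; exact h.2.1 j (j + 1) (Nat.lt_succ_self j) h1
      · have : j + 1 = n := by omega
        rw [this, hxe]
        exact hc j (by omega)) (by
    intro i hi
    rcases Nat.eq_zero_or_pos i with rfl | hi0
    · rw [hx00]; exact hx0'
    · obtain ⟨j, rfl⟩ : ∃ j, i = j + 1 := ⟨i - 1, by omega⟩
      rcases Nat.lt_or_ge j n with h1 | h1
      · rw [hxm j h1]
        have h2 := h.deriv_sign h1
        have h3 := hQ j h1
        have e1 : n + 1 - (j + 1) = (n - 1 - j) + 1 := by omega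
        rw [e1, pow_succ]
        set s := (-1 : ℝ) ^ (n - 1 - j)
        have hs : s * s = 1 := by
          simp only [s]
          rw [← mul_pow]; simp
        have hq : (s * -1 * Q.eval (c j)) * (s * P.derivative.eval (c j)) > 0 := by
          have : (s * -1 * Q.eval (c j)) * (s * P.derivative.eval (c j)) =
              -(Q.eval (c j) * P.derivative.eval (c j)) * (s * s) := by ring
          rw [this, hs]
          linarith
        exact pos_of_mul_pos_left hq h2.le
      · have : j = n := by omega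
        rw [this, hxe]
        simpa using hQe)
  refine ⟨d, hd2, fun i hi => ?_⟩
  have h1 := (hd1 i hi).2
  rcases Nat.lt_or_ge i n with h2 | h2
  · rw [hxm i h2] at h1
    exact h1.trans (hc i h2)
  · have : i = n := by omega
    rw [this, hxe] at h1
    rw [this]; exact h1

/-- The zeros of `lag b N` are negative and simple. -/
theorem lag_fac {b : ℝ} (hb : 0 < b) (N : ℕ) : ∃ c, Fac (lag b N) N c ∧ ∀ i < N, c i < 0 := by
  induction N with
  | zero =>
    refine ⟨fun _ => 0, ⟨lag_lead hb 0, fun i j _ hj => absurd hj (Nat.not_lt_zero _), ?_⟩,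
      fun i hi => absurd hi (Nat.not_lt_zero _)⟩
    have h := eq_C_of_natDegree_eq_zero (lag_natDegree hb 0)
    rw [Finset.range_zero, Finset.prod_empty, mul_one]
    conv_rhs => rw [h]
    rw [leadingCoeff_C]
    exact h
  | succ N ih =>
    obtain ⟨c, hc, hc0⟩ := ih
    have hNb : 0 < (N : ℝ) + b := by positivity
    set Q := C ((N : ℝ) + b) * lag b (N + 1) with hQ
    have hQ2 := lag_rec hb N
    rw [← hQ] at hQ2
    have hQd : Q.natDegree = N + 1 := by
      rw [hQ, natDegree_C_mul hNb.ne', lag_natDegree hb]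
    have hQl : 0 < Q.leadingCoeff := by
      rw [hQ, leadingCoeff_mul, leadingCoeff_C]
      exact mul_pos hNb (lag_lead hb _)
    have hQ0 : 0 < Q.eval 0 := by
      rw [hQ, eval_mul, eval_C]
      exact mul_pos hNb (lag_eval_pos hb _ le_rfl)
    obtain ⟨d, hd, hd0⟩ := hc.step hc0 (Q := Q) (by
      intro i hi
      rw [hQ2]
      simp only [eval_add, eval_mul, eval_X, eval_C]
      rw [hc.root hi]
      have h1 := hc.deriv_sign hi
      have h2 : (derivative (lag b N)).eval (c i) ≠ 0 := by
        intro h0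
        rw [h0, mul_zero] at h1
        exact lt_irrefl _ h1
      have h3 := hc0 i hi
      have h4 : 0 < (derivative (lag b N)).eval (c i) ^ 2 := by positivity
      nlinarith) hQd hQl hQ0
    refine ⟨d, ⟨lag_lead hb _, hd.2.1, ?_⟩, hd0⟩
    have h1 := hd.2.2
    have h2 : Q.leadingCoeff = ((N : ℝ) + b) * (lag b (N + 1)).leadingCoeff := by
      rw [hQ, leadingCoeff_mul, leadingCoeff_C]
    rw [h2, C_mul, mul_assoc, hQ] at h1
    exact mul_left_cancel₀ (C_ne_zero.2 hNb.ne') h1

end Pool.Agent.R259
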