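import Mathlib
import Pool.Agent.Helper202.Riemann

set_option autoImplicit false

namespace Pool.Agent.R259

open Filter Topology Complex Metric Set Polynomial

/-- Zeros of a nonzero limit of entire functions with zeros in a closed set lie in that set. -/
theorem zeros_limit {S : Set ℂ} (hS : IsClosed S) {F : ℕ → ℂ → ℂ} {f : ℂ → ℂ}
    (hF : ∀ n, Differentiable ℂ (F n)) (hlim : TendstoLocallyUniformlyOn F f atTop univ)
    (hz : ∀ n, ∀ z, F n z = 0 → z ∈ S) (hf : ∃ z, f z ≠ 0) : ∀ z, f z = 0 → z ∈ S := by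
  intro a ha
  by_contra haS
  have h1 := Pool.Agent.Helper202.Riemann.hurwitz (l := atTop) (V := Sᶜ) hS.isOpen_compl
    (F := F) (f := f) (fun n => (hF n).differentiableOn) (hlim.mono (subset_univ _))
    (fun n z hz1 h0 => hz1 (hz n z h0)) haS ha
  have hfd : Differentiable ℂ f := by
    rw [← differentiableOn_univ]
    exact hlim.differentiableOn (Eventually.of_forall fun n => (hF n).differentiableOn) isOpen_univ
  have h2 : AnalyticOnNhd ℂ f univ := hfd.differentiableOn.analyticOnNhd isOpen_univ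
  have h3 := h2.eqOn_zero_of_preconnected_of_eventuallyEq_zero isPreconnected_univ (mem_univ a) h1
  obtain ⟨z, hz2⟩ := hf
  exact hz2 (h3 (mem_univ z))

/-- Dominated coefficientwise convergence gives locally uniform convergence. -/
theorem tlu_poly {p : ℕ → ℝ[X]} {c B : ℕ → ℝ} (hB : ∀ r : ℝ, 0 ≤ r → Summable fun k => B k * r ^ k)
    (hb : ∀ N k, |(p N).coeff k| ≤ B k)
    (hc : ∀ k, Tendsto (fun N => (p N).coeff k) atTop (𝓝 (c k))) :
    TendstoLocallyUniformlyOn (fun N (z : ℂ) => aeval z (p N))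
      (fun z : ℂ => ∑' k, ((c k : ℝ) : ℂ) * z ^ k) atTop univ := by
  have hexp : ∀ (q : ℝ[X]) (z : ℂ), aeval z q = ∑' k, ((q.coeff k : ℝ) : ℂ) * z ^ k := by
    intro q z
    rw [aeval_eq_sum_range, tsum_eq_sum (s := Finset.range (q.natDegree + 1))]
    · refine Finset.sum_congr rfl fun k _ => ?_
      rw [Complex.real_smul]
    · intro k hk
      rw [Finset.mem_range, not_lt] at hk
      rw [coeff_eq_zero_of_natDegree_lt (by omega)]
      simp
  rw [← Metric.iUnion_ball_nat (0 : ℂ)]
  refine tendstoLocallyUniformlyOn_iUnion (fun n => isOpen_ball) fun n => ?_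
  have hterm : ∀ N k, ∀ z ∈ ball (0 : ℂ) n, ‖(((p N).coeff k : ℝ) : ℂ) * z ^ k‖ ≤ B k * (n : ℝ) ^ k := by
    intro N k z hz
    rw [norm_mul, norm_pow, Complex.norm_real, Real.norm_eq_abs]
    have h1 : ‖z‖ ≤ n := (mem_ball_zero_iff.1 hz).le
    have h2 := hb N k
    have h3 : 0 ≤ B k := (abs_nonneg _).trans h2
    gcongr
  refine Pool.Agent.Helper202.Riemann.tlu_of_pointwise (M := ∑' k, B k * (n : ℝ) ^ k) isOpen_ball
    (fun N => (Polynomial.differentiable_aeval _).differentiableOn) ?_ ?_
  · intro N z hz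
    rw [hexp]
    exact tsum_of_norm_bounded (hB n (Nat.cast_nonneg n)).hasSum (hterm N · z hz)
  · intro z hz
    have : ∀ N, aeval z (p N) = ∑' k, (((p N).coeff k : ℝ) : ℂ) * z ^ k := fun N => hexp _ _
    simp_rw [this]
    refine tendsto_tsum_of_dominated_convergence (hB n (Nat.cast_nonneg n)) ?_
      (Eventually.of_forall fun N k => hterm N k z hz)
    intro k
    exact ((Complex.continuous_ofReal.tendsto _).comp (hc k)).mul_const _

end Pool.Agent.R259
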