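import Mathlib
import Pool.Agent.R259.Lag
import Pool.Agent.R259.Lim

set_option autoImplicit false

namespace Pool.Agent.R259

open Filter Topology Polynomial

/-- rescaled polynomials, with limit `∑ x^m / (m! (b)_m)` -/
noncomputable def jn (b : ℝ) (N : ℕ) : ℝ[X] := (lag b N).comp (C ((N : ℝ)⁻¹) * X)

lemma jn_coeff (b : ℝ) (N m : ℕ) :
    (jn b N).coeff m = (N.choose m : ℝ) / poch b m * ((N : ℝ)⁻¹) ^ m := by
  rw [jn, comp_C_mul_X_coeff, lag_coeff]

lemma jn_fac {b : ℝ} (hb : 0 < b) {N : ℕ} (hN : 0 < N) :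
    ∃ c, Fac (jn b N) N c ∧ ∀ i < N, c i < 0 := by
  obtain ⟨c, hc, h0⟩ := lag_fac hb N
  have hs : 0 < (N : ℝ)⁻¹ := by positivity
  exact ⟨_, hc.scale hs, fun i hi => div_neg_of_neg_of_pos (h0 i hi) hs⟩

/-- limiting coefficients -/
noncomputable def jc (b : ℝ) (m : ℕ) : ℝ := 1 / (m.factorial * poch b m)

lemma jc_pos {b : ℝ} (hb : 0 < b) (m : ℕ) : 0 < jc b m := by
  have := poch_pos hb m
  unfold jc; positivity

lemma jc_succ {b : ℝ} (hb : 0 < b) (m : ℕ) : jc b m = (m + 1) * (b + m) * jc b (m + 1) := by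
  have h1 := poch_pos hb m
  have h2 : 0 < b + m := by positivity
  unfold jc
  rw [poch_succ, Nat.factorial_succ]
  push_cast
  field_simp

lemma jn_coeff_nonneg {b : ℝ} (hb : 0 < b) (N m : ℕ) : 0 ≤ (jn b N).coeff m := by
  rw [jn_coeff]
  have := poch_pos hb m
  positivity

lemma jn_coeff_le {b : ℝ} (hb : 0 < b) (N m : ℕ) : (jn b N).coeff m ≤ jc b m := by
  rw [jn_coeff, jc]
  have h1 := poch_pos hb m
  have h2 := Nat.choose_le_pow_div (α := ℝ) m N
  have h3 : (0 : ℝ) ≤ ((N : ℝ)⁻¹) ^ m := by positivity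
  have h4 : ((N : ℝ) ^ m) * ((N : ℝ)⁻¹) ^ m ≤ 1 := by
    rw [← mul_pow]
    apply pow_le_one₀
    · positivity
    · exact mul_inv_le_one
  have h5 : (0 : ℝ) < m.factorial := by positivity
  rw [div_mul_eq_mul_div, div_le_div_iff₀ h1 (by positivity), one_mul]
  calc (N.choose m : ℝ) * ((N : ℝ)⁻¹) ^ m * (m.factorial * poch b m)
      ≤ ((N : ℝ) ^ m / m.factorial) * ((N : ℝ)⁻¹) ^ m * (m.factorial * poch b m) := by gcongr
    _ = (((N : ℝ) ^ m) * ((N : ℝ)⁻¹) ^ m) * poch b m := by field_simp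
    _ ≤ 1 * poch b m := by gcongr
    _ = poch b m := one_mul _

lemma jn_coeff_tendsto (b : ℝ) (m : ℕ) :
    Tendsto (fun N => (jn b N).coeff m) atTop (𝓝 (jc b m)) := by
  have h1 : Tendsto (fun n : ℕ => (n : ℝ) * (n : ℝ)⁻¹) atTop (𝓝 1) := by
    refine tendsto_const_nhds.congr' ?_
    filter_upwards [eventually_gt_atTop 0] with n hn
    have : (n : ℝ) ≠ 0 := by positivity
    field_simp
  have h2 := ProbabilityTheory.tendsto_choose_mul_pow_atTop m h1
  have h3 := h2.div_const (poch b m)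
  have h4 : (1 : ℝ) ^ m / m.factorial / poch b m = jc b m := by
    rw [one_pow, jc, div_div]
  rw [h4] at h3
  refine h3.congr fun N => ?_
  rw [jn_coeff]; ring

/-- ratio of consecutive coefficients -/
lemma jn_ratio {b : ℝ} (hb : 0 < b) {N : ℕ} (hN : 0 < N) (m : ℕ) :
    (m + 1) * (b + m) * (jn b N).coeff (m + 1) = (1 - m / N) * (jn b N).coeff m := by
  rw [jn_coeff, jn_coeff, poch_succ]
  have h1 := poch_pos hb m
  have h2 : 0 < b + m := by positivity
  have h3 := choose_rel N m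
  have h4 : (0 : ℝ) < N := by exact_mod_cast hN
  have h5 : (N.choose (m + 1) : ℝ) = ((N : ℝ) - m) * (N.choose m : ℝ) / (m + 1) := by
    rw [h3]; field_simp
  rw [h5, pow_succ]
  field_simp

lemma jn_ratio_le {b : ℝ} (hb : 0 < b) {N : ℕ} (hN : 0 < N) (m : ℕ) :
    (m + 1) * (b + m) * (jn b N).coeff (m + 1) ≤ (jn b N).coeff m := by
  rw [jn_ratio hb hN]
  have h1 := jn_coeff_nonneg hb N m
  have h2 : (0 : ℝ) ≤ (m : ℝ) / N := by positivity
  nlinarith

lemma jn_coeff_zero (b : ℝ) (N : ℕ) : (jn b N).coeff 0 = 1 := by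
  rw [jn_coeff]; simp [poch_zero]

/-- the operator `P ↦ (α₁ X + α₀) X P' + (β₁ X + β₀) P` -/
noncomputable def op (a1 a0 b1 b0 : ℝ) (P : ℝ[X]) : ℝ[X] :=
  (C a1 * X + C a0) * (X * derivative P) + (C b1 * X + C b0) * P

lemma coeff_X_deriv (P : ℝ[X]) (m : ℕ) : (X * derivative P).coeff m = m * P.coeff m := by
  rcases m with _ | m
  · simp
  · rw [coeff_X_mul, coeff_derivative]; push_cast; ring

lemma op_coeff_zero (a1 a0 b1 b0 : ℝ) (P : ℝ[X]) : (op a1 a0 b1 b0 P).coeff 0 = b0 * P.coeff 0 := by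
  rw [op, add_mul, add_mul, coeff_add, coeff_add, coeff_add, mul_assoc (C a1), mul_assoc (C b1),
    coeff_C_mul, coeff_C_mul, coeff_C_mul, coeff_C_mul, coeff_X_mul_zero, coeff_X_mul_zero,
    coeff_X_mul_zero]
  ring

lemma op_coeff_succ (a1 a0 b1 b0 : ℝ) (P : ℝ[X]) (m : ℕ) : (op a1 a0 b1 b0 P).coeff (m + 1) =
    (a1 * m + b1) * P.coeff m + (a0 * (m + 1) + b0) * P.coeff (m + 1) := by
  rw [op, add_mul, add_mul, coeff_add, coeff_add, coeff_add, mul_assoc (C a1), mul_assoc (C b1),
    coeff_C_mul, coeff_C_mul, coeff_C_mul, coeff_C_mul, coeff_X_mul (X * derivative P),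
    coeff_X_deriv, coeff_X_deriv, coeff_X_mul P]
  push_cast
  ring

lemma op_natDegree (a1 a0 b1 b0 : ℝ) {P : ℝ[X]} {n : ℕ} (hP : P.natDegree ≤ n) :
    (op a1 a0 b1 b0 P).natDegree ≤ n + 1 := by
  rw [natDegree_le_iff_coeff_eq_zero]
  intro m hm
  obtain ⟨k, rfl⟩ : ∃ k, m = k + 1 := ⟨m - 1, by omega⟩
  rw [op_coeff_succ, coeff_eq_zero_of_natDegree_lt (by omega : P.natDegree < k),
    coeff_eq_zero_of_natDegree_lt (by omega : P.natDegree < k + 1)]
  ring

lemma op_eval (a1 a0 b1 b0 : ℝ) (P : ℝ[X]) (x : ℝ) : (op a1 a0 b1 b0 P).eval x =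
    (a1 * x + a0) * (x * (derivative P).eval x) + (b1 * x + b0) * P.eval x := by
  simp [op]

/-- coefficients of the limit of `op (jn b N)` -/
noncomputable def oc (a1 a0 b1 b0 b : ℝ) : ℕ → ℝ
  | 0 => b0
  | (m + 1) => (a1 * m + b1) * jc b m + (a0 * (m + 1) + b0) * jc b (m + 1)

lemma poch_ge {b : ℝ} (hb : 1 / 2 ≤ b) (m : ℕ) : 1 / 2 ≤ poch b m := by
  rcases m with _ | m
  · rw [poch_zero]; norm_num
  · induction m with
    | zero => rw [poch_succ, poch_zero]; simpa using hb
    | succ m ih =>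
      rw [poch_succ]
      have h2 : (0 : ℝ) ≤ m := Nat.cast_nonneg m
      have h1 : (1 : ℝ) ≤ b + ((m + 1 : ℕ) : ℝ) := by
        push_cast
        linarith
      nlinarith

lemma jc_le {b : ℝ} (hb : 1 / 2 ≤ b) (m : ℕ) : jc b m ≤ 2 / m.factorial := by
  have h1 := poch_ge hb m
  have h2 : (0 : ℝ) < m.factorial := by positivity
  unfold jc
  rw [div_le_div_iff₀ (by positivity) h2]
  nlinarith

/-- convergence of the images of the operator -/
theorem op_tlu {b : ℝ} (hb : 1 / 2 ≤ b) (a1 a0 b1 b0 : ℝ) (K : ℕ) :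
    TendstoLocallyUniformlyOn (fun N (z : ℂ) => aeval z (op a1 a0 b1 b0 (jn b (N + K))))
      (fun z : ℂ => ∑' k, ((oc a1 a0 b1 b0 b k : ℝ) : ℂ) * z ^ k) atTop Set.univ := by
  have hb0 : 0 < b := by linarith
  set M : ℝ := |a1| + |a0| + |b1| + |b0| with hM
  have hM0 : 0 ≤ M := by positivity
  refine tlu_poly (B := fun k => 4 * M * (4 ^ k / k.factorial)) ?_ ?_ ?_
  · intro r hr
    have h1 := (Real.summable_pow_div_factorial (4 * r)).mul_left (4 * M)
    refine h1.congr fun k => ?_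
    rw [mul_pow]; ring
  · intro N k
    have hj : ∀ m, |(jn b (N + K)).coeff m| ≤ 2 / m.factorial := by
      intro m
      rw [abs_of_nonneg (jn_coeff_nonneg hb0 _ m)]
      exact (jn_coeff_le hb0 _ m).trans (jc_le hb m)
    rcases k with _ | m
    · rw [op_coeff_zero, jn_coeff_zero]
      have : |b0| ≤ M := by rw [hM]; linarith [abs_nonneg a1, abs_nonneg a0, abs_nonneg b1]
      simp
      linarith
    · rw [op_coeff_succ]
      have h1 := hj m
      have h2 := hj (m + 1)
      have h3 : (2 : ℝ) / (m + 1).factorial ≤ 2 / m.factorial := by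
        apply div_le_div_of_nonneg_left (by norm_num) (by positivity)
        exact_mod_cast Nat.factorial_le (Nat.le_succ m)
      have hm0 : (0 : ℝ) ≤ m := Nat.cast_nonneg m
      have h4 : |a1 * m + b1| + |a0 * (m + 1) + b0| ≤ M * (m + 1) := by
        have e1 := abs_add_le (a1 * m) b1
        have e2 := abs_add_le (a0 * (m + 1)) b0
        rw [abs_mul, abs_of_nonneg hm0] at e1
        rw [abs_mul, abs_of_nonneg (by positivity : (0 : ℝ) ≤ m + 1)] at e2
        rw [hM]
        nlinarith [abs_nonneg a1, abs_nonneg a0, abs_nonneg b1, abs_nonneg b0,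
          mul_nonneg (abs_nonneg b1) hm0, mul_nonneg (abs_nonneg b0) hm0]
      have h5 : |(a1 * m + b1) * (jn b (N + K)).coeff m +
          (a0 * (m + 1) + b0) * (jn b (N + K)).coeff (m + 1)| ≤ M * (m + 1) * (2 / m.factorial) := by
        refine (abs_add_le _ _).trans ?_
        rw [abs_mul, abs_mul]
        calc |a1 * m + b1| * |(jn b (N + K)).coeff m| +
            |a0 * (m + 1) + b0| * |(jn b (N + K)).coeff (m + 1)|
            ≤ |a1 * m + b1| * (2 / m.factorial) + |a0 * (m + 1) + b0| * (2 / m.factorial) := by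
              gcongr
              exact h2.trans h3
          _ = (|a1 * m + b1| + |a0 * (m + 1) + b0|) * (2 / m.factorial) := by ring
          _ ≤ _ := by gcongr
      refine h5.trans ?_
      have h6 : ((m : ℝ) + 1) * (m + 1) ≤ 2 * 4 ^ (m + 1) := by
        have : ((m : ℝ) + 1) ≤ 2 ^ (m + 1) := by
          have := Nat.lt_two_pow_self (n := m + 1)
          exact_mod_cast this.le
        calc ((m : ℝ) + 1) * (m + 1) ≤ 2 ^ (m + 1) * 2 ^ (m + 1) := by gcongr
          _ = 4 ^ (m + 1) := by rw [← mul_pow]; norm_num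
          _ ≤ _ := by
            have : (0 : ℝ) < 4 ^ (m + 1) := by positivity
            linarith
      rw [Nat.factorial_succ]
      push_cast
      have h7 : (0 : ℝ) < m.factorial := by positivity
      rw [show 4 * M * (4 ^ (m + 1) / (((m : ℝ) + 1) * m.factorial)) =
        (M * (4 * 4 ^ (m + 1))) / ((m + 1) * m.factorial) by ring, show M * ((m : ℝ) + 1) * (2 / m.factorial)
        = M * (2 * (m + 1)) / m.factorial by ring, div_le_div_iff₀ h7 (by positivity)]
      have h8 : M * (2 * (m + 1)) * ((m + 1) * m.factorial) =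
          (M * m.factorial) * (2 * ((m + 1) * (m + 1))) := by ring
      have h9 : M * (4 * 4 ^ (m + 1)) * m.factorial = (M * m.factorial) * (2 * (2 * 4 ^ (m + 1))) := by
        ring
      rw [h8, h9]
      gcongr
  · intro k
    have hj : ∀ m, Tendsto (fun N => (jn b (N + K)).coeff m) atTop (𝓝 (jc b m)) := fun m =>
      (jn_coeff_tendsto b m).comp (tendsto_add_atTop_nat K)
    rcases k with _ | m
    · simp_rw [op_coeff_zero, jn_coeff_zero]
      simp [oc]
    · simp_rw [op_coeff_succ]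
      exact ((hj m).const_mul _).add ((hj (m + 1)).const_mul _)

/-- sign pattern lemma: all zeros real, the largest between `e1` and `e2` -/
theorem Fac.step2 {P Q : ℝ[X]} {n : ℕ} {c : ℕ → ℝ} (h : Fac P n c) {e1 e2 : ℝ}
    (he : e1 < e2) (hc : ∀ i < n, c i < e1)
    (hQ : ∀ i < n, 0 < Q.eval (c i) * P.derivative.eval (c i)) (hQd : Q.natDegree ≤ n + 1)
    (hQ1 : Q.eval e1 < 0) (hQ2 : 0 < Q.eval e2) :
    ∃ d, Fac Q (n + 1) d ∧ ∀ i < n + 1, d i < e2 := by
  set x : ℕ → ℝ := fun i => if i < n then c i else if i = n then e1 else e2 with hx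
  have hxm : ∀ i, i < n → x i = c i := by
    intro i hi
    simp only [hx, if_pos hi]
  have hx1 : x n = e1 := by simp [hx]
  have hx2 : x (n + 1) = e2 := by simp [hx]
  obtain ⟨d, hd1, hd2⟩ := alt_roots (P := Q) (n := n + 1) hQd (x := x) (by
    intro i hi
    rcases Nat.lt_or_ge (i + 1) n with h1 | h1
    · rw [hxm i (by omega), hxm (i + 1) h1]
      exact h.2.1 i (i + 1) (Nat.lt_succ_self i) h1
    · rcases Nat.lt_or_ge i n with h2 | h2
      · have : i + 1 = n := by omega
        rw [this, hx1, hxm i h2]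
        exact hc i h2
      · have : i = n := by omega
        rw [this, hx1, hx2]
        exact he) (by
    intro i hi
    rcases Nat.lt_or_ge i n with h1 | h1
    · rw [hxm i h1]
      have h2 := h.deriv_sign h1
      have h3 := hQ i h1
      have e1 : n + 1 - i = (n - 1 - i) + 2 := by omega
      rw [e1, pow_add]
      set s := (-1 : ℝ) ^ (n - 1 - i)
      have hs : s * s = 1 := by
        simp only [s]
        rw [← mul_pow]; simp
      have hq : (s * (-1) ^ 2 * Q.eval (c i)) * (s * P.derivative.eval (c i)) > 0 := by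
        have : (s * (-1) ^ 2 * Q.eval (c i)) * (s * P.derivative.eval (c i)) =
            (Q.eval (c i) * P.derivative.eval (c i)) * (s * s) := by ring
        rw [this, hs]
        linarith
      exact pos_of_mul_pos_left hq h2.le
    · rcases Nat.lt_or_ge n i with h2 | h2
      · have : i = n + 1 := by omega
        rw [this, hx2]; simpa using hQ2
      · have : i = n := by omega
        rw [this, hx1]
        simp
        exact hQ1)
  refine ⟨d, hd2, fun i hi => ?_⟩
  have h1 := (hd1 i hi).2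
  rcases Nat.lt_or_ge (i + 1) n with h2 | h2
  · rw [hxm _ h2] at h1
    exact h1.trans ((hc _ h2).trans he)
  · rcases Nat.lt_or_ge i n with h3 | h3
    · have : i + 1 = n := by omega
      rw [this, hx1] at h1
      exact h1.trans he
    · have : i = n := by omega
      rw [this, hx2] at h1
      rw [this]; exact h1

/-- four terms of an alternating sum -/
lemma alt4 {t : ℕ → ℝ} (h0 : ∀ m, 0 ≤ t m) (ha : ∀ m, 4 ≤ m → t (m + 1) ≤ t m) (K : ℕ) :
    t 0 - t 1 + t 2 - t 3 ≤ ∑ m ∈ Finset.range (K + 4), (-1 : ℝ) ^ m * t m := by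
  have h1 := alt_sum (t := fun m => t (m + 4)) (fun m => h0 _) (fun m => by
    have := ha (m + 4) (by omega)
    convert this using 2) K
  rw [Finset.sum_range_succ', Finset.sum_range_succ', Finset.sum_range_succ', Finset.sum_range_succ']
  have h2 : ∑ m ∈ Finset.range K, (-1 : ℝ) ^ (m + 1 + 1 + 1 + 1) * t (m + 1 + 1 + 1 + 1) =
      ∑ m ∈ Finset.range K, (-1 : ℝ) ^ m * t (m + 4) := by
    refine Finset.sum_congr rfl fun m _ => ?_
    rw [show m + 1 + 1 + 1 + 1 = m + 4 by ring, pow_add]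
    norm_num
  rw [h2]
  norm_num
  linarith [h1.1]

end Pool.Agent.R259
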