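import Mathlib
import Pool.Agent.R259.Lim
import Pool.Agent.R259.Alt

set_option autoImplicit false

namespace Pool.Agent.R259

open Filter Topology Polynomial

lemma splits_derivative {P : ℝ[X]} (h : P.Splits) : P.derivative.Splits := by
  rcases Nat.eq_zero_or_pos P.natDegree with h0 | h0
  · rw [natDegree_eq_zero.1 h0 |>.choose_spec.symm, derivative_C]
    exact Splits.zero
  · rw [splits_iff_card_roots] at h ⊢
    have h1 := card_roots_le_derivative P
    have h2 : P.derivative.natDegree ≤ P.natDegree - 1 := natDegree_derivative_le _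
    have h3 := card_roots' P.derivative
    omega

lemma Fac.splits {P : ℝ[X]} {n : ℕ} {c : ℕ → ℝ} (h : Fac P n c) : P.Splits := by
  rw [h.2.2]
  exact (Splits.C _).mul (Splits.prod fun i _ => Splits.X_sub_C _)

/-- product form over a multiset -/
lemma mset_bound (s : Multiset ℝ) (x : ℝ) (h : (s.map fun a => X - C a).prod.eval x ≠ 0) :
    ∃ S T : ℝ, (derivative (s.map fun a => X - C a).prod).eval x =
        (s.map fun a => X - C a).prod.eval x * S ∧
      (derivative (derivative (s.map fun a => X - C a).prod)).eval x =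
        (s.map fun a => X - C a).prod.eval x * (S ^ 2 - T) ∧
      ∀ w : ℂ, ‖aeval ((x : ℂ) + w) (s.map fun a => X - C a).prod‖ ^ 2 ≤
        ((s.map fun a => X - C a).prod.eval x) ^ 2 * Real.exp (2 * w.re * S + ‖w‖ ^ 2 * T) := by
  induction s using Multiset.induction_on with
  | empty =>
    refine ⟨0, 0, ?_, ?_, ?_⟩ <;> simp
  | cons a s ih =>
    rw [Multiset.map_cons, Multiset.prod_cons] at h ⊢
    set Q := (s.map fun a => X - C a).prod with hQ
    rw [eval_mul] at h
    obtain ⟨S, T, h1, h2, h3⟩ := ih (right_ne_zero_of_mul h)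
    have hd : x - a ≠ 0 := by
      have := left_ne_zero_of_mul h
      simpa using this
    refine ⟨S + (x - a)⁻¹, T + (x - a)⁻¹ ^ 2, ?_, ?_, ?_⟩
    · rw [derivative_mul]
      simp only [eval_add, eval_mul, derivative_sub, derivative_X, derivative_C, eval_sub, eval_X,
        eval_C, eval_one, eval_zero, h1]
      field_simp
      ring
    · rw [derivative_mul, derivative_add, derivative_mul, derivative_mul]
      simp only [eval_add, eval_mul, derivative_sub, derivative_X, derivative_C, eval_sub, eval_X,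
        eval_C, eval_one, eval_zero, h1, h2, derivative_one, derivative_zero]
      field_simp
      ring
    · intro w
      rw [map_mul, norm_mul, mul_pow, eval_mul, mul_pow]
      have e1 : ‖aeval ((x : ℂ) + w) (X - C a)‖ ^ 2 ≤
          (eval x (X - C a)) ^ 2 * Real.exp (2 * w.re * (x - a)⁻¹ + ‖w‖ ^ 2 * (x - a)⁻¹ ^ 2) := by
        have e2 : aeval ((x : ℂ) + w) (X - C a) = ((x - a : ℝ) : ℂ) + w := by
          simp; ring
        have e3 : ‖((x - a : ℝ) : ℂ) + w‖ ^ 2 = (x - a) ^ 2 + 2 * (x - a) * w.re + ‖w‖ ^ 2 := by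
          rw [← Complex.normSq_eq_norm_sq, ← Complex.normSq_eq_norm_sq, Complex.normSq_apply,
            Complex.normSq_apply]
          simp
          ring
        rw [e2, e3]
        have e4 : eval x (X - C a) = x - a := by simp
        rw [e4]
        have e5 := Real.add_one_le_exp (2 * w.re * (x - a)⁻¹ + ‖w‖ ^ 2 * (x - a)⁻¹ ^ 2)
        have e6 : 0 < (x - a) ^ 2 := by positivity
        calc (x - a) ^ 2 + 2 * (x - a) * w.re + ‖w‖ ^ 2
            = (x - a) ^ 2 * (2 * w.re * (x - a)⁻¹ + ‖w‖ ^ 2 * (x - a)⁻¹ ^ 2 + 1) := by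
              field_simp
              ring
          _ ≤ _ := by gcongr
      calc ‖aeval ((x : ℂ) + w) (X - C a)‖ ^ 2 * ‖aeval ((x : ℂ) + w) Q‖ ^ 2
          ≤ ((eval x (X - C a)) ^ 2 * Real.exp (2 * w.re * (x - a)⁻¹ + ‖w‖ ^ 2 * (x - a)⁻¹ ^ 2)) *
            ((eval x Q) ^ 2 * Real.exp (2 * w.re * S + ‖w‖ ^ 2 * T)) := by
              gcongr
              exact h3 w
        _ = (eval x (X - C a)) ^ 2 * (eval x Q) ^ 2 *
            (Real.exp (2 * w.re * (x - a)⁻¹ + ‖w‖ ^ 2 * (x - a)⁻¹ ^ 2) *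
              Real.exp (2 * w.re * S + ‖w‖ ^ 2 * T)) := by ring
        _ = _ := by
          rw [← Real.exp_add]
          congr 2
          ring

/-- growth bound for real-rooted polynomials -/
theorem splits_bound {P : ℝ[X]} (h : P.Splits) {x : ℝ} (hx : P.eval x ≠ 0) (w : ℂ) :
    ‖aeval ((x : ℂ) + w) P‖ ^ 2 ≤ (P.eval x) ^ 2 *
      Real.exp (2 * w.re * (P.derivative.eval x / P.eval x) + ‖w‖ ^ 2 *
        ((P.derivative.eval x / P.eval x) ^ 2 - P.derivative.derivative.eval x / P.eval x)) := by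
  have hfac := C_leadingCoeff_mul_prod_multiset_X_sub_C (splits_iff_card_roots.1 h)
  set Q := (P.roots.map fun a => X - C a).prod with hQ
  set a := P.leadingCoeff
  have hP : P = C a * Q := hfac.symm
  have ha : a ≠ 0 := by
    intro h0
    rw [hP, h0] at hx; simp at hx
  have hQx : Q.eval x ≠ 0 := by
    intro h0
    rw [hP, eval_mul, h0, mul_zero] at hx
    exact hx rfl
  obtain ⟨S, T, h1, h2, h3⟩ := mset_bound P.roots x hQx
  rw [← hQ] at h1 h2 h3
  have e1 : P.derivative.eval x / P.eval x = S := by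
    rw [hP, derivative_C_mul, eval_mul, eval_C, eval_mul, eval_C, h1]
    field_simp
  have e2 : P.derivative.derivative.eval x / P.eval x = S ^ 2 - T := by
    rw [hP, derivative_C_mul, derivative_C_mul, eval_mul, eval_C, eval_mul, eval_C, h2]
    field_simp
  rw [e1, e2]
  have e3 : S ^ 2 - (S ^ 2 - T) = T := by ring
  rw [e3]
  conv_lhs => rw [hP]
  rw [map_mul, norm_mul, mul_pow, aeval_C]
  have e4 : ‖(algebraMap ℝ ℂ) a‖ ^ 2 = a ^ 2 := by simp
  have e5 : (P.eval x) ^ 2 = a ^ 2 * (Q.eval x) ^ 2 := by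
    rw [hP, eval_mul, eval_C, mul_pow]
  rw [e4, e5, mul_assoc]
  have := h3 w
  gcongr

/-- `F` is a locally uniform limit of the real-rooted polynomials `P N` -/
def LPL (F : ℂ → ℂ) (P : ℕ → ℝ[X]) : Prop :=
  (∀ N, (P N).Splits) ∧
    TendstoLocallyUniformlyOn (fun N (z : ℂ) => aeval z (P N)) F atTop Set.univ

lemma LPL.differentiable {F : ℂ → ℂ} {P : ℕ → ℝ[X]} (h : LPL F P) : Differentiable ℂ F := by
  rw [← differentiableOn_univ]
  exact h.2.differentiableOn (Eventually.of_forall fun n =>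
    (Polynomial.differentiable_aeval _).differentiableOn) isOpen_univ

lemma LPL.deriv {F : ℂ → ℂ} {P : ℕ → ℝ[X]} (h : LPL F P) :
    LPL (deriv F) (fun N => derivative (P N)) := by
  refine ⟨fun N => splits_derivative (h.1 N), ?_⟩
  have h1 := h.2.deriv (Eventually.of_forall fun n =>
    (Polynomial.differentiable_aeval (P n)).differentiableOn) isOpen_univ
  refine h1.congr fun N z _ => ?_
  simp only [Function.comp]
  exact Polynomial.deriv_aeval _

lemma LPL.iter {F : ℂ → ℂ} {P : ℕ → ℝ[X]} (h : LPL F P) (k : ℕ) :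
    LPL (iteratedDeriv k F) (fun N => derivative^[k] (P N)) := by
  induction k with
  | zero => simpa [iteratedDeriv_zero] using h
  | succ k ih =>
    have := ih.deriv
    rw [iteratedDeriv_succ]
    simp_rw [Function.iterate_succ_apply']
    exact this

lemma LPL.tendsto {F : ℂ → ℂ} {P : ℕ → ℝ[X]} (h : LPL F P) (z : ℂ) :
    Tendsto (fun N => aeval z (P N)) atTop (𝓝 (F z)) :=
  h.2.tendsto_at (Set.mem_univ z)

lemma aeval_real (P : ℝ[X]) (x : ℝ) : aeval (x : ℂ) P = ((P.eval x : ℝ) : ℂ) := by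
  rw [← Complex.coe_algebraMap, aeval_algebraMap_apply, coe_aeval_eq_eval]

lemma LPL.tendsto_re {F : ℂ → ℂ} {P : ℕ → ℝ[X]} (h : LPL F P) (x : ℝ) :
    Tendsto (fun N => (P N).eval x) atTop (𝓝 (F x).re) := by
  have h1 := (Complex.continuous_re.tendsto _).comp (h.tendsto x)
  refine h1.congr fun N => ?_
  simp only [Function.comp, aeval_real, Complex.ofReal_re]

lemma LPL.real {F : ℂ → ℂ} {P : ℕ → ℝ[X]} (h : LPL F P) (x : ℝ) : F x = ((F x).re : ℂ) := by
  have h1 := h.tendsto x
  have h2 := (Complex.continuous_ofReal.tendsto _).comp (h.tendsto_re x)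
  refine tendsto_nhds_unique h1 (h2.congr fun N => ?_)
  simp only [Function.comp, aeval_real]

/-- the growth bound in the limit -/
theorem LPL.bound {F : ℂ → ℂ} {P : ℕ → ℝ[X]} (h : LPL F P) {x : ℝ} (hx : F x ≠ 0) (w : ℂ) :
    ‖F ((x : ℂ) + w)‖ ^ 2 ≤ (F x).re ^ 2 *
      Real.exp (2 * w.re * ((_root_.deriv F x).re / (F x).re) + ‖w‖ ^ 2 *
        (((_root_.deriv F x).re / (F x).re) ^ 2 - (_root_.deriv (_root_.deriv F) x).re / (F x).re)) := by
  have hx' : (F x).re ≠ 0 := by
    intro h0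
    rw [h.real x, h0] at hx
    exact hx (by simp)
  have t0 := h.tendsto_re x
  have t1 := h.deriv.tendsto_re x
  have t2 := h.deriv.deriv.tendsto_re x
  have tl : Tendsto (fun N => ‖aeval ((x : ℂ) + w) (P N)‖ ^ 2) atTop (𝓝 (‖F ((x : ℂ) + w)‖ ^ 2)) :=
    (h.tendsto _).norm.pow 2
  refine le_of_tendsto_of_tendsto tl ?_ ?_ (g := fun N => ((P N).eval x) ^ 2 *
      Real.exp (2 * w.re * ((P N).derivative.eval x / (P N).eval x) + ‖w‖ ^ 2 *
        (((P N).derivative.eval x / (P N).eval x) ^ 2 -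
          (P N).derivative.derivative.eval x / (P N).eval x)))
  · have a1 := t1.div t0 hx'
    have a2 := t2.div t0 hx'
    exact (t0.pow 2).mul ((Real.continuous_exp.tendsto _).comp
      ((a1.const_mul _).add (((a1.pow 2).sub a2).const_mul _)))
  · filter_upwards [t0.eventually_ne hx'] with N hN
    exact splits_bound (h.1 N) hN w

/-- At a critical point where `F ≠ 0` and `F` is not constant, `F'' / F < 0`. -/
theorem LPL.crit {F : ℂ → ℂ} {P : ℕ → ℝ[X]} (h : LPL F P) {x : ℝ} (hx : F x ≠ 0)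
    (hd : _root_.deriv F x = 0) (hnc : ∃ z, _root_.deriv F z ≠ 0) :
    (F x).re * (_root_.deriv (_root_.deriv F) x).re < 0 := by
  have hx' : (F x).re ≠ 0 := by
    intro h0
    rw [h.real x, h0] at hx
    exact hx (by simp)
  by_contra hcon
  rw [not_lt] at hcon
  have h2 : 0 ≤ (_root_.deriv (_root_.deriv F) x).re / (F x).re := by
    rw [div_nonneg_iff]
    rcases mul_nonneg_iff.1 hcon with h3 | h3
    · exact Or.inl ⟨h3.2, h3.1⟩
    · exact Or.inr ⟨h3.2, h3.1⟩
  have hb : ∀ z, ‖F z‖ ≤ |(F x).re| := by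
    intro z
    have h3 := h.bound hx (z - x)
    rw [hd] at h3
    simp only [Complex.zero_re, zero_div, mul_zero, zero_add] at h3
    rw [add_sub_cancel] at h3
    have h4 : Real.exp (‖z - x‖ ^ 2 * (0 ^ 2 - (_root_.deriv (_root_.deriv F) x).re / (F x).re)) ≤ 1 := by
      rw [Real.exp_le_one_iff]
      nlinarith [sq_nonneg ‖z - x‖]
    have h5 : ‖F z‖ ^ 2 ≤ (F x).re ^ 2 := by
      nlinarith [sq_nonneg (F x).re]
    rw [← sq_abs (F x).re] at h5
    exact (pow_le_pow_iff_left₀ (norm_nonneg _) (abs_nonneg _) two_ne_zero).1 h5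
  have hc : ∀ z w, F z = F w := fun z w => h.differentiable.apply_eq_apply_of_bounded
    ((isBounded_iff_forall_norm_le.2 ⟨|(F x).re|, by rintro _ ⟨z, rfl⟩; exact hb z⟩)) z w
  obtain ⟨z, hz⟩ := hnc
  apply hz
  have : F = fun _ => F z := by ext w; exact hc w z
  rw [this]
  simp

/-- value of iterated derivatives at `0` -/
lemma LPL.iter_zero {F : ℂ → ℂ} {P : ℕ → ℝ[X]} (h : LPL F P) (k : ℕ) {q : ℝ}
    (hq : Tendsto (fun N => (P N).coeff k) atTop (𝓝 q)) :
    iteratedDeriv k F 0 = ((k.factorial * q : ℝ) : ℂ) := by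
  have h1 := (h.iter k).tendsto_re 0
  have h2 : Tendsto (fun N => (derivative^[k] (P N)).eval 0) atTop (𝓝 (k.factorial * q)) := by
    refine (hq.const_mul _).congr fun N => ?_
    rw [← coeff_zero_eq_eval_zero, coeff_iterate_derivative]
    simp [Nat.descFactorial_self]
  have h3 := tendsto_nhds_unique h1 h2
  have h4 := (h.iter k).real 0
  rw [h3] at h4
  simpa using h4

/-- real restriction and iterated derivatives -/
lemma LPL.iter_real {F : ℂ → ℂ} {P : ℕ → ℝ[X]} (h : LPL F P) {f : ℝ → ℝ}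
    (hf : ∀ x : ℝ, f x = (F x).re) (k : ℕ) (x : ℝ) :
    iteratedDeriv k f x = (iteratedDeriv k F x).re := by
  induction k generalizing x with
  | zero => simpa [iteratedDeriv_zero] using hf x
  | succ k ih =>
    rw [iteratedDeriv_succ, iteratedDeriv_succ]
    have h1 : iteratedDeriv k f = fun x : ℝ => (iteratedDeriv k F x).re := by
      ext x; exact ih x
    rw [h1]
    have h2 : HasDerivAt (iteratedDeriv k F) (_root_.deriv (iteratedDeriv k F) x) (x : ℂ) :=
      ((h.iter k).differentiable x).hasDerivAt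
    exact h2.real_of_complex.deriv

/-- No critical zeros of derivatives. -/
theorem LPL.no_crit {F : ℂ → ℂ} {P : ℕ → ℝ[X]} (h : LPL F P) {f : ℝ → ℝ}
    (hf : ∀ x : ℝ, f x = (F x).re) (hn : ∀ k, iteratedDeriv k F 0 ≠ 0) {l : ℕ} (x : ℝ)
    (h0 : iteratedDeriv (l + 1) f x = 0) (h1 : iteratedDeriv l f x ≠ 0) :
    iteratedDeriv l f x * iteratedDeriv (l + 2) f x < 0 := by
  rw [h.iter_real hf] at h0 h1
  rw [h.iter_real hf, h.iter_real hf]
  have hl := h.iter l
  have e1 : iteratedDeriv (l + 1) F = _root_.deriv (iteratedDeriv l F) := iteratedDeriv_succ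
  have e2 : iteratedDeriv (l + 2) F = _root_.deriv (_root_.deriv (iteratedDeriv l F)) := by
    rw [iteratedDeriv_succ, e1]
  rw [e2]
  apply hl.crit
  · intro h2
    rw [h2] at h1
    exact h1 rfl
  · have h3 := (h.iter (l + 1)).real x
    rw [h0] at h3
    rw [← e1, h3]; simp
  · refine ⟨0, ?_⟩
    rw [← e1]
    exact hn _

end Pool.Agent.R259
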