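import Mathlib
import Pool.Agent.R259.Bes
import Pool.Agent.R259.LP

set_option autoImplicit false

namespace Pool.Agent.R259

open Filter Topology Polynomial

lemma jn_natDegree_le (b : ℝ) (N : ℕ) : (jn b N).natDegree ≤ N := by
  rw [natDegree_le_iff_coeff_eq_zero]
  intro m hm
  rw [jn_coeff, Nat.choose_eq_zero_of_lt hm]; simp

lemma jn_eval_neg (b : ℝ) (N : ℕ) (y : ℝ) : (jn b N).eval (-y) =
    ∑ m ∈ Finset.range (N + 1), (-1 : ℝ) ^ m * ((jn b N).coeff m * y ^ m) := by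
  rw [eval_eq_sum_range' (Nat.lt_succ_of_le (jn_natDegree_le b N))]
  refine Finset.sum_congr rfl fun m _ => ?_
  rw [neg_eq_neg_one_mul, mul_pow]; ring

lemma jn_deriv_eval_neg (b : ℝ) (N : ℕ) (y : ℝ) : y * (derivative (jn b N)).eval (-y) =
    - ∑ m ∈ Finset.range (N + 1), (-1 : ℝ) ^ m * (m * ((jn b N).coeff m * y ^ m)) := by
  have h1 : (X * derivative (jn b N)).natDegree < N + 1 := by
    apply Nat.lt_succ_of_le
    rw [natDegree_le_iff_coeff_eq_zero]
    intro m hm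
    rw [coeff_X_deriv, coeff_eq_zero_of_natDegree_lt (lt_of_le_of_lt (jn_natDegree_le b N) hm)]
    simp
  have h2 : (X * derivative (jn b N)).eval (-y) =
      ∑ m ∈ Finset.range (N + 1), (-1 : ℝ) ^ m * (m * ((jn b N).coeff m * y ^ m)) := by
    rw [eval_eq_sum_range' h1]
    refine Finset.sum_congr rfl fun m _ => ?_
    rw [coeff_X_deriv, neg_eq_neg_one_mul, mul_pow]; ring
  rw [← h2, eval_mul, eval_X]; ring

/-- ratio bound for the terms -/
lemma term_ratio {b : ℝ} (hb : 9 / 10 ≤ b) {N : ℕ} (hN : 0 < N) {y : ℝ} (hy0 : 0 ≤ y)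
    (hy : y ≤ 2) (m : ℕ) (hm : 1 ≤ m) :
    2 * ((jn b N).coeff (m + 1) * y ^ (m + 1)) ≤ 2 * (2 / 3) * ((jn b N).coeff m * y ^ m) := by
  have hb0 : 0 < b := by linarith
  have h1 := jn_ratio_le hb0 hN m
  have h2 := jn_coeff_nonneg hb0 N m
  have h3 := jn_coeff_nonneg hb0 N (m + 1)
  have h4 : (1 : ℝ) ≤ m := by exact_mod_cast hm
  have h5 : (3 : ℝ) ≤ (m + 1) * (b + m) := by nlinarith
  have h6 : 3 * (jn b N).coeff (m + 1) ≤ (jn b N).coeff m := by nlinarith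
  have h7 : 0 ≤ y ^ m := by positivity
  rw [pow_succ]
  have h8 : (jn b N).coeff (m + 1) * (y ^ m * y) ≤ (jn b N).coeff (m + 1) * (y ^ m * 2) := by
    gcongr
  nlinarith [mul_nonneg h3 h7, mul_nonneg (sub_nonneg.2 h6) h7]

/-- first coefficients -/
lemma jn_first {b : ℝ} (hb : 9 / 10 ≤ b) {N : ℕ} (hN : 20 ≤ N) :
    b * (jn b N).coeff 1 = 1 ∧
    19 / 20 * (jn b N).coeff 1 ≤ 2 * (b + 1) * (jn b N).coeff 2 ∧
    2 * (b + 1) * (jn b N).coeff 2 ≤ (jn b N).coeff 1 ∧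
    3 * (b + 2) * (jn b N).coeff 3 ≤ (jn b N).coeff 2 := by
  have hb0 : 0 < b := by linarith
  have hN0 : 0 < N := by omega
  have hN' : (20 : ℝ) ≤ N := by exact_mod_cast hN
  have r0 := jn_ratio hb0 hN0 0
  have r1 := jn_ratio hb0 hN0 1
  have r2 := jn_ratio_le hb0 hN0 2
  rw [jn_coeff_zero] at r0
  have h1 := jn_coeff_nonneg hb0 N 1
  have h2 : (1 : ℝ) / N ≤ 1 / 20 := one_div_le_one_div_of_le (by norm_num) hN'
  have h3 : (0 : ℝ) ≤ (1 : ℝ) / N := by positivity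
  push_cast at r0 r1 r2
  norm_num at r0 r1 r2
  rw [one_div] at h2 h3
  refine ⟨r0, ?_, ?_, ?_⟩
  · nlinarith
  · nlinarith
  · linarith

lemma jn_pos {b : ℝ} (hb : 9 / 10 ≤ b) (hb1 : b < 1) {N : ℕ} (hN : 20 ≤ N) {y : ℝ}
    (hy0 : 0 ≤ y) (hy : y ≤ 1.155) : 0 < (jn b N).eval (-y) := by
  have hb0 : 0 < b := by linarith
  have hN0 : 0 < N := by omega
  obtain ⟨f1, f2, f3, f4⟩ := jn_first hb hN
  have n1 := jn_coeff_nonneg hb0 N 1
  have n2 := jn_coeff_nonneg hb0 N 2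
  have n3 := jn_coeff_nonneg hb0 N 3
  set t : ℕ → ℝ := fun m => (jn b N).coeff m * y ^ m with ht
  have h1 := alt4 (t := t) (fun m => mul_nonneg (jn_coeff_nonneg hb0 N m) (pow_nonneg hy0 m))
    (fun m hm => by
      have h2 := term_ratio hb hN0 hy0 (by linarith) m (by omega)
      have h3 : 0 ≤ (jn b N).coeff m * y ^ m :=
        mul_nonneg (jn_coeff_nonneg hb0 N m) (pow_nonneg hy0 m)
      simp only [ht]
      linarith) (N - 3)
  rw [show N - 3 + 4 = N + 1 by omega] at h1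
  rw [jn_eval_neg]
  refine lt_of_lt_of_le ?_ h1
  simp only [ht, jn_coeff_zero, pow_zero, pow_one, mul_one]
  set c1 := (jn b N).coeff 1
  set c2 := (jn b N).coeff 2
  set c3 := (jn b N).coeff 3
  have g1 : c1 ≤ 10 / 9 := by nlinarith
  have g2 : 19 / 80 * c1 ≤ c2 := by nlinarith
  have g3 : c3 ≤ c2 / 8.7 := by
    rw [le_div_iff₀ (by norm_num)]
    nlinarith
  have g4 : c3 * y ^ 3 ≤ c2 * y ^ 2 * 0.133 := by
    have : y ^ 3 ≤ 1.155 * y ^ 2 := by nlinarith [sq_nonneg y]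
    calc c3 * y ^ 3 ≤ (c2 / 8.7) * (1.155 * y ^ 2) := by gcongr
      _ = c2 * y ^ 2 * (1.155 / 8.7) := by ring
      _ ≤ c2 * y ^ 2 * 0.133 := by
        apply mul_le_mul_of_nonneg_left _ (mul_nonneg n2 (sq_nonneg y))
        norm_num
  have g5 : c2 * y ^ 2 * 0.867 ≥ 19 / 80 * c1 * y ^ 2 * 0.867 := by gcongr
  have g6 : c1 * (y - 0.2059 * y ^ 2) ≤ 10 / 9 * 0.8804 := by
    have h7 : y - 0.2059 * y ^ 2 ≤ 0.8804 := by nlinarith
    have h8 : 0 ≤ y - 0.2059 * y ^ 2 := by nlinarith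
    calc c1 * (y - 0.2059 * y ^ 2) ≤ 10 / 9 * (y - 0.2059 * y ^ 2) := by gcongr
      _ ≤ _ := by gcongr
  nlinarith [mul_nonneg n1 (sq_nonneg y)]

/-- In case A the polynomials `M_N` are real-rooted. -/
theorem caseA_splits {b : ℝ} (hb : 9 / 10 ≤ b) (hb1 : b < 1) {N : ℕ} (hN : 20 ≤ N) :
    (op 2 ((2 - b) * (3 - b)) (3 * b - 5) (-((2 - b) * (3 - b) * (1 - b))) (jn b N)).Splits := by
  have hb0 : 0 < b := by linarith
  have hN0 : 0 < N := by omega
  have hN' : (20 : ℝ) ≤ N := by exact_mod_cast hN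
  obtain ⟨c, hc, hc0⟩ := jn_fac hb0 hN0
  set a : ℝ := (2 - b) * (3 - b) with ha
  have ha0 : 0 < a := mul_pos (by linarith) (by linarith)
  have ha1 : a / 2 ≤ 1.155 := by rw [ha]; nlinarith
  set Q := op 2 a (3 * b - 5) (-(a * (1 - b))) (jn b N) with hQ
  have hca : ∀ i < N, 2 * c i + a < 0 := by
    intro i hi
    by_contra hcon
    rw [not_lt] at hcon
    have h1 := hc0 i hi
    have h2 := jn_pos hb hb1 hN (y := -c i) (by linarith) (by linarith)
    rw [neg_neg, hc.root hi] at h2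
    exact lt_irrefl _ h2
  have hcoefN : 0 < (jn b N).coeff N := by
    have := hc.1
    rwa [leadingCoeff, hc.natDegree] at this
  have hQN : 0 < Q.coeff (N + 1) := by
    rw [hQ, op_coeff_succ, coeff_eq_zero_of_natDegree_lt
      (lt_of_le_of_lt (jn_natDegree_le b N) (Nat.lt_succ_self N)), mul_zero, add_zero]
    apply mul_pos _ hcoefN
    nlinarith
  have hdeg : Q.natDegree = N + 1 :=
    le_antisymm (op_natDegree _ _ _ _ (jn_natDegree_le b N)) (le_natDegree_of_ne_zero hQN.ne')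
  have hlead : 0 < Q.leadingCoeff := by
    rw [leadingCoeff, hdeg]; exact hQN
  obtain ⟨e2, he2, he2'⟩ := far_right (P := Q) (by omega) hlead 0
  have h0 : Q.eval 0 < 0 := by
    rw [← coeff_zero_eq_eval_zero, hQ, op_coeff_zero, jn_coeff_zero]
    have : 0 < a * (1 - b) := mul_pos ha0 (by linarith)
    linarith
  obtain ⟨d, hd, _⟩ := hc.step2 he2 hc0 (Q := Q) (by
    intro i hi
    rw [hQ, op_eval, hc.root hi, mul_zero, add_zero]
    have h1 := hca i hi
    have h2 := hc0 i hi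
    have h3 := hc.deriv_sign hi
    have h4 : (derivative (jn b N)).eval (c i) ≠ 0 := by
      intro h5
      rw [h5, mul_zero] at h3
      exact lt_irrefl _ h3
    have h5 : 0 < (derivative (jn b N)).eval (c i) ^ 2 := by positivity
    have h6 : 0 < (2 * c i + a) * c i := mul_pos_of_neg_of_neg h1 h2
    calc 0 < ((2 * c i + a) * c i) * (derivative (jn b N)).eval (c i) ^ 2 := mul_pos h6 h5
      _ = _ := by ring) hdeg.le h0 he2'
  exact hd.splits

/-- closed form of the limiting coefficients in case A -/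
lemma ocA {b : ℝ} (hb : 0 < b) (k : ℕ) :
    oc 2 ((2 - b) * (3 - b)) (3 * b - 5) (-((2 - b) * (3 - b) * (1 - b))) b k =
      (2 * k + (b - 3)) * (k + (b - 1)) * (k + (b - 2)) * jc b k := by
  rcases k with _ | m
  · simp [oc, jc, poch_zero]; ring
  · simp only [oc]
    rw [jc_succ hb m]
    push_cast
    ring

lemma caseB_num {b c1 c2 c3 A : ℝ} (hb : 9 / 10 ≤ b) (hb1 : b < 1)
    (hA : A = 6 / 10 - (1 - b) * (2 - b)) (f1 : b * c1 = 1) (f2 : 19 / 20 * c1 ≤ 2 * (b + 1) * c2)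
    (f4 : 3 * (b + 2) * c3 ≤ c2) (n1 : 0 ≤ c1) (n2 : 0 ≤ c2) (n3 : 0 ≤ c3) :
    0 < A - (A + (2 - b)) * (c1 * (3 / 10)) + (A + (2 - b) * 2) * (c2 * (3 / 10) ^ 2) -
      (A + (2 - b) * 3) * (c3 * (3 / 10) ^ 3) := by
  have g2 : 19 / 80 * c1 ≤ c2 := by nlinarith
  have g3 : c3 ≤ c2 / 8.7 := by
    rw [le_div_iff₀ (by norm_num)]
    nlinarith
  have g0 : 1 ≤ c1 := by nlinarith
  have k0 : (2.6 : ℝ) ≤ A + (2 - b) * 2 := by rw [hA]; nlinarith
  have k1 : A + (2 - b) * 3 ≤ 3.8 := by rw [hA]; nlinarith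
  have k2 : c2 * 0.222 ≤ (A + (2 - b) * 2) * (c2 * (3 / 10) ^ 2) -
      (A + (2 - b) * 3) * (c3 * (3 / 10) ^ 3) := by
    have q1 : 2.6 * (c2 * (3 / 10) ^ 2) ≤ (A + (2 - b) * 2) * (c2 * (3 / 10) ^ 2) := by gcongr
    have q2 : (A + (2 - b) * 3) * (c3 * (3 / 10) ^ 3) ≤ 3.8 * ((c2 / 8.7) * (3 / 10) ^ 3) := by
      gcongr
    norm_num at q1 q2 ⊢
    linarith
  have k3 : 0.0527 * c1 ≤ c2 * 0.222 := by
    norm_num at g2 ⊢
    linarith
  have k4 : 0 < A * b - 0.3 * (A + (2 - b)) + 0.0527 := by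
    rw [hA]
    obtain ⟨e, rfl⟩ : ∃ e, b = 1 - e := ⟨1 - b, by ring⟩
    have h1 : 0 < e := by linarith
    have h2 : e ≤ 1 / 10 := by linarith
    have : (6 / 10 - (1 - (1 - e)) * (2 - (1 - e))) * (1 - e) -
        0.3 * (6 / 10 - (1 - (1 - e)) * (2 - (1 - e)) + (2 - (1 - e))) + 0.0527 =
        0.1727 - 1.6 * e + 0.3 * e ^ 2 + e ^ 3 := by ring
    rw [this]
    have h3 : 0 < e ^ 2 := by positivity
    have h4 : 0 < e ^ 3 := by positivity
    linarith
  have k5 : 0 < c1 * (A * b - 0.3 * (A + (2 - b)) + 0.0527) := mul_pos (by linarith) k4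
  have k6 : c1 * (A * b - 0.3 * (A + (2 - b)) + 0.0527) =
      A - (A + (2 - b)) * (c1 * 0.3) + 0.0527 * c1 := by
    linear_combination A * f1
  rw [k6] at k5
  have e3 : (3 : ℝ) / 10 = 0.3 := by norm_num
  rw [e3] at k2 ⊢
  linarith

lemma caseB_eval {b : ℝ} (hb : 9 / 10 ≤ b) (hb1 : b < 1) {N : ℕ} (hN : 20 ≤ N) :
    (op 0 (b - 2) 2 ((1 - b) * (2 - b)) (jn b N)).eval (-(3 / 10)) < 0 := by
  have hb0 : 0 < b := by linarith
  have hN0 : 0 < N := by omega
  have hN' : (20 : ℝ) ≤ N := by exact_mod_cast hN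
  generalize hA : 6 / 10 - (1 - b) * (2 - b) = A
  have hA0 : 49 / 100 ≤ A := by rw [← hA]; nlinarith
  have hA1 : A ≤ 6 / 10 := by rw [← hA]; nlinarith
  set t : ℕ → ℝ := fun m => (A + (2 - b) * m) * ((jn b N).coeff m * (3 / 10) ^ m) with ht
  have e : (op 0 (b - 2) 2 ((1 - b) * (2 - b)) (jn b N)).eval (-(3 / 10)) =
      - ∑ m ∈ Finset.range (N + 1), (-1 : ℝ) ^ m * t m := by
    rw [op_eval, jn_eval_neg]
    have := jn_deriv_eval_neg b N (3 / 10)
    have e1 : (0 * -(3 / 10) + (b - 2)) * (-(3 / 10) * (derivative (jn b N)).eval (-(3 / 10))) =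
        (2 - b) * (3 / 10 * (derivative (jn b N)).eval (-(3 / 10))) := by ring
    rw [e1, this, Finset.mul_sum, mul_neg, Finset.mul_sum, ← Finset.sum_neg_distrib,
      ← Finset.sum_neg_distrib, ← Finset.sum_add_distrib]
    refine Finset.sum_congr rfl fun m _ => ?_
    simp only [ht, ← hA]
    ring
  rw [e, neg_neg_iff_pos]
  have htn : ∀ m, 0 ≤ t m := fun m => by
    have h1 := jn_coeff_nonneg hb0 N m
    have h2 : (0 : ℝ) ≤ (2 - b) * m := mul_nonneg (by linarith) (Nat.cast_nonneg m)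
    simp only [ht]
    have h3 : 0 ≤ A + (2 - b) * m := by linarith
    positivity
  have hanti : ∀ m, 4 ≤ m → t (m + 1) ≤ t m := fun m hm => by
    have h2 := term_ratio hb hN0 (y := 3 / 10) (by norm_num) (by norm_num) m (by omega)
    have h4 : (4 : ℝ) ≤ m := by exact_mod_cast hm
    simp only [ht]
    push_cast
    have h6 : (A + (2 - b) * ((m : ℝ) + 1)) * 2 ≤ 3 * (A + (2 - b) * m) := by nlinarith
    have h7 : 0 ≤ A + (2 - b) * ((m : ℝ) + 1) := by nlinarith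
    have h8 : 0 ≤ (jn b N).coeff m * (3 / 10 : ℝ) ^ m :=
      mul_nonneg (jn_coeff_nonneg hb0 N m) (by positivity)
    generalize (jn b N).coeff m * (3 / 10 : ℝ) ^ m = u at h2 h8 ⊢
    generalize (jn b N).coeff (m + 1) * (3 / 10 : ℝ) ^ (m + 1) = v at h2 ⊢
    have h9 : v ≤ 2 / 3 * u := by linarith
    calc (A + (2 - b) * ((m : ℝ) + 1)) * v ≤ (A + (2 - b) * ((m : ℝ) + 1)) * (2 / 3 * u) := by gcongr
      _ = ((A + (2 - b) * ((m : ℝ) + 1)) * 2) * (u / 3) := by ring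
      _ ≤ (3 * (A + (2 - b) * m)) * (u / 3) := by gcongr
      _ = _ := by ring
  have h1 := alt4 (t := t) htn hanti (N - 3)
  rw [show N - 3 + 4 = N + 1 by omega] at h1
  refine lt_of_lt_of_le ?_ h1
  obtain ⟨f1, f2, f3, f4⟩ := jn_first hb hN
  have n1 := jn_coeff_nonneg hb0 N 1
  have n2 := jn_coeff_nonneg hb0 N 2
  have n3 := jn_coeff_nonneg hb0 N 3
  have h5 := caseB_num hb hb1 hA.symm f1 f2 f4 n1 n2 n3
  simp only [ht, jn_coeff_zero]
  push_cast
  norm_num at h5 ⊢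
  linarith

/-- In case B the polynomials `K_N` have only negative zeros. -/
theorem caseB_splits {b : ℝ} (hb : 9 / 10 ≤ b) (hb1 : b < 1) {N : ℕ} (hN : 20 ≤ N) :
    ∃ d, Fac (op 0 (b - 2) 2 ((1 - b) * (2 - b)) (jn b N)) (N + 1) d ∧ ∀ i < N + 1, d i < 0 := by
  have hb0 : 0 < b := by linarith
  have hN0 : 0 < N := by omega
  obtain ⟨c, hc, hc0⟩ := jn_fac hb0 hN0
  have hca : ∀ i < N, c i < -(3 / 10) := by
    intro i hi
    by_contra hcon
    rw [not_lt] at hcon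
    have h1 := hc0 i hi
    have h2 := jn_pos hb hb1 hN (y := -c i) (by linarith) (by linarith)
    rw [neg_neg, hc.root hi] at h2
    exact lt_irrefl _ h2
  have h0 : 0 < (op 0 (b - 2) 2 ((1 - b) * (2 - b)) (jn b N)).eval 0 := by
    rw [← coeff_zero_eq_eval_zero, op_coeff_zero, jn_coeff_zero, mul_one]
    exact mul_pos (by linarith) (by linarith)
  exact hc.step2 (e1 := -(3 / 10)) (e2 := 0) (by norm_num) hca (by
    intro i hi
    rw [op_eval, hc.root hi, mul_zero, add_zero]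
    have h2 := hc0 i hi
    have h3 := hc.deriv_sign hi
    have h4 : (derivative (jn b N)).eval (c i) ≠ 0 := by
      intro h5
      rw [h5, mul_zero] at h3
      exact lt_irrefl _ h3
    have h5 : 0 < (derivative (jn b N)).eval (c i) ^ 2 := by positivity
    have h6 : 0 < (b - 2) * c i := mul_pos_of_neg_of_neg (by linarith) h2
    calc 0 < ((b - 2) * c i) * (derivative (jn b N)).eval (c i) ^ 2 := mul_pos h6 h5
      _ = _ := by ring) (op_natDegree _ _ _ _ (jn_natDegree_le b N)) (caseB_eval hb hb1 hN) h0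

/-- closed form of the limiting coefficients in case B -/
lemma ocB {b : ℝ} (hb : 0 < b) (k : ℕ) :
    oc 0 (b - 2) 2 ((1 - b) * (2 - b)) b k =
      (2 * k + (b - 2)) * (k + (b - 1)) * jc b k := by
  rcases k with _ | m
  · simp [oc, jc, poch_zero]; ring
  · simp only [oc]
    rw [jc_succ hb m]
    push_cast
    ring

end Pool.Agent.R259
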