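import Mathlib
import Pool.Agent.R259.BesA

set_option autoImplicit false

namespace Pool.Agent.R259

open Filter Topology Polynomial

lemma gamma_poch {b : ℝ} (hb : 0 < b) (k : ℕ) : Real.Gamma (k + b) = poch b k * Real.Gamma b := by
  induction k with
  | zero => simp [poch_zero]
  | succ k ih =>
    rw [show ((k + 1 : ℕ) : ℝ) + b = (k + b) + 1 by push_cast; ring,
      Real.Gamma_add_one (by positivity), ih, poch_succ]
    ring

lemma LPL.const_mul {F : ℂ → ℂ} {P : ℕ → ℝ[X]} (h : LPL F P) (a : ℝ) :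
    LPL (fun z => (a : ℂ) * F z) (fun N => C a * P N) := by
  refine ⟨fun N => (Splits.C a).mul (h.1 N), ?_⟩
  have h1 := h.2
  rw [tendstoLocallyUniformlyOn_iff_forall_isCompact isOpen_univ] at h1 ⊢
  intro K hK hKc
  have h2 := h1 K hK hKc
  rw [Metric.tendstoUniformlyOn_iff] at h2 ⊢
  intro ε hε
  filter_upwards [h2 (ε / (|a| + 1)) (by positivity)] with N hN z hz
  have h3 := hN z hz
  rw [dist_eq_norm] at h3 ⊢
  rw [map_mul, aeval_C, Complex.coe_algebraMap, ← mul_sub, norm_mul, Complex.norm_real,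
    Real.norm_eq_abs]
  calc |a| * ‖F z - aeval z (P N)‖ ≤ (|a| + 1) * ‖F z - aeval z (P N)‖ := by gcongr; linarith
    _ < (|a| + 1) * (ε / (|a| + 1)) := by gcongr
    _ = ε := by field_simp

/-- The function `∑ (2m+ν) x^m / (m! Γ(m+ν+1))` for `ν ∈ [-2.1, -2)`. -/
theorem mainA {ν : ℝ} (h1 : -(21 / 10) ≤ ν) (h2 : ν < -2) : ∃ P : ℕ → ℝ[X],
    LPL (fun z : ℂ => ∑' m : ℕ, (((2 * m + ν) / (m.factorial * Real.Gamma (m + ν + 1)) : ℝ) : ℂ) * z ^ m) P ∧
    (∀ k, Tendsto (fun N => (P N).coeff k) atTop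
      (𝓝 ((2 * k + ν) / (k.factorial * Real.Gamma (k + ν + 1))))) ∧
    (∀ k : ℕ, k ≠ 0 → 0 < (2 * k + ν) / (k.factorial * Real.Gamma (k + ν + 1))) ∧
    (2 * ((0 : ℕ) : ℝ) + ν) / ((Nat.factorial 0 : ℕ) * Real.Gamma ((0 : ℕ) + ν + 1)) < 0 := by
  obtain ⟨b, rfl⟩ : ∃ b, ν = b - 3 := ⟨ν + 3, by ring⟩
  have hb : 9 / 10 ≤ b := by linarith
  have hb1 : b < 1 := by linarith
  have hb0 : 0 < b := by linarith
  have hG := Real.Gamma_pos_of_pos hb0
  have hcoef : ∀ k : ℕ, (2 * k + (b - 3)) / (k.factorial * Real.Gamma (k + (b - 3) + 1)) =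
      (Real.Gamma b)⁻¹ * ((2 * k + (b - 3)) * (k + (b - 1)) * (k + (b - 2)) * jc b k) := by
    intro k
    have hk1 : (k : ℝ) + (b - 1) ≠ 0 := by
      rcases Nat.eq_zero_or_pos k with rfl | hk
      · push_cast; linarith
      · have : (1 : ℝ) ≤ k := by exact_mod_cast hk
        linarith
    have hk2 : (k : ℝ) + (b - 2) ≠ 0 := by
      rcases Nat.lt_or_ge k 2 with hk | hk
      · have : (k : ℝ) ≤ 1 := by exact_mod_cast (by omega : k ≤ 1)
        linarith
      · have : (2 : ℝ) ≤ k := by exact_mod_cast hk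
        linarith
    have e1 := gamma_poch hb0 k
    have e2 : Real.Gamma (k + b) = (k + (b - 1)) * Real.Gamma (k + (b - 1)) := by
      rw [← Real.Gamma_add_one hk1]; ring_nf
    have e3 : Real.Gamma (k + (b - 1)) = (k + (b - 2)) * Real.Gamma (k + (b - 2)) := by
      rw [← Real.Gamma_add_one hk2]; ring_nf
    have e4 : Real.Gamma (k + (b - 3) + 1) = Real.Gamma (k + (b - 2)) := by ring_nf
    have hp := poch_pos hb0 k
    have e5 : Real.Gamma (k + (b - 2)) = poch b k * Real.Gamma b / ((k + (b - 1)) * (k + (b - 2))) := by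
      rw [← e1, e2, e3]; field_simp
    rw [e4, e5, jc]
    field_simp
  have hpos : ∀ k : ℕ, k ≠ 0 → 0 < (2 * k + (b - 3)) * (k + (b - 1)) * (k + (b - 2)) * jc b k := by
    intro k hk
    have hj := jc_pos hb0 k
    apply mul_pos _ hj
    rcases Nat.lt_or_ge k 2 with hk2 | hk2
    · have : k = 1 := by omega
      subst this
      push_cast
      have : 0 < (1 - b) ^ 2 * b := mul_pos (pow_pos (by linarith) 2) hb0
      nlinarith
    · have : (2 : ℝ) ≤ k := by exact_mod_cast hk2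
      have a1 : 0 < 2 * (k : ℝ) + (b - 3) := by linarith
      have a2 : 0 < (k : ℝ) + (b - 1) := by linarith
      have a3 : 0 < (k : ℝ) + (b - 2) := by linarith
      positivity
  refine ⟨fun N => C (Real.Gamma b)⁻¹ * op 2 ((2 - b) * (3 - b)) (3 * b - 5)
    (-((2 - b) * (3 - b) * (1 - b))) (jn b (N + 20)), ?_, ?_, ?_, ?_⟩
  · have h3 : LPL (fun z : ℂ => ∑' k, ((oc 2 ((2 - b) * (3 - b)) (3 * b - 5)
        (-((2 - b) * (3 - b) * (1 - b))) b k : ℝ) : ℂ) * z ^ k) (fun N => op 2 ((2 - b) * (3 - b)) (3 * b - 5)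
        (-((2 - b) * (3 - b) * (1 - b))) (jn b (N + 20))) :=
      ⟨fun N => caseA_splits hb hb1 (by omega), op_tlu (by linarith) _ _ _ _ 20⟩
    have h4 := h3.const_mul (Real.Gamma b)⁻¹
    have e : (fun z : ℂ => ∑' m : ℕ, (((2 * m + (b - 3)) / (m.factorial * Real.Gamma (m + (b - 3) + 1)) : ℝ) : ℂ) * z ^ m)
        = fun z : ℂ => (((Real.Gamma b)⁻¹ : ℝ) : ℂ) * ∑' k, ((oc 2 ((2 - b) * (3 - b)) (3 * b - 5)
        (-((2 - b) * (3 - b) * (1 - b))) b k : ℝ) : ℂ) * z ^ k := by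
      ext z
      rw [← tsum_mul_left]
      refine tsum_congr fun k => ?_
      rw [hcoef, ocA hb0]
      push_cast
      ring
    rw [e]
    exact h4
  · intro k
    rw [hcoef, ← ocA hb0]
    simp only [coeff_C_mul]
    refine Tendsto.const_mul _ ?_
    have hj : ∀ m, Tendsto (fun N => (jn b (N + 20)).coeff m) atTop (𝓝 (jc b m)) := fun m =>
      (jn_coeff_tendsto b m).comp (tendsto_add_atTop_nat 20)
    rcases k with _ | m
    · simp_rw [op_coeff_zero, jn_coeff_zero]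
      simp [oc]
    · simp_rw [op_coeff_succ]
      exact ((hj m).const_mul _).add ((hj (m + 1)).const_mul _)
  · intro k hk
    rw [hcoef]
    exact mul_pos (inv_pos.2 hG) (hpos k hk)
  · rw [hcoef]
    apply mul_neg_of_pos_of_neg (inv_pos.2 hG)
    have hj := jc_pos hb0 0
    apply mul_neg_of_neg_of_pos _ hj
    push_cast
    have : 0 < (3 - b) * ((1 - b) * (2 - b)) :=
      mul_pos (by linarith) (mul_pos (by linarith) (by linarith))
    nlinarith

/-- The function `∑ (2m+ν) x^m / (m! Γ(m+ν+1))` for `ν ∈ [-1.1, -1)`. -/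
theorem mainB {ν : ℝ} (h1 : -(11 / 10) ≤ ν) (h2 : ν < -1) : ∃ P : ℕ → ℝ[X],
    LPL (fun z : ℂ => ∑' m : ℕ, (((2 * m + ν) / (m.factorial * Real.Gamma (m + ν + 1)) : ℝ) : ℂ) * z ^ m) P ∧
    (∀ k, Tendsto (fun N => (P N).coeff k) atTop
      (𝓝 ((2 * k + ν) / (k.factorial * Real.Gamma (k + ν + 1))))) ∧
    (∀ k : ℕ, 0 < (2 * k + ν) / (k.factorial * Real.Gamma (k + ν + 1))) ∧
    (∀ z : ℂ, ∑' m : ℕ, (((2 * m + ν) / (m.factorial * Real.Gamma (m + ν + 1)) : ℝ) : ℂ) * z ^ m = 0 →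
      z.im = 0 ∧ z.re ≤ 0) := by
  obtain ⟨b, rfl⟩ : ∃ b, ν = b - 2 := ⟨ν + 2, by ring⟩
  have hb : 9 / 10 ≤ b := by linarith
  have hb1 : b < 1 := by linarith
  have hb0 : 0 < b := by linarith
  have hG := Real.Gamma_pos_of_pos hb0
  have hcoef : ∀ k : ℕ, (2 * k + (b - 2)) / (k.factorial * Real.Gamma (k + (b - 2) + 1)) =
      (Real.Gamma b)⁻¹ * ((2 * k + (b - 2)) * (k + (b - 1)) * jc b k) := by
    intro k
    have hk1 : (k : ℝ) + (b - 1) ≠ 0 := by
      rcases Nat.eq_zero_or_pos k with rfl | hk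
      · push_cast; linarith
      · have : (1 : ℝ) ≤ k := by exact_mod_cast hk
        linarith
    have e1 := gamma_poch hb0 k
    have e2 : Real.Gamma (k + b) = (k + (b - 1)) * Real.Gamma (k + (b - 1)) := by
      rw [← Real.Gamma_add_one hk1]; ring_nf
    have e4 : Real.Gamma (k + (b - 2) + 1) = Real.Gamma (k + (b - 1)) := by ring_nf
    have hp := poch_pos hb0 k
    have e5 : Real.Gamma (k + (b - 1)) = poch b k * Real.Gamma b / (k + (b - 1)) := by
      rw [← e1, e2]; field_simp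
    rw [e4, e5, jc]
    field_simp
  have hpos : ∀ k : ℕ, 0 < (2 * k + (b - 2)) * (k + (b - 1)) * jc b k := by
    intro k
    have hj := jc_pos hb0 k
    apply mul_pos _ hj
    rcases Nat.eq_zero_or_pos k with rfl | hk2
    · push_cast
      have : 0 < (1 - b) * (2 - b) := mul_pos (by linarith) (by linarith)
      nlinarith
    · have : (1 : ℝ) ≤ k := by exact_mod_cast hk2
      have a1 : 0 < 2 * (k : ℝ) + (b - 2) := by linarith
      have a2 : 0 < (k : ℝ) + (b - 1) := by linarith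
      positivity
  set P : ℕ → ℝ[X] := fun N => C (Real.Gamma b)⁻¹ * op 0 (b - 2) 2 ((1 - b) * (2 - b)) (jn b (N + 20))
    with hP
  have hlpl : LPL (fun z : ℂ => ∑' m : ℕ, (((2 * m + (b - 2)) /
      (m.factorial * Real.Gamma (m + (b - 2) + 1)) : ℝ) : ℂ) * z ^ m) P := by
    have h3 : LPL (fun z : ℂ => ∑' k, ((oc 0 (b - 2) 2 ((1 - b) * (2 - b)) b k : ℝ) : ℂ) * z ^ k)
        (fun N => op 0 (b - 2) 2 ((1 - b) * (2 - b)) (jn b (N + 20))) := by
      refine ⟨fun N => ?_, op_tlu (by linarith) _ _ _ _ 20⟩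
      obtain ⟨d, hd, _⟩ := caseB_splits hb hb1 (N := N + 20) (by omega)
      exact hd.splits
    have h4 := h3.const_mul (Real.Gamma b)⁻¹
    have e : (fun z : ℂ => ∑' m : ℕ, (((2 * m + (b - 2)) / (m.factorial * Real.Gamma (m + (b - 2) + 1)) : ℝ) : ℂ) * z ^ m)
        = fun z : ℂ => (((Real.Gamma b)⁻¹ : ℝ) : ℂ) * ∑' k, ((oc 0 (b - 2) 2
          ((1 - b) * (2 - b)) b k : ℝ) : ℂ) * z ^ k := by
      ext z
      rw [← tsum_mul_left]
      refine tsum_congr fun k => ?_
      rw [hcoef, ocB hb0]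
      push_cast
      ring
    rw [e]
    exact h4
  refine ⟨P, hlpl, ?_, ?_, ?_⟩
  · intro k
    rw [hcoef, ← ocB hb0]
    simp only [hP, coeff_C_mul]
    refine Tendsto.const_mul _ ?_
    have hj : ∀ m, Tendsto (fun N => (jn b (N + 20)).coeff m) atTop (𝓝 (jc b m)) := fun m =>
      (jn_coeff_tendsto b m).comp (tendsto_add_atTop_nat 20)
    rcases k with _ | m
    · simp_rw [op_coeff_zero, jn_coeff_zero]
      simp [oc]
    · simp_rw [op_coeff_succ]
      exact ((hj m).const_mul _).add ((hj (m + 1)).const_mul _)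
  · intro k
    rw [hcoef]
    exact mul_pos (inv_pos.2 hG) (hpos k)
  · have hS : IsClosed {z : ℂ | z.im = 0 ∧ z.re ≤ 0} :=
      (isClosed_eq Complex.continuous_im continuous_const).inter
        (isClosed_le Complex.continuous_re continuous_const)
    refine zeros_limit hS (fun N => Polynomial.differentiable_aeval (P N)) hlpl.2 ?_ ?_
    · intro N z hz
      obtain ⟨d, hd, hd0⟩ := caseB_splits hb hb1 (N := N + 20) (by omega)
      simp only [hP, map_mul, aeval_C] at hz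
      rcases mul_eq_zero.1 hz with h5 | h5
      · exfalso
        have : (Real.Gamma b)⁻¹ = 0 := by simpa using h5
        exact (inv_pos.2 hG).ne' this
      · obtain ⟨i, hi, rfl⟩ := hd.zeros h5
        exact ⟨Complex.ofReal_im _, by rw [Complex.ofReal_re]; exact (hd0 i hi).le⟩
    · refine ⟨0, ?_⟩
      rw [tsum_eq_single 0 (by intro k hk; simp [hk])]
      have := hcoef 0
      have h6 := hpos 0
      rw [pow_zero, mul_one]
      rw [this]
      exact_mod_cast (mul_pos (inv_pos.2 hG) h6).ne'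

end Pool.Agent.R259
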