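import Mathlib

set_option autoImplicit false

/-! Even real polynomials of degree eight with two positive zeros and one quadruple of complex
zeros: monotonic zeros in the first quadrant. -/

namespace Pool.Agent.R259

/-- the polynomial in `w = z^2` -/
def qp (b0 b1 b2 b3 w : ℝ) : ℝ := w ^ 4 + b3 * w ^ 3 + b2 * w ^ 2 + b1 * w + b0

/-- the even function -/
noncomputable def FF (b0 b1 b2 b3 : ℝ) (z : ℂ) : ℂ :=
  (z ^ 2) ^ 4 + (b3 : ℂ) * (z ^ 2) ^ 3 + (b2 : ℂ) * (z ^ 2) ^ 2 + (b1 : ℂ) * z ^ 2 + (b0 : ℂ)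

lemma qp_cont (b0 b1 b2 b3 : ℝ) : Continuous (qp b0 b1 b2 b3) := by
  unfold qp; fun_prop

/-- factorisation after two roots have been found -/
lemma FF_factor {b0 b1 b2 b3 r1 r2 : ℝ} (h12 : r1 ≠ r2) (h1 : qp b0 b1 b2 b3 r1 = 0)
    (h2 : qp b0 b1 b2 b3 r2 = 0) (z : ℂ) :
    FF b0 b1 b2 b3 z = (z ^ 2 - r1) * (z ^ 2 - r2) *
      ((z ^ 2) ^ 2 + ((b3 + r1 + r2 : ℝ) : ℂ) * z ^ 2 +
        ((b2 + (r1 + r2) * (b3 + r1 + r2) - r1 * r2 : ℝ) : ℂ)) := by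
  unfold qp at h1 h2
  have hd : r1 - r2 ≠ 0 := sub_ne_zero.2 h12
  -- coefficients of the remainder vanish
  have e1 : b1 = -((r1 + r2) * (b2 + (r1 + r2) * (b3 + r1 + r2) - r1 * r2)) + r1 * r2 * (b3 + r1 + r2) := by
    apply mul_left_cancel₀ hd
    linear_combination h1 - h2
  have e0 : b0 = r1 * r2 * (b2 + (r1 + r2) * (b3 + r1 + r2) - r1 * r2) := by
    have : b0 = -(r1 ^ 4 + b3 * r1 ^ 3 + b2 * r1 ^ 2 + b1 * r1) := by linarith
    rw [this, e1]; ring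
  have e1' : (b1 : ℂ) = ((-((r1 + r2) * (b2 + (r1 + r2) * (b3 + r1 + r2) - r1 * r2)) +
      r1 * r2 * (b3 + r1 + r2) : ℝ) : ℂ) := by exact_mod_cast e1
  have e0' : (b0 : ℂ) = ((r1 * r2 * (b2 + (r1 + r2) * (b3 + r1 + r2) - r1 * r2) : ℝ) : ℂ) := by
    exact_mod_cast e0
  unfold FF
  rw [e1', e0']
  push_cast
  ring

lemma b0_eq {b0 b1 b2 b3 r1 r2 : ℝ} (h12 : r1 ≠ r2) (h1 : qp b0 b1 b2 b3 r1 = 0)
    (h2 : qp b0 b1 b2 b3 r2 = 0) :
    b0 = r1 * r2 * (b2 + (r1 + r2) * (b3 + r1 + r2) - r1 * r2) := by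
  unfold qp at h1 h2
  have hd : r1 - r2 ≠ 0 := sub_ne_zero.2 h12
  have e1 : b1 = -((r1 + r2) * (b2 + (r1 + r2) * (b3 + r1 + r2) - r1 * r2)) + r1 * r2 * (b3 + r1 + r2) := by
    apply mul_left_cancel₀ hd
    linear_combination h1 - h2
  have : b0 = -(r1 ^ 4 + b3 * r1 ^ 3 + b2 * r1 ^ 2 + b1 * r1) := by linarith
  rw [this, e1]; ring

/-- zeros of the quadratic factor in the first quadrant -/
lemma quad_zero {m q : ℝ} (hq : m ^ 2 < 4 * q) {z : ℂ} (hz : (z ^ 2) ^ 2 + (m : ℂ) * z ^ 2 + (q : ℂ) = 0)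
    (hre : 0 ≤ z.re) (him : 0 ≤ z.im) :
    0 < z.im ∧ z.re ^ 2 = (Real.sqrt q - m / 2) / 2 ∧ z.im ^ 2 = (Real.sqrt q + m / 2) / 2 := by
  have hq0 : 0 < q := by nlinarith [sq_nonneg m]
  set x := z.re with hx
  set y := z.im with hy
  have hz' : z = ⟨x, y⟩ := by rw [hx, hy]
  have e2 : z ^ 2 = ⟨x ^ 2 - y ^ 2, 2 * x * y⟩ := by
    rw [hz', sq]; apply Complex.ext <;> simp <;> ring
  rw [e2] at hz
  have hre2 := congrArg Complex.re hz
  have him2 := congrArg Complex.im hz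
  simp only [sq, Complex.add_re, Complex.mul_re, Complex.add_im, Complex.mul_im, Complex.ofReal_re,
    Complex.ofReal_im, Complex.zero_re, Complex.zero_im] at hre2 him2
  set p := x * x - y * y with hp
  set v := 2 * x * y with hv
  have hv0 : v ≠ 0 := by
    intro h
    rw [h] at hre2
    have : p * p + m * p + q = 0 := by linarith
    nlinarith [sq_nonneg (2 * p + m)]
  have hp2 : 2 * p + m = 0 := by
    have h3 : v * (2 * p + m) = 0 := by linarith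
    exact (mul_eq_zero.1 h3).resolve_left hv0
  have hpm : p = -m / 2 := by linarith
  have hvv : v * v = q - p * p := by
    have : m = -2 * p := by linarith
    rw [this] at hre2; linarith
  have hsum : (x ^ 2 + y ^ 2) ^ 2 = q := by
    have : (x ^ 2 + y ^ 2) ^ 2 = p * p + v * v := by rw [hp, hv]; ring
    rw [this, hvv]; ring
  have hs : x ^ 2 + y ^ 2 = Real.sqrt q := by
    rw [← hsum, Real.sqrt_sq (by positivity)]
  have hy0 : y ≠ 0 := by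
    intro h; apply hv0; rw [hv, h, mul_zero]
  refine ⟨lt_of_le_of_ne him (Ne.symm hy0), ?_, ?_⟩
  · have : x ^ 2 - y ^ 2 = p := by rw [hp]; ring
    linarith
  · have : x ^ 2 - y ^ 2 = p := by rw [hp]; ring
    linarith

lemma real_zero {r : ℝ} (hr : 0 < r) {z : ℂ} (hz : z ^ 2 - r = 0)
    (hre : 0 ≤ z.re) : z.im = 0 ∧ z.re = Real.sqrt r := by
  set x := z.re with hx
  set y := z.im with hy
  have hz' : z = ⟨x, y⟩ := by rw [hx, hy]
  have e2 : z ^ 2 = ⟨x ^ 2 - y ^ 2, 2 * x * y⟩ := by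
    rw [hz', sq]; apply Complex.ext <;> simp <;> ring
  rw [e2] at hz
  have hre2 := congrArg Complex.re hz
  have him2 := congrArg Complex.im hz
  simp only [Complex.sub_re, Complex.sub_im, Complex.ofReal_re, Complex.ofReal_im, Complex.zero_re,
    Complex.zero_im, sub_zero] at hre2 him2
  have hy0 : y = 0 := by
    rcases mul_eq_zero.1 him2 with h | h
    · have hx0 : x = 0 := by linarith
      rw [hx0] at hre2; nlinarith [sq_nonneg y]
    · exact h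
  refine ⟨hy0, ?_⟩
  rw [hy0] at hre2
  have : r = x ^ 2 := by linarith
  rw [this, Real.sqrt_sq hre]

/-- a nonzero function with monotonic zeros in the closed first quadrant -/
def Mono (F : ℂ → ℂ) : Prop :=
  (∃ z, F z ≠ 0) ∧
    (∀ a b : ℂ, 0 ≤ a.re → 0 ≤ a.im → 0 ≤ b.re → 0 ≤ b.im → F a = 0 → F b = 0 → a ≠ b → a.re ≠ b.re) ∧
    ∀ a b : ℂ, 0 ≤ a.re → 0 ≤ a.im → 0 ≤ b.re → 0 ≤ b.im → F a = 0 → F b = 0 → a.re < b.re →
      a.im ≤ b.im

theorem mono_of_bounds {b0 b1 b2 b3 a1 a2 s1 s2 : ℝ} (h1 : 0 < a1) (h2 : a1 < a2) (h3 : a2 ≤ s1)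
    (h4 : s1 < s2) (p1 : 0 < qp b0 b1 b2 b3 a1) (p2 : qp b0 b1 b2 b3 a2 < 0)
    (p3 : qp b0 b1 b2 b3 s1 < 0) (p4 : 0 < qp b0 b1 b2 b3 s2)
    (q1 : a2 * s2 * (5 * s2 + a2 + b3) ^ 2 < 4 * b0)
    (q2 : a2 * s2 * (b3 + a1 + s1) ^ 2 < 4 * b0)
    (q3 : a2 * s2 * (b3 + a2 + s2) ^ 2 < 4 * b0) : Mono (FF b0 b1 b2 b3) := by
  have hc := qp_cont b0 b1 b2 b3
  obtain ⟨r1, hr1, hr1'⟩ := intermediate_value_Ioo' h2.le hc.continuousOn
    (show (0 : ℝ) ∈ Set.Ioo _ _ from ⟨p2, p1⟩)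
  obtain ⟨r2, hr2, hr2'⟩ := intermediate_value_Ioo h4.le hc.continuousOn
    (show (0 : ℝ) ∈ Set.Ioo _ _ from ⟨p3, p4⟩)
  have h12 : r1 < r2 := by linarith [hr1.2, hr2.1]
  have hr10 : 0 < r1 := h1.trans hr1.1
  have hr20 : 0 < r2 := hr10.trans h12
  set m := b3 + r1 + r2 with hm
  set q := b2 + (r1 + r2) * (b3 + r1 + r2) - r1 * r2 with hq
  have hb0 : b0 = r1 * r2 * q := b0_eq h12.ne hr1' hr2'
  have ha2 : 0 < a2 := h1.trans h2
  have hs2 : 0 < s2 := by linarith [hr2.2]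
  have hrr : r1 * r2 < a2 * s2 := mul_lt_mul'' hr1.2 hr2.2 hr10.le hr20.le
  have hrr0 : 0 < r1 * r2 := mul_pos hr10 hr20
  have hq0 : 0 < q := by
    have h5 : 0 < b0 := by
      have : 0 ≤ a2 * s2 * (b3 + a2 + s2) ^ 2 := by positivity
      linarith
    by_contra h
    push Not at h
    have : r1 * r2 * q ≤ 0 := mul_nonpos_of_nonneg_of_nonpos hrr0.le h
    linarith
  -- comparison of `4 q` with squares
  have hkey : ∀ A : ℝ, a2 * s2 * A ^ 2 < 4 * b0 → A ^ 2 < 4 * q := by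
    intro A hA
    by_contra h
    push Not at h
    have h5 : a2 * s2 * (4 * q) ≤ a2 * s2 * A ^ 2 := mul_le_mul_of_nonneg_left h (by positivity)
    have h6 : r1 * r2 * (4 * q) ≤ a2 * s2 * (4 * q) := mul_le_mul_of_nonneg_right hrr.le (by linarith)
    rw [hb0] at hA
    linarith
  have k1 := hkey _ q1
  have k2 := hkey _ q2
  have k3 := hkey _ q3
  have hmlo : b3 + a1 + s1 < m := by rw [hm]; linarith [hr1.1, hr2.1]
  have hmhi : m < b3 + a2 + s2 := by rw [hm]; linarith [hr1.2, hr2.2]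
  have hmq : m ^ 2 < 4 * q := by
    rcases le_total 0 m with h | h
    · exact (pow_lt_pow_left₀ hmhi h two_ne_zero).trans k3
    · have h5 := pow_lt_pow_left₀ (neg_lt_neg hmlo) (neg_nonneg.2 h) two_ne_zero
      rw [neg_sq, neg_sq] at h5
      exact h5.trans k2
  have hx2 : s2 < (Real.sqrt q - m / 2) / 2 := by
    have h5 : (5 * s2 + a2 + b3) / 2 < Real.sqrt q := by
      apply Real.lt_sqrt_of_sq_lt
      rw [div_pow]; norm_num; linarith
    linarith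
  have hfac := fun z => FF_factor h12.ne hr1' hr2' z
  have hcase : ∀ z : ℂ, 0 ≤ z.re → 0 ≤ z.im → FF b0 b1 b2 b3 z = 0 →
      (z.im = 0 ∧ z.re ^ 2 < s2) ∨
      (0 < z.im ∧ z.re ^ 2 = (Real.sqrt q - m / 2) / 2 ∧ z.im ^ 2 = (Real.sqrt q + m / 2) / 2) := by
    intro z hre him hz
    rw [hfac] at hz
    rcases mul_eq_zero.1 hz with h | h
    · left
      rcases mul_eq_zero.1 h with h | h
      · obtain ⟨h5, h6⟩ := real_zero hr10 h hre
        refine ⟨h5, ?_⟩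
        rw [h6, Real.sq_sqrt hr10.le]; linarith [hr2.2]
      · obtain ⟨h5, h6⟩ := real_zero hr20 h hre
        refine ⟨h5, ?_⟩
        rw [h6, Real.sq_sqrt hr20.le]; exact hr2.2
    · right
      exact quad_zero hmq h hre him
  refine ⟨⟨0, ?_⟩, ?_, ?_⟩
  · have : FF b0 b1 b2 b3 0 = (b0 : ℂ) := by unfold FF; simp
    rw [this, hb0]
    exact_mod_cast (mul_pos hrr0 hq0).ne'
  · intro a b ha1 ha2' hb1 hb2' hfa hfb hab heq
    apply hab
    rcases hcase a ha1 ha2' hfa with ⟨h5, h6⟩ | ⟨h5, h6, h7⟩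
    · rcases hcase b hb1 hb2' hfb with ⟨h8, h9⟩ | ⟨h8, h9, h10⟩
      · apply Complex.ext heq; rw [h5, h8]
      · exfalso; rw [heq] at h6; linarith
    · rcases hcase b hb1 hb2' hfb with ⟨h8, h9⟩ | ⟨h8, h9, h10⟩
      · exfalso; rw [← heq] at h9; linarith
      · apply Complex.ext heq
        have h11 : a.im ^ 2 = b.im ^ 2 := by rw [h7, h10]
        exact (pow_left_inj₀ ha2' hb2' two_ne_zero).1 h11
  · intro a b ha1 ha2' hb1 hb2' hfa hfb hab
    rcases hcase a ha1 ha2' hfa with ⟨h5, h6⟩ | ⟨h5, h6, h7⟩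
    · rw [h5]; exact hb2'
    · exfalso
      have h8 : a.re ^ 2 < b.re ^ 2 := pow_lt_pow_left₀ hab ha1 two_ne_zero
      rcases hcase b hb1 hb2' hfb with ⟨h9, h10⟩ | ⟨h9, h10, h11⟩
      · linarith
      · linarith

theorem not_mono_of_bounds {b0 b1 b2 b3 a1 a2 s1 s2 : ℝ} (h1 : 0 < a1) (h2 : a1 < a2) (h3 : a2 ≤ s1)
    (h4 : s1 < s2) (p1 : 0 < qp b0 b1 b2 b3 a1) (p2 : qp b0 b1 b2 b3 a2 < 0)
    (p3 : qp b0 b1 b2 b3 s1 < 0) (p4 : 0 < qp b0 b1 b2 b3 s2)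
    (q0 : 0 < 5 * s1 + a1 + b3)
    (q1 : 4 * b0 < a1 * s1 * (5 * s1 + a1 + b3) ^ 2)
    (q2 : a2 * s2 * (b3 + a1 + s1) ^ 2 < 4 * b0)
    (q3 : a2 * s2 * (b3 + a2 + s2) ^ 2 < 4 * b0) : ¬ Mono (FF b0 b1 b2 b3) := by
  have hc := qp_cont b0 b1 b2 b3
  obtain ⟨r1, hr1, hr1'⟩ := intermediate_value_Ioo' h2.le hc.continuousOn
    (show (0 : ℝ) ∈ Set.Ioo _ _ from ⟨p2, p1⟩)
  obtain ⟨r2, hr2, hr2'⟩ := intermediate_value_Ioo h4.le hc.continuousOn
    (show (0 : ℝ) ∈ Set.Ioo _ _ from ⟨p3, p4⟩)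
  have h12 : r1 < r2 := by linarith [hr1.2, hr2.1]
  have hr10 : 0 < r1 := h1.trans hr1.1
  have hr20 : 0 < r2 := hr10.trans h12
  set m := b3 + r1 + r2 with hm
  set q := b2 + (r1 + r2) * (b3 + r1 + r2) - r1 * r2 with hq
  have hb0 : b0 = r1 * r2 * q := b0_eq h12.ne hr1' hr2'
  have ha2 : 0 < a2 := h1.trans h2
  have hs1 : 0 < s1 := by linarith
  have hs2 : 0 < s2 := by linarith [hr2.2]
  have hrr : r1 * r2 < a2 * s2 := mul_lt_mul'' hr1.2 hr2.2 hr10.le hr20.le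
  have hrr' : a1 * s1 < r1 * r2 := mul_lt_mul'' hr1.1 hr2.1 h1.le hs1.le
  have hrr0 : 0 < r1 * r2 := mul_pos hr10 hr20
  have hq0 : 0 < q := by
    have h5 : 0 < b0 := by
      have : 0 ≤ a2 * s2 * (b3 + a2 + s2) ^ 2 := by positivity
      linarith
    by_contra h
    push Not at h
    have : r1 * r2 * q ≤ 0 := mul_nonpos_of_nonneg_of_nonpos hrr0.le h
    linarith
  have hkey : ∀ A : ℝ, a2 * s2 * A ^ 2 < 4 * b0 → A ^ 2 < 4 * q := by
    intro A hA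
    by_contra h
    push Not at h
    have h5 : a2 * s2 * (4 * q) ≤ a2 * s2 * A ^ 2 := mul_le_mul_of_nonneg_left h (by positivity)
    have h6 : r1 * r2 * (4 * q) ≤ a2 * s2 * (4 * q) := mul_le_mul_of_nonneg_right hrr.le (by linarith)
    rw [hb0] at hA
    linarith
  have k2 := hkey _ q2
  have k3 := hkey _ q3
  have hmlo : b3 + a1 + s1 < m := by rw [hm]; linarith [hr1.1, hr2.1]
  have hmhi : m < b3 + a2 + s2 := by rw [hm]; linarith [hr1.2, hr2.2]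
  have hmq : m ^ 2 < 4 * q := by
    rcases le_total 0 m with h | h
    · exact (pow_lt_pow_left₀ hmhi h two_ne_zero).trans k3
    · have h5 := pow_lt_pow_left₀ (neg_lt_neg hmlo) (neg_nonneg.2 h) two_ne_zero
      rw [neg_sq, neg_sq] at h5
      exact h5.trans k2
  have k1 : 4 * q < (5 * s1 + a1 + b3) ^ 2 := by
    by_contra h
    push Not at h
    have h5 : a1 * s1 * (5 * s1 + a1 + b3) ^ 2 ≤ a1 * s1 * (4 * q) :=
      mul_le_mul_of_nonneg_left h (by positivity)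
    have h6 : a1 * s1 * (4 * q) ≤ r1 * r2 * (4 * q) := mul_le_mul_of_nonneg_right hrr'.le (by linarith)
    rw [hb0] at q1
    linarith
  have hsq : Real.sqrt q < (5 * s1 + a1 + b3) / 2 := by
    rw [Real.sqrt_lt' (by linarith), div_pow]
    norm_num; linarith
  have hsq2 : |m| / 2 < Real.sqrt q := by
    apply Real.lt_sqrt_of_sq_lt
    rw [div_pow, sq_abs]; linarith
  have hab := abs_le.1 (le_refl |m|)
  have hX : 0 < (Real.sqrt q - m / 2) / 2 := by linarith [hab.2]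
  have hY : 0 < (Real.sqrt q + m / 2) / 2 := by linarith [hab.1]
  have hXs : (Real.sqrt q - m / 2) / 2 < s1 := by linarith
  set x := Real.sqrt ((Real.sqrt q - m / 2) / 2) with hx
  set y := Real.sqrt ((Real.sqrt q + m / 2) / 2) with hy
  have hx2 : x ^ 2 = (Real.sqrt q - m / 2) / 2 := Real.sq_sqrt hX.le
  have hy2 : y ^ 2 = (Real.sqrt q + m / 2) / 2 := Real.sq_sqrt hY.le
  have hxpos : 0 < x := Real.sqrt_pos.2 hX
  have hypos : 0 < y := Real.sqrt_pos.2 hY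
  have hqq : Real.sqrt q ^ 2 = q := Real.sq_sqrt hq0.le
  rintro ⟨_, _, h5⟩
  have hz0 : FF b0 b1 b2 b3 ⟨x, y⟩ = 0 := by
    rw [FF_factor h12.ne hr1' hr2']
    have e2 : (⟨x, y⟩ : ℂ) ^ 2 = ⟨x ^ 2 - y ^ 2, 2 * x * y⟩ := by
      rw [sq]; apply Complex.ext <;> simp <;> ring
    have e3 : (⟨x ^ 2 - y ^ 2, 2 * x * y⟩ : ℂ) ^ 2 + ((b3 + r1 + r2 : ℝ) : ℂ) *
        ⟨x ^ 2 - y ^ 2, 2 * x * y⟩ + ((b2 + (r1 + r2) * (b3 + r1 + r2) - r1 * r2 : ℝ) : ℂ) = 0 := by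
      rw [← hm, ← hq]
      have hxy : x ^ 2 - y ^ 2 = -m / 2 := by rw [hx2, hy2]; ring
      have hxy2 : x ^ 2 * y ^ 2 = (q - m ^ 2 / 4) / 4 := by
        rw [hx2, hy2]; linear_combination (1 / 4) * hqq
      apply Complex.ext
      · simp only [sq (⟨x ^ 2 - y ^ 2, 2 * x * y⟩ : ℂ), Complex.add_re, Complex.mul_re,
          Complex.ofReal_re, Complex.ofReal_im, Complex.zero_re]
        rw [hxy]
        have : 2 * x * y * (2 * x * y) = 4 * (x ^ 2 * y ^ 2) := by ring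
        rw [this, hxy2]; ring
      · simp only [sq (⟨x ^ 2 - y ^ 2, 2 * x * y⟩ : ℂ), Complex.add_im, Complex.mul_im,
          Complex.ofReal_re, Complex.ofReal_im, Complex.zero_im]
        rw [hxy]; ring
    rw [e2, e3, mul_zero]
  have hb : FF b0 b1 b2 b3 (Real.sqrt r2 : ℝ) = 0 := by
    rw [FF_factor h12.ne hr1' hr2']
    have : ((Real.sqrt r2 : ℝ) : ℂ) ^ 2 = (r2 : ℂ) := by
      rw [← Complex.ofReal_pow, Real.sq_sqrt hr20.le]
    rw [this]; ring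
  have h6 := h5 ⟨x, y⟩ (Real.sqrt r2 : ℝ) hxpos.le hypos.le (by simp) (by simp) hz0 hb (by
    simp only [Complex.ofReal_re]
    apply lt_of_pow_lt_pow_left₀ 2 (Real.sqrt_nonneg _)
    rw [Real.sq_sqrt hr20.le, hx2]
    linarith [hr2.1])
  simp only [Complex.ofReal_im] at h6
  linarith

/-- positivity of a quartic from its Bernstein coefficients -/
lemma bern4 {u v c0 c1 c2 c3 c4 : ℝ} (hu : 0 ≤ u) (hv : 0 ≤ v) (huv : 0 < u + v) (h0 : 0 < c0)
    (h1 : 0 ≤ c1) (h2 : 0 ≤ c2) (h3 : 0 ≤ c3) (h4 : 0 < c4) :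
    0 < c0 * v ^ 4 + c1 * (u * v ^ 3) + c2 * (u ^ 2 * v ^ 2) + c3 * (u ^ 3 * v) + c4 * u ^ 4 := by
  have e1 : 0 ≤ c1 * (u * v ^ 3) := by positivity
  have e2 : 0 ≤ c2 * (u ^ 2 * v ^ 2) := by positivity
  have e3 : 0 ≤ c3 * (u ^ 3 * v) := by positivity
  have e0 : 0 ≤ c0 * v ^ 4 := by positivity
  have e4 : 0 ≤ c4 * u ^ 4 := by positivity
  rcases eq_or_lt_of_le hu with h | h
  · have hv' : 0 < v := by rw [← h] at huv; linarith
    have : 0 < c0 * v ^ 4 := by positivity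
    linarith
  · have : 0 < c4 * u ^ 4 := by positivity
    linarith

end Pool.Agent.R259
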