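import Mathlib
import Pool.Agent.R259.Cpt

set_option autoImplicit false

namespace Pool.Agent.R259

lemma pc01_0 {t : ℝ} (h0 : 0 ≤ t) (h1 : t ≤ (1/2)) : Mono (FF ((77/500) + (2411/1000) * t) ((-7/2) + (-1397/500) * t) ((1063/200) + (-93/100) * t) ((-659/200) + (222/125) * t)) := by
  have hu : 0 ≤ t - 0 := by linarith
  have hv : 0 ≤ (1/2) - t := by linarith
  have huv : 0 < (t - 0) + ((1/2) - t) := by linarith
  have l1 : 0 < ((111/2500) + (1781/2500) * t) := by linarith
  have l2 : ((111/2500) + (1781/2500) * t) < ((141/2500) + (2009/2500) * t) := by linarith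
  have l3 : ((141/2500) + (2009/2500) * t) ≤ ((5963/5000) + (-767/2500) * t) := by linarith
  have l4 : ((5963/5000) + (-767/2500) * t) < ((3029/2500) + (-767/2500) * t) := by linarith
  have p1 := bern4 (c0 := (686973330857/4882812500000)) (c1 := (14438622294699/9765625000000)) (c2 := (104433282348363/19531250000000)) (c3 := (150903322148361/39062500000000)) (c4 := (229996267587/305175781250)) hu hv huv (by norm_num) (by norm_num) (by norm_num) (by norm_num) (by norm_num)
  have p1' : 0 < qp ((77/500) + (2411/1000) * t) ((-7/2) + (-1397/500) * t) ((1063/200) + (-93/100) * t) ((-659/200) + (222/125) * t) ((111/2500) + (1781/2500) * t) := by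
    refine lt_of_lt_of_eq p1 ?_
    unfold qp; ring
  have p2 := bern4 (c0 := (2115173620153/4882812500000)) (c1 := (25103334156657/9765625000000)) (c2 := (39805746886803/19531250000000)) (c3 := (81868432071747/39062500000000)) (c4 := (1045539220257/1220703125000)) hu hv huv (by norm_num) (by norm_num) (by norm_num) (by norm_num) (by norm_num)
  have p2' : 0 < -qp ((77/500) + (2411/1000) * t) ((-7/2) + (-1397/500) * t) ((1063/200) + (-93/100) * t) ((-659/200) + (222/125) * t) ((141/2500) + (2009/2500) * t) := by
    refine lt_of_lt_of_eq p2 ?_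
    unfold qp; ring
  have p3 := bern4 (c0 := (2090205795583/4882812500000)) (c1 := (9123016018797/39062500000000)) (c2 := (4934790632099/9765625000000)) (c3 := (2652326890923/2441406250000)) (c4 := (261824372761/610351562500)) hu hv huv (by norm_num) (by norm_num) (by norm_num) (by norm_num) (by norm_num)
  have p3' : 0 < -qp ((77/500) + (2411/1000) * t) ((-7/2) + (-1397/500) * t) ((1063/200) + (-93/100) * t) ((-659/200) + (222/125) * t) ((5963/5000) + (-767/2500) * t) := by
    refine lt_of_lt_of_eq p3 ?_
    unfold qp; ring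
  have p4 := bern4 (c0 := (793262604287/4882812500000)) (c1 := (22834304441687/9765625000000)) (c2 := (67265372301317/19531250000000)) (c3 := (57565829635157/39062500000000)) (c4 := (796109936097/4882812500000)) hu hv huv (by norm_num) (by norm_num) (by norm_num) (by norm_num) (by norm_num)
  have p4' : 0 < qp ((77/500) + (2411/1000) * t) ((-7/2) + (-1397/500) * t) ((1063/200) + (-93/100) * t) ((-659/200) + (222/125) * t) ((3029/2500) + (-767/2500) * t) := by
    refine lt_of_lt_of_eq p4 ?_
    unfold qp; ring
  have q1 := bern4 (c0 := (11376563795599/9765625000000)) (c1 := (173565461284259/9765625000000)) (c2 := (244655071488807/7812500000000)) (c3 := (288835098520603/19531250000000)) (c4 := (13679413587199/39062500000000)) hu hv huv (by norm_num) (by norm_num) (by norm_num) (by norm_num) (by norm_num)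
  have q1' : 0 < 4 * ((77/500) + (2411/1000) * t) - ((141/2500) + (2009/2500) * t) * ((3029/2500) + (-767/2500) * t) * (5 * ((3029/2500) + (-767/2500) * t) + ((141/2500) + (2009/2500) * t) + ((-659/200) + (222/125) * t)) ^ 2 := by
    refine lt_of_lt_of_eq q1 ?_
    ring
  have q2 := bern4 (c0 := (510280656151/97656250000)) (c1 := (34452349075609/488281250000)) (c2 := (2124503153434431/9765625000000)) (c3 := (112692032223431/488281250000)) (c4 := (194703844194239/2441406250000)) hu hv huv (by norm_num) (by norm_num) (by norm_num) (by norm_num) (by norm_num)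
  have q2' : 0 < 4 * ((77/500) + (2411/1000) * t) - ((141/2500) + (2009/2500) * t) * ((3029/2500) + (-767/2500) * t) * (((-659/200) + (222/125) * t) + ((111/2500) + (1781/2500) * t) + ((5963/5000) + (-767/2500) * t)) ^ 2 := by
    refine lt_of_lt_of_eq q2 ?_
    ring
  have q3 := bern4 (c0 := (2095207040119/390625000000)) (c1 := (141033708387807/1953125000000)) (c2 := (8684840544221971/39062500000000)) (c3 := (918232549007043/3906250000000)) (c4 := (3158386654019671/39062500000000)) hu hv huv (by norm_num) (by norm_num) (by norm_num) (by norm_num) (by norm_num)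
  have q3' : 0 < 4 * ((77/500) + (2411/1000) * t) - ((141/2500) + (2009/2500) * t) * ((3029/2500) + (-767/2500) * t) * (((-659/200) + (222/125) * t) + ((141/2500) + (2009/2500) * t) + ((3029/2500) + (-767/2500) * t)) ^ 2 := by
    refine lt_of_lt_of_eq q3 ?_
    ring
  exact mono_of_bounds (a1 := ((111/2500) + (1781/2500) * t)) (a2 := ((141/2500) + (2009/2500) * t)) (s1 := ((5963/5000) + (-767/2500) * t)) (s2 := ((3029/2500) + (-767/2500) * t)) l1 l2 l3 l4 p1' (neg_pos.1 p2') (neg_pos.1 p3') p4' (sub_pos.1 q1') (sub_pos.1 q2') (sub_pos.1 q3')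

lemma pc01_1 {t : ℝ} (h0 : (1/2) ≤ t) (h1 : t ≤ 1) : Mono (FF ((77/500) + (2411/1000) * t) ((-7/2) + (-1397/500) * t) ((1063/200) + (-93/100) * t) ((-659/200) + (222/125) * t)) := by
  have hu : 0 ≤ t - (1/2) := by linarith
  have hv : 0 ≤ 1 - t := by linarith
  have huv : 0 < (t - (1/2)) + (1 - t) := by linarith
  have l1 : 0 < ((119/1000) + (149/250) * t) := by linarith
  have l2 : ((119/1000) + (149/250) * t) < ((127/1000) + (31/50) * t) := by linarith
  have l3 : ((127/1000) + (31/50) * t) ≤ ((6/5) + (-31/100) * t) := by linarith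
  have l4 : ((6/5) + (-31/100) * t) < ((1227/1000) + (-77/250) * t) := by linarith
  have p1 := bern4 (c0 := (1651434113/6250000000)) (c1 := (65432053399/31250000000)) (c2 := (15562734813/6250000000)) (c3 := (450411677/1250000000)) (c4 := (25257643/125000000)) hu hv huv (by norm_num) (by norm_num) (by norm_num) (by norm_num) (by norm_num)
  have p1' : 0 < qp ((77/500) + (2411/1000) * t) ((-7/2) + (-1397/500) * t) ((1063/200) + (-93/100) * t) ((-659/200) + (222/125) * t) ((119/1000) + (149/250) * t) := by
    refine lt_of_lt_of_eq p1 ?_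
    unfold qp; ring
  have p2 := bern4 (c0 := (1869265241/6250000000)) (c1 := (11234131423/31250000000)) (c2 := (41824679709/31250000000)) (c3 := (63553382069/31250000000)) (c4 := (2885849289/15625000000)) hu hv huv (by norm_num) (by norm_num) (by norm_num) (by norm_num) (by norm_num)
  have p2' : 0 < -qp ((77/500) + (2411/1000) * t) ((-7/2) + (-1397/500) * t) ((1063/200) + (-93/100) * t) ((-659/200) + (222/125) * t) ((127/1000) + (31/50) * t) := by
    refine lt_of_lt_of_eq p2 ?_
    unfold qp; ring
  have p3 := bern4 (c0 := (63248049/250000000)) (c1 := (875521689/500000000)) (c2 := (898201791/250000000)) (c3 := (269839299/125000000)) (c4 := (6727001/62500000)) hu hv huv (by norm_num) (by norm_num) (by norm_num) (by norm_num) (by norm_num)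
  have p3' : 0 < -qp ((77/500) + (2411/1000) * t) ((-7/2) + (-1397/500) * t) ((1063/200) + (-93/100) * t) ((-659/200) + (222/125) * t) ((6/5) + (-31/100) * t) := by
    refine lt_of_lt_of_eq p3 ?_
    unfold qp; ring
  have p4 := bern4 (c0 := (20486521661/31250000000)) (c1 := (51336529049/31250000000)) (c2 := (26875866647/31250000000)) (c3 := (6627764947/31250000000)) (c4 := (5788453/19531250)) hu hv huv (by norm_num) (by norm_num) (by norm_num) (by norm_num) (by norm_num)
  have p4' : 0 < qp ((77/500) + (2411/1000) * t) ((-7/2) + (-1397/500) * t) ((1063/200) + (-93/100) * t) ((-659/200) + (222/125) * t) ((1227/1000) + (-77/250) * t) := by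
    refine lt_of_lt_of_eq p4 ?_
    unfold qp; ring
  have q1 := bern4 (c0 := (1337414059/2500000000)) (c1 := (6685444581/781250000)) (c2 := (548582615733/31250000000)) (c3 := (50856172569/3906250000)) (c4 := (226678948803/62500000000)) hu hv huv (by norm_num) (by norm_num) (by norm_num) (by norm_num) (by norm_num)
  have q1' : 0 < 4 * ((77/500) + (2411/1000) * t) - ((127/1000) + (31/50) * t) * ((1227/1000) + (-77/250) * t) * (5 * ((1227/1000) + (-77/250) * t) + ((127/1000) + (31/50) * t) + ((-659/200) + (222/125) * t)) ^ 2 := by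
    refine lt_of_lt_of_eq q1 ?_
    ring
  have q2 := bern4 (c0 := (200770387379/2500000000)) (c1 := (2557578642819/6250000000)) (c2 := (46673033997239/62500000000)) (c3 := (9080171048289/15625000000)) (c4 := (2563730674443/15625000000)) hu hv huv (by norm_num) (by norm_num) (by norm_num) (by norm_num) (by norm_num)
  have q2' : 0 < 4 * ((77/500) + (2411/1000) * t) - ((127/1000) + (31/50) * t) * ((1227/1000) + (-77/250) * t) * (((-659/200) + (222/125) * t) + ((119/1000) + (149/250) * t) + ((6/5) + (-31/100) * t)) ^ 2 := by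
    refine lt_of_lt_of_eq q2 ?_
    ring
  have q3 := bern4 (c0 := (5060718035291/62500000000)) (c1 := (402025081083/976562500)) (c2 := (23424398582133/31250000000)) (c3 := (1136657563699/1953125000)) (c4 := (10245165572763/62500000000)) hu hv huv (by norm_num) (by norm_num) (by norm_num) (by norm_num) (by norm_num)
  have q3' : 0 < 4 * ((77/500) + (2411/1000) * t) - ((127/1000) + (31/50) * t) * ((1227/1000) + (-77/250) * t) * (((-659/200) + (222/125) * t) + ((127/1000) + (31/50) * t) + ((1227/1000) + (-77/250) * t)) ^ 2 := by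
    refine lt_of_lt_of_eq q3 ?_
    ring
  exact mono_of_bounds (a1 := ((119/1000) + (149/250) * t)) (a2 := ((127/1000) + (31/50) * t)) (s1 := ((6/5) + (-31/100) * t)) (s2 := ((1227/1000) + (-77/250) * t)) l1 l2 l3 l4 p1' (neg_pos.1 p2') (neg_pos.1 p3') p4' (sub_pos.1 q1') (sub_pos.1 q2') (sub_pos.1 q3')

lemma pc12_0 {t : ℝ} (h0 : 0 ≤ t) (h1 : t ≤ (1/4)) : Mono (FF ((513/200) + (-2469/1000) * t) ((-3147/500) + (2597/500) * t) ((877/200) + (-48/25) * t) ((-1519/1000) + (-39/50) * t)) := by
  have hu : 0 ≤ t - 0 := by linarith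
  have hv : 0 ≤ (1/4) - t := by linarith
  have huv : 0 < (t - 0) + ((1/4) - t) := by linarith
  have l1 : 0 < ((7/10) + (-1/50) * t) := by linarith
  have l2 : ((7/10) + (-1/50) * t) < ((19/25) + 0 * t) := by linarith
  have l3 : ((19/25) + 0 * t) ≤ ((89/100) + (-3/25) * t) := by linarith
  have l4 : ((89/100) + (-3/25) * t) < ((91/100) + (-7/50) * t) := by linarith
  have p1 := bern4 (c0 := (107732/15625)) (c1 := (2048533/78125)) (c2 := (57634431/1562500)) (c3 := (708814459/31250000)) (c4 := (160075239/31250000)) hu hv huv (by norm_num) (by norm_num) (by norm_num) (by norm_num) (by norm_num)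
  have p1' : 0 < qp ((513/200) + (-2469/1000) * t) ((-3147/500) + (2597/500) * t) ((877/200) + (-48/25) * t) ((-1519/1000) + (-39/50) * t) ((7/10) + (-1/50) * t) := by
    refine lt_of_lt_of_eq p1 ?_
    unfold qp; ring
  have p2 := bern4 (c0 := (9423392/1953125)) (c1 := (34312728/1953125)) (c2 := (46397832/1953125)) (c3 := (27551048/1953125)) (c4 := (6042552/1953125)) hu hv huv (by norm_num) (by norm_num) (by norm_num) (by norm_num) (by norm_num)
  have p2' : 0 < -qp ((513/200) + (-2469/1000) * t) ((-3147/500) + (2597/500) * t) ((877/200) + (-48/25) * t) ((-1519/1000) + (-39/50) * t) ((19/25) + 0 * t) := by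
    refine lt_of_lt_of_eq p2 ?_
    unfold qp; ring
  have p3 := bern4 (c0 := (6727001/3906250)) (c1 := (13908624/1953125)) (c2 := (758754/78125)) (c3 := (10143676/1953125)) (c4 := (1716912/1953125)) hu hv huv (by norm_num) (by norm_num) (by norm_num) (by norm_num) (by norm_num)
  have p3' : 0 < -qp ((513/200) + (-2469/1000) * t) ((-3147/500) + (2597/500) * t) ((877/200) + (-48/25) * t) ((-1519/1000) + (-39/50) * t) ((89/100) + (-3/25) * t) := by
    refine lt_of_lt_of_eq p3 ?_
    unfold qp; ring
  have p4 := bern4 (c0 := (9753761/3906250)) (c1 := (53018137/7812500)) (c2 := (4714677/625000)) (c3 := (43751/10000)) (c4 := (2247/2000)) hu hv huv (by norm_num) (by norm_num) (by norm_num) (by norm_num) (by norm_num)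
  have p4' : 0 < qp ((513/200) + (-2469/1000) * t) ((-3147/500) + (2597/500) * t) ((877/200) + (-48/25) * t) ((-1519/1000) + (-39/50) * t) ((91/100) + (-7/50) * t) := by
    refine lt_of_lt_of_eq p4 ?_
    unfold qp; ring
  have q1 := bern4 (c0 := (801363551/9765625)) (c1 := (5678207701/19531250)) (c2 := (6571750071/19531250)) (c3 := (2537993147/19531250)) (c4 := (1668947/781250)) hu hv huv (by norm_num) (by norm_num) (by norm_num) (by norm_num) (by norm_num)
  have q1' : 0 < 4 * ((513/200) + (-2469/1000) * t) - ((19/25) + 0 * t) * ((91/100) + (-7/50) * t) * (5 * ((91/100) + (-7/50) * t) + ((19/25) + 0 * t) + ((-1519/1000) + (-39/50) * t)) ^ 2 := by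
    refine lt_of_lt_of_eq q1 ?_
    ring
  have q2 := bern4 (c0 := (25641284111/9765625)) (c1 := (192898881621/19531250)) (c2 := (270813963551/19531250)) (c3 := (168068590827/19531250)) (c4 := (1554837627/781250)) hu hv huv (by norm_num) (by norm_num) (by norm_num) (by norm_num) (by norm_num)
  have q2' : 0 < 4 * ((513/200) + (-2469/1000) * t) - ((19/25) + 0 * t) * ((91/100) + (-7/50) * t) * (((-1519/1000) + (-39/50) * t) + ((7/10) + (-1/50) * t) + ((89/100) + (-3/25) * t)) ^ 2 := by
    refine lt_of_lt_of_eq q2 ?_
    ring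
  have q3 := bern4 (c0 := (25610577071/9765625)) (c1 := (192782841781/19531250)) (c2 := (270829434111/19531250)) (c3 := (168201995147/19531250)) (c4 := (1557369947/781250)) hu hv huv (by norm_num) (by norm_num) (by norm_num) (by norm_num) (by norm_num)
  have q3' : 0 < 4 * ((513/200) + (-2469/1000) * t) - ((19/25) + 0 * t) * ((91/100) + (-7/50) * t) * (((-1519/1000) + (-39/50) * t) + ((19/25) + 0 * t) + ((91/100) + (-7/50) * t)) ^ 2 := by
    refine lt_of_lt_of_eq q3 ?_
    ring
  exact mono_of_bounds (a1 := ((7/10) + (-1/50) * t)) (a2 := ((19/25) + 0 * t)) (s1 := ((89/100) + (-3/25) * t)) (s2 := ((91/100) + (-7/50) * t)) l1 l2 l3 l4 p1' (neg_pos.1 p2') (neg_pos.1 p3') p4' (sub_pos.1 q1') (sub_pos.1 q2') (sub_pos.1 q3')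

lemma pc12_1 {t : ℝ} (h0 : (1/4) ≤ t) (h1 : t ≤ (1/2)) : Mono (FF ((513/200) + (-2469/1000) * t) ((-3147/500) + (2597/500) * t) ((877/200) + (-48/25) * t) ((-1519/1000) + (-39/50) * t)) := by
  have hu : 0 ≤ t - (1/4) := by linarith
  have hv : 0 ≤ (1/2) - t := by linarith
  have huv : 0 < (t - (1/4)) + ((1/2) - t) := by linarith
  have l1 : 0 < ((713/1000) + (-7/250) * t) := by linarith
  have l2 : ((713/1000) + (-7/250) * t) < ((759/1000) + (-7/250) * t) := by linarith
  have l3 : ((759/1000) + (-7/250) * t) ≤ ((917/1000) + (-53/250) * t) := by linarith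
  have l4 : ((917/1000) + (-53/250) * t) < ((927/1000) + (-53/250) * t) := by linarith
  have p1 := bern4 (c0 := (788037342/244140625)) (c1 := (2907220519/244140625)) (c2 := (3859432396/244140625)) (c3 := (8586375857/976562500)) (c4 := (650158521/390625000)) hu hv huv (by norm_num) (by norm_num) (by norm_num) (by norm_num) (by norm_num)
  have p1' : 0 < qp ((513/200) + (-2469/1000) * t) ((-3147/500) + (2597/500) * t) ((877/200) + (-48/25) * t) ((-1519/1000) + (-39/50) * t) ((713/1000) + (-7/250) * t) := by
    refine lt_of_lt_of_eq p1 ?_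
    unfold qp; ring
  have p2 := bern4 (c0 := (604502856/244140625)) (c1 := (1970590662/244140625)) (c2 := (952706699/97656250)) (c3 := (407237737/78125000)) (c4 := (8221909/7812500)) hu hv huv (by norm_num) (by norm_num) (by norm_num) (by norm_num) (by norm_num)
  have p2' : 0 < -qp ((513/200) + (-2469/1000) * t) ((-3147/500) + (2597/500) * t) ((877/200) + (-48/25) * t) ((-1519/1000) + (-39/50) * t) ((759/1000) + (-7/250) * t) := by
    refine lt_of_lt_of_eq p2 ?_
    unfold qp; ring
  have p3 := bern4 (c0 := (3804456/9765625)) (c1 := (730592882/244140625)) (c2 := (2072719683/488281250)) (c3 := (3604815443/1953125000)) (c4 := (379327819/1953125000)) hu hv huv (by norm_num) (by norm_num) (by norm_num) (by norm_num) (by norm_num)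
  have p3' : 0 < -qp ((513/200) + (-2469/1000) * t) ((-3147/500) + (2597/500) * t) ((877/200) + (-48/25) * t) ((-1519/1000) + (-39/50) * t) ((917/1000) + (-53/250) * t) := by
    refine lt_of_lt_of_eq p3 ?_
    unfold qp; ring
  have p4 := bern4 (c0 := (47644698/48828125)) (c1 := (353945698/244140625)) (c2 := (584011947/488281250)) (c3 := (568908573/488281250)) (c4 := (220956229/488281250)) hu hv huv (by norm_num) (by norm_num) (by norm_num) (by norm_num) (by norm_num)
  have p4' : 0 < qp ((513/200) + (-2469/1000) * t) ((-3147/500) + (2597/500) * t) ((877/200) + (-48/25) * t) ((-1519/1000) + (-39/50) * t) ((927/1000) + (-53/250) * t) := by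
    refine lt_of_lt_of_eq p4 ?_
    unfold qp; ring
  have q1 := bern4 (c0 := (9838547808/244140625)) (c1 := (49168633344/244140625)) (c2 := (2804019334/9765625)) (c3 := (261997734899/1953125000)) (c4 := (6317638751/781250000)) hu hv huv (by norm_num) (by norm_num) (by norm_num) (by norm_num) (by norm_num)
  have q1' : 0 < 4 * ((513/200) + (-2469/1000) * t) - ((759/1000) + (-7/250) * t) * ((927/1000) + (-53/250) * t) * (5 * ((927/1000) + (-53/250) * t) + ((759/1000) + (-7/250) * t) + ((-1519/1000) + (-39/50) * t)) ^ 2 := by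
    refine lt_of_lt_of_eq q1 ?_
    ring
  have q2 := bern4 (c0 := (486085706592/244140625)) (c1 := (1787073140352/244140625)) (c2 := (2442244624398/244140625)) (c3 := (11742382339419/1953125000)) (c4 := (1044925100871/781250000)) hu hv huv (by norm_num) (by norm_num) (by norm_num) (by norm_num) (by norm_num)
  have q2' : 0 < 4 * ((513/200) + (-2469/1000) * t) - ((759/1000) + (-7/250) * t) * ((927/1000) + (-53/250) * t) * (((-1519/1000) + (-39/50) * t) + ((713/1000) + (-7/250) * t) + ((917/1000) + (-53/250) * t)) ^ 2 := by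
    refine lt_of_lt_of_eq q2 ?_
    ring
  have q3 := bern4 (c0 := (486619391968/244140625)) (c1 := (1790343738648/244140625)) (c2 := (2448772544692/244140625)) (c3 := (11785417934931/1953125000)) (c4 := (1050008115479/781250000)) hu hv huv (by norm_num) (by norm_num) (by norm_num) (by norm_num) (by norm_num)
  have q3' : 0 < 4 * ((513/200) + (-2469/1000) * t) - ((759/1000) + (-7/250) * t) * ((927/1000) + (-53/250) * t) * (((-1519/1000) + (-39/50) * t) + ((759/1000) + (-7/250) * t) + ((927/1000) + (-53/250) * t)) ^ 2 := by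
    refine lt_of_lt_of_eq q3 ?_
    ring
  exact mono_of_bounds (a1 := ((713/1000) + (-7/250) * t)) (a2 := ((759/1000) + (-7/250) * t)) (s1 := ((917/1000) + (-53/250) * t)) (s2 := ((927/1000) + (-53/250) * t)) l1 l2 l3 l4 p1' (neg_pos.1 p2') (neg_pos.1 p3') p4' (sub_pos.1 q1') (sub_pos.1 q2') (sub_pos.1 q3')

lemma pc12_2 {t : ℝ} (h0 : (1/2) ≤ t) (h1 : t ≤ (5/8)) : Mono (FF ((513/200) + (-2469/1000) * t) ((-3147/500) + (2597/500) * t) ((877/200) + (-48/25) * t) ((-1519/1000) + (-39/50) * t)) := by
  have hu : 0 ≤ t - (1/2) := by linarith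
  have hv : 0 ≤ (5/8) - t := by linarith
  have huv : 0 < (t - (1/2)) + ((5/8) - t) := by linarith
  have l1 : 0 < ((187/250) + (-14/125) * t) := by linarith
  have l2 : ((187/250) + (-14/125) * t) < ((409/500) + (-16/125) * t) := by linarith
  have l3 : ((409/500) + (-16/125) * t) ≤ ((959/1000) + (-37/125) * t) := by linarith
  have l4 : ((959/1000) + (-37/125) * t) < ((481/500) + (-36/125) * t) := by linarith
  have p1 := bern4 (c0 := (9003178304/244140625)) (c1 := (1386600768/9765625)) (c2 := (47955355456/244140625)) (c3 := (27839297072/244140625)) (c4 := (5546088468/244140625)) hu hv huv (by norm_num) (by norm_num) (by norm_num) (by norm_num) (by norm_num)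
  have p1' : 0 < qp ((513/200) + (-2469/1000) * t) ((-3147/500) + (2597/500) * t) ((877/200) + (-48/25) * t) ((-1519/1000) + (-39/50) * t) ((187/250) + (-14/125) * t) := by
    refine lt_of_lt_of_eq p1 ?_
    unfold qp; ring
  have p2 := bern4 (c0 := (994845784/48828125)) (c1 := (16052159404/244140625)) (c2 := (19603137684/244140625)) (c3 := (11069146628/244140625)) (c4 := (2543474532/244140625)) hu hv huv (by norm_num) (by norm_num) (by norm_num) (by norm_num) (by norm_num)
  have p2' : 0 < -qp ((513/200) + (-2469/1000) * t) ((-3147/500) + (2597/500) * t) ((877/200) + (-48/25) * t) ((-1519/1000) + (-39/50) * t) ((409/500) + (-16/125) * t) := by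
    refine lt_of_lt_of_eq p2 ?_
    unfold qp; ring
  have p3 := bern4 (c0 := (758655638/244140625)) (c1 := (6624040667/488281250)) (c2 := (4151939649/244140625)) (c3 := (2123373362/244140625)) (c4 := (103597116/48828125)) hu hv huv (by norm_num) (by norm_num) (by norm_num) (by norm_num) (by norm_num)
  have p3' : 0 < -qp ((513/200) + (-2469/1000) * t) ((-3147/500) + (2597/500) * t) ((877/200) + (-48/25) * t) ((-1519/1000) + (-39/50) * t) ((959/1000) + (-37/125) * t) := by
    refine lt_of_lt_of_eq p3 ?_
    unfold qp; ring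
  have p4 := bern4 (c0 := (952015688/244140625)) (c1 := (2824197252/244140625)) (c2 := (4138968516/244140625)) (c3 := (585737692/48828125)) (c4 := (668130084/244140625)) hu hv huv (by norm_num) (by norm_num) (by norm_num) (by norm_num) (by norm_num)
  have p4' : 0 < qp ((513/200) + (-2469/1000) * t) ((-3147/500) + (2597/500) * t) ((877/200) + (-48/25) * t) ((-1519/1000) + (-39/50) * t) ((481/500) + (-36/125) * t) := by
    refine lt_of_lt_of_eq p4 ?_
    unfold qp; ring
  have q1 := bern4 (c0 := (359488732/9765625)) (c1 := (42123785948/48828125)) (c2 := (450528057963/244140625)) (c3 := (309606233628/244140625)) (c4 := (60660269169/244140625)) hu hv huv (by norm_num) (by norm_num) (by norm_num) (by norm_num) (by norm_num)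
  have q1' : 0 < 4 * ((513/200) + (-2469/1000) * t) - ((409/500) + (-16/125) * t) * ((481/500) + (-36/125) * t) * (5 * ((481/500) + (-36/125) * t) + ((409/500) + (-16/125) * t) + ((-1519/1000) + (-39/50) * t)) ^ 2 := by
    refine lt_of_lt_of_eq q1 ?_
    ring
  have q2 := bern4 (c0 := (5220333770608/244140625)) (c1 := (3915819032616/48828125)) (c2 := (27406437964743/244140625)) (c3 := (16957743273568/244140625)) (c4 := (3910053999201/244140625)) hu hv huv (by norm_num) (by norm_num) (by norm_num) (by norm_num) (by norm_num)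
  have q2' : 0 < 4 * ((513/200) + (-2469/1000) * t) - ((409/500) + (-16/125) * t) * ((481/500) + (-36/125) * t) * (((-1519/1000) + (-39/50) * t) + ((187/250) + (-14/125) * t) + ((959/1000) + (-37/125) * t)) ^ 2 := by
    refine lt_of_lt_of_eq q2 ?_
    ring
  have q3 := bern4 (c0 := (5251953820732/244140625)) (c1 := (788629463756/9765625)) (c2 := (27625690330187/244140625)) (c3 := (17112827317372/244140625)) (c4 := (3950906886609/244140625)) hu hv huv (by norm_num) (by norm_num) (by norm_num) (by norm_num) (by norm_num)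
  have q3' : 0 < 4 * ((513/200) + (-2469/1000) * t) - ((409/500) + (-16/125) * t) * ((481/500) + (-36/125) * t) * (((-1519/1000) + (-39/50) * t) + ((409/500) + (-16/125) * t) + ((481/500) + (-36/125) * t)) ^ 2 := by
    refine lt_of_lt_of_eq q3 ?_
    ring
  exact mono_of_bounds (a1 := ((187/250) + (-14/125) * t)) (a2 := ((409/500) + (-16/125) * t)) (s1 := ((959/1000) + (-37/125) * t)) (s2 := ((481/500) + (-36/125) * t)) l1 l2 l3 l4 p1' (neg_pos.1 p2') (neg_pos.1 p3') p4' (sub_pos.1 q1') (sub_pos.1 q2') (sub_pos.1 q3')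

lemma pc12_3 {t : ℝ} (h0 : (5/8) ≤ t) (h1 : t ≤ (3/4)) : Mono (FF ((513/200) + (-2469/1000) * t) ((-3147/500) + (2597/500) * t) ((877/200) + (-48/25) * t) ((-1519/1000) + (-39/50) * t)) := by
  have hu : 0 ≤ t - (5/8) := by linarith
  have hv : 0 ≤ (3/4) - t := by linarith
  have huv : 0 < (t - (5/8)) + ((3/4) - t) := by linarith
  have l1 : 0 < ((489/500) + (-12/25) * t) := by linarith
  have l2 : ((489/500) + (-12/25) * t) < ((107/100) + (-13/25) * t) := by linarith
  have l3 : ((107/100) + (-13/25) * t) ≤ ((901/1000) + (-26/125) * t) := by linarith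
  have l4 : ((901/1000) + (-26/125) * t) < ((911/1000) + (-26/125) * t) := by linarith
  have p1 := bern4 (c0 := (5546088468/244140625)) (c1 := (27996972852/244140625)) (c2 := (46056020748/244140625)) (c3 := (28575154812/244140625)) (c4 := (5004038448/244140625)) hu hv huv (by norm_num) (by norm_num) (by norm_num) (by norm_num) (by norm_num)
  have p1' : 0 < qp ((513/200) + (-2469/1000) * t) ((-3147/500) + (2597/500) * t) ((877/200) + (-48/25) * t) ((-1519/1000) + (-39/50) * t) ((489/500) + (-12/25) * t) := by
    refine lt_of_lt_of_eq p1 ?_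
    unfold qp; ring
  have p2 := bern4 (c0 := (41061327/3906250)) (c1 := (75434468/1953125)) (c2 := (20344616/390625)) (c3 := (76881632/1953125)) (c4 := (29705344/1953125)) hu hv huv (by norm_num) (by norm_num) (by norm_num) (by norm_num) (by norm_num)
  have p2' : 0 < -qp ((513/200) + (-2469/1000) * t) ((-3147/500) + (2597/500) * t) ((877/200) + (-48/25) * t) ((-1519/1000) + (-39/50) * t) ((107/100) + (-13/25) * t) := by
    refine lt_of_lt_of_eq p2 ?_
    unfold qp; ring
  have p3 := bern4 (c0 := (1785251181/488281250)) (c1 := (4114415983/488281250)) (c2 := (850717301/97656250)) (c3 := (158887429/19531250)) (c4 := (8173691/1953125)) hu hv huv (by norm_num) (by norm_num) (by norm_num) (by norm_num) (by norm_num)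
  have p3' : 0 < -qp ((513/200) + (-2469/1000) * t) ((-3147/500) + (2597/500) * t) ((877/200) + (-48/25) * t) ((-1519/1000) + (-39/50) * t) ((901/1000) + (-26/125) * t) := by
    refine lt_of_lt_of_eq p3 ?_
    unfold qp; ring
  have p4 := bern4 (c0 := (1009815009/488281250)) (c1 := (6866417467/488281250)) (c2 := (2489738101/97656250)) (c3 := (306590881/19531250)) (c4 := (4308101/1953125)) hu hv huv (by norm_num) (by norm_num) (by norm_num) (by norm_num) (by norm_num)
  have p4' : 0 < qp ((513/200) + (-2469/1000) * t) ((-3147/500) + (2597/500) * t) ((877/200) + (-48/25) * t) ((-1519/1000) + (-39/50) * t) ((911/1000) + (-26/125) * t) := by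
    refine lt_of_lt_of_eq p4 ?_
    unfold qp; ring
  have q1 := bern4 (c0 := (17210771839/195312500)) (c1 := (193165163829/195312500)) (c2 := (85047625594/48828125)) (c3 := (44154946929/48828125)) (c4 := (613400264/9765625)) hu hv huv (by norm_num) (by norm_num) (by norm_num) (by norm_num) (by norm_num)
  have q1' : 0 < 4 * ((513/200) + (-2469/1000) * t) - ((107/100) + (-13/25) * t) * ((911/1000) + (-26/125) * t) * (5 * ((911/1000) + (-26/125) * t) + ((107/100) + (-13/25) * t) + ((-1519/1000) + (-39/50) * t)) ^ 2 := by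
    refine lt_of_lt_of_eq q1 ?_
    ring
  have q2 := bern4 (c0 := (125013085999/7812500)) (c1 := (2287181952737/39062500)) (c2 := (3887788098496/48828125)) (c3 := (2324374189209/48828125)) (c4 := (102844072584/9765625)) hu hv huv (by norm_num) (by norm_num) (by norm_num) (by norm_num) (by norm_num)
  have q2' : 0 < 4 * ((513/200) + (-2469/1000) * t) - ((107/100) + (-13/25) * t) * ((911/1000) + (-26/125) * t) * (((-1519/1000) + (-39/50) * t) + ((489/500) + (-12/25) * t) + ((901/1000) + (-26/125) * t)) ^ 2 := by
    refine lt_of_lt_of_eq q2 ?_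
    ring
  have q3 := bern4 (c0 := (3162530784751/195312500)) (c1 := (2318231417777/39062500)) (c2 := (3947899719622/48828125)) (c3 := (2365399590009/48828125)) (c4 := (104928887304/9765625)) hu hv huv (by norm_num) (by norm_num) (by norm_num) (by norm_num) (by norm_num)
  have q3' : 0 < 4 * ((513/200) + (-2469/1000) * t) - ((107/100) + (-13/25) * t) * ((911/1000) + (-26/125) * t) * (((-1519/1000) + (-39/50) * t) + ((107/100) + (-13/25) * t) + ((911/1000) + (-26/125) * t)) ^ 2 := by
    refine lt_of_lt_of_eq q3 ?_
    ring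
  exact mono_of_bounds (a1 := ((489/500) + (-12/25) * t)) (a2 := ((107/100) + (-13/25) * t)) (s1 := ((901/1000) + (-26/125) * t)) (s2 := ((911/1000) + (-26/125) * t)) l1 l2 l3 l4 p1' (neg_pos.1 p2') (neg_pos.1 p3') p4' (sub_pos.1 q1') (sub_pos.1 q2') (sub_pos.1 q3')

lemma pc12_4 {t : ℝ} (h0 : (3/4) ≤ t) (h1 : t ≤ (7/8)) : Mono (FF ((513/200) + (-2469/1000) * t) ((-3147/500) + (2597/500) * t) ((877/200) + (-48/25) * t) ((-1519/1000) + (-39/50) * t)) := by
  have hu : 0 ≤ t - (3/4) := by linarith
  have hv : 0 ≤ (7/8) - t := by linarith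
  have huv : 0 < (t - (3/4)) + ((7/8) - t) := by linarith
  have l1 : 0 < ((8257/5000) + (-34/25) * t) := by linarith
  have l2 : ((8257/5000) + (-34/25) * t) < ((8699/5000) + (-177/125) * t) := by linarith
  have l3 : ((8699/5000) + (-177/125) * t) ≤ ((797/1000) + (-43/625) * t) := by linarith
  have l4 : ((797/1000) + (-43/625) * t) < ((2021/2500) + (-43/625) * t) := by linarith
  have p1 := bern4 (c0 := (1393053819841/152587890625)) (c1 := (27681705013653/305175781250)) (c2 := (66371737709117/305175781250)) (c3 := (42911912373503/305175781250)) (c4 := (3078556413357/305175781250)) hu hv huv (by norm_num) (by norm_num) (by norm_num) (by norm_num) (by norm_num)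
  have p1' : 0 < qp ((513/200) + (-2469/1000) * t) ((-3147/500) + (2597/500) * t) ((877/200) + (-48/25) * t) ((-1519/1000) + (-39/50) * t) ((8257/5000) + (-34/25) * t) := by
    refine lt_of_lt_of_eq p1 ?_
    unfold qp; ring
  have p2 := bern4 (c0 := (2241835583839/152587890625)) (c1 := (16025157585307/305175781250)) (c2 := (3686016730764/152587890625)) (c3 := (2987391522736/152587890625)) (c4 := (4120763964224/152587890625)) hu hv huv (by norm_num) (by norm_num) (by norm_num) (by norm_num) (by norm_num)
  have p2' : 0 < -qp ((513/200) + (-2469/1000) * t) ((-3147/500) + (2597/500) * t) ((877/200) + (-48/25) * t) ((-1519/1000) + (-39/50) * t) ((8699/5000) + (-177/125) * t) := by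
    refine lt_of_lt_of_eq p2 ?_
    unfold qp; ring
  have p3 := bern4 (c0 := (603360628319/152587890625)) (c1 := (4352298923889/305175781250)) (c2 := (3528583567586/152587890625)) (c3 := (2963682552968/152587890625)) (c4 := (1007845640544/152587890625)) hu hv huv (by norm_num) (by norm_num) (by norm_num) (by norm_num) (by norm_num)
  have p3' : 0 < -qp ((513/200) + (-2469/1000) * t) ((-3147/500) + (2597/500) * t) ((877/200) + (-48/25) * t) ((-1519/1000) + (-39/50) * t) ((797/1000) + (-43/625) * t) := by
    refine lt_of_lt_of_eq p3 ?_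
    unfold qp; ring
  have p4 := bern4 (c0 := (533231568256/152587890625)) (c1 := (3056879114016/152587890625)) (c2 := (5408708255416/152587890625)) (c3 := (3758011886596/152587890625)) (c4 := (1745986710807/305175781250)) hu hv huv (by norm_num) (by norm_num) (by norm_num) (by norm_num) (by norm_num)
  have p4' : 0 < qp ((513/200) + (-2469/1000) * t) ((-3147/500) + (2597/500) * t) ((877/200) + (-48/25) * t) ((-1519/1000) + (-39/50) * t) ((2021/2500) + (-43/625) * t) := by
    refine lt_of_lt_of_eq p4 ?_
    unfold qp; ring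
  have q1 := bern4 (c0 := (842134228504/152587890625)) (c1 := (197485162721623/152587890625)) (c2 := (83798690179683/30517578125)) (c3 := (1036524827664783/610351562500)) (c4 := (36684879964806/152587890625)) hu hv huv (by norm_num) (by norm_num) (by norm_num) (by norm_num) (by norm_num)
  have q1' : 0 < 4 * ((513/200) + (-2469/1000) * t) - ((8699/5000) + (-177/125) * t) * ((2021/2500) + (-43/625) * t) * (5 * ((2021/2500) + (-43/625) * t) + ((8699/5000) + (-177/125) * t) + ((-1519/1000) + (-39/50) * t)) ^ 2 := by
    refine lt_of_lt_of_eq q1 ?_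
    ring
  have q2 := bern4 (c0 := (1613585676587904/152587890625)) (c1 := (5600240271628752/152587890625)) (c2 := (1425869182666202/30517578125)) (c3 := (15674366243622007/610351562500)) (c4 := (775827718147926/152587890625)) hu hv huv (by norm_num) (by norm_num) (by norm_num) (by norm_num) (by norm_num)
  have q2' : 0 < 4 * ((513/200) + (-2469/1000) * t) - ((8699/5000) + (-177/125) * t) * ((2021/2500) + (-43/625) * t) * (((-1519/1000) + (-39/50) * t) + ((8257/5000) + (-34/25) * t) + ((797/1000) + (-43/625) * t)) ^ 2 := by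
    refine lt_of_lt_of_eq q2 ?_
    ring
  have q3 := bern4 (c0 := (1639465575841816/152587890625)) (c1 := (1140787124283947/30517578125)) (c2 := (7282004736940599/152587890625)) (c3 := (642672989340183/24414062500)) (c4 := (1278552389574/244140625)) hu hv huv (by norm_num) (by norm_num) (by norm_num) (by norm_num) (by norm_num)
  have q3' : 0 < 4 * ((513/200) + (-2469/1000) * t) - ((8699/5000) + (-177/125) * t) * ((2021/2500) + (-43/625) * t) * (((-1519/1000) + (-39/50) * t) + ((8699/5000) + (-177/125) * t) + ((2021/2500) + (-43/625) * t)) ^ 2 := by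
    refine lt_of_lt_of_eq q3 ?_
    ring
  exact mono_of_bounds (a1 := ((8257/5000) + (-34/25) * t)) (a2 := ((8699/5000) + (-177/125) * t)) (s1 := ((797/1000) + (-43/625) * t)) (s2 := ((2021/2500) + (-43/625) * t)) l1 l2 l3 l4 p1' (neg_pos.1 p2') (neg_pos.1 p3') p4' (sub_pos.1 q1') (sub_pos.1 q2') (sub_pos.1 q3')

lemma pc12_5 {t : ℝ} (h0 : (7/8) ≤ t) (h1 : t ≤ 1) : Mono (FF ((513/200) + (-2469/1000) * t) ((-3147/500) + (2597/500) * t) ((877/200) + (-48/25) * t) ((-1519/1000) + (-39/50) * t)) := by
  have hu : 0 ≤ t - (7/8) := by linarith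
  have hv : 0 ≤ 1 - t := by linarith
  have huv : 0 < (t - (7/8)) + (1 - t) := by linarith
  have l1 : 0 < ((13987/5000) + (-1682/625) * t) := by linarith
  have l2 : ((13987/5000) + (-1682/625) * t) < ((793/250) + (-1897/625) * t) := by linarith
  have l3 : ((793/250) + (-1897/625) * t) ≤ ((381/500) + (-16/625) * t) := by linarith
  have l4 : ((381/500) + (-16/625) * t) < ((77/100) + (-17/625) * t) := by linarith
  have p1 := bern4 (c0 := (9750415696367/305175781250)) (c1 := (69972216970771/305175781250)) (c2 := (127237496200293/305175781250)) (c3 := (51811792588289/305175781250)) (c4 := (2721802390476/152587890625)) hu hv huv (by norm_num) (by norm_num) (by norm_num) (by norm_num) (by norm_num)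
  have p1' : 0 < qp ((513/200) + (-2469/1000) * t) ((-3147/500) + (2597/500) * t) ((877/200) + (-48/25) * t) ((-1519/1000) + (-39/50) * t) ((13987/5000) + (-1682/625) * t) := by
    refine lt_of_lt_of_eq p1 ?_
    unfold qp; ring
  have p2 := bern4 (c0 := (11708056372673/305175781250)) (c1 := (15767458200009/152587890625)) (c2 := (8419393443404/152587890625)) (c3 := (23461938776944/152587890625)) (c4 := (8678039991744/152587890625)) hu hv huv (by norm_num) (by norm_num) (by norm_num) (by norm_num) (by norm_num)
  have p2' : 0 < -qp ((513/200) + (-2469/1000) * t) ((-3147/500) + (2597/500) * t) ((877/200) + (-48/25) * t) ((-1519/1000) + (-39/50) * t) ((793/250) + (-1897/625) * t) := by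
    refine lt_of_lt_of_eq p2 ?_
    unfold qp; ring
  have p3 := bern4 (c0 := (562542653324/152587890625)) (c1 := (2244602100044/152587890625)) (c2 := (3619979497724/152587890625)) (c3 := (2759259341124/152587890625)) (c4 := (821337227784/152587890625)) hu hv huv (by norm_num) (by norm_num) (by norm_num) (by norm_num) (by norm_num)
  have p3' : 0 < -qp ((513/200) + (-2469/1000) * t) ((-3147/500) + (2597/500) * t) ((877/200) + (-48/25) * t) ((-1519/1000) + (-39/50) * t) ((381/500) + (-16/625) * t) := by
    refine lt_of_lt_of_eq p3 ?_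
    unfold qp; ring
  have p4 := bern4 (c0 := (1059913885277/305175781250)) (c1 := (2603377521686/152587890625)) (c2 := (4366028357736/152587890625)) (c3 := (3038421725416/152587890625)) (c4 := (745816425336/152587890625)) hu hv huv (by norm_num) (by norm_num) (by norm_num) (by norm_num) (by norm_num)
  have p4' : 0 < qp ((513/200) + (-2469/1000) * t) ((-3147/500) + (2597/500) * t) ((877/200) + (-48/25) * t) ((-1519/1000) + (-39/50) * t) ((77/100) + (-17/625) * t) := by
    refine lt_of_lt_of_eq p4 ?_
    unfold qp; ring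
  have q1 := bern4 (c0 := (16323327407361/610351562500)) (c1 := (952631695184583/305175781250)) (c2 := (982590289800409/152587890625)) (c3 := (597616020614634/152587890625)) (c4 := (87064078277544/152587890625)) hu hv huv (by norm_num) (by norm_num) (by norm_num) (by norm_num) (by norm_num)
  have q1' : 0 < 4 * ((513/200) + (-2469/1000) * t) - ((793/250) + (-1897/625) * t) * ((77/100) + (-17/625) * t) * (5 * ((77/100) + (-17/625) * t) + ((793/250) + (-1897/625) * t) + ((-1519/1000) + (-39/50) * t)) ^ 2 := by
    refine lt_of_lt_of_eq q1 ?_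
    ring
  have q2 := bern4 (c0 := (3045749518434961/610351562500)) (c1 := (4489292209032397/305175781250)) (c2 := (2277127053109042/152587890625)) (c3 := (899362513346712/152587890625)) (c4 := (105290150690976/152587890625)) hu hv huv (by norm_num) (by norm_num) (by norm_num) (by norm_num) (by norm_num)
  have q2' : 0 < 4 * ((513/200) + (-2469/1000) * t) - ((793/250) + (-1897/625) * t) * ((77/100) + (-17/625) * t) * (((-1519/1000) + (-39/50) * t) + ((13987/5000) + (-1682/625) * t) + ((381/500) + (-16/625) * t)) ^ 2 := by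
    refine lt_of_lt_of_eq q2 ?_
    ring
  have q3 := bern4 (c0 := (3196997303134609/610351562500)) (c1 := (4730551135154167/305175781250)) (c2 := (2404692667171561/152587890625)) (c3 := (950900254877706/152587890625)) (c4 := (112047842994216/152587890625)) hu hv huv (by norm_num) (by norm_num) (by norm_num) (by norm_num) (by norm_num)
  have q3' : 0 < 4 * ((513/200) + (-2469/1000) * t) - ((793/250) + (-1897/625) * t) * ((77/100) + (-17/625) * t) * (((-1519/1000) + (-39/50) * t) + ((793/250) + (-1897/625) * t) + ((77/100) + (-17/625) * t)) ^ 2 := by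
    refine lt_of_lt_of_eq q3 ?_
    ring
  exact mono_of_bounds (a1 := ((13987/5000) + (-1682/625) * t)) (a2 := ((793/250) + (-1897/625) * t)) (s1 := ((381/500) + (-16/625) * t)) (s2 := ((77/100) + (-17/625) * t)) l1 l2 l3 l4 p1' (neg_pos.1 p2') (neg_pos.1 p3') p4' (sub_pos.1 q1') (sub_pos.1 q2') (sub_pos.1 q3')

lemma pc02_0 {t : ℝ} (h0 : 0 ≤ t) (h1 : t ≤ (1/2)) : Mono (FF ((77/500) + (-29/500) * t) ((-7/2) + (12/5) * t) ((1063/200) + (-57/20) * t) ((-659/200) + (249/250) * t)) := by
  have hu : 0 ≤ t - 0 := by linarith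
  have hv : 0 ≤ (1/2) - t := by linarith
  have huv : 0 < (t - 0) + ((1/2) - t) := by linarith
  have l1 : 0 < ((43/1000) + (3/125) * t) := by linarith
  have l2 : ((43/1000) + (3/125) * t) < ((51/1000) + (13/500) * t) := by linarith
  have l3 : ((51/1000) + (13/500) * t) ≤ ((1201/1000) + (-69/250) * t) := by linarith
  have l4 : ((1201/1000) + (-69/250) * t) < ((61/50) + (-69/250) * t) := by linarith
  have p1 := bern4 (c0 := (3267219559/15625000000)) (c1 := (17774925193/31250000000)) (c2 := (4190458023/6250000000)) (c3 := (584675531/1250000000)) (c4 := (39244199/250000000)) hu hv huv (by norm_num) (by norm_num) (by norm_num) (by norm_num) (by norm_num)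
  have p1' : 0 < qp ((77/500) + (-29/500) * t) ((-7/2) + (12/5) * t) ((1063/200) + (-57/20) * t) ((-659/200) + (249/250) * t) ((43/1000) + (3/125) * t) := by
    refine lt_of_lt_of_eq p1 ?_
    unfold qp; ring
  have p2 := bern4 (c0 := (2776501211/15625000000)) (c1 := (54644037831/62500000000)) (c2 := (5169965263/3906250000)) (c3 := (36066823/48828125)) (c4 := (27277342/244140625)) hu hv huv (by norm_num) (by norm_num) (by norm_num) (by norm_num) (by norm_num)
  have p2' : 0 < -qp ((77/500) + (-29/500) * t) ((-7/2) + (12/5) * t) ((1063/200) + (-57/20) * t) ((-659/200) + (249/250) * t) ((51/1000) + (13/500) * t) := by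
    refine lt_of_lt_of_eq p2 ?_
    unfold qp; ring
  have p3 := bern4 (c0 := (5312152747/31250000000)) (c1 := (904365853/625000000)) (c2 := (9890508249/3906250000)) (c3 := (21154163939/15625000000)) (c4 := (3563454749/31250000000)) hu hv huv (by norm_num) (by norm_num) (by norm_num) (by norm_num) (by norm_num)
  have p3' : 0 < -qp ((77/500) + (-29/500) * t) ((-7/2) + (12/5) * t) ((1063/200) + (-57/20) * t) ((-659/200) + (249/250) * t) ((1201/1000) + (-69/250) * t) := by
    refine lt_of_lt_of_eq p3 ?_
    unfold qp; ring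
  have p4 := bern4 (c0 := (134807/312500)) (c1 := (475241/625000)) (c2 := (14893983/31250000)) (c3 := (141285779/312500000)) (c4 := (452144597/1562500000)) hu hv huv (by norm_num) (by norm_num) (by norm_num) (by norm_num) (by norm_num)
  have p4' : 0 < qp ((77/500) + (-29/500) * t) ((-7/2) + (12/5) * t) ((1063/200) + (-57/20) * t) ((-659/200) + (249/250) * t) ((61/50) + (-69/250) * t) := by
    refine lt_of_lt_of_eq p4 ?_
    unfold qp; ring
  have q1 := bern4 (c0 := (84756161/48828125)) (c1 := (4837648967/976562500)) (c2 := (74890228701/15625000000)) (c3 := (2042556697/1250000000)) (c4 := (29266011/488281250)) hu hv huv (by norm_num) (by norm_num) (by norm_num) (by norm_num) (by norm_num)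
  have q1' : 0 < 4 * ((77/500) + (-29/500) * t) - ((51/1000) + (13/500) * t) * ((61/50) + (-69/250) * t) * (5 * ((61/50) + (-69/250) * t) + ((51/1000) + (13/500) * t) + ((-659/200) + (249/250) * t)) ^ 2 := by
    refine lt_of_lt_of_eq q1 ?_
    ring
  have q2 := bern4 (c0 := (17713264289/3125000000)) (c1 := (679447372389/31250000000)) (c2 := (245436348417/7812500000)) (c3 := (631700058137/31250000000)) (c4 := (2381148819/488281250)) hu hv huv (by norm_num) (by norm_num) (by norm_num) (by norm_num) (by norm_num)
  have q2' : 0 < 4 * ((77/500) + (-29/500) * t) - ((51/1000) + (13/500) * t) * ((61/50) + (-69/250) * t) * (((-659/200) + (249/250) * t) + ((43/1000) + (3/125) * t) + ((1201/1000) + (-69/250) * t)) ^ 2 := by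
    refine lt_of_lt_of_eq q2 ?_
    ring
  have q3 := bern4 (c0 := (282118001/48828125)) (c1 := (21660162477/976562500)) (c2 := (501024492989/15625000000)) (c3 := (644976374817/31250000000)) (c4 := (2431591659/488281250)) hu hv huv (by norm_num) (by norm_num) (by norm_num) (by norm_num) (by norm_num)
  have q3' : 0 < 4 * ((77/500) + (-29/500) * t) - ((51/1000) + (13/500) * t) * ((61/50) + (-69/250) * t) * (((-659/200) + (249/250) * t) + ((51/1000) + (13/500) * t) + ((61/50) + (-69/250) * t)) ^ 2 := by
    refine lt_of_lt_of_eq q3 ?_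
    ring
  exact mono_of_bounds (a1 := ((43/1000) + (3/125) * t)) (a2 := ((51/1000) + (13/500) * t)) (s1 := ((1201/1000) + (-69/250) * t)) (s2 := ((61/50) + (-69/250) * t)) l1 l2 l3 l4 p1' (neg_pos.1 p2') (neg_pos.1 p3') p4' (sub_pos.1 q1') (sub_pos.1 q2') (sub_pos.1 q3')

lemma pc02_1 {t : ℝ} (h0 : (1/2) ≤ t) (h1 : t ≤ (3/4)) : Mono (FF ((77/500) + (-29/500) * t) ((-7/2) + (12/5) * t) ((1063/200) + (-57/20) * t) ((-659/200) + (249/250) * t)) := by
  have hu : 0 ≤ t - (1/2) := by linarith
  have hv : 0 ≤ (3/4) - t := by linarith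
  have huv : 0 < (t - (1/2)) + ((3/4) - t) := by linarith
  have l1 : 0 < ((69/2500) + (69/1250) * t) := by linarith
  have l2 : ((69/2500) + (69/1250) * t) < ((83/2500) + (77/1250) * t) := by linarith
  have l3 : ((83/2500) + (77/1250) * t) ≤ ((6423/5000) + (-553/1250) * t) := by linarith
  have l4 : ((6423/5000) + (-553/1250) * t) < ((1301/1000) + (-553/1250) * t) := by linarith
  have p1 := bern4 (c0 := (368430630476/152587890625)) (c1 := (219227377613/30517578125)) (c2 := (1773717777/195312500)) (c3 := (121790441887/19531250000)) (c4 := (7513703689/3906250000)) hu hv huv (by norm_num) (by norm_num) (by norm_num) (by norm_num) (by norm_num)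
  have p1' : 0 < qp ((77/500) + (-29/500) * t) ((-7/2) + (12/5) * t) ((1063/200) + (-57/20) * t) ((-659/200) + (249/250) * t) ((69/2500) + (69/1250) * t) := by
    refine lt_of_lt_of_eq p1 ?_
    unfold qp; ring
  have p2 := bern4 (c0 := (436437472/244140625)) (c1 := (2196893696/244140625)) (c2 := (85733187967/6103515625)) (c3 := (4048312519413/488281250000)) (c4 := (3552246113639/2441406250000)) hu hv huv (by norm_num) (by norm_num) (by norm_num) (by norm_num) (by norm_num)
  have p2' : 0 < -qp ((77/500) + (-29/500) * t) ((-7/2) + (12/5) * t) ((1063/200) + (-57/20) * t) ((-659/200) + (249/250) * t) ((83/2500) + (77/1250) * t) := by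
    refine lt_of_lt_of_eq p2 ?_
    unfold qp; ring
  have p3 := bern4 (c0 := (1032710945671/610351562500)) (c1 := (8181740072643/610351562500)) (c2 := (13780033617529/610351562500)) (c3 := (1824285753218/152587890625)) (c4 := (173848740884/152587890625)) hu hv huv (by norm_num) (by norm_num) (by norm_num) (by norm_num) (by norm_num)
  have p3' : 0 < -qp ((77/500) + (-29/500) * t) ((-7/2) + (12/5) * t) ((1063/200) + (-57/20) * t) ((-659/200) + (249/250) * t) ((6423/5000) + (-553/1250) * t) := by
    refine lt_of_lt_of_eq p3 ?_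
    unfold qp; ring
  have p4 := bern4 (c0 := (4718678722693/1220703125000)) (c1 := (8390899761863/1220703125000)) (c2 := (1544709903457/305175781250)) (c3 := (1443971509527/305175781250)) (c4 := (401344322626/152587890625)) hu hv huv (by norm_num) (by norm_num) (by norm_num) (by norm_num) (by norm_num)
  have p4' : 0 < qp ((77/500) + (-29/500) * t) ((-7/2) + (12/5) * t) ((1063/200) + (-57/20) * t) ((-659/200) + (249/250) * t) ((1301/1000) + (-553/1250) * t) := by
    refine lt_of_lt_of_eq p4 ?_
    unfold qp; ring
  have q1 := bern4 (c0 := (2755220624/1220703125)) (c1 := (98307362797/24414062500)) (c2 := (479178789481/122070312500)) (c3 := (9581436463373/2441406250000)) (c4 := (2203409975061/1220703125000)) hu hv huv (by norm_num) (by norm_num) (by norm_num) (by norm_num) (by norm_num)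
  have q1' : 0 < 4 * ((77/500) + (-29/500) * t) - ((83/2500) + (77/1250) * t) * ((1301/1000) + (-553/1250) * t) * (5 * ((1301/1000) + (-553/1250) * t) + ((83/2500) + (77/1250) * t) + ((-659/200) + (249/250) * t)) ^ 2 := by
    refine lt_of_lt_of_eq q1 ?_
    ring
  have q2 := bern4 (c0 := (2385337360256/30517578125)) (c1 := (45769369968788/152587890625)) (c2 := (13212696437907/30517578125)) (c3 := (679727483075349/2441406250000)) (c4 := (82109679137109/1220703125000)) hu hv huv (by norm_num) (by norm_num) (by norm_num) (by norm_num) (by norm_num)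
  have q2' : 0 < 4 * ((77/500) + (-29/500) * t) - ((83/2500) + (77/1250) * t) * ((1301/1000) + (-553/1250) * t) * (((-659/200) + (249/250) * t) + ((69/2500) + (69/1250) * t) + ((6423/5000) + (-553/1250) * t)) ^ 2 := by
    refine lt_of_lt_of_eq q2 ?_
    ring
  have q3 := bern4 (c0 := (2430665377424/30517578125)) (c1 := (186803300490573/610351562500)) (c2 := (269960845888379/610351562500)) (c3 := (139035510003529/488281250000)) (c4 := (84059659487621/1220703125000)) hu hv huv (by norm_num) (by norm_num) (by norm_num) (by norm_num) (by norm_num)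
  have q3' : 0 < 4 * ((77/500) + (-29/500) * t) - ((83/2500) + (77/1250) * t) * ((1301/1000) + (-553/1250) * t) * (((-659/200) + (249/250) * t) + ((83/2500) + (77/1250) * t) + ((1301/1000) + (-553/1250) * t)) ^ 2 := by
    refine lt_of_lt_of_eq q3 ?_
    ring
  exact mono_of_bounds (a1 := ((69/2500) + (69/1250) * t)) (a2 := ((83/2500) + (77/1250) * t)) (s1 := ((6423/5000) + (-553/1250) * t)) (s2 := ((1301/1000) + (-553/1250) * t)) l1 l2 l3 l4 p1' (neg_pos.1 p2') (neg_pos.1 p3') p4' (sub_pos.1 q1') (sub_pos.1 q2') (sub_pos.1 q3')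

lemma pc02_2 {t : ℝ} (h0 : (3/4) ≤ t) (h1 : t ≤ (7/8)) : Mono (FF ((77/500) + (-29/500) * t) ((-7/2) + (12/5) * t) ((1063/200) + (-57/20) * t) ((-659/200) + (249/250) * t)) := by
  have hu : 0 ≤ t - (3/4) := by linarith
  have hv : 0 ≤ (7/8) - t := by linarith
  have huv : 0 < (t - (3/4)) + ((7/8) - t) := by linarith
  have l1 : 0 < ((-1/40) + (3/25) * t) := by linarith
  have l2 : ((-1/40) + (3/25) * t) < ((-1/100) + (3/25) * t) := by linarith
  have l3 : ((-1/100) + (3/25) * t) ≤ ((57/40) + (-16/25) * t) := by linarith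
  have l4 : ((57/40) + (-16/25) * t) < ((29/20) + (-16/25) * t) := by linarith
  have p1 := bern4 (c0 := (101944349/1953125)) (c1 := (671669969/3906250)) (c2 := (431341506/1953125)) (c3 := (262296128/1953125)) (c4 := (64849024/1953125)) hu hv huv (by norm_num) (by norm_num) (by norm_num) (by norm_num) (by norm_num)
  have p1' : 0 < qp ((77/500) + (-29/500) * t) ((-7/2) + (12/5) * t) ((1063/200) + (-57/20) * t) ((-659/200) + (249/250) * t) ((-1/40) + (3/25) * t) := by
    refine lt_of_lt_of_eq p1 ?_
    unfold qp; ring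
  have p2 := bern4 (c0 := (51420928/1953125)) (c1 := (238030592/1953125)) (c2 := (371431476/1953125)) (c3 := (47020502/390625)) (c4 := (100553863/3906250)) hu hv huv (by norm_num) (by norm_num) (by norm_num) (by norm_num) (by norm_num)
  have p2' : 0 < -qp ((77/500) + (-29/500) * t) ((-7/2) + (12/5) * t) ((1063/200) + (-57/20) * t) ((-659/200) + (249/250) * t) ((-1/100) + (3/25) * t) := by
    refine lt_of_lt_of_eq p2 ?_
    unfold qp; ring
  have p3 := bern4 (c0 := (89588707/1953125)) (c1 := (800063967/3906250)) (c2 := (1139868841/3906250)) (c3 := (606685133/3906250)) (c4 := (88067389/3906250)) hu hv huv (by norm_num) (by norm_num) (by norm_num) (by norm_num) (by norm_num)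
  have p3' : 0 < -qp ((77/500) + (-29/500) * t) ((-7/2) + (12/5) * t) ((1063/200) + (-57/20) * t) ((-659/200) + (249/250) * t) ((57/40) + (-16/25) * t) := by
    refine lt_of_lt_of_eq p3 ?_
    unfold qp; ring
  have p4 := bern4 (c0 := (88094048/1953125)) (c1 := (259239964/1953125)) (c2 := (346663732/1953125)) (c3 := (262837396/1953125)) (c4 := (87137308/1953125)) hu hv huv (by norm_num) (by norm_num) (by norm_num) (by norm_num) (by norm_num)
  have p4' : 0 < qp ((77/500) + (-29/500) * t) ((-7/2) + (12/5) * t) ((1063/200) + (-57/20) * t) ((-659/200) + (249/250) * t) ((29/20) + (-16/25) * t) := by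
    refine lt_of_lt_of_eq p4 ?_
    unfold qp; ring
  have q1 := bern4 (c0 := (68139904/9765625)) (c1 := (222998536/1953125)) (c2 := (3402421924/9765625)) (c3 := (7301467853/19531250)) (c4 := (2596844141/19531250)) hu hv huv (by norm_num) (by norm_num) (by norm_num) (by norm_num) (by norm_num)
  have q1' : 0 < 4 * ((77/500) + (-29/500) * t) - ((-1/100) + (3/25) * t) * ((29/20) + (-16/25) * t) * (5 * ((29/20) + (-16/25) * t) + ((-1/100) + (3/25) * t) + ((-659/200) + (249/250) * t)) ^ 2 := by
    refine lt_of_lt_of_eq q1 ?_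
    ring
  have q2 := bern4 (c0 := (10337661824/9765625)) (c1 := (7997522568/1953125)) (c2 := (58099085124/9765625)) (c3 := (75152079693/19531250)) (c4 := (18254151341/19531250)) hu hv huv (by norm_num) (by norm_num) (by norm_num) (by norm_num) (by norm_num)
  have q2' : 0 < 4 * ((77/500) + (-29/500) * t) - ((-1/100) + (3/25) * t) * ((29/20) + (-16/25) * t) * (((-659/200) + (249/250) * t) + ((-1/40) + (3/25) * t) + ((57/40) + (-16/25) * t)) ^ 2 := by
    refine lt_of_lt_of_eq q2 ?_
    ring
  have q3 := bern4 (c0 := (10714611584/9765625)) (c1 := (8304045256/1953125)) (c2 := (60427846004/9765625)) (c3 := (78287497613/19531250)) (c4 := (19043374861/19531250)) hu hv huv (by norm_num) (by norm_num) (by norm_num) (by norm_num) (by norm_num)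
  have q3' : 0 < 4 * ((77/500) + (-29/500) * t) - ((-1/100) + (3/25) * t) * ((29/20) + (-16/25) * t) * (((-659/200) + (249/250) * t) + ((-1/100) + (3/25) * t) + ((29/20) + (-16/25) * t)) ^ 2 := by
    refine lt_of_lt_of_eq q3 ?_
    ring
  exact mono_of_bounds (a1 := ((-1/40) + (3/25) * t)) (a2 := ((-1/100) + (3/25) * t)) (s1 := ((57/40) + (-16/25) * t)) (s2 := ((29/20) + (-16/25) * t)) l1 l2 l3 l4 p1' (neg_pos.1 p2') (neg_pos.1 p3') p4' (sub_pos.1 q1') (sub_pos.1 q2') (sub_pos.1 q3')

lemma pc02_3 {t : ℝ} (h0 : (7/8) ≤ t) (h1 : t ≤ 1) : Mono (FF ((77/500) + (-29/500) * t) ((-7/2) + (12/5) * t) ((1063/200) + (-57/20) * t) ((-659/200) + (249/250) * t)) := by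
  have hu : 0 ≤ t - (7/8) := by linarith
  have hv : 0 ≤ 1 - t := by linarith
  have huv : 0 < (t - (7/8)) + (1 - t) := by linarith
  have l1 : 0 < ((-3/50) + (4/25) * t) := by linarith
  have l2 : ((-3/50) + (4/25) * t) < ((-2/25) + (1/5) * t) := by linarith
  have l3 : ((-2/25) + (1/5) * t) ≤ ((361/200) + (-27/25) * t) := by linarith
  have l4 : ((361/200) + (-27/25) * t) < ((361/200) + (-26/25) * t) := by linarith
  have p1 := bern4 (c0 := (64849024/1953125)) (c1 := (216772736/1953125)) (c2 := (61555232/390625)) (c3 := (8938048/78125)) (c4 := (540864/15625)) hu hv huv (by norm_num) (by norm_num) (by norm_num) (by norm_num) (by norm_num)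
  have p1' : 0 < qp ((77/500) + (-29/500) * t) ((-7/2) + (12/5) * t) ((1063/200) + (-57/20) * t) ((-659/200) + (249/250) * t) ((-3/50) + (4/25) * t) := by
    refine lt_of_lt_of_eq p1 ?_
    unfold qp; ring
  have p2 := bern4 (c0 := (100553863/3906250)) (c1 := (241204883/1953125)) (c2 := (72778576/390625)) (c3 := (207138112/1953125)) (c4 := (34154496/1953125)) hu hv huv (by norm_num) (by norm_num) (by norm_num) (by norm_num) (by norm_num)
  have p2' : 0 < -qp ((77/500) + (-29/500) * t) ((-7/2) + (12/5) * t) ((1063/200) + (-57/20) * t) ((-659/200) + (249/250) * t) ((-2/25) + (1/5) * t) := by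
    refine lt_of_lt_of_eq p2 ?_
    unfold qp; ring
  have p3 := bern4 (c0 := (69016448/1953125)) (c1 := (413487192/1953125)) (c2 := (128045172/390625)) (c3 := (27293803/156250)) (c4 := (361686/15625)) hu hv huv (by norm_num) (by norm_num) (by norm_num) (by norm_num) (by norm_num)
  have p3' : 0 < -qp ((77/500) + (-29/500) * t) ((-7/2) + (12/5) * t) ((1063/200) + (-57/20) * t) ((-659/200) + (249/250) * t) ((361/200) + (-27/25) * t) := by
    refine lt_of_lt_of_eq p3 ?_
    unfold qp; ring
  have p4 := bern4 (c0 := (229337177/3906250)) (c1 := (103277553/781250)) (c2 := (556159727/3906250)) (c3 := (433911567/3906250)) (c4 := (82497882/1953125)) hu hv huv (by norm_num) (by norm_num) (by norm_num) (by norm_num) (by norm_num)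
  have p4' : 0 < qp ((77/500) + (-29/500) * t) ((-7/2) + (12/5) * t) ((1063/200) + (-57/20) * t) ((-659/200) + (249/250) * t) ((361/200) + (-26/25) * t) := by
    refine lt_of_lt_of_eq p4 ?_
    unfold qp; ring
  have q1 := bern4 (c0 := (3400083551/39062500)) (c1 := (30800151741/39062500)) (c2 := (18608614468/9765625)) (c3 := (17137424036/9765625)) (c4 := (5411391648/9765625)) hu hv huv (by norm_num) (by norm_num) (by norm_num) (by norm_num) (by norm_num)
  have q1' : 0 < 4 * ((77/500) + (-29/500) * t) - ((-2/25) + (1/5) * t) * ((361/200) + (-26/25) * t) * (5 * ((361/200) + (-26/25) * t) + ((-2/25) + (1/5) * t) + ((-659/200) + (249/250) * t)) ^ 2 := by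
    refine lt_of_lt_of_eq q1 ?_
    ring
  have q2 := bern4 (c0 := (36140694311/39062500)) (c1 := (136776187701/39062500)) (c2 := (48668195548/9765625)) (c3 := (30891244196/9765625)) (c4 := (7381933728/9765625)) hu hv huv (by norm_num) (by norm_num) (by norm_num) (by norm_num) (by norm_num)
  have q2' : 0 < 4 * ((77/500) + (-29/500) * t) - ((-2/25) + (1/5) * t) * ((361/200) + (-26/25) * t) * (((-659/200) + (249/250) * t) + ((-3/50) + (4/25) * t) + ((361/200) + (-27/25) * t)) ^ 2 := by
    refine lt_of_lt_of_eq q2 ?_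
    ring
  have q3 := bern4 (c0 := (38124837711/39062500)) (c1 := (145323807581/39062500)) (c2 := (52093864288/9765625)) (c3 := (33312290276/9765625)) (c4 := (8018217888/9765625)) hu hv huv (by norm_num) (by norm_num) (by norm_num) (by norm_num) (by norm_num)
  have q3' : 0 < 4 * ((77/500) + (-29/500) * t) - ((-2/25) + (1/5) * t) * ((361/200) + (-26/25) * t) * (((-659/200) + (249/250) * t) + ((-2/25) + (1/5) * t) + ((361/200) + (-26/25) * t)) ^ 2 := by
    refine lt_of_lt_of_eq q3 ?_
    ring
  exact mono_of_bounds (a1 := ((-3/50) + (4/25) * t)) (a2 := ((-2/25) + (1/5) * t)) (s1 := ((361/200) + (-27/25) * t)) (s2 := ((361/200) + (-26/25) * t)) l1 l2 l3 l4 p1' (neg_pos.1 p2') (neg_pos.1 p3') p4' (sub_pos.1 q1') (sub_pos.1 q2') (sub_pos.1 q3')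

lemma edge01 {t : ℝ} (h0 : 0 ≤ t) (h1 : t ≤ 1) : Mono (FF ((77/500) + (2411/1000) * t) ((-7/2) + (-1397/500) * t) ((1063/200) + (-93/100) * t) ((-659/200) + (222/125) * t)) := by
  rcases le_total t (1/2) with g0 | g0
  · exact pc01_0 h0 g0
  exact pc01_1 g0 h1

lemma edge12 {t : ℝ} (h0 : 0 ≤ t) (h1 : t ≤ 1) : Mono (FF ((513/200) + (-2469/1000) * t) ((-3147/500) + (2597/500) * t) ((877/200) + (-48/25) * t) ((-1519/1000) + (-39/50) * t)) := by
  rcases le_total t (1/4) with g0 | g0
  · exact pc12_0 h0 g0
  rcases le_total t (1/2) with g1 | g1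
  · exact pc12_1 g0 g1
  rcases le_total t (5/8) with g2 | g2
  · exact pc12_2 g1 g2
  rcases le_total t (3/4) with g3 | g3
  · exact pc12_3 g2 g3
  rcases le_total t (7/8) with g4 | g4
  · exact pc12_4 g3 g4
  exact pc12_5 g4 h1

lemma edge02 {t : ℝ} (h0 : 0 ≤ t) (h1 : t ≤ 1) : Mono (FF ((77/500) + (-29/500) * t) ((-7/2) + (12/5) * t) ((1063/200) + (-57/20) * t) ((-659/200) + (249/250) * t)) := by
  rcases le_total t (1/2) with g0 | g0
  · exact pc02_0 h0 g0
  rcases le_total t (3/4) with g1 | g1
  · exact pc02_1 g0 g1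
  rcases le_total t (7/8) with g2 | g2
  · exact pc02_2 g1 g2
  exact pc02_3 g2 h1

end Pool.Agent.R259
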