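import Mathlib
import Pool.Agent.R259.Cpt2

set_option autoImplicit false

namespace Pool.Agent.R259

lemma mono_smul {F : ℂ → ℂ} {c : ℂ} (hc : c ≠ 0) (h : Mono F) : Mono (fun z => c * F z) := by
  obtain ⟨⟨z, hz⟩, h1, h2⟩ := h
  refine ⟨⟨z, mul_ne_zero hc hz⟩, ?_, ?_⟩
  · intro a b ha1 ha2 hb1 hb2 ha hb
    exact h1 a b ha1 ha2 hb1 hb2 ((mul_eq_zero.1 ha).resolve_left hc) ((mul_eq_zero.1 hb).resolve_left hc)
  · intro a b ha1 ha2 hb1 hb2 ha hb
    exact h2 a b ha1 ha2 hb1 hb2 ((mul_eq_zero.1 ha).resolve_left hc) ((mul_eq_zero.1 hb).resolve_left hc)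

lemma mono_comb {b0 b1 b2 b3 c0 c1 c2 c3 : ℝ}
    (h : ∀ t : ℝ, 0 ≤ t → t ≤ 1 → Mono (FF (b0 + (c0 - b0) * t) (b1 + (c1 - b1) * t)
      (b2 + (c2 - b2) * t) (b3 + (c3 - b3) * t)))
    {a c : ℝ} (ha : 0 ≤ a) (hc : 0 ≤ c) (hac : ∃ z, (a : ℂ) * FF b0 b1 b2 b3 z + (c : ℂ) * FF c0 c1 c2 c3 z ≠ 0) :
    Mono (fun z => (a : ℂ) * FF b0 b1 b2 b3 z + (c : ℂ) * FF c0 c1 c2 c3 z) := by
  have hpos : 0 < a + c := by
    rcases eq_or_lt_of_le ha with h1 | h1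
    · rcases eq_or_lt_of_le hc with h2 | h2
      · exfalso
        obtain ⟨z, hz⟩ := hac
        apply hz
        rw [← h1, ← h2]; simp
      · linarith
    · linarith
  have hne : ((a + c : ℝ) : ℂ) ≠ 0 := by exact_mod_cast hpos.ne'
  have h1 := mono_smul hne (h (c / (a + c)) (by positivity) (by rw [div_le_one hpos]; linarith))
  have h2 : (fun z => ((a + c : ℝ) : ℂ) * FF (b0 + (c0 - b0) * (c / (a + c)))
      (b1 + (c1 - b1) * (c / (a + c))) (b2 + (c2 - b2) * (c / (a + c)))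
      (b3 + (c3 - b3) * (c / (a + c))) z) =
      fun z => (a : ℂ) * FF b0 b1 b2 b3 z + (c : ℂ) * FF c0 c1 c2 c3 z := by
    funext z
    unfold FF
    push_cast
    have hne' : (a : ℂ) + c ≠ 0 := by exact_mod_cast hne
    field_simp
    ring
  rwa [h2] at h1

/-- the three functions -/
noncomputable def f1 : ℂ → ℂ := FF (77/500) (-7/2) (1063/200) (-659/200)
noncomputable def f2 : ℂ → ℂ := FF (513/200) (-3147/500) (877/200) (-1519/1000)
noncomputable def f3 : ℂ → ℂ := FF (12/125) (-11/10) (493/200) (-2299/1000)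

lemma e01 {a c : ℝ} (ha : 0 ≤ a) (hc : 0 ≤ c) (hac : ∃ z, (a : ℂ) * f1 z + (c : ℂ) * f2 z ≠ 0) :
    Mono (fun z => (a : ℂ) * f1 z + (c : ℂ) * f2 z) := by
  refine mono_comb (fun t h0 h1 => ?_) ha hc hac
  convert edge01 h0 h1 using 2 <;> ring

lemma e12 {a c : ℝ} (ha : 0 ≤ a) (hc : 0 ≤ c) (hac : ∃ z, (a : ℂ) * f2 z + (c : ℂ) * f3 z ≠ 0) :
    Mono (fun z => (a : ℂ) * f2 z + (c : ℂ) * f3 z) := by
  refine mono_comb (fun t h0 h1 => ?_) ha hc hac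
  convert edge12 h0 h1 using 2 <;> ring

lemma e02 {a c : ℝ} (ha : 0 ≤ a) (hc : 0 ≤ c) (hac : ∃ z, (a : ℂ) * f1 z + (c : ℂ) * f3 z ≠ 0) :
    Mono (fun z => (a : ℂ) * f1 z + (c : ℂ) * f3 z) := by
  refine mono_comb (fun t h0 h1 => ?_) ha hc hac
  convert edge02 h0 h1 using 2 <;> ring

lemma m1 : Mono f1 := by
  have := edge01 (t := 0) le_rfl zero_le_one
  unfold f1
  convert this using 2 <;> ring

lemma m2 : Mono f2 := by
  have := edge01 (t := 1) zero_le_one le_rfl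
  unfold f2
  convert this using 2 <;> ring

lemma m3 : Mono f3 := by
  have := edge02 (t := 1) zero_le_one le_rfl
  unfold f3
  convert this using 2 <;> ring

lemma center : ¬ Mono (fun z => ((18 / 100 : ℝ) : ℂ) * f1 z + ((28 / 100 : ℝ) : ℂ) * f2 z +
    ((54 / 100 : ℝ) : ℂ) * f3 z) := by
  have h := not_mono_of_bounds (b0 := 2493/3125) (b1 := -37329/12500) (b2 := 8789/2500)
    (b3 := -56497/25000) (a1 := 1123/2500) (a2 := 4529/10000) (s1 := 1169/1250) (s2 := 9433/10000)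
    (by norm_num) (by norm_num) (by norm_num) (by norm_num) (by norm_num [qp]) (by norm_num [qp])
    (by norm_num [qp]) (by norm_num [qp]) (by norm_num) (by norm_num) (by norm_num) (by norm_num)
  intro h1
  apply h
  convert h1 using 1
  funext z
  unfold f1 f2 f3 FF
  push_cast
  ring

lemma FF_diff (b0 b1 b2 b3 : ℝ) : Differentiable ℂ (FF b0 b1 b2 b3) := by
  unfold FF; fun_prop

lemma FF_even (b0 b1 b2 b3 : ℝ) (z : ℂ) : FF b0 b1 b2 b3 (-z) = FF b0 b1 b2 b3 z := by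
  unfold FF; rw [neg_sq]

lemma FF_real (b0 b1 b2 b3 : ℝ) (x : ℝ) : (FF b0 b1 b2 b3 (x : ℂ)).im = 0 := by
  have : FF b0 b1 b2 b3 (x : ℂ) = ((qp b0 b1 b2 b3 (x ^ 2) : ℝ) : ℂ) := by
    unfold FF qp; push_cast; ring
  rw [this]; exact Complex.ofReal_im _

end Pool.Agent.R259
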