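import Mathlib
import Pool.Agent.R259.BesG

set_option autoImplicit false

namespace Pool.Agent.R259

open Filter Topology Polynomial

/-- `Γ(2m+ν+1)/Γ(2m+ν) = 2m+ν` in the form needed. -/
lemma gamma_coef {ν : ℝ} (hν : ∀ k : ℤ, ν ≠ k) (m : ℕ) :
    Real.Gamma (2 * m + ν + 1) / (m.factorial * Real.Gamma (m + ν + 1) *
      Real.Gamma (2 * m + ν - ((1 : ℕ) : ℝ) + 1)) =
    (2 * m + ν) / (m.factorial * Real.Gamma (m + ν + 1)) := by
  have h1 : (2 * m + ν : ℝ) ≠ 0 := by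
    intro h
    apply hν (-(2 * m))
    push_cast
    linarith
  have h2 : Real.Gamma (2 * m + ν) ≠ 0 := by
    apply Real.Gamma_ne_zero
    intro k h
    apply hν (-(2 * m) - k)
    push_cast
    linarith
  have h3 : (2 * m + ν - ((1 : ℕ) : ℝ) + 1 : ℝ) = 2 * m + ν := by push_cast; ring
  have h4 : Real.Gamma (m + ν + 1) ≠ 0 := by
    apply Real.Gamma_ne_zero
    intro k h
    apply hν (-(m : ℤ) - 1 - k)
    push_cast
    linarith
  rw [h3, Real.Gamma_add_one h1]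
  field_simp

lemma re_tsum_real (a : ℕ → ℝ) (x : ℝ) :
    (∑' m : ℕ, a m * x ^ m) = (∑' m : ℕ, ((a m : ℝ) : ℂ) * (x : ℂ) ^ m).re := by
  have : (∑' m : ℕ, ((a m : ℝ) : ℂ) * (x : ℂ) ^ m) = (((∑' m : ℕ, a m * x ^ m) : ℝ) : ℂ) := by
    rw [Complex.ofReal_tsum]
    refine tsum_congr fun m => ?_
    push_cast; ring
  rw [this, Complex.ofReal_re]

end Pool.Agent.R259
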