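import Mathlib
import Pool.Agent.R259.GP1

namespace Pool.Agent.R259.GP
open Set

theorem MM_pos {x : ℝ} (h0 : -(1/1000) ≤ x) (h1 : x ≤ 1) : 0 < MM x := by
  rcases le_total 0 x with hx | hx
  · rcases le_total x (1/2) with h | h
    · have := MM_half1 (2 * x) (1 - 2 * x) (by linarith) (by linarith) (by ring)
      have e : 2 * x / 2 = x := by ring
      rwa [e] at this
    · have := MM_half2 (2 * x - 1) (2 - 2 * x) (by linarith) (by linarith) (by ring)
      have e : 1 / 2 + (2 * x - 1) / 2 = x := by ring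
      rwa [e] at this
  · -- negative part
    obtain ⟨y, rfl⟩ : ∃ y, x = -y := ⟨-x, by ring⟩
    have hy0 : 0 ≤ y := by linarith
    have hy1 : y ≤ 1/1000 := by linarith
    have hp : ∀ k : ℕ, 0 ≤ y ^ k := fun k => pow_nonneg hy0 k
    have hq : ∀ k : ℕ, 5 ≤ k → y ^ k ≤ 1/10^15 := by
      intro k hk
      calc y ^ k ≤ y ^ 5 := pow_le_pow_of_le_one hy0 (by linarith) hk
        _ ≤ (1/1000)^5 := pow_le_pow_left₀ hy0 hy1 5
        _ = 1/10^15 := by norm_num
    have e : MM (-y) = 2640 - 184584 * y + 2215188 * y ^ 2 + 94760892 * y ^ 3 + 1160899380 * y ^ 4 + (MM (-y) - (2640 - 184584 * y + 2215188 * y ^ 2 + 94760892 * y ^ 3 + 1160899380 * y ^ 4)) := by ring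
    have h2 := hp 2
    have h3 := hp 3
    have h4 := hp 4
    have rest : -10 ≤ (MM (-y) - (2640 - 184584 * y + 2215188 * y ^ 2 + 94760892 * y ^ 3 + 1160899380 * y ^ 4)) := by
      unfold MM
      have a5 := hp 5
      have a6 := hp 6
      have a7 := hp 7
      have a8 := hp 8
      have a9 := hp 9
      have a11 := hp 11
      have a12 := hp 12
      have a13 := hp 13
      have a14 := hp 14
      have a15 := hp 15
      have a16 := hp 16
      have a17 := hp 17
      have a18 := hp 18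
      have a19 := hp 19
      have a20 := hp 20
      have a21 := hp 21
      have a22 := hp 22
      have a10 := hp 10
      have a23 := hp 23
      have a24 := hp 24
      have a25 := hp 25
      have a26 := hp 26
      have a27 := hp 27
      have a28 := hp 28
      have b10 := hq 10 (by norm_num)
      have b11 := hq 11 (by norm_num)
      have b22 := hq 22 (by norm_num)
      have b23 := hq 23 (by norm_num)
      have b24 := hq 24 (by norm_num)
      have b25 := hq 25 (by norm_num)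
      have b26 := hq 26 (by norm_num)
      have b27 := hq 27 (by norm_num)
      have b28 := hq 28 (by norm_num)
      norm_num at *
      ring_nf at *
      linarith
    nlinarith [h2, h3, h4, rest]

theorem g1_pos {x : ℝ} (h0 : -(1/1000) ≤ x) (h1 : x ≤ 1 + 1/1000) : 0 < g1 x := by
  rcases le_total 0 x with hx | hx
  · rcases le_total x 1 with h | h
    · have hb : 0 ≤ 1 - x := by linarith
      have e : g1 x = (1-x)^6 + 66 * x * (1-x)^5 + 15 * x^2*(1-x)^4 + 40 * x^3 * (1-x)^3 + 105 * x^4 * (1-x)^2 + 54 * x^5*(1-x) + 32 * x^6 := by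
        unfold g1; ring
      rw [e]
      rcases eq_or_lt_of_le hx with h' | h'
      · rw [← h']; norm_num
      · positivity
    · obtain ⟨s, rfl⟩ : ∃ s, x = 1 + s := ⟨x - 1, by ring⟩
      have hs0 : 0 ≤ s := by linarith
      have hs1 : s ≤ 1/1000 := by linarith
      have hp : ∀ k : ℕ, 0 ≤ s ^ k := fun k => pow_nonneg hs0 k
      have hq : ∀ k : ℕ, 1 ≤ k → s ^ k ≤ 1/1000 := by
        intro k hk
        calc s ^ k ≤ s ^ 1 := pow_le_pow_of_le_one hs0 (by linarith) hk
          _ ≤ 1/1000 := by simpa using hs1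
      unfold g1
      ring_nf
      nlinarith [hp 1, hp 2, hp 3, hp 4, hp 5, hp 6, hq 1 (by norm_num), hq 2 (by norm_num), hq 3 (by norm_num), hq 4 (by norm_num), hq 5 (by norm_num), hq 6 (by norm_num)]
  · obtain ⟨s, rfl⟩ : ∃ s, x = -s := ⟨-x, by ring⟩
    have hs0 : 0 ≤ s := by linarith
    have hs1 : s ≤ 1/1000 := by linarith
    have hp : ∀ k : ℕ, 0 ≤ s ^ k := fun k => pow_nonneg hs0 k
    have hq : ∀ k : ℕ, 2 ≤ k → s ^ k ≤ 1/1000000 := by
      intro k hk
      calc s ^ k ≤ s ^ 2 := pow_le_pow_of_le_one hs0 (by linarith) hk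
        _ ≤ (1/1000)^2 := pow_le_pow_left₀ hs0 hs1 2
        _ = 1/1000000 := by norm_num
    unfold g1
    ring_nf
    nlinarith [hp 1, hp 2, hp 3, hp 4, hp 5, hp 6, hq 2 (by norm_num), hq 3 (by norm_num), hq 4 (by norm_num), hq 5 (by norm_num), hq 6 (by norm_num)]

theorem g2_pos {x : ℝ} (h0 : -(1/1000) ≤ x) (h1 : x ≤ 1 + 1/1000) : 0 < g2 x := by
  rcases le_total 0 x with hx | hx
  · rcases le_total x 1 with h | h
    · have hb : 0 ≤ 1 - x := by linarith
      have e : g2 x = (1-x)^6 + 165/2 * x^3 * (1-x)^3 + 64 * x^6 := by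
        unfold g2; ring
      rw [e]
      rcases eq_or_lt_of_le hx with h' | h'
      · rw [← h']; norm_num
      · positivity
    · obtain ⟨s, rfl⟩ : ∃ s, x = 1 + s := ⟨x - 1, by ring⟩
      have hs0 : 0 ≤ s := by linarith
      have hs1 : s ≤ 1/1000 := by linarith
      have hp : ∀ k : ℕ, 0 ≤ s ^ k := fun k => pow_nonneg hs0 k
      have hq : ∀ k : ℕ, 1 ≤ k → s ^ k ≤ 1/1000 := by
        intro k hk
        calc s ^ k ≤ s ^ 1 := pow_le_pow_of_le_one hs0 (by linarith) hk
          _ ≤ 1/1000 := by simpa using hs1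
      unfold g2
      ring_nf
      nlinarith [hp 1, hp 2, hp 3, hp 4, hp 5, hp 6, hq 1 (by norm_num), hq 2 (by norm_num), hq 3 (by norm_num), hq 4 (by norm_num), hq 5 (by norm_num), hq 6 (by norm_num)]
  · obtain ⟨s, rfl⟩ : ∃ s, x = -s := ⟨-x, by ring⟩
    have hs0 : 0 ≤ s := by linarith
    have hs1 : s ≤ 1/1000 := by linarith
    have hp : ∀ k : ℕ, 0 ≤ s ^ k := fun k => pow_nonneg hs0 k
    have hq : ∀ k : ℕ, 2 ≤ k → s ^ k ≤ 1/1000000 := by
      intro k hk
      calc s ^ k ≤ s ^ 2 := pow_le_pow_of_le_one hs0 (by linarith) hk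
        _ ≤ (1/1000)^2 := pow_le_pow_left₀ hs0 hs1 2
        _ = 1/1000000 := by norm_num
    unfold g2
    ring_nf
    nlinarith [hp 1, hp 2, hp 3, hp 4, hp 5, hp 6, hq 2 (by norm_num), hq 3 (by norm_num), hq 4 (by norm_num), hq 5 (by norm_num), hq 6 (by norm_num)]

theorem DD_pos {x : ℝ} (h0 : -(1/1000) ≤ x) (h1 : x ≤ 1) : 0 < DD x := by
  rcases le_total 0 x with hx | hx
  · have hb : 0 ≤ 1 - x := by linarith
    have e : DD x = 7*(1-x)^5 + 2628 * x*(1-x)^4 + 4775*x^2*(1-x)^3 + 4080*x^3*(1-x)^2 + 4107*x^4*(1-x) + 2080*x^5 := by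
      unfold DD; ring
    rw [e]
    rcases eq_or_lt_of_le hx with h' | h'
    · rw [← h']; norm_num
    · positivity
  · obtain ⟨s, rfl⟩ : ∃ s, x = -s := ⟨-x, by ring⟩
    have hs0 : 0 ≤ s := by linarith
    have hs1 : s ≤ 1/1000 := by linarith
    have hp : ∀ k : ℕ, 0 ≤ s ^ k := fun k => pow_nonneg hs0 k
    have hq : ∀ k : ℕ, 2 ≤ k → s ^ k ≤ 1/1000000 := by
      intro k hk
      calc s ^ k ≤ s ^ 2 := pow_le_pow_of_le_one hs0 (by linarith) hk
        _ ≤ (1/1000)^2 := pow_le_pow_left₀ hs0 hs1 2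
        _ = 1/1000000 := by norm_num
    unfold DD
    ring_nf
    nlinarith [hp 1, hp 2, hp 3, hp 4, hp 5, hp 6, hq 2 (by norm_num), hq 3 (by norm_num), hq 4 (by norm_num), hq 5 (by norm_num), hq 6 (by norm_num)]

end Pool.Agent.R259.GP
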