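import Mathlib

/-! Smooth local inverse of a strictly increasing function, and the associated radial solution. -/

namespace Pool.Agent.R259.GP
open Set Filter Topology

theorem exists_inv {P g : ℝ → ℝ} (hP : ∀ x, HasDerivAt P (g x) x) (hPs : ContDiff ℝ 2 P) {a b : ℝ}
    (hab : a < b) (hg : ∀ x ∈ Icc a b, 0 < g x) :
    ∃ y : ℝ → ℝ, (∀ t ∈ Ioo (P a) (P b), y t ∈ Ioo a b ∧ P (y t) = t ∧
      HasDerivAt y (g (y t))⁻¹ t ∧ ContDiffAt ℝ 2 y t) ∧ ∀ x ∈ Ioo a b, y (P x) = x := by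
  have hcont : Continuous P := hPs.continuous
  have hmono : StrictMonoOn P (Icc a b) := by
    apply strictMonoOn_of_deriv_pos (convex_Icc a b) hcont.continuousOn
    intro x hx
    rw [interior_Icc] at hx
    rw [(hP x).deriv]
    exact hg x ⟨hx.1.le, hx.2.le⟩
  set y : ℝ → ℝ := Function.invFunOn P (Icc a b) with hy
  have hyP : ∀ x ∈ Icc a b, y (P x) = x := fun x hx => hmono.injOn.leftInvOn_invFunOn hx
  have hmem : ∀ t ∈ Ioo (P a) (P b), y t ∈ Ioo a b ∧ P (y t) = t := by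
    intro t ht
    have hex : ∃ x ∈ Icc a b, P x = t := by
      obtain ⟨x, hx, hxt⟩ := intermediate_value_Icc hab.le hcont.continuousOn ⟨ht.1.le, ht.2.le⟩
      exact ⟨x, hx, hxt⟩
    have h1 : y t ∈ Icc a b := Function.invFunOn_mem hex
    have h2 : P (y t) = t := Function.invFunOn_eq hex
    refine ⟨⟨lt_of_le_of_ne h1.1 ?_, lt_of_le_of_ne h1.2 ?_⟩, h2⟩
    · intro h
      rw [← h] at h2
      exact absurd h2 (ne_of_lt ht.1)
    · intro h
      rw [h] at h2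
      exact absurd h2.symm (ne_of_lt ht.2)
  refine ⟨y, ?_, fun x hx => hyP x ⟨hx.1.le, hx.2.le⟩⟩
  intro t ht
  obtain ⟨h1, h2⟩ := hmem t ht
  have hgne : g (y t) ≠ 0 := (hg _ ⟨h1.1.le, h1.2.le⟩).ne'
  have hc : ContDiffAt ℝ 2 P (y t) := hPs.contDiffAt
  have hf' : HasFDerivAt P ((ContinuousLinearEquiv.unitsEquivAut ℝ (Units.mk0 (g (y t)) hgne) : ℝ ≃L[ℝ] ℝ) : ℝ →L[ℝ] ℝ) (y t) := by
    have := (hP (y t)).hasFDerivAt
    refine this.congr_fderiv ?_
    ext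
    simp
  have hn : (2 : WithTop ℕ∞) ≠ 0 := by norm_num
  have hloc := hc.to_localInverse hf' hn
  have hlocv := hc.localInverse_apply_image hf' hn
  rw [h2] at hloc hlocv
  set ψ := hc.localInverse hf' hn with hψ
  have hright : ∀ᶠ s in 𝓝 t, P (ψ s) = s := by
    have := (hc.hasStrictFDerivAt' hf' hn).eventually_right_inverse
    rw [h2] at this
    exact this
  have hψc : Tendsto ψ (𝓝 t) (𝓝 (y t)) := by
    have := hloc.continuousAt.tendsto
    rw [hlocv] at this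
    exact this
  have hmemψ : ∀ᶠ s in 𝓝 t, ψ s ∈ Ioo a b := hψc (Ioo_mem_nhds h1.1 h1.2)
  have heq : y =ᶠ[𝓝 t] ψ := by
    filter_upwards [hright, hmemψ] with s hs1 hs2
    have := hyP (ψ s) ⟨hs2.1.le, hs2.2.le⟩
    rw [hs1] at this
    exact this
  have hcd : ContDiffAt ℝ 2 y t := hloc.congr_of_eventuallyEq heq
  refine ⟨h1, h2, ?_, hcd⟩
  apply HasDerivAt.of_local_left_inverse hcd.continuousAt (hP (y t)) hgne
  filter_upwards [Ioo_mem_nhds ht.1 ht.2] with s hs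
  exact (hmem s hs).2


/-- The radial solution `u(r) = 1 - y(r^2)`, with `y` the inverse of `T / L`. -/
theorem sol {T g g' : ℝ → ℝ} {L d : ℝ} (hT : ∀ x, HasDerivAt T (g x) x)
    (hg : ∀ x, HasDerivAt g (g' x) x) (hTs : ContDiff ℝ 2 T) (h0 : T 0 = 0) (h1 : T 1 = L)
    (hL : 0 < L) (hd : 0 < d) (hpos : ∀ x ∈ Icc (-d) (1 + d), 0 < g x) :
    ∃ u : ℝ → ℝ, ContDiffOn ℝ 2 u (Icc 0 1) ∧ u 0 = 1 ∧ u 1 = 0 ∧
      derivWithin u (Icc 0 1) 0 = 0 ∧ (∀ r ∈ Ico (0:ℝ) 1, 0 < u r) ∧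
      (∀ r ∈ Icc (0:ℝ) 1, u r ∈ Icc (0:ℝ) 1 ∧ T (1 - u r) = L * r ^ 2) ∧
      (∀ r ∈ Ioo (0:ℝ) 1, deriv (deriv u) r + (3 - 1) / r * deriv u r =
        - (L * ((6 * g (1 - u r) ^ 2 - 4 * T (1 - u r) * g' (1 - u r)) / g (1 - u r) ^ 3))) := by
  set P : ℝ → ℝ := fun x => T x / L with hPdef
  have hP : ∀ x, HasDerivAt P (g x / L) x := fun x => (hT x).div_const L
  have hPs : ContDiff ℝ 2 P := hTs.div_const L
  have hab : -d < 1 + d := by linarith
  have hgL : ∀ x ∈ Icc (-d) (1 + d), 0 < g x / L := fun x hx => div_pos (hpos x hx) hL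
  obtain ⟨y, hy, hyP⟩ := exists_inv hP hPs hab hgL
  have hmono : StrictMonoOn P (Icc (-d) (1 + d)) := by
    apply strictMonoOn_of_deriv_pos (convex_Icc _ _) hPs.continuous.continuousOn
    intro x hx
    rw [interior_Icc] at hx
    rw [(hP x).deriv]
    exact hgL x ⟨hx.1.le, hx.2.le⟩
  have hP0 : P 0 = 0 := by simp [hPdef, h0]
  have hP1 : P 1 = 1 := by simp only [hPdef, h1]; exact div_self hL.ne'
  have hPa : P (-d) < 0 := by
    have := hmono (a := -d) (b := 0) ⟨le_refl _, by linarith⟩ ⟨by linarith, by linarith⟩ (by linarith)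
    rwa [hP0] at this
  have hPb : 1 < P (1 + d) := by
    have := hmono (a := 1) (b := 1 + d) ⟨by linarith, by linarith⟩ ⟨by linarith, le_refl _⟩ (by linarith)
    rwa [hP1] at this
  have hy0 : y 0 = 0 := by
    have := hyP 0 ⟨by linarith, by linarith⟩
    rwa [hP0] at this
  have hy1 : y 1 = 1 := by
    have := hyP 1 ⟨by linarith, by linarith⟩
    rwa [hP1] at this
  -- open set of radii
  set O : Set ℝ := {r : ℝ | r ^ 2 < P (1 + d)} with hO
  have hOopen : IsOpen O := isOpen_lt (by fun_prop) continuous_const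
  have hOmem : ∀ r ∈ O, r ^ 2 ∈ Ioo (P (-d)) (P (1 + d)) := fun r hr =>
    ⟨lt_of_lt_of_le hPa (sq_nonneg r), hr⟩
  have hIO : ∀ r ∈ Icc (0:ℝ) 1, r ∈ O := by
    intro r hr
    have : r ^ 2 ≤ 1 := by nlinarith [hr.1, hr.2]
    exact lt_of_le_of_lt this hPb
  set u : ℝ → ℝ := fun r => 1 - y (r ^ 2) with hu
  have hud : ∀ r ∈ O, HasDerivAt u (-(2 * r * (g (y (r ^ 2)) / L)⁻¹)) r := by
    intro r hr
    have h2 : HasDerivAt (fun r : ℝ => r ^ 2) (2 * r) r := by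
      simpa using hasDerivAt_pow 2 r
    have h3 := (hy (r ^ 2) (hOmem r hr)).2.2.1
    have h4 : HasDerivAt (fun r : ℝ => y (r ^ 2)) ((g (y (r ^ 2)) / L)⁻¹ * (2 * r)) r :=
      HasDerivAt.comp (h := fun r : ℝ => r ^ 2) r h3 h2
    have h5 := h4.const_sub 1
    refine h5.congr_deriv ?_
    ring
  have hucd : ∀ r ∈ O, ContDiffAt ℝ 2 u r := by
    intro r hr
    have h3 := (hy (r ^ 2) (hOmem r hr)).2.2.2
    have h2 : ContDiffAt ℝ 2 (fun r : ℝ => r ^ 2) r := by fun_prop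
    have h4 : ContDiffAt ℝ 2 (fun r : ℝ => y (r ^ 2)) r := ContDiffAt.comp r h3 h2
    exact contDiffAt_const.sub h4
  -- y maps [0,1] into [0,1]
  have hym : ∀ r ∈ Icc (0:ℝ) 1, y (r ^ 2) ∈ Icc (0:ℝ) 1 ∧ (r < 1 → y (r ^ 2) < 1) := by
    intro r hr
    obtain ⟨h1', h2', -, -⟩ := hy (r ^ 2) (hOmem r (hIO r hr))
    refine ⟨⟨?_, ?_⟩, ?_⟩
    · by_contra hneg
      push Not at hneg
      have := hmono ⟨h1'.1.le, h1'.2.le⟩ ⟨by linarith, by linarith⟩ hneg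
      rw [h2', hP0] at this
      nlinarith [sq_nonneg r]
    · by_contra hneg
      push Not at hneg
      have := hmono ⟨by linarith, by linarith⟩ ⟨h1'.1.le, h1'.2.le⟩ hneg
      rw [h2', hP1] at this
      nlinarith [hr.1, hr.2]
    · intro hr1
      by_contra hneg
      push Not at hneg
      have := hmono.monotoneOn ⟨by linarith, by linarith⟩ ⟨h1'.1.le, h1'.2.le⟩ hneg
      rw [h2', hP1] at this
      nlinarith [hr.1, hr.2]
  have hTy : ∀ r ∈ O, T (y (r ^ 2)) = L * r ^ 2 := by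
    intro r hr
    have h2' := (hy (r ^ 2) (hOmem r hr)).2.1
    simp only [hPdef] at h2'
    field_simp at h2'
    linarith
  refine ⟨u, ?_, ?_, ?_, ?_, ?_, ?_, ?_⟩
  · intro r hr
    exact (hucd r (hIO r hr)).contDiffWithinAt
  · simp [hu, hy0]
  · simp [hu, hy1]
  · have h := hud 0 (hIO 0 ⟨le_refl _, zero_le_one⟩)
    have h' := h.hasDerivWithinAt (s := Icc (0:ℝ) 1)
    rw [h'.derivWithin (uniqueDiffOn_Icc zero_lt_one 0 ⟨le_refl _, zero_le_one⟩)]
    simp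
  · intro r hr
    have := (hym r ⟨hr.1, hr.2.le⟩).2 hr.2
    simp only [hu]; linarith
  · intro r hr
    obtain ⟨⟨ha, hb⟩, -⟩ := hym r hr
    refine ⟨⟨by simp only [hu]; linarith, by simp only [hu]; linarith⟩, ?_⟩
    have : 1 - u r = y (r ^ 2) := by simp [hu]
    rw [this]
    exact hTy r (hIO r hr)
  · intro r hr
    have hrO := hIO r ⟨hr.1.le, hr.2.le⟩
    have hderiv : deriv u =ᶠ[𝓝 r] fun r => -(2 * r * (g (y (r ^ 2)) / L)⁻¹) := by
      filter_upwards [hOopen.mem_nhds hrO] with s hs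
      exact (hud s hs).deriv
    have hyr := hy (r ^ 2) (hOmem r hrO)
    have h2 : HasDerivAt (fun r : ℝ => r ^ 2) (2 * r) r := by
      simpa using hasDerivAt_pow 2 r
    have h4 : HasDerivAt (fun r : ℝ => y (r ^ 2)) ((g (y (r ^ 2)) / L)⁻¹ * (2 * r)) r :=
      HasDerivAt.comp (h := fun r : ℝ => r ^ 2) r hyr.2.2.1 h2
    have h5 : HasDerivAt (fun r : ℝ => g (y (r ^ 2))) (g' (y (r ^ 2)) * ((g (y (r ^ 2)) / L)⁻¹ * (2 * r))) r :=
      HasDerivAt.comp (h := fun r : ℝ => y (r ^ 2)) r (hg (y (r ^ 2))) h4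
    have hgpos : 0 < g (y (r ^ 2)) := hpos _ ⟨hyr.1.1.le, hyr.1.2.le⟩
    have h6 : HasDerivAt (fun r : ℝ => (g (y (r ^ 2)) / L)⁻¹)
        (-(g' (y (r ^ 2)) * ((g (y (r ^ 2)) / L)⁻¹ * (2 * r)) / L) / (g (y (r ^ 2)) / L) ^ 2) r :=
      (h5.div_const L).inv (div_pos hgpos hL).ne'
    have h7 : HasDerivAt (fun r : ℝ => 2 * r) 2 r := by
      simpa using (hasDerivAt_id r).const_mul 2
    have h8 := (h7.mul h6).neg
    rw [hderiv.deriv_eq, hderiv.eq_of_nhds]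
    have h9 : deriv (fun r : ℝ => -(2 * r * (g (y (r ^ 2)) / L)⁻¹)) r = _ := h8.deriv
    rw [h9]
    have hTr := hTy r hrO
    have hr2 : r ^ 2 = T (y (r ^ 2)) / L := by rw [hTr]; field_simp
    have hu' : 1 - u r = y (r ^ 2) := by simp [hu]
    rw [hu']
    have hrne : r ≠ 0 := hr.1.ne'
    have hgne := hgpos.ne'
    have hLne := hL.ne'
    rw [hTr]
    field_simp
    ring

end Pool.Agent.R259.GP
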