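import Mathlib
import Pool.Agent.R259.GP2
import Pool.Agent.R259.GP3

/-! The nonlinearity `f(r,u) = F(m(1-u)) - r^2 G(m(1-u))` and its properties. -/

namespace Pool.Agent.R259.GP
open Set Filter Topology

/-- `m x = x` for `x ≥ 0` and `m x = x / (1 - 1000 x)` for `x ≤ 0`. -/
noncomputable def m (x : ℝ) : ℝ := x / (1 - 1000 * min x 0)

theorem m_of_nonneg {x : ℝ} (hx : 0 ≤ x) : m x = x := by simp [m, min_eq_right hx]

theorem m_of_nonpos {x : ℝ} (hx : x ≤ 0) : m x = x / (1 - 1000 * x) := by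
  simp [m, min_eq_left hx]

theorem m_lower (x : ℝ) : -(1/1000) ≤ m x := by
  rcases le_total 0 x with h | h
  · rw [m_of_nonneg h]; linarith
  · rw [m_of_nonpos h, le_div_iff₀ (by linarith)]
    linarith

theorem m_upper {x : ℝ} (hx : x ≤ 1) : m x ≤ 1 := by
  rcases le_total 0 x with h | h
  · rw [m_of_nonneg h]; exact hx
  · rw [m_of_nonpos h, div_le_one (by linarith)]
    linarith

theorem hasDerivAt_m (x : ℝ) : HasDerivAt m (1 / (1 - 1000 * min x 0) ^ 2) x := by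
  have hq : ∀ x : ℝ, x ≤ 0 → HasDerivAt (fun x : ℝ => x / (1 - 1000 * x)) (1 / (1 - 1000 * x) ^ 2) x := by
    intro x hx
    have h1 : HasDerivAt (fun x : ℝ => 1 - 1000 * x) (-(1000 * 1)) x :=
      ((hasDerivAt_id x).const_mul 1000).const_sub 1
    have hne : (1 - 1000 * x) ≠ 0 := by
      have : 0 < 1 - 1000 * x := by linarith
      exact this.ne'
    have h2 := (hasDerivAt_id x).div h1 hne
    refine h2.congr_deriv ?_
    simp only [id]
    congr 1
    ring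
  rcases lt_trichotomy x 0 with h | h | h
  · rw [min_eq_left h.le]
    refine (hq x h.le).congr_of_eventuallyEq ?_
    filter_upwards [Iio_mem_nhds h] with z hz
    exact m_of_nonpos (le_of_lt hz)
  · subst h
    have e : (1:ℝ) / (1 - 1000 * min (0:ℝ) 0) ^ 2 = 1 := by simp
    rw [e]
    have h1 : HasDerivWithinAt m 1 (Ici 0) 0 := by
      refine (hasDerivAt_id (0:ℝ)).hasDerivWithinAt.congr ?_ ?_
      · intro z hz; exact m_of_nonneg hz
      · exact m_of_nonneg le_rfl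
    have h2 : HasDerivWithinAt m 1 (Iic 0) 0 := by
      have h3 := (hq 0 le_rfl).hasDerivWithinAt (s := Iic 0)
      have e2 : (1:ℝ) / (1 - 1000 * 0) ^ 2 = 1 := by norm_num
      rw [e2] at h3
      refine h3.congr ?_ ?_
      · intro z hz; exact m_of_nonpos hz
      · exact m_of_nonpos le_rfl
    have h4 := h1.union h2
    rw [Ici_union_Iic] at h4
    exact hasDerivWithinAt_univ.mp h4
  · rw [min_eq_right h.le]
    have e : (1:ℝ) / (1 - 1000 * 0) ^ 2 = 1 := by norm_num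
    rw [e]
    refine (hasDerivAt_id x).congr_of_eventuallyEq ?_
    filter_upwards [Ioi_mem_nhds h] with z hz
    exact m_of_nonneg (le_of_lt hz)

theorem contDiff_m : ContDiff ℝ 1 m := by
  rw [contDiff_one_iff_deriv]
  refine ⟨fun x => (hasDerivAt_m x).differentiableAt, ?_⟩
  have : deriv m = fun x => 1 / (1 - 1000 * min x 0) ^ 2 := by
    ext x; exact (hasDerivAt_m x).deriv
  rw [this]
  refine Continuous.div continuous_const (by fun_prop) ?_
  intro x
  have : 0 < 1 - 1000 * min x 0 := by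
    have := min_le_right x 0
    linarith
  positivity

noncomputable def G (x : ℝ) : ℝ := 711 * MM x / (4 * g1 x ^ 3 * g2 x ^ 3 * DD x)
noncomputable def F (x : ℝ) : ℝ := (6 * g1 x ^ 2 - 4 * T1 x * e1 x) / g1 x ^ 3 + T1 x / 9 * G x

/-- The nonlinearity. -/
noncomputable def f (r u : ℝ) : ℝ := F (m (1 - u)) - r ^ 2 * G (m (1 - u))

theorem G_pos {x : ℝ} (h0 : -(1/1000) ≤ x) (h1 : x ≤ 1) : 0 < G x := by
  have a := MM_pos h0 h1
  have b := g1_pos h0 (by linarith)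
  have c := g2_pos h0 (by linarith)
  have d := DD_pos h0 h1
  unfold G
  positivity

theorem contDiffAt_G {x : ℝ} (h0 : -(1/1000) ≤ x) (h1 : x ≤ 1) : ContDiffAt ℝ 1 G x := by
  have b := g1_pos h0 (by linarith)
  have c := g2_pos h0 (by linarith)
  have d := DD_pos h0 h1
  have hM : ContDiff ℝ 1 MM := by unfold MM; fun_prop
  have hg1 : ContDiff ℝ 1 g1 := by unfold g1; fun_prop
  have hg2 : ContDiff ℝ 1 g2 := by unfold g2; fun_prop
  have hD : ContDiff ℝ 1 DD := by unfold DD; fun_prop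
  unfold G
  refine ContDiffAt.div ?_ ?_ ?_
  · exact (contDiff_const.mul hM).contDiffAt
  · exact (((contDiff_const.mul (hg1.pow 3)).mul (hg2.pow 3)).mul hD).contDiffAt
  · positivity

theorem contDiffAt_F {x : ℝ} (h0 : -(1/1000) ≤ x) (h1 : x ≤ 1) : ContDiffAt ℝ 1 F x := by
  have b := g1_pos h0 (by linarith)
  have hg1 : ContDiff ℝ 1 g1 := by unfold g1; fun_prop
  have hT1 : ContDiff ℝ 1 T1 := by unfold T1; fun_prop
  have he1 : ContDiff ℝ 1 e1 := by unfold e1; fun_prop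
  unfold F
  refine ContDiffAt.add (ContDiffAt.div ?_ ?_ ?_) (ContDiffAt.mul ?_ (contDiffAt_G h0 h1))
  · exact ((contDiff_const.mul (hg1.pow 2)).sub ((contDiff_const.mul hT1).mul he1)).contDiffAt
  · exact (hg1.pow 3).contDiffAt
  · positivity
  · exact (hT1.div_const 9).contDiffAt

theorem f_contDiffOn : ContDiffOn ℝ 1 (Function.uncurry f) (Icc (0:ℝ) 1 ×ˢ Ici (0:ℝ)) := by
  rintro ⟨r, u⟩ ⟨-, hu⟩
  simp only [mem_Ici] at hu
  apply ContDiffAt.contDiffWithinAt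
  have hl := m_lower (1 - u)
  have hr : m (1 - u) ≤ 1 := m_upper (by linarith)
  have hm : ContDiffAt ℝ 1 (fun p : ℝ × ℝ => m (1 - p.2)) (r, u) := by
    have h1 : ContDiff ℝ 1 (fun p : ℝ × ℝ => 1 - p.2) := by fun_prop
    exact (contDiff_m.comp h1).contDiffAt
  have hF : ContDiffAt ℝ 1 (fun p : ℝ × ℝ => F (m (1 - p.2))) (r, u) :=
    ContDiffAt.comp (f := fun p : ℝ × ℝ => m (1 - p.2)) (r, u) (contDiffAt_F hl hr) hm
  have hG : ContDiffAt ℝ 1 (fun p : ℝ × ℝ => G (m (1 - p.2))) (r, u) :=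
    ContDiffAt.comp (f := fun p : ℝ × ℝ => m (1 - p.2)) (r, u) (contDiffAt_G hl hr) hm
  have hr2 : ContDiffAt ℝ 1 (fun p : ℝ × ℝ => p.1 ^ 2) (r, u) := by fun_prop
  exact hF.sub (hr2.mul hG)

theorem f_deriv_nonpos {r u : ℝ} (hr : r ∈ Icc (0:ℝ) 1) (hu : 0 ≤ u) :
    derivWithin (fun s => f s u) (Icc 0 1) r ≤ 0 := by
  have h1 : HasDerivAt (fun s => f s u) (-(2 * r * G (m (1 - u)))) r := by
    unfold f
    have h2 : HasDerivAt (fun s : ℝ => s ^ 2) (2 * r) r := by simpa using hasDerivAt_pow 2 r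
    exact (h2.mul_const (G (m (1 - u)))).const_sub (F (m (1 - u)))
  rw [h1.hasDerivWithinAt.derivWithin (uniqueDiffOn_Icc zero_lt_one r hr)]
  have := G_pos (m_lower (1 - u)) (m_upper (by linarith : 1 - u ≤ 1))
  have := hr.1
  have : 0 ≤ 2 * r * G (m (1 - u)) := by positivity
  linarith

theorem f_on_one {r u : ℝ} (hu : u ∈ Icc (0:ℝ) 1) (hT : T1 (1 - u) = 9 * r ^ 2) :
    f r u = (6 * g1 (1 - u) ^ 2 - 4 * T1 (1 - u) * e1 (1 - u)) / g1 (1 - u) ^ 3 := by
  unfold f F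
  rw [m_of_nonneg (by linarith [hu.2] : 0 ≤ 1 - u)]
  have : r ^ 2 = T1 (1 - u) / 9 := by rw [hT]; ring
  rw [this]; ring

theorem f_on_two {r u : ℝ} (hu : u ∈ Icc (0:ℝ) 1) (hT : T2 (1 - u) = 79/8 * r ^ 2) :
    f r u = (6 * g2 (1 - u) ^ 2 - 4 * T2 (1 - u) * e2 (1 - u)) / g2 (1 - u) ^ 3 := by
  unfold f F
  rw [m_of_nonneg (by linarith [hu.2] : 0 ≤ 1 - u)]
  have hr : r ^ 2 = T2 (1 - u) / (79/8) := by rw [hT]; ring
  rw [hr]
  set x := 1 - u with hx
  have hx0 : -(1/1000) ≤ x := by rw [hx]; linarith [hu.2]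
  have hx1 : x ≤ 1 := by rw [hx]; linarith [hu.1]
  have b := g1_pos hx0 (by linarith)
  have c := g2_pos hx0 (by linarith)
  have d := DD_pos hx0 hx1
  have hD := D_id x
  have hK := key_id x
  have e : (6 * g1 x ^ 2 - 4 * T1 x * e1 x) / g1 x ^ 3 + T1 x / 9 * G x - T2 x / (79 / 8) * G x
      = (6 * g1 x ^ 2 - 4 * T1 x * e1 x) / g1 x ^ 3 + (T1 x / 9 - T2 x / (79 / 8)) * G x := by ring
  rw [e, hD]
  unfold G
  have hx' : x * (1 - x) * (DD x / 711) * (711 * MM x / (4 * g1 x ^ 3 * g2 x ^ 3 * DD x))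
      = x * (1 - x) * (MM x / 4) / (g1 x ^ 3 * g2 x ^ 3) := by
    field_simp
  rw [hx', ← hK]
  field_simp
  ring

end Pool.Agent.R259.GP
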