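import Mathlib
import Pool.Agent.R259.GP1

namespace Pool.Agent.R259.GP

theorem hd_T1 (x : ℝ) : HasDerivAt T1 (g1 x) x := by
  have h := ((((((((hasDerivAt_id' x).const_mul (1:ℝ)).fun_add ((hasDerivAt_pow 2 x).const_mul (30:ℝ))).fun_sub ((hasDerivAt_pow 3 x).const_mul (100:ℝ))).fun_add ((hasDerivAt_pow 4 x).const_mul (155:ℝ))).fun_sub ((hasDerivAt_pow 5 x).const_mul (114:ℝ))).fun_add ((hasDerivAt_pow 6 x).const_mul (38:ℝ))).fun_sub ((hasDerivAt_pow 7 x).const_mul (1:ℝ)))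
  unfold T1 g1
  refine h.congr_deriv ?_
  norm_num
  ring

theorem hd_g1 (x : ℝ) : HasDerivAt g1 (e1 x) x := by
  have h := (((((((hasDerivAt_const x (1:ℝ)).fun_add ((hasDerivAt_id' x).const_mul (60:ℝ))).fun_sub ((hasDerivAt_pow 2 x).const_mul (300:ℝ))).fun_add ((hasDerivAt_pow 3 x).const_mul (620:ℝ))).fun_sub ((hasDerivAt_pow 4 x).const_mul (570:ℝ))).fun_add ((hasDerivAt_pow 5 x).const_mul (228:ℝ))).fun_sub ((hasDerivAt_pow 6 x).const_mul (7:ℝ)))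
  unfold g1 e1
  refine h.congr_deriv ?_
  norm_num
  ring

theorem hd_T2 (x : ℝ) : HasDerivAt T2 (g2 x) x := by
  have h := ((((((((hasDerivAt_id' x).const_mul (1:ℝ)).fun_sub ((hasDerivAt_pow 2 x).const_mul (3:ℝ))).fun_add ((hasDerivAt_pow 3 x).const_mul (5:ℝ))).fun_add ((hasDerivAt_pow 4 x).const_mul (125/8:ℝ))).fun_sub ((hasDerivAt_pow 5 x).const_mul (93/2:ℝ))).fun_add ((hasDerivAt_pow 6 x).const_mul (161/4:ℝ))).fun_sub ((hasDerivAt_pow 7 x).const_mul (5/2:ℝ)))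
  unfold T2 g2
  refine h.congr_deriv ?_
  norm_num
  ring

theorem hd_g2 (x : ℝ) : HasDerivAt g2 (e2 x) x := by
  have h := (((((((hasDerivAt_const x (1:ℝ)).fun_sub ((hasDerivAt_id' x).const_mul (6:ℝ))).fun_add ((hasDerivAt_pow 2 x).const_mul (15:ℝ))).fun_add ((hasDerivAt_pow 3 x).const_mul (125/2:ℝ))).fun_sub ((hasDerivAt_pow 4 x).const_mul (465/2:ℝ))).fun_add ((hasDerivAt_pow 5 x).const_mul (483/2:ℝ))).fun_sub ((hasDerivAt_pow 6 x).const_mul (35/2:ℝ)))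
  unfold g2 e2
  refine h.congr_deriv ?_
  norm_num
  ring

end Pool.Agent.R259.GP
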