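import Mathlib
import Pool.Agent.R259.Alt

set_option autoImplicit false

/-! Jacobi's identity `∏ (1-q^m)^3 = ∑ (-1)^k (2k+1) q^{k(k+1)/2}` for real `0 < q < 1`,
by a finite identity. -/

namespace Pool.Agent.R259.Jac

open Filter Topology

/-- `(q;q)_n` -/
noncomputable def G (q : ℝ) (n : ℕ) : ℝ := ∏ i ∈ Finset.range n, (1 - q ^ (i + 1))

lemma G_zero (q : ℝ) : G q 0 = 1 := by simp [G]

lemma G_succ (q : ℝ) (n : ℕ) : G q (n + 1) = G q n * (1 - q ^ (n + 1)) := by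
  rw [G, Finset.prod_range_succ]; rfl

variable {q : ℝ}

lemma fac_pos (h0 : 0 ≤ q) (h1 : q < 1) (n : ℕ) : 0 < 1 - q ^ (n + 1) := by
  have : q ^ (n + 1) < 1 := pow_lt_one₀ h0 h1 (Nat.succ_ne_zero n)
  linarith

lemma G_pos (h0 : 0 ≤ q) (h1 : q < 1) (n : ℕ) : 0 < G q n :=
  Finset.prod_pos fun i _ => fac_pos h0 h1 i

/-- reciprocal of `(q;q)_m`, extended by zero -/
noncomputable def gi (q : ℝ) (m : ℤ) : ℝ := if m < 0 then 0 else (G q m.toNat)⁻¹

lemma gi_nat (n : ℕ) : gi q (n : ℤ) = (G q n)⁻¹ := by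
  unfold gi
  rw [if_neg (by omega), Int.toNat_natCast]

lemma gi_rec (h0 : 0 < q) (h1 : q < 1) (m : ℤ) : gi q (m - 1) = (1 - q ^ m) * gi q m := by
  rcases lt_trichotomy m 0 with h | h | h
  · unfold gi
    rw [if_pos (by omega), if_pos h, mul_zero]
  · subst h
    unfold gi
    rw [if_pos (by omega)]
    simp
  · obtain ⟨n, rfl⟩ : ∃ n : ℕ, m = (n : ℤ) + 1 := ⟨(m - 1).toNat, by omega⟩
    have e : ((n : ℤ) + 1) = ((n + 1 : ℕ) : ℤ) := by push_cast; ring
    rw [add_sub_cancel_right, gi_nat, e, gi_nat, zpow_natCast, G_succ, mul_inv]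
    have := fac_pos h0.le h1 n
    field_simp

/-- triangular numbers over the integers -/
def tau (j : ℤ) : ℤ := j * (j + 1) / 2

lemma two_tau (j : ℤ) : 2 * tau j = j * (j + 1) := by
  unfold tau
  exact Int.mul_ediv_cancel' (Int.even_mul_succ_self j).two_dvd

lemma tau_succ (j : ℤ) : tau (j + 1) = tau j + (j + 1) := by
  have h1 := two_tau j
  have h2 := two_tau (j + 1)
  have : 2 * tau (j + 1) = 2 * (tau j + (j + 1)) := by
    linear_combination h2 - h1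
  omega

lemma tau_pred (j : ℤ) : tau (j - 1) = tau j - j := by
  have h := tau_succ (j - 1)
  rw [sub_add_cancel] at h
  omega

/-- coefficients -/
noncomputable def co (q : ℝ) (N : ℕ) (j : ℤ) : ℝ :=
  (-1) ^ j * q ^ tau j * (gi q (N - j) * gi q (N + 1 + j))

lemma co_rec (h0 : 0 < q) (h1 : q < 1) (N : ℕ) (j : ℤ) :
    (1 - q ^ (2 * N + 2)) * (1 - q ^ (2 * N + 3)) * co q (N + 1) j =
      (1 + q ^ (2 * N + 2)) * co q N j - q ^ (N + 1) * (co q N (j - 1) + co q N (j + 1)) := by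
  have hq := h0.ne'
  unfold co
  rw [tau_pred, tau_succ]
  set A := gi q ((N : ℤ) + 1 - j) with hA
  set B := gi q ((N : ℤ) + 2 + j) with hB
  set X : ℝ := q ^ ((N : ℤ) + 1 - j) with hX
  set Y : ℝ := q ^ ((N : ℤ) + 1 + j) with hY
  have a1 : gi q ((N : ℤ) - j) = (1 - X) * A := by
    have := gi_rec h0 h1 ((N : ℤ) + 1 - j)
    rw [show (N : ℤ) + 1 - j - 1 = N - j by ring] at this
    exact this
  have a2 : gi q ((N : ℤ) - (j + 1)) = (1 - X / q) * ((1 - X) * A) := by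
    have := gi_rec h0 h1 ((N : ℤ) - j)
    rw [show (N : ℤ) - j - 1 = N - (j + 1) by ring, a1] at this
    rw [this]
    congr 2
    rw [hX, eq_div_iff hq, ← zpow_add_one₀ hq]
    congr 1
    ring
  have a3 : gi q ((N : ℤ) - (j - 1)) = A := by
    rw [hA]; congr 1; ring
  have b1 : gi q ((N : ℤ) + 1 + j) = (1 - q * Y) * B := by
    have := gi_rec h0 h1 ((N : ℤ) + 2 + j)
    rw [show (N : ℤ) + 2 + j - 1 = N + 1 + j by ring] at this
    rw [this]
    congr 2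
    rw [hY, mul_comm q, ← zpow_add_one₀ hq]
    congr 1
    ring
  have b2 : gi q ((N : ℤ) + 1 + (j - 1)) = (1 - Y) * ((1 - q * Y) * B) := by
    have := gi_rec h0 h1 ((N : ℤ) + 1 + j)
    rw [show (N : ℤ) + 1 + j - 1 = N + 1 + (j - 1) by ring, b1] at this
    exact this
  have b3 : gi q ((N : ℤ) + 1 + (j + 1)) = B := by
    rw [hB]; congr 1; ring
  have c1 : gi q (((N + 1 : ℕ) : ℤ) - j) = A := by
    rw [hA]; congr 1
  have c2 : gi q (((N + 1 : ℕ) : ℤ) + 1 + j) = B := by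
    rw [hB]; congr 1
  have p1 : q ^ (2 * N + 2) = X * Y := by
    rw [hX, hY, ← zpow_add₀ hq, ← zpow_natCast]
    congr 1
    push_cast; ring
  have p2 : q ^ (2 * N + 3) = q * (X * Y) := by
    rw [← p1, pow_succ]; ring
  have p3 : q ^ (N + 1) * q ^ (tau j - j) = q ^ tau j * X := by
    rw [hX, ← zpow_natCast, ← zpow_add₀ hq, ← zpow_add₀ hq]
    congr 1
    push_cast; ring
  have p4 : q ^ (N + 1) * q ^ (tau j + (j + 1)) = q ^ tau j * (q * Y) := by
    rw [hY, mul_comm q, ← zpow_add_one₀ hq, ← zpow_natCast, ← zpow_add₀ hq, ← zpow_add₀ hq]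
    congr 1
    push_cast; ring
  have s1 : ((-1 : ℝ)) ^ (j - 1) = - (-1) ^ j := by
    rw [zpow_sub_one₀ (by norm_num)]; norm_num
  have s2 : ((-1 : ℝ)) ^ (j + 1) = - (-1) ^ j := by
    rw [zpow_add_one₀ (by norm_num)]; ring
  rw [a1, a2, a3, b1, b2, b3, c1, c2, p1, p2, s1, s2]
  set e := ((-1 : ℝ)) ^ j
  have hXq : (1 - X / q) * q = q - X := by field_simp
  have key : (1 - X * Y) * (1 - q * (X * Y)) =
      (1 + X * Y) * ((1 - X) * (1 - q * Y)) + X * ((1 - Y) * (1 - q * Y)) +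
        (q * Y) * ((1 - X / q) * (1 - X)) := by
    have : (q * Y) * ((1 - X / q) * (1 - X)) = Y * (q - X) * (1 - X) := by
      rw [← hXq]; ring
    rw [this]; ring
  calc (1 - X * Y) * (1 - q * (X * Y)) * (e * q ^ tau j * (A * B))
      = ((1 - X * Y) * (1 - q * (X * Y))) * (e * q ^ tau j * (A * B)) := by ring
    _ = ((1 + X * Y) * ((1 - X) * (1 - q * Y)) + X * ((1 - Y) * (1 - q * Y)) +
        (q * Y) * ((1 - X / q) * (1 - X))) * (e * q ^ tau j * (A * B)) := by rw [key]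
    _ = (1 + X * Y) * (e * q ^ tau j * ((1 - X) * A * ((1 - q * Y) * B))) +
        e * (q ^ tau j * X) * (A * ((1 - Y) * ((1 - q * Y) * B))) +
        e * (q ^ tau j * (q * Y)) * ((1 - X / q) * ((1 - X) * A) * B) := by ring
    _ = _ := by rw [← p3, ← p4]; ring

lemma co_neg_one (N : ℕ) : co q N (-1) = - co q N 0 := by
  unfold co
  have : tau (-1) = 0 := by unfold tau; norm_num
  have h0 : tau 0 = 0 := by unfold tau; norm_num
  rw [this, h0]
  rw [show (N : ℤ) - -1 = N + 1 + 0 by ring, show (N : ℤ) + 1 + -1 = N - 0 by ring]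
  norm_num
  ring

lemma co_big (N : ℕ) (j : ℕ) (h : N < j) : co q N j = 0 := by
  unfold co gi
  rw [if_pos (show (N : ℤ) - j < 0 by omega)]
  ring

/-- finite sum -/
noncomputable def E (q : ℝ) (N : ℕ) : ℝ := ∑ j ∈ Finset.range (N + 1), (2 * (j : ℝ) + 1) * co q N j

lemma E_rec (h0 : 0 < q) (h1 : q < 1) (N : ℕ) :
    (1 - q ^ (2 * N + 2)) * (1 - q ^ (2 * N + 3)) * E q (N + 1) = (1 - q ^ (N + 1)) ^ 2 * E q N := by
  unfold E
  rw [Finset.mul_sum]
  have h2 : ∀ j ∈ Finset.range (N + 1 + 1), (1 - q ^ (2 * N + 2)) * (1 - q ^ (2 * N + 3)) *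
      ((2 * (j : ℝ) + 1) * co q (N + 1) j) = (1 + q ^ (2 * N + 2)) * ((2 * (j : ℝ) + 1) * co q N j) -
      q ^ (N + 1) * ((2 * (j : ℝ) + 1) * co q N ((j : ℤ) - 1) + (2 * (j : ℝ) + 1) * co q N ((j + 1 : ℕ) : ℤ)) := by
    intro j _
    have := co_rec h0 h1 N (j : ℤ)
    push_cast
    linear_combination (2 * (j : ℝ) + 1) * this
  rw [Finset.sum_congr rfl h2, Finset.sum_sub_distrib, ← Finset.mul_sum, ← Finset.mul_sum,
    Finset.sum_add_distrib]
  have hS1 : ∑ j ∈ Finset.range (N + 1 + 1), (2 * (j : ℝ) + 1) * co q N j =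
      ∑ j ∈ Finset.range (N + 1), (2 * (j : ℝ) + 1) * co q N j := by
    rw [Finset.sum_range_succ, co_big N (N + 1) (by omega)]; ring
  have hS2 : ∑ j ∈ Finset.range (N + 1 + 1), (2 * (j : ℝ) + 1) * co q N ((j : ℤ) - 1) =
      - co q N 0 + ∑ j ∈ Finset.range (N + 1), (2 * (j : ℝ) + 3) * co q N j := by
    rw [Finset.sum_range_succ']
    have e1 : (2 * ((0 : ℕ) : ℝ) + 1) * co q N (((0 : ℕ) : ℤ) - 1) = - co q N 0 := by
      rw [show ((0 : ℕ) : ℤ) - 1 = -1 by norm_num, co_neg_one]; norm_num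
    rw [e1, add_comm]
    congr 1
    refine Finset.sum_congr rfl fun j _ => ?_
    rw [show (((j + 1 : ℕ) : ℤ) - 1) = (j : ℤ) by push_cast; ring]
    push_cast
    ring
  have hS3 : ∑ j ∈ Finset.range (N + 1 + 1), (2 * (j : ℝ) + 1) * co q N ((j + 1 : ℕ) : ℤ) =
      co q N 0 + ∑ j ∈ Finset.range (N + 1), (2 * (j : ℝ) - 1) * co q N j := by
    have e1 : ∑ j ∈ Finset.range (N + 1 + 1 + 1), (2 * (j : ℝ) - 1) * co q N j =
        ∑ j ∈ Finset.range (N + 1), (2 * (j : ℝ) - 1) * co q N j := by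
      rw [Finset.sum_range_succ, Finset.sum_range_succ, co_big N (N + 1) (by omega),
        co_big N (N + 1 + 1) (by omega)]
      ring
    rw [← e1, Finset.sum_range_succ' (fun j : ℕ => (2 * (j : ℝ) - 1) * co q N j) (N + 1 + 1)]
    have e2 : co q N ((0 : ℕ) : ℤ) = co q N 0 := rfl
    rw [e2]
    have e3 : ∑ j ∈ Finset.range (N + 1 + 1), (2 * (j : ℝ) + 1) * co q N ((j + 1 : ℕ) : ℤ) =
        ∑ j ∈ Finset.range (N + 1 + 1), (2 * ((j + 1 : ℕ) : ℝ) - 1) * co q N ((j + 1 : ℕ) : ℤ) := by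
      refine Finset.sum_congr rfl fun j _ => ?_
      push_cast; ring
    rw [e3]
    push_cast
    ring
  rw [hS1, hS2, hS3]
  have hS4 : - co q N 0 + ∑ j ∈ Finset.range (N + 1), (2 * (j : ℝ) + 3) * co q N j +
      (co q N 0 + ∑ j ∈ Finset.range (N + 1), (2 * (j : ℝ) - 1) * co q N j) =
      2 * ∑ j ∈ Finset.range (N + 1), (2 * (j : ℝ) + 1) * co q N j := by
    rw [Finset.mul_sum]
    have : ∑ j ∈ Finset.range (N + 1), 2 * ((2 * (j : ℝ) + 1) * co q N j) =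
        ∑ j ∈ Finset.range (N + 1), (2 * (j : ℝ) + 3) * co q N j +
        ∑ j ∈ Finset.range (N + 1), (2 * (j : ℝ) - 1) * co q N j := by
      rw [← Finset.sum_add_distrib]
      refine Finset.sum_congr rfl fun j _ => ?_
      ring
    rw [this]; ring
  rw [hS4]
  ring

/-- The finite Jacobi identity. -/
lemma E_eq (h0 : 0 < q) (h1 : q < 1) (N : ℕ) : G q (2 * N + 1) * E q N = G q N ^ 2 := by
  induction N with
  | zero =>
    unfold E co
    rw [Finset.sum_range_one]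
    have : tau ((0 : ℕ) : ℤ) = 0 := by unfold tau; norm_num
    rw [this]
    have e1 : ((0 : ℕ) : ℤ) - ((0 : ℕ) : ℤ) = ((0 : ℕ) : ℤ) := by norm_num
    have e2 : ((0 : ℕ) : ℤ) + 1 + ((0 : ℕ) : ℤ) = ((1 : ℕ) : ℤ) := by norm_num
    rw [e1, e2, gi_nat, gi_nat, G_zero]
    have := G_pos h0.le h1 1
    simp
    field_simp
  | succ N ih =>
    have h2 := E_rec h0 h1 N
    rw [show 2 * (N + 1) + 1 = (2 * N + 1) + 1 + 1 by ring, G_succ q (2 * N + 1 + 1),
      G_succ q (2 * N + 1), G_succ q N]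
    rw [show 2 * N + 1 + 1 = 2 * N + 2 by ring, show 2 * N + 2 + 1 = 2 * N + 3 by ring]
    calc G q (2 * N + 1) * (1 - q ^ (2 * N + 2)) * (1 - q ^ (2 * N + 3)) * E q (N + 1)
        = G q (2 * N + 1) * ((1 - q ^ (2 * N + 2)) * (1 - q ^ (2 * N + 3)) * E q (N + 1)) := by ring
      _ = (G q (2 * N + 1) * E q N) * (1 - q ^ (N + 1)) ^ 2 := by rw [h2]; ring
      _ = _ := by rw [ih]; ring

end Pool.Agent.R259.Jac
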