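import Mathlib
import Pool.Agent.R259.Jac

set_option autoImplicit false

namespace Pool.Agent.R259.Jac

open Filter Topology

variable {q : ℝ}

lemma one_sub_ge {x : ℝ} (hx : 0 ≤ x) (hxq : x ≤ q) (h1 : q < 1) :
    Real.exp (-(x / (1 - q))) ≤ 1 - x := by
  have h2 : 0 < 1 - x := by linarith
  have h3 : 0 < 1 - q := by linarith
  have h4 := Real.add_one_le_exp (x / (1 - x))
  have h5 : x / (1 - x) + 1 = (1 - x)⁻¹ := by field_simp; ring
  rw [h5] at h4
  have h6 : Real.exp (-(x / (1 - x))) ≤ 1 - x := by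
    rw [Real.exp_neg]
    exact inv_le_of_inv_le₀ h2 h4
  refine le_trans (Real.exp_le_exp.2 ?_) h6
  apply neg_le_neg
  apply div_le_div_of_nonneg_left hx h3 (by linarith)

lemma G_lower (h0 : 0 < q) (h1 : q < 1) (n : ℕ) :
    Real.exp (-(q / (1 - q) ^ 2)) ≤ G q n := by
  have h3 : 0 < 1 - q := by linarith
  have h2 : ∏ i ∈ Finset.range n, Real.exp (-(q ^ (i + 1) / (1 - q))) ≤ G q n := by
    apply Finset.prod_le_prod
    · intro i _; positivity
    · intro i _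
      apply one_sub_ge (by positivity) _ h1
      calc q ^ (i + 1) ≤ q ^ 1 := pow_le_pow_of_le_one h0.le h1.le (by omega)
        _ = q := pow_one q
  refine le_trans ?_ h2
  rw [← Real.exp_sum]
  apply Real.exp_le_exp.2
  rw [Finset.sum_neg_distrib, ← Finset.sum_div]
  apply neg_le_neg
  have h4 : ∑ i ∈ Finset.range n, q ^ (i + 1) ≤ q / (1 - q) := by
    have h5 : ∑ i ∈ Finset.range n, q ^ (i + 1) = q * ∑ i ∈ Finset.range n, q ^ i := by
      rw [Finset.mul_sum]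
      refine Finset.sum_congr rfl fun i _ => ?_
      rw [pow_succ]; ring
    rw [h5, div_eq_mul_inv]
    apply mul_le_mul_of_nonneg_left _ h0.le
    have h6 := Summable.sum_le_tsum (f := fun i : ℕ => q ^ i) (Finset.range n)
      (fun i _ => by positivity) (summable_geometric_of_lt_one h0.le h1)
    rwa [tsum_geometric_of_lt_one h0.le h1] at h6
  calc (∑ i ∈ Finset.range n, q ^ (i + 1)) / (1 - q) ≤ (q / (1 - q)) / (1 - q) := by gcongr
    _ = q / (1 - q) ^ 2 := by rw [div_div, sq]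

lemma G_antitone (h0 : 0 < q) (h1 : q < 1) : Antitone (G q) := by
  apply antitone_nat_of_succ_le
  intro n
  rw [G_succ]
  have h2 := G_pos h0.le h1 n
  have h3 : 0 < q ^ (n + 1) := by positivity
  nlinarith

/-- the infinite product -/
noncomputable def Gi (q : ℝ) : ℝ := ⨅ n, G q n

lemma G_bdd (h0 : 0 < q) (h1 : q < 1) : BddBelow (Set.range (G q)) :=
  ⟨0, by rintro _ ⟨n, rfl⟩; exact (G_pos h0.le h1 n).le⟩

lemma G_tendsto (h0 : 0 < q) (h1 : q < 1) : Tendsto (G q) atTop (𝓝 (Gi q)) :=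
  tendsto_atTop_ciInf (G_antitone h0 h1) (G_bdd h0 h1)

lemma Gi_le (h0 : 0 < q) (h1 : q < 1) (n : ℕ) : Gi q ≤ G q n := ciInf_le (G_bdd h0 h1) n

lemma Gi_pos (h0 : 0 < q) (h1 : q < 1) : 0 < Gi q :=
  lt_of_lt_of_le (Real.exp_pos _) (le_ciInf fun n => G_lower h0 h1 n)

lemma Gi_antitone {q' : ℝ} (h0 : 0 < q) (hqq : q ≤ q') (h1 : q' < 1) : Gi q' ≤ Gi q := by
  refine le_of_tendsto_of_tendsto' (G_tendsto (h0.trans_le hqq) h1)
    (G_tendsto h0 (hqq.trans_lt h1)) fun n => ?_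
  apply Finset.prod_le_prod
  · intro i _
    exact (fac_pos (h0.le.trans hqq) h1 i).le
  · intro i _
    have : q ^ (i + 1) ≤ q' ^ (i + 1) := pow_le_pow_left₀ h0.le hqq _
    linarith

/-- the terms -/
noncomputable def t (j : ℕ) (q : ℝ) : ℝ := (2 * (j : ℝ) + 1) * q ^ (j * (j + 1) / 2)

lemma t_nonneg (h0 : 0 ≤ q) (j : ℕ) : 0 ≤ t j q := by unfold t; positivity

lemma t_pos (h0 : 0 < q) (j : ℕ) : 0 < t j q := by unfold t; positivity

lemma le_tri (j : ℕ) : j ≤ j * (j + 1) / 2 := by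
  rcases Nat.eq_zero_or_pos j with h | h
  · omega
  · rw [Nat.le_div_iff_mul_le (by norm_num)]
    nlinarith

lemma t_le (h0 : 0 ≤ q) (h1 : q ≤ 1) (j : ℕ) : t j q ≤ (2 * (j : ℝ) + 1) * q ^ j := by
  unfold t
  apply mul_le_mul_of_nonneg_left _ (by positivity)
  exact pow_le_pow_of_le_one h0 h1 (le_tri j)

lemma t_summable (h0 : 0 ≤ q) (h1 : q < 1) : Summable (fun j => t j q) := by
  have h2 : Summable (fun j : ℕ => (2 * (j : ℝ) + 1) * q ^ j) := by
    have h3 : Summable (fun j : ℕ => (j : ℝ) ^ 1 * q ^ j) :=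
      summable_pow_mul_geometric_of_norm_lt_one 1 (by rw [Real.norm_of_nonneg h0]; exact h1)
    have h4 := (h3.mul_left 2).add (summable_geometric_of_lt_one h0 h1)
    refine h4.congr fun j => ?_
    rw [pow_one]; ring
  exact Summable.of_nonneg_of_le (fun j => t_nonneg h0 j) (fun j => t_le h0 h1.le j) h2

lemma tau_nat (j : ℕ) : tau (j : ℤ) = ((j * (j + 1) / 2 : ℕ) : ℤ) := by
  unfold tau; push_cast; rfl

lemma gi_le (h0 : 0 < q) (h1 : q < 1) (m : ℤ) : 0 ≤ gi q m ∧ gi q m ≤ (Gi q)⁻¹ := by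
  have hG := Gi_pos h0 h1
  unfold gi
  split_ifs with h
  · exact ⟨le_rfl, by positivity⟩
  · refine ⟨inv_nonneg.2 (G_pos h0.le h1 _).le, inv_anti₀ hG (Gi_le h0 h1 _)⟩

lemma gi_tendsto1 (h0 : 0 < q) (h1 : q < 1) (j : ℕ) :
    Tendsto (fun N : ℕ => gi q ((N : ℤ) - j)) atTop (𝓝 (Gi q)⁻¹) := by
  have h2 : Tendsto (fun N : ℕ => (G q (N - j))⁻¹) atTop (𝓝 (Gi q)⁻¹) :=
    ((G_tendsto h0 h1).comp (tendsto_sub_atTop_nat j)).inv₀ (Gi_pos h0 h1).ne'
  refine h2.congr' ?_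
  filter_upwards [eventually_ge_atTop j] with N hN
  have : (N : ℤ) - j = ((N - j : ℕ) : ℤ) := by omega
  rw [this, gi_nat]

lemma gi_tendsto2 (h0 : 0 < q) (h1 : q < 1) (j : ℕ) :
    Tendsto (fun N : ℕ => gi q ((N : ℤ) + 1 + j)) atTop (𝓝 (Gi q)⁻¹) := by
  have h2 : Tendsto (fun N : ℕ => (G q (N + (1 + j)))⁻¹) atTop (𝓝 (Gi q)⁻¹) :=
    ((G_tendsto h0 h1).comp (tendsto_add_atTop_nat (1 + j))).inv₀ (Gi_pos h0 h1).ne'
  refine h2.congr fun N => ?_
  have : (N : ℤ) + 1 + j = ((N + (1 + j) : ℕ) : ℤ) := by push_cast; ring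
  rw [this, gi_nat]

/-- Jacobi's identity. -/
theorem jacobi (h0 : 0 < q) (h1 : q < 1) :
    ∑' j : ℕ, (-1 : ℝ) ^ j * t j q = Gi q ^ 3 := by
  have hG := Gi_pos h0 h1
  have hE : Tendsto (fun N => E q N) atTop (𝓝 (Gi q)) := by
    have h2 : ∀ N, E q N = G q N ^ 2 / G q (2 * N + 1) := by
      intro N
      have := G_pos h0.le h1 (2 * N + 1)
      rw [eq_div_iff this.ne', mul_comm]
      exact E_eq h0 h1 N
    have h3 : Tendsto (fun N : ℕ => 2 * N + 1) atTop atTop :=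
      tendsto_atTop_mono (fun N => by simp only [id]; omega) tendsto_id
    have h4 := ((G_tendsto h0 h1).pow 2).div ((G_tendsto h0 h1).comp h3) hG.ne'
    have h5 : Gi q ^ 2 / Gi q = Gi q := by field_simp
    rw [h5] at h4
    refine h4.congr fun N => ?_
    rw [h2]; rfl
  have hE2 : Tendsto (fun N => ∑' j : ℕ, (2 * (j : ℝ) + 1) * co q N j) atTop
      (𝓝 (∑' j : ℕ, ((-1 : ℝ) ^ j * t j q) * ((Gi q)⁻¹ * (Gi q)⁻¹))) := by
    refine tendsto_tsum_of_dominated_convergence (bound := fun j => t j q * ((Gi q)⁻¹ * (Gi q)⁻¹))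
      ((t_summable h0.le h1).mul_right _) ?_ ?_
    · intro j
      have h2 := ((gi_tendsto1 h0 h1 j).mul (gi_tendsto2 h0 h1 j)).const_mul
        ((2 * (j : ℝ) + 1) * ((-1) ^ (j : ℤ) * q ^ tau j))
      rw [show ((-1 : ℝ) ^ j * t j q) * ((Gi q)⁻¹ * (Gi q)⁻¹) =
        ((2 * (j : ℝ) + 1) * ((-1) ^ (j : ℤ) * q ^ tau j)) * ((Gi q)⁻¹ * (Gi q)⁻¹) by
          rw [tau_nat, zpow_natCast, zpow_natCast, t]; ring]
      refine h2.congr fun N => ?_
      unfold co
      ring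
    · refine Eventually.of_forall fun N j => ?_
      unfold co
      obtain ⟨a1, a2⟩ := gi_le h0 h1 ((N : ℤ) - j)
      obtain ⟨b1, b2⟩ := gi_le h0 h1 ((N : ℤ) + 1 + j)
      rw [norm_mul, norm_mul, norm_mul, Real.norm_of_nonneg (show (0 : ℝ) ≤ 2 * (j : ℝ) + 1 by positivity),
        tau_nat, zpow_natCast, zpow_natCast, norm_pow, norm_neg, norm_one, one_pow, one_mul,
        Real.norm_of_nonneg (show (0 : ℝ) ≤ q ^ (j * (j + 1) / 2) by positivity),
        Real.norm_of_nonneg (mul_nonneg a1 b1), ← mul_assoc]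
      have h5 : (2 * (j : ℝ) + 1) * q ^ (j * (j + 1) / 2) = t j q := rfl
      rw [h5]
      have := t_nonneg h0.le j
      gcongr
  have hE3 : ∀ N, ∑' j : ℕ, (2 * (j : ℝ) + 1) * co q N j = E q N := by
    intro N
    rw [tsum_eq_sum (s := Finset.range (N + 1))]
    · rfl
    · intro j hj
      rw [Finset.mem_range, not_lt] at hj
      rw [co_big N j (by omega), mul_zero]
  simp_rw [hE3] at hE2
  have h6 := tendsto_nhds_unique hE hE2
  rw [tsum_mul_right] at h6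
  generalize (∑' j : ℕ, (-1 : ℝ) ^ j * t j q) = S at h6 ⊢
  have h7 : S = (S * ((Gi q)⁻¹ * (Gi q)⁻¹)) * (Gi q * Gi q) := by field_simp
  rw [h7, ← h6]
  ring

end Pool.Agent.R259.Jac
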