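import Mathlib
import Pool.Agent.H635Z.C

set_option autoImplicit false

namespace Pool.Agent.R259

open Filter Topology Polynomial

lemma mset_fun (s : Multiset ℝ) (h : ∀ r ∈ s, r ≤ 0) : ∃ (D : ℕ) (t : ℕ → ℝ),
    (∀ i < D, 0 ≤ t i) ∧ (s.map fun a => X - C a).prod = ∏ i ∈ Finset.range D, (X + C (t i)) := by
  induction s using Multiset.induction_on with
  | empty => exact ⟨0, fun _ => 0, fun i hi => absurd hi (Nat.not_lt_zero _), by simp⟩
  | cons a s ih =>
    obtain ⟨D, t, ht, hp⟩ := ih fun r hr => h r (Multiset.mem_cons_of_mem hr)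
    refine ⟨D + 1, fun i => if i = D then -a else t i, ?_, ?_⟩
    · intro i hi
      by_cases h1 : i = D
      · simp only [h1, if_true]
        have := h a (Multiset.mem_cons_self a s)
        linarith
      · simp only [h1, if_false]
        exact ht i (by omega)
    · rw [Multiset.map_cons, Multiset.prod_cons, Finset.prod_range_succ, hp, mul_comm]
      congr 1
      · refine Finset.prod_congr rfl fun i hi => ?_
        have : i ≠ D := (Finset.mem_range.1 hi).ne
        simp [this]
      · simp [sub_eq_add_neg]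

lemma pow_div_choose_tendsto (j : ℕ) :
    Tendsto (fun N : ℕ => (N : ℝ) ^ j / (N.choose j : ℝ)) atTop (𝓝 (j.factorial : ℝ)) := by
  have h1 : Tendsto (fun n : ℕ => (n : ℝ) * (n : ℝ)⁻¹) atTop (𝓝 1) := by
    refine tendsto_const_nhds.congr' ?_
    filter_upwards [eventually_gt_atTop 0] with n hn
    have : (n : ℝ) ≠ 0 := by positivity
    field_simp
  have h2 := ProbabilityTheory.tendsto_choose_mul_pow_atTop j h1
  rw [one_pow] at h2
  have h3 := h2.inv₀ (by positivity)
  rw [one_div, inv_inv] at h3
  refine h3.congr fun N => ?_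
  rw [mul_inv, inv_pow, inv_inv, mul_comm, div_eq_mul_inv]

/-- Schur-Szego composition in the limit: `∑ j! W_j q_j x^j` is real-rooted when `W` is and `q`
has only nonpositive zeros. -/
theorem schur_comp {W q : ℝ[X]} (hW : W.Splits)
    (hq : ∀ z : ℂ, aeval z q = 0 → z.im = 0 ∧ z.re ≤ 0) :
    (∑ j ∈ Finset.range (W.natDegree + 1),
      C ((j.factorial : ℝ) * (W.coeff j * q.coeff j)) * X ^ j).Splits := by
  have hqs : q.Splits := Pool.Agent.H635Z.splits_of_real q fun z hz => (hq z hz).1
  by_cases hq0 : q = 0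
  · have : (∑ j ∈ Finset.range (W.natDegree + 1),
      C ((j.factorial : ℝ) * (W.coeff j * q.coeff j)) * X ^ j) = 0 := by
      simp [hq0]
    rw [this]; exact Splits.zero
  have hneg : ∀ r ∈ q.roots, r ≤ 0 := by
    intro r hr
    rw [mem_roots hq0, IsRoot.def] at hr
    have h1 : aeval (r : ℂ) q = 0 := by
      rw [← Complex.coe_algebraMap, aeval_algebraMap_apply, coe_aeval_eq_eval, hr]; simp
    simpa using (hq _ h1).2
  obtain ⟨D, t, ht, hprod⟩ := mset_fun q.roots hneg
  have hqt : q = C q.leadingCoeff * ∏ i ∈ Finset.range D, (X + C (t i)) := by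
    conv_lhs => rw [hqs.eq_prod_roots]
    rw [hprod]
  set a := q.leadingCoeff with ha
  have ha0 : a ≠ 0 := leadingCoeff_ne_zero.2 hq0
  -- the approximating polynomials
  refine Pool.Agent.H635Z.splits_of_tendsto (l := atTop)
    (fun N : ℕ => C a * Pool.Agent.H635Z.comp N W (∏ i ∈ Finset.range N,
      (C (if i < D then t i else 1) - C (if i < D then (N : ℝ) else 0) * X))) _ ?_ ?_
  · filter_upwards [eventually_ge_atTop W.natDegree] with N hN
    refine (Splits.C _).mul ?_
    have := Pool.Agent.H635Z.comp_splits (Finset.range N) (fun i => if i < D then (N : ℝ) else 0)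
      (fun i => if i < D then t i else 1) (by
        intro i _
        by_cases h : i < D <;> simp [h]) (by
        intro i _
        by_cases h : i < D
        · simp only [h, if_true]; exact ht i h
        · simp [h]) W hW (by rw [Finset.card_range]; exact hN)
    rwa [Finset.card_range] at this
  · intro z
    have key : ∀ N : ℕ, D ≤ N → W.natDegree ≤ N → aeval z (C a * Pool.Agent.H635Z.comp N W
        (∏ i ∈ Finset.range N, (C (if i < D then t i else 1) -
          C (if i < D then (N : ℝ) else 0) * X))) =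
        ∑ j ∈ Finset.range (W.natDegree + 1),
          (((W.coeff j * q.coeff j) * ((N : ℝ) ^ j / (N.choose j : ℝ)) : ℝ) : ℂ) * z ^ j := by
      intro N hND hNW
      have e1 : (∏ i ∈ Finset.range N, (C (if i < D then t i else 1) -
          C (if i < D then (N : ℝ) else 0) * X)) =
          ∏ i ∈ Finset.range D, (C (t i) - C (N : ℝ) * X) := by
        rw [← Finset.prod_subset (Finset.range_subset_range.2 hND)]
        · refine Finset.prod_congr rfl fun i hi => ?_
          simp [Finset.mem_range.1 hi]
        · intro i _ hi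
          rw [Finset.mem_range] at hi
          simp [hi]
      have e2 : C a * ∏ i ∈ Finset.range D, (C (t i) - C (N : ℝ) * X) = q.comp (C (-(N : ℝ)) * X) := by
        conv_rhs => rw [hqt]
        rw [mul_comp, C_comp, prod_comp]
        congr 1
        refine Finset.prod_congr rfl fun i _ => ?_
        simp
        ring
      have e3 : ∀ j, a * (∏ i ∈ Finset.range D, (C (t i) - C (N : ℝ) * X)).coeff j =
          q.coeff j * (-(N : ℝ)) ^ j := by
        intro j
        rw [← coeff_C_mul, e2, comp_C_mul_X_coeff]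
      rw [e1]
      unfold Pool.Agent.H635Z.comp
      rw [map_mul, map_sum, aeval_C, Complex.coe_algebraMap]
      rw [← Finset.sum_subset (Finset.range_subset_range.2 (Nat.succ_le_succ hNW))]
      · rw [Finset.mul_sum]
        refine Finset.sum_congr rfl fun j _ => ?_
        rw [map_mul, aeval_C, Complex.coe_algebraMap, map_pow, aeval_X, ← mul_assoc,
          ← Complex.ofReal_mul]
        congr 2
        have h3 := e3 j
        have h4 : (-(N : ℝ)) ^ j = (-1) ^ j * (N : ℝ) ^ j := by
          rw [neg_eq_neg_one_mul, mul_pow]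
        rw [h4] at h3
        have h5 : ((-1 : ℝ) ^ j) * (-1) ^ j = 1 := by rw [← mul_pow]; simp
        calc a * (W.coeff j * (∏ i ∈ Finset.range D, (C (t i) - C (N : ℝ) * X)).coeff j * (-1) ^ j /
              (N.choose j : ℝ)) = W.coeff j * (a * (∏ i ∈ Finset.range D,
                (C (t i) - C (N : ℝ) * X)).coeff j) * (-1) ^ j / (N.choose j : ℝ) := by ring
          _ = W.coeff j * q.coeff j * ((N : ℝ) ^ j / (N.choose j : ℝ)) * ((-1) ^ j * (-1) ^ j) := by
              rw [h3]; ring
          _ = _ := by rw [h5, mul_one]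
      · intro j _ hj
        rw [Finset.mem_range, not_lt] at hj
        rw [coeff_eq_zero_of_natDegree_lt (show W.natDegree < j by omega)]
        simp
    have e0 : aeval z (∑ j ∈ Finset.range (W.natDegree + 1),
        C ((j.factorial : ℝ) * (W.coeff j * q.coeff j)) * X ^ j) =
        ∑ j ∈ Finset.range (W.natDegree + 1),
          (((W.coeff j * q.coeff j) * (j.factorial : ℝ) : ℝ) : ℂ) * z ^ j := by
      rw [map_sum]
      refine Finset.sum_congr rfl fun j _ => ?_
      rw [map_mul, aeval_C, Complex.coe_algebraMap, map_pow, aeval_X, mul_comm (j.factorial : ℝ)]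
    rw [e0]
    have h1 : Tendsto (fun N : ℕ => ∑ j ∈ Finset.range (W.natDegree + 1),
          (((W.coeff j * q.coeff j) * ((N : ℝ) ^ j / (N.choose j : ℝ)) : ℝ) : ℂ) * z ^ j) atTop
        (𝓝 (∑ j ∈ Finset.range (W.natDegree + 1),
          (((W.coeff j * q.coeff j) * (j.factorial : ℝ) : ℝ) : ℂ) * z ^ j)) := by
      refine tendsto_finset_sum _ fun j _ => ?_
      refine Tendsto.mul_const _ ?_
      exact (Complex.continuous_ofReal.tendsto _).comp ((pow_div_choose_tendsto j).const_mul _)
    refine h1.congr' ?_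
    filter_upwards [eventually_ge_atTop D, eventually_ge_atTop W.natDegree] with N h2 h3
    exact (key N h2 h3).symm

/-- Easy direction of the theorem of Polya and Schur: if `∑ γ_k x^k / k!` is a limit (in the sense
of coefficients) of polynomials with only nonpositive zeros, `γ` is a multiplier sequence. -/
theorem ms_of_limit {q : ℕ → ℝ[X]} {γ : ℕ → ℝ}
    (hq : ∀ᶠ n in atTop, ∀ z : ℂ, aeval z (q n) = 0 → z.im = 0 ∧ z.re ≤ 0)
    (hc : ∀ k, Tendsto (fun n => (q n).coeff k) atTop (𝓝 (γ k / k.factorial)))
    {W : ℝ[X]} (hW : W.Splits) :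
    (∑ j ∈ Finset.range (W.natDegree + 1), C (γ j * W.coeff j) * X ^ j).Splits := by
  refine Pool.Agent.H635Z.splits_of_tendsto (l := atTop)
    (fun n : ℕ => ∑ j ∈ Finset.range (W.natDegree + 1),
      C ((j.factorial : ℝ) * (W.coeff j * (q n).coeff j)) * X ^ j) _ ?_ ?_
  · filter_upwards [hq] with n hn
    exact schur_comp hW hn
  · intro z
    simp only [map_sum, map_mul, aeval_C, map_pow, aeval_X, Complex.coe_algebraMap]
    refine tendsto_finset_sum _ fun j _ => ?_
    refine Tendsto.mul_const _ ?_
    simp only [← Complex.ofReal_mul]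
    refine (Complex.continuous_ofReal.tendsto _).comp ?_
    have h1 := ((hc j).const_mul (W.coeff j)).const_mul (j.factorial : ℝ)
    have h2 : (j.factorial : ℝ) * (W.coeff j * (γ j / j.factorial)) = γ j * W.coeff j := by
      have : (j.factorial : ℝ) ≠ 0 := by positivity
      field_simp
    rw [h2] at h1
    exact h1

/-- real-rooted polynomials (the zero polynomial is admitted) -/
def OnlyRealZeros (p : ℝ[X]) : Prop := p = 0 ∨ ∀ z : ℂ, aeval z p = 0 → z.im = 0

/-- multiplier sequences -/
def IsMultiplierSequence (γ : ℕ → ℝ) : Prop :=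
  ∀ p : ℝ[X], OnlyRealZeros p →
    OnlyRealZeros (∑ k ∈ Finset.range (p.natDegree + 1), C (γ k * p.coeff k) * X ^ k)

lemma orz_iff (p : ℝ[X]) : OnlyRealZeros p ↔ p.Splits := by
  constructor
  · rintro (h | h)
    · rw [h]; exact Splits.zero
    · exact Pool.Agent.H635Z.splits_of_real p h
  · intro h
    by_cases h0 : p = 0
    · exact Or.inl h0
    · exact Or.inr fun z hz => Pool.Agent.H635Z.real_of_splits p h h0 z hz

theorem isMS_of_limit {q : ℕ → ℝ[X]} {γ : ℕ → ℝ}
    (hq : ∀ᶠ n in atTop, ∀ z : ℂ, aeval z (q n) = 0 → z.im = 0 ∧ z.re ≤ 0)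
    (hc : ∀ k, Tendsto (fun n => (q n).coeff k) atTop (𝓝 (γ k / k.factorial))) :
    IsMultiplierSequence γ := by
  intro p hp
  rw [orz_iff] at hp ⊢
  exact ms_of_limit hq hc hp

end Pool.Agent.R259
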