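import Mathlib

set_option autoImplicit false

/-! Operators `P = ∑ p_k x^k ↦ ∑ g_k p_k x^k` controlled by the values of `P` between `0` and `x`. -/

namespace Pool.Agent.R259

open Filter Topology Polynomial MeasureTheory

/-- the multiplied polynomial -/
noncomputable def T (g : ℕ → ℝ) (P : ℝ[X]) : ℝ[X] :=
  ∑ k ∈ Finset.range (P.natDegree + 1), C (g k * P.coeff k) * X ^ k

lemma T_coeff (g : ℕ → ℝ) (P : ℝ[X]) (k : ℕ) : (T g P).coeff k = g k * P.coeff k := by
  unfold T
  rw [finsetSum_coeff]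
  simp only [coeff_C_mul, coeff_X_pow]
  rcases Nat.lt_or_ge P.natDegree k with h | h
  · rw [coeff_eq_zero_of_natDegree_lt h, mul_zero, Finset.sum_eq_zero]
    intro j hj
    rw [Finset.mem_range] at hj
    rw [if_neg (by omega), mul_zero]
  · rw [Finset.sum_eq_single k]
    · simp
    · intro j _ hj
      rw [if_neg (by omega), mul_zero]
    · intro h2
      exact absurd (Finset.mem_range.2 (by omega)) h2

lemma T_eval (g : ℕ → ℝ) (P : ℝ[X]) (x : ℝ) : (T g P).eval x =
    ∑ k ∈ Finset.range (P.natDegree + 1), g k * (P.coeff k * x ^ k) := by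
  unfold T
  rw [eval_finsetSum]
  refine Finset.sum_congr rfl fun k _ => ?_
  simp; ring

/-- `|∑ g_k p_k x^k| ≤ c sup |P|` over the segment from `0` to `x`. -/
def NB (g : ℕ → ℝ) (c : ℝ) : Prop :=
  ∀ (P : ℝ[X]) (x M : ℝ), (∀ t : ℝ, 0 ≤ t → t ≤ 1 → |P.eval (t * x)| ≤ M) →
    |(T g P).eval x| ≤ c * M

lemma NB.pow {t : ℝ} (h0 : 0 ≤ t) (h1 : t ≤ 1) : NB (fun k => t ^ k) 1 := by
  intro P x M hM
  have : (T (fun k => t ^ k) P).eval x = P.eval (t * x) := by
    rw [T_eval, eval_eq_sum_range]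
    refine Finset.sum_congr rfl fun k _ => ?_
    rw [mul_pow]; ring
  rw [this, one_mul]
  exact hM t h0 h1

lemma NB.nonneg_M {P : ℝ[X]} {x M : ℝ} (h : ∀ t : ℝ, 0 ≤ t → t ≤ 1 → |P.eval (t * x)| ≤ M) : 0 ≤ M :=
  (abs_nonneg _).trans (h 0 le_rfl zero_le_one)

lemma NB.add {g₁ g₂ : ℕ → ℝ} {c₁ c₂ : ℝ} (h₁ : NB g₁ c₁) (h₂ : NB g₂ c₂) :
    NB (fun k => g₁ k + g₂ k) (c₁ + c₂) := by
  intro P x M hM
  have : (T (fun k => g₁ k + g₂ k) P).eval x = (T g₁ P).eval x + (T g₂ P).eval x := by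
    rw [T_eval, T_eval, T_eval, ← Finset.sum_add_distrib]
    refine Finset.sum_congr rfl fun k _ => ?_
    ring
  rw [this]
  have a1 := h₁ P x M hM
  have a2 := h₂ P x M hM
  have a3 := abs_add_le ((T g₁ P).eval x) ((T g₂ P).eval x)
  linarith

lemma NB.smul {g : ℕ → ℝ} {c : ℝ} (h : NB g c) (a : ℝ) : NB (fun k => a * g k) (|a| * c) := by
  intro P x M hM
  have : (T (fun k => a * g k) P).eval x = a * (T g P).eval x := by
    rw [T_eval, T_eval, Finset.mul_sum]
    refine Finset.sum_congr rfl fun k _ => ?_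
    ring
  rw [this, abs_mul, mul_assoc]
  exact mul_le_mul_of_nonneg_left (h P x M hM) (abs_nonneg a)

lemma NB.mul {g₁ g₂ : ℕ → ℝ} {c₁ c₂ : ℝ} (h₁ : NB g₁ c₁) (h₂ : NB g₂ c₂) :
    NB (fun k => g₁ k * g₂ k) (c₁ * c₂) := by
  intro P x M hM
  have : T (fun k => g₁ k * g₂ k) P = T g₁ (T g₂ P) := by
    ext k
    rw [T_coeff, T_coeff, T_coeff]; ring
  rw [this, mul_assoc]
  apply h₁
  intro t ht0 ht1
  apply h₂
  intro s hs0 hs1
  rw [← mul_assoc]
  exact hM (s * t) (mul_nonneg hs0 ht0) (mul_le_one₀ hs1 ht0 ht1)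

lemma NB.limit {ι : Type*} {l : Filter ι} [l.NeBot] {g : ι → ℕ → ℝ} {c : ι → ℝ} {g0 : ℕ → ℝ}
    {c0 : ℝ} (h : ∀ᶠ i in l, NB (g i) (c i)) (hg : ∀ k, Tendsto (fun i => g i k) l (𝓝 (g0 k)))
    (hc : Tendsto c l (𝓝 c0)) : NB g0 c0 := by
  intro P x M hM
  have h1 : Tendsto (fun i => |(T (g i) P).eval x|) l (𝓝 |(T g0 P).eval x|) := by
    apply Tendsto.abs
    simp_rw [T_eval]
    exact tendsto_finsetSum _ fun k _ => (hg k).mul_const _
  refine le_of_tendsto_of_tendsto h1 (hc.mul_const M) ?_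
  filter_upwards [h] with i hi
  exact hi P x M hM

lemma NB.congr {g₁ g₂ : ℕ → ℝ} {c₁ c₂ : ℝ} (h : NB g₁ c₁) (hg : ∀ k, g₁ k = g₂ k) (hc : c₁ = c₂) :
    NB g₂ c₂ := by
  have : g₁ = g₂ := funext hg
  rw [← this, ← hc]; exact h

lemma NB.zero : NB (fun _ => 0) 0 := by
  intro P x M _
  rw [T_eval]; simp

lemma NB.one : NB (fun _ => 1) 1 := by
  have := NB.pow (t := 1) zero_le_one le_rfl
  exact this.congr (fun k => by simp) rfl

lemma NB.sum {ι : Type*} (s : Finset ι) {g : ι → ℕ → ℝ} {c : ι → ℝ} (h : ∀ i ∈ s, NB (g i) (c i)) :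
    NB (fun k => ∑ i ∈ s, g i k) (∑ i ∈ s, c i) := by
  classical
  induction s using Finset.induction_on with
  | empty => simpa using NB.zero
  | insert a s ha ih =>
    simp_rw [Finset.sum_insert ha]
    exact (h a (Finset.mem_insert_self a s)).add (ih fun i hi => h i (Finset.mem_insert_of_mem hi))

/-- integrals -/
lemma NB.integral {a b : ℝ} (hab : a ≤ b) {g : ℝ → ℕ → ℝ} {c : ℝ → ℝ}
    (h : ∀ s ∈ Set.Icc a b, NB (g s) (c s)) (hg : ∀ k, IntervalIntegrable (fun s => g s k) volume a b)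
    (hc : IntervalIntegrable c volume a b) :
    NB (fun k => ∫ s in a..b, g s k) (∫ s in a..b, c s) := by
  intro P x M hM
  have h1 : (T (fun k => ∫ s in a..b, g s k) P).eval x = ∫ s in a..b, (T (g s) P).eval x := by
    rw [T_eval]
    simp_rw [T_eval]
    rw [intervalIntegral.integral_finsetSum]
    · refine Finset.sum_congr rfl fun k _ => ?_
      rw [intervalIntegral.integral_mul_const]
    · intro k _
      exact (hg k).mul_const _
  have hint : IntervalIntegrable (fun s => (T (g s) P).eval x) volume a b := by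
    simp_rw [T_eval]
    have := IntervalIntegrable.sum (Finset.range (P.natDegree + 1))
      (f := fun k s => g s k * (P.coeff k * x ^ k)) (μ := volume) (a := a) (b := b)
      (fun k _ => (hg k).mul_const _)
    refine this.congr ?_
    intro s _
    simp
  rw [h1]
  refine (intervalIntegral.abs_integral_le_integral_abs hab).trans ?_
  rw [← intervalIntegral.integral_mul_const]
  apply intervalIntegral.integral_mono_on hab hint.abs (hc.mul_const M)
  intro s hs
  exact h s hs P x M hM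

/-- `g_k = 1/(k+v)` -/
lemma NB.inv {v : ℝ} (hv : 0 < v) : NB (fun k => 1 / ((k : ℝ) + v)) (1 / v) := by
  have hk : ∀ k : ℕ, ∫ s in (0:ℝ)..1, s ^ (v - 1) * s ^ k = 1 / ((k : ℝ) + v) := by
    intro k
    have h1 : ∫ s in (0:ℝ)..1, s ^ (v - 1) * s ^ k = ∫ s in (0:ℝ)..1, s ^ (v - 1 + k) := by
      apply intervalIntegral.integral_congr_ae
      filter_upwards with s hs
      rw [Set.uIoc_of_le zero_le_one] at hs
      rw [← Real.rpow_natCast, ← Real.rpow_add hs.1]
    rw [h1, integral_rpow (Or.inl (by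
      have : (0 : ℝ) ≤ k := Nat.cast_nonneg k
      linarith))]
    have h2 : (0 : ℝ) < v - 1 + k + 1 := by
      have : (0 : ℝ) ≤ k := Nat.cast_nonneg k
      linarith
    rw [Real.one_rpow, Real.zero_rpow h2.ne', sub_zero]
    congr 1; ring
  have hint : ∀ k : ℕ, IntervalIntegrable (fun s : ℝ => s ^ (v - 1) * s ^ k) volume 0 1 := by
    intro k
    apply IntervalIntegrable.mul_continuousOn
    · exact intervalIntegral.intervalIntegrable_rpow' (by linarith)
    · fun_prop
  intro P x M hM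
  have h1 : (T (fun k => 1 / ((k : ℝ) + v)) P).eval x =
      ∫ s in (0:ℝ)..1, s ^ (v - 1) * P.eval (s * x) := by
    rw [T_eval]
    have e : ∀ s : ℝ, s ^ (v - 1) * P.eval (s * x) = ∑ k ∈ Finset.range (P.natDegree + 1),
        s ^ (v - 1) * s ^ k * (P.coeff k * x ^ k) := by
      intro s
      rw [eval_eq_sum_range, Finset.mul_sum]
      refine Finset.sum_congr rfl fun k _ => ?_
      rw [mul_pow]; ring
    simp_rw [e]
    rw [intervalIntegral.integral_finsetSum]
    · refine Finset.sum_congr rfl fun k _ => ?_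
      rw [intervalIntegral.integral_mul_const, hk]
    · intro k _
      exact (hint k).mul_const _
  have hint2 : IntervalIntegrable (fun s : ℝ => s ^ (v - 1) * P.eval (s * x)) volume 0 1 := by
    apply IntervalIntegrable.mul_continuousOn
    · exact intervalIntegral.intervalIntegrable_rpow' (by linarith)
    · fun_prop
  have hint3 : IntervalIntegrable (fun s : ℝ => s ^ (v - 1)) volume 0 1 :=
    intervalIntegral.intervalIntegrable_rpow' (by linarith)
  rw [h1]
  refine (intervalIntegral.abs_integral_le_integral_abs zero_le_one).trans ?_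
  have h0 := hk 0
  simp only [pow_zero, mul_one, Nat.cast_zero, zero_add] at h0
  rw [← h0, ← intervalIntegral.integral_mul_const]
  apply intervalIntegral.integral_mono_on zero_le_one hint2.abs (hint3.mul_const M)
  intro s hs
  rw [abs_mul, abs_of_nonneg (Real.rpow_nonneg hs.1 _)]
  exact mul_le_mul_of_nonneg_left (hM s hs.1 hs.2) (Real.rpow_nonneg hs.1 _)

/-- exponentials -/
lemma NB.exp {g : ℕ → ℝ} {c : ℝ} (h : NB g c) :
    NB (fun k => Real.exp (g k) - 1) (Real.exp c - 1) := by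
  have hpow : ∀ m : ℕ, NB (fun k => g k ^ m) (c ^ m) := by
    intro m
    induction m with
    | zero => exact NB.one.congr (fun k => by simp) (by simp)
    | succ m ih => exact (ih.mul h).congr (fun k => by rw [pow_succ]) (by rw [pow_succ])
  have hexp : ∀ x : ℝ, Tendsto (fun N : ℕ => ∑ m ∈ Finset.range N, x ^ m / (m.factorial : ℝ)) atTop
      (𝓝 (Real.exp x)) := by
    intro x
    have h1 := (NormedSpace.expSeries_div_hasSum_exp (𝔸 := ℝ) x).tendsto_sum_nat
    rwa [← Real.exp_eq_exp_ℝ] at h1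
  have hexp2 : ∀ x : ℝ, Tendsto (fun N : ℕ => ∑ m ∈ Finset.range N,
      x ^ (m + 1) / ((m + 1).factorial : ℝ)) atTop (𝓝 (Real.exp x - 1)) := by
    intro x
    have h2 := ((tendsto_add_atTop_iff_nat 1).2 (hexp x)).sub_const 1
    refine h2.congr fun N => ?_
    rw [Finset.sum_range_succ']
    simp
  have hN : ∀ N : ℕ, NB (fun k => ∑ m ∈ Finset.range N, g k ^ (m + 1) / ((m + 1).factorial : ℝ))
      (∑ m ∈ Finset.range N, c ^ (m + 1) / ((m + 1).factorial : ℝ)) := by
    intro N
    apply NB.sum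
    intro m _
    have hf : (0 : ℝ) < ((m + 1).factorial : ℝ) := by exact_mod_cast Nat.factorial_pos _
    refine ((hpow (m + 1)).smul (1 / ((m + 1).factorial : ℝ))).congr (fun k => ?_) ?_
    · ring
    · rw [abs_of_pos (by positivity)]; ring
  exact NB.limit (l := atTop) (Eventually.of_forall hN) (fun k => hexp2 (g k)) (hexp2 c)

end Pool.Agent.R259
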