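import Mathlib
import Pool.Agent.R259.Bes
import Pool.Agent.R259.LP
import Pool.Agent.R259.MS
import Pool.Agent.R259.NN

set_option autoImplicit false

/-! The polynomials `∑ binom(n,k) x^k / (n^k (b)_k (b')_k)`, an energy, and a dominance criterion. -/

namespace Pool.Agent.R259

open Filter Topology Polynomial

theorem fac_of_simple {P : ℝ[X]} (hs : P.Splits) (hl : 0 < P.leadingCoeff)
    (hd : ∀ x, P.eval x = 0 → P.derivative.eval x ≠ 0) : ∃ c, Fac P P.natDegree c := by
  have h0 : P ≠ 0 := by rintro rfl; simp at hl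
  have hcard : Multiset.card P.roots = P.natDegree := splits_iff_card_roots.1 hs
  have hnd : P.roots.Nodup := by
    rw [Multiset.nodup_iff_count_le_one]
    intro a
    rw [count_roots]
    by_contra h
    push Not at h
    have h2 := (one_lt_rootMultiplicity_iff_isRoot h0).1 h
    exact hd a h2.1 h2.2
  have hS : P.roots.toFinset.card = P.natDegree := by
    rw [Multiset.toFinset_card_of_nodup hnd, hcard]
  set e := P.roots.toFinset.orderEmbOfFin hS with he
  refine ⟨fun i => if h : i < P.natDegree then e ⟨i, h⟩ else 0, hl, ?_, ?_⟩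
  · intro i j hij hj
    have hi : i < P.natDegree := hij.trans hj
    simp only [hi, hj, dif_pos]
    exact e.strictMono (by simpa using hij)
  · have h1 := C_leadingCoeff_mul_prod_multiset_X_sub_C hcard
    conv_lhs => rw [← h1]
    congr 1
    have h2 : (P.roots.map fun a => X - C a).prod = ∏ a ∈ P.roots.toFinset, (X - C a) := by
      rw [Finset.prod, Multiset.toFinset_val, Multiset.dedup_eq_self.2 hnd]
    rw [h2]
    have h3 : P.roots.toFinset = Finset.univ.map e.toEmbedding := by
      rw [he, Finset.map_orderEmbOfFin_univ]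
    conv_lhs => rw [h3]
    rw [Finset.prod_map, Finset.prod_range]
    refine Finset.prod_congr rfl fun i _ => ?_
    simp

/-- at the negative critical points `|P|` is nonzero and maximal on the segment up to the origin -/
def Dom (P : ℝ[X]) : Prop :=
  ∀ x < 0, P.derivative.eval x = 0 → P.eval x ≠ 0 ∧
    ∀ t : ℝ, 0 ≤ t → t ≤ 1 → |P.eval (t * x)| ≤ |P.eval x|

lemma eval_pos_of_coeff {P : ℝ[X]} (h0 : 0 < P.coeff 0) (h : ∀ k, 0 ≤ P.coeff k) {x : ℝ}
    (hx : 0 ≤ x) : 0 < P.eval x := by
  rw [eval_eq_sum_range, Finset.sum_range_succ']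
  have h1 : 0 ≤ ∑ k ∈ Finset.range P.natDegree, P.coeff (k + 1) * x ^ (k + 1) :=
    Finset.sum_nonneg fun k _ => mul_nonneg (h _) (pow_nonneg hx _)
  simp only [pow_zero, mul_one]
  linarith

lemma Fac.sign_between {P : ℝ[X]} {n : ℕ} {c : ℕ → ℝ} (h : Fac P n c) {i : ℕ} (hi : i + 1 < n)
    {x : ℝ} (h1 : c i < x) (h2 : x < c (i + 1)) : 0 < (-1 : ℝ) ^ (n - 1 - i) * P.eval x := by
  rw [h.eval]
  have hsplit : ∏ j ∈ Finset.range n, (x - c j) =
      (∏ j ∈ Finset.range (i + 1), (x - c j)) * ∏ j ∈ Finset.Ico (i + 1) n, (x - c j) := by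
    rw [Finset.prod_range_mul_prod_Ico _ hi.le]
  have hpos : 0 < ∏ j ∈ Finset.range (i + 1), (x - c j) := by
    refine Finset.prod_pos fun j hj => ?_
    rw [Finset.mem_range] at hj
    rcases Nat.lt_or_ge j i with hji | hji
    · have := h.2.1 j i hji (by omega)
      linarith
    · have : j = i := by omega
      rw [this]; linarith
  have hneg : 0 < (-1 : ℝ) ^ (n - 1 - i) * ∏ j ∈ Finset.Ico (i + 1) n, (x - c j) := by
    have hc : (Finset.Ico (i + 1) n).card = n - 1 - i := by rw [Nat.card_Ico]; omega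
    rw [← hc, ← Finset.prod_const, ← Finset.prod_mul_distrib]
    refine Finset.prod_pos fun j hj => ?_
    rw [Finset.mem_Ico] at hj
    rcases Nat.lt_or_ge (i + 1) j with hji | hji
    · have := h.2.1 (i + 1) j hji (by omega)
      linarith
    · have : j = i + 1 := by omega
      rw [this]; linarith
  rw [hsplit]
  have := mul_pos (mul_pos h.1 hpos) hneg
  calc (0 : ℝ) < _ := this
    _ = _ := by ring

/-- the dominance criterion -/
theorem dom_fac {P : ℝ[X]} {n : ℕ} {c : ℕ → ℝ} (hf : Fac P n c) (h0 : 0 < P.coeff 0)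
    (hpos : ∀ k, 0 ≤ P.coeff k) (hd : Dom P) {h g : ℕ → ℝ} {L κ : ℝ} (hg : NB g κ) (hκ : κ < L)
    (hh : ∀ k, h k = L - g k) (hh0 : ∀ k, 0 < h k) :
    ∃ d, Fac (T h P) n d ∧ ∀ i < n, d i < 0 := by
  have hev : ∀ x, (T h P).eval x = L * P.eval x - (T g P).eval x := by
    intro x
    rw [T_eval, T_eval, eval_eq_sum_range, Finset.mul_sum, ← Finset.sum_sub_distrib]
    refine Finset.sum_congr rfl fun k _ => ?_
    rw [hh]; ring
  have hnat : P.natDegree = n := hf.natDegree
  have hroot : ∀ i < n, c i < 0 := by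
    intro i hi
    by_contra h1
    push Not at h1
    have := eval_pos_of_coeff h0 hpos h1
    rw [hf.root hi] at this
    exact lt_irrefl _ this
  have hdeg : (T h P).natDegree ≤ n := by
    rw [natDegree_le_iff_coeff_eq_zero]
    intro k hk
    rw [T_coeff, coeff_eq_zero_of_natDegree_lt (by omega), mul_zero]
  have hcn : 0 < (T h P).coeff n := by
    rw [T_coeff]
    have : P.coeff n = P.leadingCoeff := by rw [leadingCoeff, hnat]
    rw [this]
    exact mul_pos (hh0 n) hf.1
  have hdeg' : (T h P).natDegree = n := le_antisymm hdeg (le_natDegree_of_ne_zero hcn.ne')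
  have hlead : 0 < (T h P).leadingCoeff := by rw [leadingCoeff, hdeg']; exact hcn
  have hT0 : 0 < (T h P).coeff 0 := by rw [T_coeff]; exact mul_pos (hh0 0) h0
  have hTpos : ∀ k, 0 ≤ (T h P).coeff k := by
    intro k; rw [T_coeff]; exact mul_nonneg (hh0 k).le (hpos k)
  rcases Nat.eq_zero_or_pos n with rfl | hn
  · refine ⟨fun _ => 0, ⟨hlead, fun i j _ hj => absurd hj (Nat.not_lt_zero _), ?_⟩,
      fun i hi => absurd hi (Nat.not_lt_zero _)⟩
    rw [Finset.range_zero, Finset.prod_empty, mul_one]
    exact (eq_C_of_natDegree_eq_zero hdeg').trans (by rw [leadingCoeff, hdeg'])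
  -- critical points
  have hcrit : ∀ i, ∃ d, i + 1 < n → c i < d ∧ d < c (i + 1) ∧ P.derivative.eval d = 0 := by
    intro i
    by_cases hi : i + 1 < n
    · obtain ⟨d, hd1, hd2⟩ := exists_deriv_eq_zero (f := fun x => P.eval x) (hf.2.1 i (i + 1)
        (Nat.lt_succ_self i) hi) P.continuous.continuousOn
        ((hf.root (by omega)).trans (hf.root hi).symm)
      refine ⟨d, fun _ => ⟨hd1.1, hd1.2, ?_⟩⟩
      rw [← hd2, Polynomial.deriv]
    · exact ⟨0, fun h => absurd h hi⟩
  choose y hy using hcrit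
  obtain ⟨x0, hx0, hx0'⟩ := far_left hdeg' hn hlead (c 0)
  set x : ℕ → ℝ := fun i => if i = 0 then x0 else if i < n then y (i - 1) else 0 with hx
  have hx00 : x 0 = x0 := by simp [hx]
  have hxm : ∀ i, i + 1 < n → x (i + 1) = y i := by
    intro i hi
    simp only [hx, Nat.succ_ne_zero, if_false, Nat.add_sub_cancel, hi, if_true]
  have hxn : x n = 0 := by
    simp only [hx]; rw [if_neg (by omega), if_neg (lt_irrefl n)]
  obtain ⟨d, hd1, hd2⟩ := alt_roots (P := T h P) (n := n) hdeg (x := x) (by
    intro i hi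
    rcases Nat.eq_zero_or_pos i with rfl | hi0
    · rw [hx00]
      rcases Nat.lt_or_ge 1 n with h1 | h1
      · rw [hxm 0 (by omega)]
        have := hy 0 (by omega)
        linarith
      · have : n = 1 := by omega
        have e : x (0 + 1) = 0 := by rw [← hxn, this]
        rw [e]
        have := hroot 0 hn
        linarith
    · obtain ⟨j, rfl⟩ : ∃ j, i = j + 1 := ⟨i - 1, by omega⟩
      rw [hxm j hi]
      rcases Nat.lt_or_ge (j + 1 + 1) n with h1 | h1
      · rw [hxm (j + 1) h1]
        have h2 := hy j hi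
        have h3 := hy (j + 1) h1
        linarith
      · have h4 : j + 1 + 1 = n := by omega
        rw [h4, hxn]
        have h2 := hy j hi
        have := hroot (j + 1) hi
        linarith) (by
    intro i hi
    rcases Nat.eq_zero_or_pos i with rfl | hi0
    · rw [hx00, Nat.sub_zero]; exact hx0'
    · obtain ⟨j, rfl⟩ : ∃ j, i = j + 1 := ⟨i - 1, by omega⟩
      rcases Nat.lt_or_ge (j + 1) n with h1 | h1
      · rw [hxm j h1]
        obtain ⟨h2, h3, h4⟩ := hy j h1
        have hneg : y j < 0 := h3.trans (hroot (j + 1) h1)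
        obtain ⟨h5, h6⟩ := hd (y j) hneg h4
        have h7 := hf.sign_between h1 h2 h3
        have h8 := hg P (y j) _ h6
        rw [hev]
        have e1 : n - (j + 1) = n - 1 - j := by omega
        rw [e1]
        set s : ℝ := (-1 : ℝ) ^ (n - 1 - j) with hs
        have hs1 : |s| = 1 := by rw [hs, abs_pow]; simp
        have h9 : |P.eval (y j)| = s * P.eval (y j) := by
          rw [← abs_of_pos h7, abs_mul, hs1, one_mul]
        have h10 : s * (T g P).eval (y j) ≤ |(T g P).eval (y j)| := by
          calc s * (T g P).eval (y j) ≤ |s * (T g P).eval (y j)| := le_abs_self _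
            _ = _ := by rw [abs_mul, hs1, one_mul]
        rw [h9] at h8
        have h11 : κ * (s * P.eval (y j)) < L * (s * P.eval (y j)) := mul_lt_mul_of_pos_right hκ h7
        nlinarith
      · have h4 : j + 1 = n := by omega
        rw [h4, hxn, Nat.sub_self, pow_zero, one_mul]
        exact eval_pos_of_coeff hT0 hTpos le_rfl)
  refine ⟨d, hd2, fun i hi => ?_⟩
  by_contra h1
  push Not at h1
  have := eval_pos_of_coeff hT0 hTpos h1
  rw [hd2.root hi] at this
  exact lt_irrefl _ this

/-- `∑ binom(n,k) x^k / (n^k (b)_k (b')_k)` -/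
noncomputable def pn (b b' : ℝ) (n : ℕ) : ℝ[X] := T (fun j => 1 / poch b' j) (jn b n)

lemma pn_coeff (b b' : ℝ) (n k : ℕ) :
    (pn b b' n).coeff k = (n.choose k : ℝ) / (poch b k * poch b' k) * ((n : ℝ)⁻¹) ^ k := by
  rw [pn, T_coeff, jn_coeff]
  rw [mul_comm (poch b k), ← div_div, one_div_mul_eq_div]
  ring

lemma pn_splits {b b' : ℝ} (hb : 0 < b) (hb' : 0 < b') (n : ℕ) : (pn b b' n).Splits := by
  have hW : (jn b n).Splits := by
    rcases Nat.eq_zero_or_pos n with rfl | hn
    · have : jn b 0 = C (poch b 0)⁻¹ := by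
        ext k
        rw [jn_coeff, coeff_C]
        rcases Nat.eq_zero_or_pos k with rfl | hk
        · simp
        · rw [Nat.choose_eq_zero_of_lt hk, if_neg (by omega)]; simp
      rw [this]; exact Splits.C _
    · obtain ⟨c, hc, _⟩ := jn_fac hb hn
      exact hc.splits
  exact ms_of_limit (q := fun N => jn b' N) (γ := fun k => 1 / poch b' k) (by
    filter_upwards [eventually_gt_atTop 0] with N hN z hz
    obtain ⟨c, hc, hc0⟩ := jn_fac hb' hN
    obtain ⟨i, hi, hzi⟩ := hc.zeros hz
    rw [hzi]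
    exact ⟨Complex.ofReal_im _, by rw [Complex.ofReal_re]; exact (hc0 i hi).le⟩) (by
    intro k
    have h1 := jn_coeff_tendsto b' k
    have h2 : jc b' k = 1 / poch b' k / (k.factorial : ℝ) := by
      rw [jc, div_div, mul_comm]
    rwa [h2] at h1) hW

lemma pn_coeff_nonneg {b b' : ℝ} (hb : 0 < b) (hb' : 0 < b') (n k : ℕ) :
    0 ≤ (pn b b' n).coeff k := by
  rw [pn_coeff]
  have := poch_pos hb k
  have := poch_pos hb' k
  positivity

lemma pn_coeff_zero (b b' : ℝ) (n : ℕ) : (pn b b' n).coeff 0 = 1 := by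
  rw [pn_coeff]; simp [poch_zero]

lemma pn_natDegree {b b' : ℝ} (hb : 0 < b) (hb' : 0 < b') {n : ℕ} (hn : 0 < n) :
    (pn b b' n).natDegree = n := by
  apply le_antisymm
  · rw [natDegree_le_iff_coeff_eq_zero]
    intro m hm
    rw [pn_coeff, Nat.choose_eq_zero_of_lt hm]; simp
  · apply le_natDegree_of_ne_zero
    rw [pn_coeff, Nat.choose_self]
    have := poch_pos hb n
    have := poch_pos hb' n
    positivity

lemma pn_lead {b b' : ℝ} (hb : 0 < b) (hb' : 0 < b') {n : ℕ} (hn : 0 < n) :
    0 < (pn b b' n).leadingCoeff := by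
  rw [leadingCoeff, pn_natDegree hb hb' hn, pn_coeff, Nat.choose_self]
  have := poch_pos hb n
  have := poch_pos hb' n
  positivity

lemma pn_ratio {b b' : ℝ} (hb : 0 < b) (hb' : 0 < b') {n : ℕ} (hn : 0 < n) (k : ℕ) :
    (k + 1) * (b + k) * (b' + k) * (pn b b' n).coeff (k + 1) = (1 - k / n) * (pn b b' n).coeff k := by
  rw [pn_coeff, pn_coeff, poch_succ, poch_succ]
  have h1 := poch_pos hb k
  have h2 := poch_pos hb' k
  have h3 := choose_rel n k
  have h4 : (0 : ℝ) < n := by exact_mod_cast hn
  have h5 : 0 < b + k := by positivity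
  have h6 : 0 < b' + k := by positivity
  rw [pow_succ]
  field_simp
  linear_combination -h3

/-- the differential equation -/
lemma pn_ode {b b' : ℝ} (hb : 0 < b) (hb' : 0 < b') {n : ℕ} (hn : 0 < n) :
    derivative (X * derivative (X * derivative (pn b b' n))) +
      C (b + b' - 2) * derivative (X * derivative (pn b b' n)) +
      C ((b - 1) * (b' - 1)) * derivative (pn b b' n) =
      pn b b' n - C (1 / (n : ℝ)) * (X * derivative (pn b b' n)) := by
  ext k
  rw [coeff_add, coeff_add, coeff_sub, coeff_C_mul, coeff_C_mul, coeff_C_mul, coeff_X_deriv]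
  rw [coeff_derivative, coeff_derivative, coeff_derivative, coeff_X_deriv, coeff_X_deriv]
  have := pn_ratio hb hb' hn k
  push_cast
  linear_combination this

/-- the energy -/
noncomputable def En (b b' : ℝ) (P : ℝ[X]) : ℝ[X] :=
  P ^ 2 - derivative P * (C 2 * (X * derivative (X * derivative P)) +
    C (b + b' - 2) * (X * derivative P))

lemma En_deriv {b b' : ℝ} (hb : 0 < b) (hb' : 0 < b') {n : ℕ} (hn : 0 < n) (x : ℝ) :
    (En b b' (pn b b' n)).derivative.eval x =
      -2 * ((derivative (X * derivative (pn b b' n))).eval x - (pn b b' n).derivative.eval x / 2) ^ 2 +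
      ((2 * b - 1) * (2 * b' - 1) / 2 + 2 / n * x) * ((pn b b' n).derivative.eval x) ^ 2 := by
  have hode := congrArg (eval x) (pn_ode hb hb' hn)
  set P := pn b b' n with hP
  have e1 : (derivative (X * derivative P)).eval x = P.derivative.eval x +
      x * P.derivative.derivative.eval x := by
    simp [derivative_mul]
  simp only [eval_add, eval_sub, eval_mul, eval_C, eval_X] at hode
  unfold En
  simp only [derivative_sub, derivative_add, derivative_mul, derivative_C, derivative_pow, eval_sub,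
    eval_add, eval_mul, eval_C, eval_X, zero_mul, zero_add, derivative_X, one_mul, eval_pow,
    Nat.cast_ofNat] at hode ⊢
  rw [show (2 - 1 : ℕ) = 1 from rfl, pow_one]
  linear_combination (-2 * P.derivative.eval x) * hode

lemma En_zero (b b' : ℝ) (P : ℝ[X]) : (En b b' P).eval 0 = (P.eval 0) ^ 2 := by
  unfold En
  simp

lemma En_crit (b b' : ℝ) {P : ℝ[X]} {x : ℝ} (h : P.derivative.eval x = 0) :
    (En b b' P).eval x = (P.eval x) ^ 2 := by
  unfold En
  simp [h]

/-- dominance when `(2b-1)(2b'-1) ≤ 0` -/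
theorem pn_dom {b b' : ℝ} (hb : 0 < b) (hb' : 0 < b') (hbb : (2 * b - 1) * (2 * b' - 1) ≤ 0)
    {n : ℕ} (hn : 0 < n) : Dom (pn b b' n) := by
  set P := pn b b' n with hP
  have hanti : ∀ x y : ℝ, x ≤ y → y ≤ 0 → (En b b' P).eval y ≤ (En b b' P).eval x := by
    intro x y hxy hy
    have h1 : AntitoneOn (fun t => (En b b' P).eval t) (Set.Iic 0) := by
      apply antitoneOn_of_deriv_nonpos (convex_Iic 0) (En b b' P).continuous.continuousOn
        (En b b' P).differentiable.differentiableOn
      intro t ht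
      rw [interior_Iic] at ht
      have ht' : t < 0 := ht
      rw [Polynomial.deriv, En_deriv hb hb' hn]
      have h2 : 2 / (n : ℝ) * t ≤ 0 := mul_nonpos_of_nonneg_of_nonpos (by positivity) ht'.le
      have h3 : 0 ≤ ((derivative (X * derivative P)).eval t - P.derivative.eval t / 2) ^ 2 :=
        sq_nonneg _
      have h4 : 0 ≤ (P.derivative.eval t) ^ 2 := sq_nonneg _
      nlinarith
    exact h1 (Set.mem_Iic.2 (hxy.trans hy)) (Set.mem_Iic.2 hy) hxy
  have h00 : P.eval 0 = 1 := by
    rw [← coeff_zero_eq_eval_zero, hP, pn_coeff_zero]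
  intro x hx hcrit
  have hEx : (En b b' P).eval x = (P.eval x) ^ 2 := En_crit b b' hcrit
  have hE0 : (En b b' P).eval 0 = 1 := by rw [En_zero, h00, one_pow]
  have h1 : 1 ≤ (P.eval x) ^ 2 := by
    rw [← hEx, ← hE0]; exact hanti x 0 hx.le le_rfl
  refine ⟨fun h => by rw [h] at h1; norm_num at h1, ?_⟩
  -- the maximum of `P ^ 2` on `[x, 0]`
  have hmax : ∀ y ∈ Set.Icc x 0, (P.eval y) ^ 2 ≤ (P.eval x) ^ 2 := by
    have hcont : ContinuousOn (fun t => (P.eval t) ^ 2) (Set.Icc x 0) :=
      (P.continuous.pow 2).continuousOn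
    obtain ⟨m, hm, hmm⟩ := isCompact_Icc.exists_isMaxOn (Set.nonempty_Icc.2 hx.le) hcont
    intro y hy
    have hmy : (P.eval y) ^ 2 ≤ (P.eval m) ^ 2 := hmm hy
    refine hmy.trans ?_
    rcases eq_or_lt_of_le hm.1 with h2 | h2
    · rw [← h2]
    · rcases eq_or_lt_of_le hm.2 with h3 | h3
      · rw [h3, h00, one_pow]; exact h1
      · have h4 : IsLocalMax (fun t => (P.eval t) ^ 2) m :=
          hmm.isLocalMax (Icc_mem_nhds h2 h3)
        have h5 := h4.deriv_eq_zero
        have h6 : HasDerivAt (fun t => (P.eval t) ^ 2) (2 * P.eval m * P.derivative.eval m) m := by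
          have := (P.hasDerivAt m).fun_pow 2
          simpa using this
        rw [h6.deriv] at h5
        have h7 : (1 : ℝ) ≤ (P.eval m) ^ 2 := by
          have h7a : (P.eval 0) ^ 2 ≤ (P.eval m) ^ 2 := hmm (Set.right_mem_Icc.2 hx.le)
          rwa [h00, one_pow] at h7a
        have h8 : P.eval m ≠ 0 := by
          intro h; rw [h] at h7; norm_num at h7
        have h9 : P.derivative.eval m = 0 := by
          rcases mul_eq_zero.1 h5 with h | h
          · rcases mul_eq_zero.1 h with h | h
            · norm_num at h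
            · exact absurd h h8
          · exact h
        have h10 := hanti x m hm.1 hm.2
        rw [hEx, En_crit b b' h9] at h10
        exact h10
  intro t ht0 ht1
  rw [← sq_le_sq]
  apply hmax
  constructor
  · nlinarith
  · nlinarith

/-- a squarefree-type consequence -/
theorem pn_fac {b b' : ℝ} (hb : 0 < b) (hb' : 0 < b') {n : ℕ} (hn : 0 < n)
    (hd : Dom (pn b b' n)) : ∃ c, Fac (pn b b' n) n c := by
  have h1 := fac_of_simple (pn_splits hb hb' n) (pn_lead hb hb' hn) (by
    intro x hx hx'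
    have hneg : x < 0 := by
      by_contra h
      push Not at h
      have := eval_pos_of_coeff (by rw [pn_coeff_zero]; exact one_pos)
        (pn_coeff_nonneg hb hb' n) h
      rw [hx] at this
      exact lt_irrefl _ this
    exact (hd x hneg hx').1 hx)
  rwa [pn_natDegree hb hb' hn] at h1

/-- conclusion: zeros of multiplied polynomials -/
theorem pn_mult {b b' : ℝ} (hb : 0 < b) (hb' : 0 < b') {n : ℕ} (hn : 0 < n)
    (hd : Dom (pn b b' n)) {h g : ℕ → ℝ} {L κ : ℝ} (hg : NB g κ) (hκ : κ < L)
    (hh : ∀ k, h k = L - g k) (hh0 : ∀ k, 0 < h k) :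
    ∃ d, Fac (T h (pn b b' n)) n d ∧ ∀ i < n, d i < 0 := by
  obtain ⟨c, hc⟩ := pn_fac hb hb' hn hd
  exact dom_fac hc (by rw [pn_coeff_zero]; exact one_pos) (pn_coeff_nonneg hb hb' n) hd hg hκ hh hh0

lemma pn_coeff_tendsto (b b' : ℝ) (k : ℕ) : Tendsto (fun n => (pn b b' n).coeff k) atTop
    (𝓝 (1 / (k.factorial * poch b k * poch b' k))) := by
  have h1 := (jn_coeff_tendsto b k).const_mul (1 / poch b' k)
  have h2 : 1 / poch b' k * jc b k = 1 / (k.factorial * poch b k * poch b' k) := by
    rw [jc, one_div_mul_one_div]; congr 1; ring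
  rw [h2] at h1
  refine h1.congr fun n => ?_
  rw [pn, T_coeff]

end Pool.Agent.R259
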