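import Mathlib
import Pool.Agent.R259.Pn

set_option autoImplicit false

/-! A weighted dominance criterion for `∑ binom(n,k) x^k / (n^k k!)` and the sequence
`log (k+2) / k!`. -/

namespace Pool.Agent.R259

open Filter Topology Polynomial MeasureTheory

/-- the dominance criterion, with prescribed test points -/
theorem dom_fac' {P : ℝ[X]} {n : ℕ} {c : ℕ → ℝ} (hf : Fac P n c) (h0 : 0 < P.coeff 0)
    (hpos : ∀ k, 0 ≤ P.coeff k) {h g : ℕ → ℝ} {L κ : ℝ} (hκ : κ < L)
    (hh : ∀ k, h k = L - g k) (hh0 : ∀ k, 0 < h k)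
    (hd : ∀ i, i + 1 < n → ∃ d, c i < d ∧ d < c (i + 1) ∧
      |(T g P).eval d| ≤ κ * |P.eval d|) :
    ∃ d, Fac (T h P) n d ∧ ∀ i < n, d i < 0 := by
  have hev : ∀ x, (T h P).eval x = L * P.eval x - (T g P).eval x := by
    intro x
    rw [T_eval, T_eval, eval_eq_sum_range, Finset.mul_sum, ← Finset.sum_sub_distrib]
    refine Finset.sum_congr rfl fun k _ => ?_
    rw [hh]; ring
  have hnat : P.natDegree = n := hf.natDegree
  have hroot : ∀ i < n, c i < 0 := by
    intro i hi
    by_contra h1
    push Not at h1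
    have := eval_pos_of_coeff h0 hpos h1
    rw [hf.root hi] at this
    exact lt_irrefl _ this
  have hdeg : (T h P).natDegree ≤ n := by
    rw [natDegree_le_iff_coeff_eq_zero]
    intro k hk
    rw [T_coeff, coeff_eq_zero_of_natDegree_lt (by omega), mul_zero]
  have hcn : 0 < (T h P).coeff n := by
    rw [T_coeff]
    have : P.coeff n = P.leadingCoeff := by rw [leadingCoeff, hnat]
    rw [this]
    exact mul_pos (hh0 n) hf.1
  have hdeg' : (T h P).natDegree = n := le_antisymm hdeg (le_natDegree_of_ne_zero hcn.ne')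
  have hlead : 0 < (T h P).leadingCoeff := by rw [leadingCoeff, hdeg']; exact hcn
  have hT0 : 0 < (T h P).coeff 0 := by rw [T_coeff]; exact mul_pos (hh0 0) h0
  have hTpos : ∀ k, 0 ≤ (T h P).coeff k := by
    intro k; rw [T_coeff]; exact mul_nonneg (hh0 k).le (hpos k)
  rcases Nat.eq_zero_or_pos n with rfl | hn
  · refine ⟨fun _ => 0, ⟨hlead, fun i j _ hj => absurd hj (Nat.not_lt_zero _), ?_⟩,
      fun i hi => absurd hi (Nat.not_lt_zero _)⟩
    rw [Finset.range_zero, Finset.prod_empty, mul_one]
    exact (eq_C_of_natDegree_eq_zero hdeg').trans (by rw [leadingCoeff, hdeg'])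
  have hcrit : ∀ i, ∃ d, i + 1 < n → c i < d ∧ d < c (i + 1) ∧
      |(T g P).eval d| ≤ κ * |P.eval d| := by
    intro i
    by_cases hi : i + 1 < n
    · obtain ⟨d, h1⟩ := hd i hi
      exact ⟨d, fun _ => h1⟩
    · exact ⟨0, fun h => absurd h hi⟩
  choose y hy using hcrit
  obtain ⟨x0, hx0, hx0'⟩ := far_left hdeg' hn hlead (c 0)
  set x : ℕ → ℝ := fun i => if i = 0 then x0 else if i < n then y (i - 1) else 0 with hx
  have hx00 : x 0 = x0 := by simp [hx]
  have hxm : ∀ i, i + 1 < n → x (i + 1) = y i := by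
    intro i hi
    simp only [hx, Nat.succ_ne_zero, if_false, Nat.add_sub_cancel, hi, if_true]
  have hxn : x n = 0 := by
    simp only [hx]; rw [if_neg (by omega), if_neg (lt_irrefl n)]
  obtain ⟨d, hd1, hd2⟩ := alt_roots (P := T h P) (n := n) hdeg (x := x) (by
    intro i hi
    rcases Nat.eq_zero_or_pos i with rfl | hi0
    · rw [hx00]
      rcases Nat.lt_or_ge 1 n with h1 | h1
      · rw [hxm 0 (by omega)]
        have := hy 0 (by omega)
        linarith
      · have : n = 1 := by omega
        have e : x (0 + 1) = 0 := by rw [← hxn, this]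
        rw [e]
        have := hroot 0 hn
        linarith
    · obtain ⟨j, rfl⟩ : ∃ j, i = j + 1 := ⟨i - 1, by omega⟩
      rw [hxm j hi]
      rcases Nat.lt_or_ge (j + 1 + 1) n with h1 | h1
      · rw [hxm (j + 1) h1]
        have h2 := hy j hi
        have h3 := hy (j + 1) h1
        linarith
      · have h4 : j + 1 + 1 = n := by omega
        rw [h4, hxn]
        have h2 := hy j hi
        have := hroot (j + 1) hi
        linarith) (by
    intro i hi
    rcases Nat.eq_zero_or_pos i with rfl | hi0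
    · rw [hx00, Nat.sub_zero]; exact hx0'
    · obtain ⟨j, rfl⟩ : ∃ j, i = j + 1 := ⟨i - 1, by omega⟩
      rcases Nat.lt_or_ge (j + 1) n with h1 | h1
      · rw [hxm j h1]
        obtain ⟨h2, h3, h8⟩ := hy j h1
        have h7 := hf.sign_between h1 h2 h3
        rw [hev]
        have e1 : n - (j + 1) = n - 1 - j := by omega
        rw [e1]
        set s : ℝ := (-1 : ℝ) ^ (n - 1 - j) with hs
        have hs1 : |s| = 1 := by rw [hs, abs_pow]; simp
        have h9 : |P.eval (y j)| = s * P.eval (y j) := by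
          rw [← abs_of_pos h7, abs_mul, hs1, one_mul]
        have h10 : s * (T g P).eval (y j) ≤ |(T g P).eval (y j)| := by
          calc s * (T g P).eval (y j) ≤ |s * (T g P).eval (y j)| := le_abs_self _
            _ = _ := by rw [abs_mul, hs1, one_mul]
        rw [h9] at h8
        have h11 : κ * (s * P.eval (y j)) < L * (s * P.eval (y j)) := mul_lt_mul_of_pos_right hκ h7
        nlinarith
      · have h4 : j + 1 = n := by omega
        rw [h4, hxn, Nat.sub_self, pow_zero, one_mul]
        exact eval_pos_of_coeff hT0 hTpos le_rfl)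
  refine ⟨d, hd2, fun i hi => ?_⟩
  by_contra h1
  push Not at h1
  have := eval_pos_of_coeff hT0 hTpos h1
  rw [hd2.root hi] at this
  exact lt_irrefl _ this

/-- weighted bound -/
def NBs (g : ℕ → ℝ) (c : ℝ) : Prop :=
  ∀ (P : ℝ[X]) (x M : ℝ), (∀ t : ℝ, 0 < t → t ≤ 1 → Real.sqrt t * |P.eval (t * x)| ≤ M) →
    |(T g P).eval x| ≤ c * M

/-- integrals -/
lemma NBs.integral {a b : ℝ} (hab : a ≤ b) {g : ℝ → ℕ → ℝ} {c : ℝ → ℝ}
    (h : ∀ s ∈ Set.Icc a b, NBs (g s) (c s)) (hg : ∀ k, IntervalIntegrable (fun s => g s k) volume a b)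
    (hc : IntervalIntegrable c volume a b) :
    NBs (fun k => ∫ s in a..b, g s k) (∫ s in a..b, c s) := by
  intro P x M hM
  have h1 : (T (fun k => ∫ s in a..b, g s k) P).eval x = ∫ s in a..b, (T (g s) P).eval x := by
    rw [T_eval]
    simp_rw [T_eval]
    rw [intervalIntegral.integral_finsetSum]
    · refine Finset.sum_congr rfl fun k _ => ?_
      rw [intervalIntegral.integral_mul_const]
    · intro k _
      exact (hg k).mul_const _
  have hint : IntervalIntegrable (fun s => (T (g s) P).eval x) volume a b := by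
    simp_rw [T_eval]
    have := IntervalIntegrable.sum (Finset.range (P.natDegree + 1))
      (f := fun k s => g s k * (P.coeff k * x ^ k)) (μ := volume) (a := a) (b := b)
      (fun k _ => (hg k).mul_const _)
    refine this.congr ?_
    intro s _
    simp
  rw [h1]
  refine (intervalIntegral.abs_integral_le_integral_abs hab).trans ?_
  rw [← intervalIntegral.integral_mul_const]
  apply intervalIntegral.integral_mono_on hab hint.abs (hc.mul_const M)
  intro s hs
  exact h s hs P x M hM

lemma NBs.inv {v : ℝ} (hv : 1 / 2 < v) : NBs (fun k => 1 / ((k : ℝ) + v)) (1 / (v - 1 / 2)) := by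
  have hk : ∀ k : ℕ, ∫ s in (0:ℝ)..1, s ^ (v - 1) * s ^ k = 1 / ((k : ℝ) + v) := by
    intro k
    have h1 : ∫ s in (0:ℝ)..1, s ^ (v - 1) * s ^ k = ∫ s in (0:ℝ)..1, s ^ (v - 1 + k) := by
      apply intervalIntegral.integral_congr_ae
      filter_upwards with s hs
      rw [Set.uIoc_of_le zero_le_one] at hs
      rw [← Real.rpow_natCast, ← Real.rpow_add hs.1]
    rw [h1, integral_rpow (Or.inl (by
      have : (0 : ℝ) ≤ k := Nat.cast_nonneg k
      linarith))]
    have h2 : (0 : ℝ) < v - 1 + k + 1 := by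
      have : (0 : ℝ) ≤ k := Nat.cast_nonneg k
      linarith
    rw [Real.one_rpow, Real.zero_rpow h2.ne', sub_zero]
    congr 1; ring
  have hint : ∀ k : ℕ, IntervalIntegrable (fun s : ℝ => s ^ (v - 1) * s ^ k) volume 0 1 := by
    intro k
    apply IntervalIntegrable.mul_continuousOn
    · exact intervalIntegral.intervalIntegrable_rpow' (by linarith)
    · fun_prop
  intro P x M hM
  have h1 : (T (fun k => 1 / ((k : ℝ) + v)) P).eval x =
      ∫ s in (0:ℝ)..1, s ^ (v - 1) * P.eval (s * x) := by
    rw [T_eval]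
    have e : ∀ s : ℝ, s ^ (v - 1) * P.eval (s * x) = ∑ k ∈ Finset.range (P.natDegree + 1),
        s ^ (v - 1) * s ^ k * (P.coeff k * x ^ k) := by
      intro s
      rw [eval_eq_sum_range, Finset.mul_sum]
      refine Finset.sum_congr rfl fun k _ => ?_
      rw [mul_pow]; ring
    simp_rw [e]
    rw [intervalIntegral.integral_finsetSum]
    · refine Finset.sum_congr rfl fun k _ => ?_
      rw [intervalIntegral.integral_mul_const, hk]
    · intro k _
      exact (hint k).mul_const _
  have hint2 : IntervalIntegrable (fun s : ℝ => s ^ (v - 1) * P.eval (s * x)) volume 0 1 := by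
    apply IntervalIntegrable.mul_continuousOn
    · exact intervalIntegral.intervalIntegrable_rpow' (by linarith)
    · fun_prop
  have hint3 : IntervalIntegrable (fun s : ℝ => s ^ (v - 1 - 1 / 2)) volume 0 1 :=
    intervalIntegral.intervalIntegrable_rpow' (by linarith)
  rw [h1]
  refine (intervalIntegral.abs_integral_le_integral_abs zero_le_one).trans ?_
  have h0 : ∫ s in (0:ℝ)..1, s ^ (v - 1 - 1 / 2) = 1 / (v - 1 / 2) := by
    rw [integral_rpow (Or.inl (by linarith))]
    have h2 : (0 : ℝ) < v - 1 - 1 / 2 + 1 := by linarith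
    rw [Real.one_rpow, Real.zero_rpow h2.ne', sub_zero]
    congr 1; ring
  rw [← h0, ← intervalIntegral.integral_mul_const]
  apply intervalIntegral.integral_mono_on_of_le_Ioo zero_le_one hint2.abs (hint3.mul_const M)
  intro s hs
  rw [abs_mul, abs_of_nonneg (Real.rpow_nonneg hs.1.le _)]
  have h2 := hM s hs.1 hs.2.le
  have hsq : 0 < Real.sqrt s := Real.sqrt_pos.2 hs.1
  have h3 : |P.eval (s * x)| ≤ M / Real.sqrt s := by rw [le_div_iff₀ hsq]; linarith
  have h4 : s ^ (v - 1 - 1 / 2) = s ^ (v - 1) / Real.sqrt s := by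
    rw [Real.rpow_sub hs.1, Real.sqrt_eq_rpow]
  rw [h4]
  calc s ^ (v - 1) * |P.eval (s * x)| ≤ s ^ (v - 1) * (M / Real.sqrt s) :=
        mul_le_mul_of_nonneg_left h3 (Real.rpow_nonneg hs.1.le _)
    _ = _ := by ring

end Pool.Agent.R259
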