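import Mathlib
import Pool.Agent.R259.Lnk

set_option autoImplicit false

namespace Pool.Agent.R259

open Filter Topology Polynomial MeasureTheory

lemma jn1_ode {n : ℕ} (hn : 0 < n) : derivative (X * derivative (jn 1 n)) =
    jn 1 n - C (1 / (n : ℝ)) * (X * derivative (jn 1 n)) := by
  ext k
  rw [coeff_sub, coeff_C_mul, coeff_X_deriv, coeff_derivative, coeff_X_deriv]
  have := jn_ratio (b := 1) one_pos hn k
  push_cast
  linear_combination this

/-- second derivative -/
lemma jn1_ode' {n : ℕ} (hn : 0 < n) (x : ℝ) : x * (derivative (derivative (jn 1 n))).eval x =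
    (jn 1 n).eval x - x / n * (derivative (jn 1 n)).eval x - (derivative (jn 1 n)).eval x := by
  have h := congrArg (eval x) (jn1_ode hn)
  simp only [derivative_mul, derivative_X, eval_add, eval_sub, eval_mul, eval_X, eval_C, one_mul] at h
  linear_combination h

/-- values at `-s^2` -/
noncomputable def w0 (n : ℕ) (s : ℝ) : ℝ := (jn 1 n).eval (-(s ^ 2))
noncomputable def w1 (n : ℕ) (s : ℝ) : ℝ := (derivative (jn 1 n)).eval (-(s ^ 2))

lemma w0_deriv (n : ℕ) (s : ℝ) : HasDerivAt (w0 n) (-2 * s * w1 n s) s := by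
  have h1 : HasDerivAt (fun s : ℝ => -(s ^ 2)) (-(2 * s)) s := by
    have := ((hasDerivAt_id s).fun_pow 2).fun_neg
    simpa using this
  have h2 := ((jn 1 n).hasDerivAt (-(s ^ 2))).comp s h1
  refine h2.congr_deriv ?_
  unfold w1; ring

lemma w1_deriv {n : ℕ} (hn : 0 < n) {s : ℝ} (hs : 0 < s) : HasDerivAt (w1 n)
    (2 / s * (w0 n s + s ^ 2 / n * w1 n s - w1 n s)) s := by
  have h1 : HasDerivAt (fun s : ℝ => -(s ^ 2)) (-(2 * s)) s := by
    have := ((hasDerivAt_id s).fun_pow 2).fun_neg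
    simpa using this
  have h2 := ((derivative (jn 1 n)).hasDerivAt (-(s ^ 2))).comp s h1
  refine h2.congr_deriv ?_
  have h3 := jn1_ode' hn (-(s ^ 2))
  have h4 : (derivative (derivative (jn 1 n))).eval (-(s ^ 2)) =
      -(w0 n s + s ^ 2 / n * w1 n s - w1 n s) / s ^ 2 := by
    unfold w0 w1
    rw [eq_div_iff (by positivity)]
    linear_combination -h3
  rw [h4]
  field_simp

/-- `R(s) = s P(-s^2)` and its derivative -/
noncomputable def rr (n : ℕ) (s : ℝ) : ℝ := s * w0 n s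
noncomputable def rr1 (n : ℕ) (s : ℝ) : ℝ := w0 n s - 2 * s ^ 2 * w1 n s

lemma rr_deriv (n : ℕ) (s : ℝ) : HasDerivAt (rr n) (rr1 n s) s := by
  have h := (hasDerivAt_id s).fun_mul (w0_deriv n s)
  refine h.congr_deriv ?_
  unfold rr1; simp only [id]; ring

lemma rr1_deriv {n : ℕ} (hn : 0 < n) {s : ℝ} (hs : 0 < s) : HasDerivAt (rr1 n)
    ((1 / s + 2 * s / n) * rr1 n s - (4 + 2 / n + 1 / s ^ 2) * rr n s) s := by
  have h2 : HasDerivAt (fun s : ℝ => 2 * s ^ 2) (2 * (2 * s)) s := by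
    have := ((hasDerivAt_id s).fun_pow 2).const_mul 2
    simpa using this
  have h := (w0_deriv n s).fun_sub (h2.fun_mul (w1_deriv hn hs))
  refine h.congr_deriv ?_
  have hn' : (n : ℝ) ≠ 0 := by exact_mod_cast hn.ne'
  unfold rr1 rr
  field_simp
  ring

noncomputable def en (n : ℕ) (s : ℝ) : ℝ := rr n s ^ 2 + rr1 n s ^ 2 / (4 + 2 / n + 1 / s ^ 2)

lemma en_mono {n : ℕ} (hn : 0 < n) {s t : ℝ} (hs : 0 < s) (hst : s ≤ t) : en n s ≤ en n t := by
  have hn' : (0 : ℝ) < n := by exact_mod_cast hn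
  have hd : ∀ u : ℝ, 0 < u → HasDerivAt (en n) (2 * rr1 n u ^ 2 * (1 / u + 2 * u / n) /
      (4 + 2 / n + 1 / u ^ 2) + rr1 n u ^ 2 * (2 / u ^ 3) / (4 + 2 / n + 1 / u ^ 2) ^ 2) u := by
    intro u hu
    have hV : 0 < 4 + 2 / (n : ℝ) + 1 / u ^ 2 := by positivity
    have h1 := (rr_deriv n u).fun_pow 2
    have h2 := (rr1_deriv hn hu).fun_pow 2
    have h3 : HasDerivAt (fun u : ℝ => 4 + 2 / (n : ℝ) + 1 / u ^ 2) (-(2 / u ^ 3)) u := by
      have h4 := (((hasDerivAt_id u).fun_pow 2).fun_inv (by simpa using hu.ne')).const_add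
        (4 + 2 / (n : ℝ))
      refine (h4.congr_of_eventuallyEq ?_).congr_deriv ?_
      · filter_upwards with z
        simp [one_div]
      · simp only [id]
        field_simp
        ring
    have h5 := h1.fun_add (h2.fun_div h3 hV.ne')
    refine h5.congr_deriv ?_
    set V := 4 + 2 / (n : ℝ) + 1 / u ^ 2 with hVd
    field_simp
    ring
  have hm : MonotoneOn (en n) (Set.Icc s t) := by
    apply monotoneOn_of_deriv_nonneg (convex_Icc s t)
    · intro u hu
      exact (hd u (hs.trans_le hu.1)).continuousAt.continuousWithinAt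
    · intro u hu
      rw [interior_Icc] at hu
      exact (hd u (hs.trans hu.1)).differentiableAt.differentiableWithinAt
    · intro u hu
      rw [interior_Icc] at hu
      have hu0 : 0 < u := hs.trans hu.1
      rw [(hd u hu0).deriv]
      positivity
  exact hm (Set.left_mem_Icc.2 hst) (Set.right_mem_Icc.2 hst) hst

lemma rr_dom {n : ℕ} (hn : 0 < n) {s : ℝ} (hc : rr1 n s = 0) {σ : ℝ} (h0 : 0 < σ)
    (h1 : σ ≤ s) : |rr n σ| ≤ |rr n s| := by
  rw [← sq_le_sq]
  have h2 := en_mono hn h0 h1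
  have hn' : (0 : ℝ) < n := by exact_mod_cast hn
  have h3 : en n s = rr n s ^ 2 := by unfold en; rw [hc]; simp
  have h4 : rr n σ ^ 2 ≤ en n σ := by
    unfold en
    have : 0 ≤ rr1 n σ ^ 2 / (4 + 2 / n + 1 / σ ^ 2) := by positivity
    linarith
  rw [← h3]; exact h4.trans h2

/-- test points -/
lemma jn1_test {n : ℕ} (hn : 0 < n) {c : ℕ → ℝ} (hf : Fac (jn 1 n) n c) (hc : ∀ i < n, c i < 0)
    {i : ℕ} (hi : i + 1 < n) : ∃ d, c i < d ∧ d < c (i + 1) ∧
      ∀ t : ℝ, 0 < t → t ≤ 1 → Real.sqrt t * |(jn 1 n).eval (t * d)| ≤ |(jn 1 n).eval d| := by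
  have h1 := hc i (by omega)
  have h2 := hc (i + 1) hi
  have h3 := hf.2.1 i (i + 1) (Nat.lt_succ_self i) hi
  set a := Real.sqrt (-c (i + 1)) with ha
  set b := Real.sqrt (-c i) with hb
  have hapos : 0 < a := Real.sqrt_pos.2 (by linarith)
  have hab : a < b := Real.sqrt_lt_sqrt (by linarith) (by linarith)
  have ha2 : a ^ 2 = -c (i + 1) := Real.sq_sqrt (by linarith)
  have hb2 : b ^ 2 = -c i := Real.sq_sqrt (by linarith)
  have hra : rr n a = 0 := by
    unfold rr w0; rw [ha2, neg_neg, hf.root hi, mul_zero]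
  have hrb : rr n b = 0 := by
    unfold rr w0; rw [hb2, neg_neg, hf.root (by omega), mul_zero]
  obtain ⟨s, hs, hs0⟩ := exists_hasDerivAt_eq_zero (f := rr n) (f' := rr1 n) hab
    (fun u _ => (rr_deriv n u).continuousAt.continuousWithinAt) (hra.trans hrb.symm)
    (fun u _ => rr_deriv n u)
  have hspos : 0 < s := hapos.trans hs.1
  refine ⟨-(s ^ 2), ?_, ?_, ?_⟩
  · have : s ^ 2 < b ^ 2 := pow_lt_pow_left₀ hs.2 hspos.le two_ne_zero
    linarith
  · have : a ^ 2 < s ^ 2 := pow_lt_pow_left₀ hs.1 hapos.le two_ne_zero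
    linarith
  · intro t ht0 ht1
    have hst : 0 < Real.sqrt t := Real.sqrt_pos.2 ht0
    have hst1 : Real.sqrt t ≤ 1 := by simpa using Real.sqrt_le_sqrt ht1
    have h4 := rr_dom hn hs0 (σ := Real.sqrt t * s) (by positivity) (by nlinarith)
    unfold rr w0 at h4
    rw [mul_pow, Real.sq_sqrt ht0.le] at h4
    have e1 : ∀ y : ℝ, |Real.sqrt t * s * y| = Real.sqrt t * s * |y| := fun y => by
      rw [abs_mul, abs_of_pos (by positivity : 0 < Real.sqrt t * s)]
    have e2 : ∀ y : ℝ, |s * y| = s * |y| := fun y => by rw [abs_mul, abs_of_pos hspos]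
    rw [e1, e2] at h4
    have h5 : t * -s ^ 2 = -(t * s ^ 2) := by ring
    rw [h5]
    have h6 : s * (Real.sqrt t * |(jn 1 n).eval (-(t * s ^ 2))|) ≤ s * |(jn 1 n).eval (-s ^ 2)| := by
      calc s * (Real.sqrt t * |(jn 1 n).eval (-(t * s ^ 2))|) =
            Real.sqrt t * s * |(jn 1 n).eval (-(t * s ^ 2))| := by ring
        _ ≤ _ := h4
    exact le_of_mul_le_mul_left h6 hspos

/-- conclusion for `b = 1` -/
theorem jn1_mult {n : ℕ} (hn : 0 < n) {h g : ℕ → ℝ} {L κ : ℝ} (hg : NBs g κ) (hκ : κ < L)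
    (hh : ∀ k, h k = L - g k) (hh0 : ∀ k, 0 < h k) :
    ∃ d, Fac (T h (jn 1 n)) n d ∧ ∀ i < n, d i < 0 := by
  obtain ⟨c, hc, hc0⟩ := jn_fac one_pos hn
  refine dom_fac' hc (by rw [jn_coeff_zero]; exact one_pos) (jn_coeff_nonneg one_pos n) hκ hh hh0 ?_
  intro i hi
  obtain ⟨d, h1, h2, h3⟩ := jn1_test hn hc hc0 hi
  exact ⟨d, h1, h2, hg _ d _ h3⟩

lemma gl_eq (N k : ℕ) : ∫ u in (0:ℝ)..N, 1 / ((k : ℝ) + (2 + u)) =
    Real.log ((k : ℝ) + 2 + N) - Real.log ((k : ℝ) + 2) := by
  have hk : (0 : ℝ) ≤ k := Nat.cast_nonneg k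
  have hN : (0 : ℝ) ≤ N := Nat.cast_nonneg N
  have h := intervalIntegral.integral_eq_sub_of_hasDerivAt
    (f := fun u => Real.log ((k : ℝ) + 2 + u)) (f' := fun u => 1 / ((k : ℝ) + (2 + u)))
    (a := 0) (b := N) (by
      intro u hu
      rw [Set.uIcc_of_le hN] at hu
      have h0 : (k : ℝ) + 2 + u ≠ 0 := by have := hu.1; positivity
      have h1 := ((hasDerivAt_id u).const_add ((k : ℝ) + 2)).log h0
      refine h1.congr_deriv ?_
      simp only [id]; rw [add_assoc]) (by
      apply ContinuousOn.intervalIntegrable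
      apply ContinuousOn.div continuousOn_const (by fun_prop)
      intro u hu
      rw [Set.uIcc_of_le hN] at hu
      have := hu.1; positivity)
  rw [h]; simp

lemma gl_int (v : ℝ) (hv : 0 < v) (N : ℕ) :
    IntervalIntegrable (fun u => 1 / (v + u)) volume 0 N := by
  have hN : (0 : ℝ) ≤ N := Nat.cast_nonneg N
  apply ContinuousOn.intervalIntegrable
  apply ContinuousOn.div continuousOn_const (by fun_prop)
  intro u hu
  rw [Set.uIcc_of_le hN] at hu
  have := hu.1; positivity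

/-- approximation of `log (k+2)` -/
noncomputable def hl (N k : ℕ) : ℝ :=
  Real.log (1 + N) - (Real.log ((k : ℝ) + 2 + N) - Real.log ((k : ℝ) + 2))

lemma gl_NBs (N : ℕ) : NBs (fun k => Real.log ((k : ℝ) + 2 + N) - Real.log ((k : ℝ) + 2))
    (Real.log (3 / 2 + N) - Real.log (3 / 2)) := by
  have hN : (0 : ℝ) ≤ N := Nat.cast_nonneg N
  have h1 : NBs (fun k => ∫ u in (0:ℝ)..N, 1 / ((k : ℝ) + (2 + u)))
      (∫ u in (0:ℝ)..N, 1 / (3 / 2 + u)) := by
    refine NBs.integral hN (g := fun u k => 1 / ((k : ℝ) + (2 + u))) (c := fun u => 1 / (3 / 2 + u))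
      ?_ ?_ ?_
    · intro u hu
      have := NBs.inv (v := 2 + u) (by linarith [hu.1])
      have e : (1 : ℝ) / (2 + u - 1 / 2) = 1 / (3 / 2 + u) := by congr 1; ring
      rwa [e] at this
    · intro k
      have := gl_int ((k : ℝ) + 2) (by positivity) N
      simpa only [add_assoc] using this
    · exact gl_int _ (by norm_num) N
  have h2 : ∫ u in (0:ℝ)..N, 1 / (3 / 2 + u) = Real.log (3 / 2 + N) - Real.log (3 / 2) := by
    have h := intervalIntegral.integral_eq_sub_of_hasDerivAt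
      (f := fun u => Real.log (3 / 2 + u)) (f' := fun u => 1 / (3 / 2 + u))
      (a := 0) (b := N) (by
        intro u hu
        rw [Set.uIcc_of_le hN] at hu
        have h0 : (3 : ℝ) / 2 + u ≠ 0 := by have := hu.1; positivity
        have h1 := ((hasDerivAt_id u).const_add (3 / 2)).log h0
        exact h1) (gl_int _ (by norm_num) N)
    rw [h]; simp
  rw [h2] at h1
  have h3 : (fun k : ℕ => ∫ u in (0:ℝ)..N, 1 / ((k : ℝ) + (2 + u))) =
      (fun k : ℕ => Real.log ((k : ℝ) + 2 + N) - Real.log ((k : ℝ) + 2)) :=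
    funext fun k => gl_eq N k
  rwa [h3] at h1

lemma hl_eq (N k : ℕ) : hl N k = Real.log (((1 + N) * ((k : ℝ) + 2)) / ((k : ℝ) + 2 + N)) := by
  have hN : (0 : ℝ) ≤ N := Nat.cast_nonneg N
  rw [Real.log_div (by positivity) (by positivity), Real.log_mul (by positivity) (by positivity), hl]
  ring

lemma hl_pos {N : ℕ} (hN : 0 < N) (k : ℕ) : 0 < hl N k := by
  rw [hl_eq]
  apply Real.log_pos
  have hN' : (0 : ℝ) < N := by exact_mod_cast hN
  have hk : (0 : ℝ) ≤ k := Nat.cast_nonneg k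
  rw [lt_div_iff₀ (by positivity)]
  nlinarith

lemma hl_tendsto (k : ℕ) : Tendsto (fun N => hl N k) atTop (𝓝 (Real.log ((k : ℝ) + 2))) := by
  have h1 : Tendsto (fun N : ℕ => ((1 + N) * ((k : ℝ) + 2)) / ((k : ℝ) + 2 + N)) atTop
      (𝓝 ((k : ℝ) + 2)) := by
    have h2 : Tendsto (fun N : ℕ => ((k : ℝ) + 1) * (((k : ℝ) + 2) / ((k : ℝ) + 2 + N))) atTop
        (𝓝 (((k : ℝ) + 1) * 0)) := by
      apply Tendsto.const_mul
      apply Tendsto.const_div_atTop
      exact tendsto_const_nhds.add_atTop tendsto_natCast_atTop_atTop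
    have h3 := h2.const_sub ((k : ℝ) + 2)
    rw [mul_zero, sub_zero] at h3
    refine h3.congr fun N => ?_
    have : (0 : ℝ) < (k : ℝ) + 2 + N := by positivity
    field_simp
    ring
  have h4 := (Real.continuousAt_log (show (k : ℝ) + 2 ≠ 0 by positivity)).tendsto.comp h1
  refine h4.congr fun N => ?_
  rw [hl_eq]; rfl

/-- `log (k+2) / k!` is a multiplier sequence -/
theorem ms13 : IsMultiplierSequence (fun k => Real.log ((k : ℝ) + 2) / k.factorial) := by
  refine isMS_of_limit (q := fun n => T (hl n) (jn 1 n)) ?_ ?_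
  · filter_upwards [eventually_gt_atTop 0] with n hn z hz
    obtain ⟨d, hd, hd0⟩ := jn1_mult hn (gl_NBs n) (L := Real.log (1 + n)) (h := hl n) (by
      have hn' : (0 : ℝ) < n := by exact_mod_cast hn
      rw [← Real.log_div (by positivity) (by norm_num)]
      apply Real.log_lt_log (by positivity)
      rw [div_lt_iff₀ (by norm_num)]
      linarith) (fun k => rfl) (fun k => hl_pos hn k)
    obtain ⟨i, hi, hzi⟩ := hd.zeros hz
    rw [hzi]
    exact ⟨Complex.ofReal_im _, by rw [Complex.ofReal_re]; exact (hd0 i hi).le⟩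
  · intro k
    have h1 := (hl_tendsto k).mul (jn_coeff_tendsto 1 k)
    have h2 : Real.log ((k : ℝ) + 2) * jc 1 k = Real.log ((k : ℝ) + 2) / k.factorial / k.factorial := by
      have hp : poch 1 k = k.factorial := by
        induction k with
        | zero => simp [poch_zero]
        | succ k ih =>
          rw [poch_succ, ih (((hl_tendsto k).mul (jn_coeff_tendsto 1 k))), Nat.factorial_succ]
          push_cast; ring
      rw [jc, hp]
      field_simp
    rw [h2] at h1
    refine h1.congr fun N => ?_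
    rw [T_coeff]

end Pool.Agent.R259
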