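import Mathlib
import Pool.Agent.R259.NN

set_option autoImplicit false

namespace Pool.Agent.R259

open Filter Topology Polynomial MeasureTheory

/-- moments of a nonnegative weight on `[0,1]` -/
lemma NB.weight {w : ℝ → ℝ} (hw : IntervalIntegrable w volume 0 1)
    (hw0 : ∀ s ∈ Set.Icc (0 : ℝ) 1, 0 ≤ w s) :
    NB (fun k => ∫ s in (0:ℝ)..1, w s * s ^ k) (∫ s in (0:ℝ)..1, w s) := by
  have hint : ∀ k : ℕ, IntervalIntegrable (fun s : ℝ => w s * s ^ k) volume 0 1 := by
    intro k
    apply hw.mul_continuousOn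
    fun_prop
  intro P x M hM
  have h1 : (T (fun k => ∫ s in (0:ℝ)..1, w s * s ^ k) P).eval x =
      ∫ s in (0:ℝ)..1, w s * P.eval (s * x) := by
    rw [T_eval]
    have e : ∀ s : ℝ, w s * P.eval (s * x) = ∑ k ∈ Finset.range (P.natDegree + 1),
        w s * s ^ k * (P.coeff k * x ^ k) := by
      intro s
      rw [eval_eq_sum_range, Finset.mul_sum]
      refine Finset.sum_congr rfl fun k _ => ?_
      rw [mul_pow]; ring
    simp_rw [e]
    rw [intervalIntegral.integral_finsetSum]
    · refine Finset.sum_congr rfl fun k _ => ?_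
      rw [intervalIntegral.integral_mul_const]
    · intro k _
      exact (hint k).mul_const _
  have hint2 : IntervalIntegrable (fun s : ℝ => w s * P.eval (s * x)) volume 0 1 := by
    apply hw.mul_continuousOn
    fun_prop
  rw [h1]
  refine (intervalIntegral.abs_integral_le_integral_abs zero_le_one).trans ?_
  rw [← intervalIntegral.integral_mul_const]
  apply intervalIntegral.integral_mono_on zero_le_one hint2.abs (hw.mul_const M)
  intro s hs
  rw [abs_mul, abs_of_nonneg (hw0 s hs)]
  exact mul_le_mul_of_nonneg_left (hM s hs.1 hs.2) (hw0 s hs)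

/-- differences of `1/(k+u)` -/
lemma NB.diff {u v : ℝ} (hu : 0 < u) (huv : u ≤ v) :
    NB (fun k => 1 / ((k : ℝ) + u) - 1 / ((k : ℝ) + v)) (1 / u - 1 / v) := by
  have hv : 0 < v := hu.trans_le huv
  have hint : ∀ a : ℝ, 0 < a → IntervalIntegrable (fun s : ℝ => s ^ (a - 1)) volume 0 1 :=
    fun a ha => intervalIntegral.intervalIntegrable_rpow' (by linarith)
  have hk : ∀ a : ℝ, 0 < a → ∀ k : ℕ, ∫ s in (0:ℝ)..1, s ^ (a - 1) * s ^ k = 1 / ((k : ℝ) + a) := by
    intro a ha k
    have h1 : ∫ s in (0:ℝ)..1, s ^ (a - 1) * s ^ k = ∫ s in (0:ℝ)..1, s ^ (a - 1 + k) := by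
      apply intervalIntegral.integral_congr_ae
      filter_upwards with s hs
      rw [Set.uIoc_of_le zero_le_one] at hs
      rw [← Real.rpow_natCast, ← Real.rpow_add hs.1]
    have hk0 : (0 : ℝ) ≤ k := Nat.cast_nonneg k
    rw [h1, integral_rpow (Or.inl (by linarith))]
    have h2 : (0 : ℝ) < a - 1 + k + 1 := by linarith
    rw [Real.one_rpow, Real.zero_rpow h2.ne', sub_zero]
    congr 1; ring
  have hint2 : ∀ a : ℝ, 0 < a → ∀ k : ℕ,
      IntervalIntegrable (fun s : ℝ => s ^ (a - 1) * s ^ k) volume 0 1 := by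
    intro a ha k
    apply (hint a ha).mul_continuousOn
    fun_prop
  have hw : IntervalIntegrable (fun s : ℝ => if s = 0 then 0 else s ^ (u - 1) - s ^ (v - 1))
      volume 0 1 := by
    refine ((hint u hu).sub (hint v hv)).congr ?_
    intro s hs
    rw [Set.uIoc_of_le zero_le_one] at hs
    simp [hs.1.ne']
  have := NB.weight hw (by
    intro s hs
    by_cases h : s = 0
    · simp [h]
    · simp only [h, if_false]
      have hs0 : 0 < s := lt_of_le_of_ne hs.1 (Ne.symm h)
      have := Real.rpow_le_rpow_of_exponent_ge hs0 hs.2 (show u - 1 ≤ v - 1 by linarith)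
      linarith)
  refine this.congr (fun k => ?_) ?_
  · rw [← hk u hu k, ← hk v hv k, ← intervalIntegral.integral_sub (hint2 u hu k) (hint2 v hv k)]
    apply intervalIntegral.integral_congr_ae
    filter_upwards with s hs
    rw [Set.uIoc_of_le zero_le_one] at hs
    simp only [hs.1.ne', if_false]
    ring
  · have h0 := hk u hu 0
    have h1 := hk v hv 0
    simp only [pow_zero, mul_one, Nat.cast_zero, zero_add] at h0 h1
    rw [← h0, ← h1, ← intervalIntegral.integral_sub (hint u hu) (hint v hv)]
    apply intervalIntegral.integral_congr_ae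
    filter_upwards with s hs
    rw [Set.uIoc_of_le zero_le_one] at hs
    simp only [hs.1.ne', if_false]

end Pool.Agent.R259
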