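import Mathlib
import Pool.Agent.R259.NB2
import Pool.Agent.R259.Pn

set_option autoImplicit false

namespace Pool.Agent.R259

open Filter Topology Polynomial MeasureTheory

/-- `log h(y) - log h(y+1)` -/
noncomputable def dd (y : ℝ) : ℝ :=
  (y + 1) * Real.log (y + 2) - y * Real.log (y + 1) - Real.log (y + 1 / 2) - 1

lemma int1 {y : ℝ} (hy : 0 ≤ y) :
    ∫ v in (1/2 : ℝ)..1, (1 / (y + v) - 1 / (y + 1)) =
      Real.log (y + 1) - Real.log (y + 1 / 2) - (1 / 2) / (y + 1) := by
  have h := intervalIntegral.integral_eq_sub_of_hasDerivAt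
    (f := fun v => Real.log (y + v) - v / (y + 1)) (f' := fun v => 1 / (y + v) - 1 / (y + 1))
    (a := 1 / 2) (b := 1) (by
      intro v hv
      rw [Set.uIcc_of_le (by norm_num)] at hv
      have h0 : y + v ≠ 0 := by have := hv.1; linarith
      have h1 := (((hasDerivAt_id v).const_add y).log h0).sub ((hasDerivAt_id v).div_const (y + 1))
      refine h1.congr_deriv ?_
      simp only [id]) (by
      apply ContinuousOn.intervalIntegrable
      apply ContinuousOn.sub _ continuousOn_const
      apply ContinuousOn.div continuousOn_const (by fun_prop)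
      intro v hv
      rw [Set.uIcc_of_le (by norm_num)] at hv
      have := hv.1; linarith)
  rw [h]
  ring

lemma int2 {y : ℝ} (hy : 0 ≤ y) :
    ∫ v in (1 : ℝ)..2, (v - 1) * (1 / (y + 1) - 1 / (y + v)) =
      (1 / 2) / (y + 1) - 1 + (y + 1) * (Real.log (y + 2) - Real.log (y + 1)) := by
  have h := intervalIntegral.integral_eq_sub_of_hasDerivAt
    (f := fun v => (v - 1) ^ 2 / 2 / (y + 1) - v + (y + 1) * Real.log (y + v))
    (f' := fun v => (v - 1) * (1 / (y + 1) - 1 / (y + v)))
    (a := 1) (b := 2) (by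
      intro v hv
      rw [Set.uIcc_of_le (by norm_num)] at hv
      have h0 : y + v ≠ 0 := by have := hv.1; linarith
      have h1 := ((((((hasDerivAt_id v).sub_const 1).fun_pow 2).div_const 2).div_const (y + 1)).sub
        (hasDerivAt_id v)).add ((((hasDerivAt_id v).const_add y).log h0).const_mul (y + 1))
      refine h1.congr_deriv ?_
      simp only [id]
      have h2 : y + 1 ≠ 0 := by linarith
      field_simp
      ring) (by
      apply ContinuousOn.intervalIntegrable
      apply ContinuousOn.mul (by fun_prop)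
      apply ContinuousOn.sub continuousOn_const
      apply ContinuousOn.div continuousOn_const (by fun_prop)
      intro v hv
      rw [Set.uIcc_of_le (by norm_num)] at hv
      have := hv.1; linarith)
  rw [h]
  ring

lemma nb_dd (j : ℕ) : NB (fun k => dd ((k : ℝ) + j)) (dd j) := by
  have hj : (0 : ℝ) ≤ j := Nat.cast_nonneg j
  have hc : ∀ a b : ℝ, 0 < a → a ≤ b → ∀ y : ℝ, 0 ≤ y →
      ContinuousOn (fun v => 1 / (y + v)) (Set.uIcc a b) := by
    intro a b ha hab y hy
    apply ContinuousOn.div continuousOn_const (by fun_prop)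
    intro v hv
    rw [Set.uIcc_of_le hab] at hv
    have := hv.1; linarith
  have h1 : NB (fun k => ∫ v in (1/2 : ℝ)..1, (1 / ((k : ℝ) + (j + v)) - 1 / ((k : ℝ) + (j + 1))))
      (∫ v in (1/2 : ℝ)..1, (1 / ((j : ℝ) + v) - 1 / ((j : ℝ) + 1))) := by
    refine NB.integral (by norm_num) (g := fun v k => 1 / ((k : ℝ) + (j + v)) - 1 / ((k : ℝ) + (j + 1)))
      (c := fun v => 1 / ((j : ℝ) + v) - 1 / ((j : ℝ) + 1)) ?_ ?_ ?_
    · intro v hv
      apply NB.diff
      · have := hv.1; linarith
      · have := hv.2; linarith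
    · intro k
      apply ContinuousOn.intervalIntegrable
      apply ContinuousOn.sub _ continuousOn_const
      have := hc (1/2) 1 (by norm_num) (by norm_num) ((k : ℝ) + j) (by positivity)
      simpa only [add_assoc] using this
    · apply ContinuousOn.intervalIntegrable
      apply ContinuousOn.sub _ continuousOn_const
      exact hc (1/2) 1 (by norm_num) (by norm_num) j hj
  have h2 : NB (fun k => ∫ v in (1 : ℝ)..2, (v - 1) * (1 / ((k : ℝ) + (j + 1)) - 1 / ((k : ℝ) + (j + v))))
      (∫ v in (1 : ℝ)..2, (v - 1) * (1 / ((j : ℝ) + 1) - 1 / ((j : ℝ) + v))) := by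
    refine NB.integral (by norm_num)
      (g := fun v k => (v - 1) * (1 / ((k : ℝ) + (j + 1)) - 1 / ((k : ℝ) + (j + v))))
      (c := fun v => (v - 1) * (1 / ((j : ℝ) + 1) - 1 / ((j : ℝ) + v))) ?_ ?_ ?_
    · intro v hv
      have h3 := (NB.diff (u := j + 1) (v := j + v) (by linarith) (by linarith [hv.1])).smul (v - 1)
      rwa [abs_of_nonneg (by linarith [hv.1])] at h3
    · intro k
      apply ContinuousOn.intervalIntegrable
      apply ContinuousOn.mul (by fun_prop)
      apply ContinuousOn.sub continuousOn_const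
      have := hc 1 2 (by norm_num) (by norm_num) ((k : ℝ) + j) (by positivity)
      simpa only [add_assoc] using this
    · apply ContinuousOn.intervalIntegrable
      apply ContinuousOn.mul (by fun_prop)
      apply ContinuousOn.sub continuousOn_const
      exact hc 1 2 (by norm_num) (by norm_num) j hj
  refine (h1.add h2).congr (fun k => ?_) ?_
  · have e1 := int1 (y := (k : ℝ) + j) (by positivity)
    have e2 := int2 (y := (k : ℝ) + j) (by positivity)
    simp only [← add_assoc]
    rw [e1, e2, dd]; ring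
  · rw [int1 hj, int2 hj, dd]; ring

/-- the multiplier `e^k (1/2)_k / (k+1)^k` -/
noncomputable def hm (k : ℕ) : ℝ := Real.exp k * poch (1 / 2) k / ((k : ℝ) + 1) ^ k

lemma hm_pos (k : ℕ) : 0 < hm k := by
  have := poch_pos (b := 1 / 2) (by norm_num) k
  unfold hm; positivity

lemma hm_zero : hm 0 = 1 := by simp [hm, poch_zero]

lemma log_hm_sub (k : ℕ) : Real.log (hm k) - Real.log (hm (k + 1)) = dd k := by
  have h1 := poch_pos (b := 1 / 2) (by norm_num) k
  have hk : (0 : ℝ) ≤ k := Nat.cast_nonneg k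
  have e : ∀ m : ℕ, Real.log (hm m) = m + Real.log (poch (1/2) m) - m * Real.log ((m : ℝ) + 1) := by
    intro m
    have h2 := poch_pos (b := 1 / 2) (by norm_num) m
    rw [hm, Real.log_div (by positivity) (by positivity), Real.log_mul (by positivity) h2.ne',
      Real.log_exp, Real.log_pow]
  rw [e, e, poch_succ, Real.log_mul h1.ne' (by positivity), dd]
  push_cast
  have e1 : (k : ℝ) + 1 + 1 = k + 2 := by ring
  have e2 : (1 / 2 : ℝ) + k = k + 1 / 2 := by ring
  rw [e1, e2]
  ring

lemma poch_half (k : ℕ) : poch (1 / 2) k = ((2 * k).factorial : ℝ) / (4 ^ k * k.factorial) := by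
  induction k with
  | zero => simp [poch_zero]
  | succ k ih =>
    rw [poch_succ, ih, show 2 * (k + 1) = (2 * k + 1) + 1 by ring, Nat.factorial_succ,
      Nat.factorial_succ, Nat.factorial_succ]
    push_cast
    have : (0 : ℝ) < k.factorial := by positivity
    field_simp
    ring

/-- the limit `√2/e` -/
lemma hm_tendsto : Tendsto hm atTop (𝓝 (Real.sqrt 2 * Real.exp (-1))) := by
  have hS := Stirling.tendsto_stirlingSeq_sqrt_pi
  have h2 : Tendsto (fun k : ℕ => Stirling.stirlingSeq (2 * k)) atTop (𝓝 (Real.sqrt Real.pi)) :=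
    hS.comp (tendsto_id.const_mul_atTop' (by norm_num : 0 < 2))
  have hpi : Real.sqrt Real.pi ≠ 0 := (Real.sqrt_pos.2 Real.pi_pos).ne'
  have h3 := h2.div hS hpi
  rw [div_self hpi] at h3
  have h4 : Tendsto (fun k : ℕ => (1 + 1 / (k : ℝ)) ^ k) atTop (𝓝 (Real.exp 1)) :=
    Real.tendsto_one_add_div_pow_exp 1
  have h5 := (h3.const_mul (Real.sqrt 2)).div h4 (Real.exp_pos 1).ne'
  rw [mul_one] at h5
  have h6 : Real.sqrt 2 / Real.exp 1 = Real.sqrt 2 * Real.exp (-1) := by
    rw [Real.exp_neg, div_eq_mul_inv]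
  rw [h6] at h5
  refine h5.congr' ?_
  filter_upwards [eventually_gt_atTop 0] with k hk
  have hk0 : (0 : ℝ) < k := by exact_mod_cast hk
  simp only [Pi.div_apply]
  rw [Stirling.stirlingSeq, Stirling.stirlingSeq, hm, poch_half]
  have e1 : Real.sqrt (2 * ((2 * k : ℕ) : ℝ)) = Real.sqrt 2 * Real.sqrt (2 * k) := by
    rw [← Real.sqrt_mul (by norm_num)]; push_cast; rfl
  rw [e1]
  have e2 : Real.exp (k : ℝ) = (Real.exp 1) ^ k := by
    rw [← Real.exp_nat_mul, mul_one]
  rw [e2]
  have hs2 : 0 < Real.sqrt 2 := by positivity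
  have hs3 : 0 < Real.sqrt (2 * k) := Real.sqrt_pos.2 (by positivity)
  have he : 0 < Real.exp 1 := Real.exp_pos 1
  have hf : (0 : ℝ) < k.factorial := by positivity
  have e3 : (1 + 1 / (k : ℝ)) ^ k = ((k : ℝ) + 1) ^ k / k ^ k := by
    rw [← div_pow]; congr 1; field_simp
  have e4 : (((2 * k : ℕ) : ℝ) / Real.exp 1) ^ (2 * k) = 4 ^ k * (k : ℝ) ^ k * k ^ k /
      (Real.exp 1 ^ k * Real.exp 1 ^ k) := by
    rw [div_pow, pow_mul, pow_mul]; push_cast
    rw [mul_pow, mul_pow, ← mul_pow (Real.exp 1)]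
    congr 1
    · rw [show ((2:ℝ) ^ 2) = 4 by norm_num, ← pow_mul, mul_comm 2 k, pow_mul, sq, mul_assoc]
    · rw [← pow_two]
  rw [e3, e4, div_pow]
  field_simp

lemma nb_log_hm : NB (fun k => Real.log (hm k) - Real.log (Real.sqrt 2 * Real.exp (-1)))
    (-Real.log (Real.sqrt 2 * Real.exp (-1))) := by
  have hlim : 0 < Real.sqrt 2 * Real.exp (-1) := by positivity
  have hl : Tendsto (fun J => Real.log (hm J)) atTop (𝓝 (Real.log (Real.sqrt 2 * Real.exp (-1)))) :=
    (Real.continuousAt_log hlim.ne').tendsto.comp hm_tendsto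
  have htel : ∀ k J : ℕ, ∑ j ∈ Finset.range J, dd ((k : ℝ) + j) =
      Real.log (hm k) - Real.log (hm (J + k)) := by
    intro k J
    induction J with
    | zero => simp
    | succ J ih =>
      rw [Finset.sum_range_succ, ih, show J + 1 + k = (J + k) + 1 by ring]
      have := log_hm_sub (J + k)
      push_cast at this
      rw [add_comm (k : ℝ) J]
      linarith
  have hN : ∀ J : ℕ, NB (fun k => ∑ j ∈ Finset.range J, dd ((k : ℝ) + j))
      (∑ j ∈ Finset.range J, dd j) := fun J => NB.sum _ fun j _ => nb_dd j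
  refine (NB.limit (l := atTop) (Eventually.of_forall hN)
    (g0 := fun k => Real.log (hm k) - Real.log (Real.sqrt 2 * Real.exp (-1)))
    (c0 := 0 - Real.log (Real.sqrt 2 * Real.exp (-1))) ?_ ?_).congr (fun k => rfl) (by ring)
  · intro k
    simp_rw [htel k]
    exact (((tendsto_add_atTop_iff_nat k).2 hl)).const_sub _
  · have h0 := htel 0
    simp only [Nat.cast_zero, zero_add, add_zero] at h0
    simp_rw [h0, hm_zero, Real.log_one]
    exact hl.const_sub _

lemma nb_hm : NB (fun k => Real.sqrt 2 * Real.exp (-1) - hm k)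
    (1 - Real.sqrt 2 * Real.exp (-1)) := by
  have hlim : 0 < Real.sqrt 2 * Real.exp (-1) := by positivity
  have h1 := (nb_log_hm.exp).smul (-(Real.sqrt 2 * Real.exp (-1)))
  refine h1.congr (fun k => ?_) ?_
  · rw [Real.exp_sub, Real.exp_log (hm_pos k), Real.exp_log hlim]
    field_simp
    ring
  · rw [abs_neg, abs_of_pos hlim, Real.exp_neg (Real.log _), Real.exp_log hlim]
    field_simp

lemma lim_gt : 1 - Real.sqrt 2 * Real.exp (-1) < Real.sqrt 2 * Real.exp (-1) := by
  have h1 : Real.exp 1 < 2.7182818286 := Real.exp_one_lt_d9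
  have h2 : (1.4142 : ℝ) < Real.sqrt 2 := by
    rw [show (1.4142 : ℝ) = Real.sqrt (1.4142 ^ 2) by rw [Real.sqrt_sq (by norm_num)]]
    exact Real.sqrt_lt_sqrt (by norm_num) (by norm_num)
  have h3 : (1 : ℝ) / 2 < Real.sqrt 2 * Real.exp (-1) := by
    rw [Real.exp_neg, ← div_eq_mul_inv, div_lt_div_iff₀ (by norm_num) (Real.exp_pos 1)]
    linarith
  linarith

/-- approximating polynomials -/
noncomputable def q38 (n : ℕ) : ℝ[X] := (T hm (pn (1/2) 2 n)).comp (C (Real.exp (-1)) * X)

lemma q38_zeros {n : ℕ} (hn : 0 < n) (z : ℂ) (hz : aeval z (q38 n) = 0) : z.im = 0 ∧ z.re ≤ 0 := by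
  obtain ⟨d, hd, hd0⟩ := pn_mult (b := 1/2) (b' := 2) (by norm_num) (by norm_num) hn
    (pn_dom (by norm_num) (by norm_num) (by norm_num) hn) nb_hm lim_gt (h := hm)
    (fun k => by ring) hm_pos
  have h1 := hd.scale (Real.exp_pos (-1))
  obtain ⟨i, hi, hzi⟩ := h1.zeros hz
  rw [hzi]
  refine ⟨Complex.ofReal_im _, ?_⟩
  rw [Complex.ofReal_re]
  exact (div_neg_of_neg_of_pos (hd0 i hi) (Real.exp_pos _)).le

lemma poch_two (k : ℕ) : poch 2 k = ((k + 1).factorial : ℝ) := by
  induction k with
  | zero => simp [poch_zero]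
  | succ k ih =>
    rw [poch_succ, ih, Nat.factorial_succ (k + 1)]
    push_cast; ring

lemma q38_coeff (k : ℕ) : Tendsto (fun n => (q38 n).coeff k) atTop
    (𝓝 (1 / (((k : ℝ) + 1) ^ (k + 1) * k.factorial) / k.factorial)) := by
  have h1 := ((pn_coeff_tendsto (1/2) 2 k).const_mul (hm k)).mul_const ((Real.exp (-1)) ^ k)
  have h2 : hm k * (1 / (k.factorial * poch (1/2) k * poch 2 k)) * (Real.exp (-1)) ^ k =
      1 / (((k : ℝ) + 1) ^ (k + 1) * k.factorial) / k.factorial := by
    have h3 := poch_pos (b := 1 / 2) (by norm_num) k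
    have hf : (0 : ℝ) < k.factorial := by positivity
    have he : Real.exp (k : ℝ) * (Real.exp (-1)) ^ k = 1 := by
      rw [← Real.exp_nat_mul, ← Real.exp_add]; simp
    rw [hm, poch_two, Nat.factorial_succ]
    push_cast
    calc Real.exp ↑k * poch (1 / 2) k / ((k : ℝ) + 1) ^ k *
          (1 / (↑k.factorial * poch (1 / 2) k * (((k : ℝ) + 1) * k.factorial))) * Real.exp (-1) ^ k
        = (Real.exp (k : ℝ) * (Real.exp (-1)) ^ k) * (poch (1 / 2) k / poch (1 / 2) k) *
          (1 / (((k : ℝ) + 1) ^ (k + 1) * k.factorial) / k.factorial) := by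
          field_simp
          ring
      _ = _ := by rw [he, div_self h3.ne', one_mul, one_mul]
  rw [h2] at h1
  refine h1.congr fun n => ?_
  rw [q38, comp_C_mul_X_coeff, T_coeff]

theorem ms38 : IsMultiplierSequence (fun k => 1 / (((k : ℝ) + 1) ^ (k + 1) * k.factorial)) :=
  isMS_of_limit (q := q38) (by
    filter_upwards [eventually_gt_atTop 0] with n hn
    exact q38_zeros hn) q38_coeff

end Pool.Agent.R259
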