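import Mathlib
import Pool.Agent.R259.LP

set_option autoImplicit false

namespace Pool.Agent.R259

open Filter Topology Polynomial

/-- complex zeros of a nonzero split polynomial are real -/
lemma splits_zeros {P : ℝ[X]} (h : P.Splits) (h0 : P ≠ 0) {z : ℂ} (hz : aeval z P = 0) :
    z.im = 0 := by
  have hfac := C_leadingCoeff_mul_prod_multiset_X_sub_C (splits_iff_card_roots.1 h)
  rw [← hfac, map_mul, aeval_C, map_multiset_prod, Multiset.map_map] at hz
  rcases mul_eq_zero.1 hz with h1 | h1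
  · exfalso
    have : P.leadingCoeff = 0 := by simpa using h1
    exact h0 (leadingCoeff_eq_zero.1 this)
  · rw [Multiset.prod_eq_zero_iff] at h1
    obtain ⟨a, _, ha⟩ := Multiset.mem_map.1 h1
    have : z = (a : ℂ) := by
      have h2 : z - (a : ℂ) = 0 := by simpa using ha
      exact sub_eq_zero.1 h2
    rw [this]; exact Complex.ofReal_im _

lemma LPL.zeros_real {F : ℂ → ℂ} {P : ℕ → ℝ[X]} (h : LPL F P) {z0 : ℂ} (h0 : F z0 ≠ 0) :
    ∀ z, F z = 0 → z.im = 0 := by
  have h1 := (h.tendsto z0).eventually_ne h0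
  obtain ⟨N0, hN0⟩ := eventually_atTop.1 h1
  have hS : IsClosed {z : ℂ | z.im = 0} := isClosed_eq Complex.continuous_im continuous_const
  refine zeros_limit hS (F := fun N z => aeval z (P (N + N0)))
    (fun N => Polynomial.differentiable_aeval _) ?_ ?_ ⟨z0, h0⟩
  · have h2 := h.2
    intro u hu z hz
    obtain ⟨t, ht, h3⟩ := h2 u hu z hz
    exact ⟨t, ht, (tendsto_add_atTop_nat N0).eventually h3⟩
  · intro N z hz
    apply splits_zeros (h.1 _) _ hz
    intro h3
    apply hN0 (N + N0) (by omega)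
    rw [h3]; simp

/-- power series expansion of a limit -/
lemma LPL.hasSum {F : ℂ → ℂ} {P : ℕ → ℝ[X]} (h : LPL F P) {a : ℕ → ℝ}
    (ha : ∀ k, Tendsto (fun N => (P N).coeff k) atTop (𝓝 (a k))) (z : ℂ) :
    HasSum (fun k => ((a k : ℝ) : ℂ) * z ^ k) (F z) := by
  have h1 := Complex.hasSum_taylorSeries_of_entire h.differentiable 0 z
  refine h1.congr_fun ?_ |> fun h => h
  intro k
  rw [h.iter_zero k (ha k), sub_zero]
  have : ((k.factorial : ℕ) : ℂ) ≠ 0 := by exact_mod_cast Nat.factorial_ne_zero k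
  simp only [smul_eq_mul]
  push_cast
  field_simp

/-- One simple positive zero when only the first coefficient is negative. -/
theorem LPL.one_pos {F : ℂ → ℂ} {P : ℕ → ℝ[X]} (h : LPL F P) {a : ℕ → ℝ}
    (ha : ∀ k, Tendsto (fun N => (P N).coeff k) atTop (𝓝 (a k))) (h0 : a 0 < 0)
    (hpos : ∀ k, k ≠ 0 → 0 < a k) :
    ∃ x0 : ℝ, 0 < x0 ∧ F x0 = 0 ∧ _root_.deriv F x0 ≠ 0 ∧ ∀ x : ℝ, 0 ≤ x → F x = 0 → x = x0 := by
  have hs : ∀ x : ℝ, HasSum (fun k => a k * x ^ k) (F x).re := by
    intro x
    have h1 := Complex.hasSum_re (h.hasSum ha x)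
    refine h1.congr_fun ?_ |> fun h => h
    intro k
    rw [← Complex.ofReal_pow, ← Complex.ofReal_mul, Complex.ofReal_re]
  have hincr : ∀ x y : ℝ, 0 ≤ x → x ≤ y → a 1 * (y - x) ≤ (F y).re - (F x).re := by
    intro x y hx hxy
    have h1 := (hs y).sub (hs x)
    have h2 : ∀ k, 0 ≤ a k * y ^ k - a k * x ^ k := by
      intro k
      rcases Nat.eq_zero_or_pos k with rfl | hk
      · simp
      · have := hpos k hk.ne'
        have h3 : x ^ k ≤ y ^ k := pow_le_pow_left₀ hx hxy k
        nlinarith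
    have h3 := le_hasSum h1 1 (fun k _ => h2 k)
    simpa [mul_sub] using h3
  have ha1 := hpos 1 one_ne_zero
  have hF0 : (F 0).re = a 0 := by
    have h1 := hs 0
    have h2 : HasSum (fun k => a k * (0 : ℝ) ^ k) (a 0) := by
      have := hasSum_single (f := fun k => a k * (0 : ℝ) ^ k) 0 (by
        intro k hk; simp [hk])
      simpa using this
    have := h1.unique h2
    simpa using this
  have hcont : Continuous fun x : ℝ => (F x).re :=
    Complex.continuous_re.comp (h.differentiable.continuous.comp Complex.continuous_ofReal)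
  set X : ℝ := 1 - a 0 / a 1 with hX
  have hXpos : 0 < X := by
    have : a 0 / a 1 < 0 := div_neg_of_neg_of_pos h0 ha1
    linarith
  have hFX : 0 < (F X).re := by
    have h1 := hincr 0 X le_rfl hXpos.le
    have h2 : a 1 * (X - 0) = a 1 - a 0 := by rw [hX]; field_simp; ring
    rw [h2] at h1
    simp only [Complex.ofReal_zero] at h1
    rw [hF0] at h1
    linarith
  obtain ⟨x0, hx0, hx00⟩ := intermediate_value_Ioo (f := fun x : ℝ => (F x).re) hXpos.le
    hcont.continuousOn (show (0 : ℝ) ∈ Set.Ioo _ _ from ⟨by simpa [hF0] using h0, hFX⟩)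
  have hreal : ∀ x : ℝ, F x = 0 ↔ (F x).re = 0 := by
    intro x
    constructor
    · intro h1; rw [h1]; rfl
    · intro h1; rw [h.real x, h1]; rfl
  refine ⟨x0, hx0.1, (hreal x0).2 hx00, ?_, ?_⟩
  · intro hd
    have h1 : HasDerivAt F (_root_.deriv F x0) (x0 : ℂ) := (h.differentiable _).hasDerivAt
    have h2 := h1.real_of_complex
    rw [hd, hasDerivAt_iff_tendsto_slope] at h2
    have h3 : Tendsto (slope (fun x : ℝ => (F x).re) x0) (𝓝[>] x0) (𝓝 (0 : ℂ).re) :=
      h2.mono_left (nhdsWithin_mono _ (fun x hx => ne_of_gt hx))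
    have h4 : a 1 ≤ (0 : ℂ).re := by
      refine ge_of_tendsto h3 ?_
      filter_upwards [self_mem_nhdsWithin] with x hx
      have hx' : x0 < x := hx
      rw [slope_def_field, le_div_iff₀ (sub_pos.2 hx')]
      exact hincr x0 x hx0.1.le hx'.le
    simp at h4
    linarith
  · intro x hx hFx
    have e1 := (hreal x).1 hFx
    simp only at hx00
    rcases lt_trichotomy x x0 with h1 | h1 | h1
    · have := hincr x x0 hx h1.le
      rw [e1, hx00] at this
      nlinarith
    · exact h1
    · have := hincr x0 x hx0.1.le h1.le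
      rw [e1, hx00] at this
      nlinarith

end Pool.Agent.R259
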