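import Mathlib
import Pool.Agent.R259.Pn

set_option autoImplicit false

/-! Growth of the extrema of `∑ binom(n,k) (-y)^k / (n^k (k!)^2)` on the positive axis. -/

namespace Pool.Agent.R259

open Filter Topology Polynomial

/-- the differential equation `(y K')' = -Q + K / n`, `K = y Q'` -/
def Ode3 (n : ℝ) (Q : ℝ[X]) : Prop :=
  derivative (X * derivative (X * derivative Q)) = -Q + C (1 / n) * (X * derivative Q)

lemma Ode3.neg {n : ℝ} {Q : ℝ[X]} (h : Ode3 n Q) : Ode3 n (-Q) := by
  unfold Ode3 at *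
  simp only [derivative_neg, mul_neg, neg_neg]
  rw [h]; ring

lemma poly_ineq {t : ℝ} (h5 : 5 ≤ t) (h6 : t ≤ 16) :
    12 * (-3 * t ^ 2 + 52 * t - 153) * t < 49 / 10 * ((t - 1) * (17 - t) ^ 3) := by
  have h1 := mul_nonneg (mul_nonneg (sub_nonneg.2 h5) (sub_nonneg.2 h6)) (sq_nonneg (t - 25 / 2))
  have h2 := sq_nonneg (t ^ 2 + 28 / 13 * t - 177)
  have h3 := sq_nonneg (t - 77 / 5)
  have h4 := sq_nonneg t
  nlinarith

lemma gap_ineq {a n y : ℝ} (hn : 10000 ≤ n) (ha : 5 ≤ a) (han : a ≤ n / 2) (h1 : a < y)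
    (h2 : y < 17 * a) :
    6 * (-6 * y ^ 2 + 104 * a * y - 306 * a ^ 2) <
      (y - a) * (17 * a - y) ^ 3 / y + (17 * a - y) ^ 2 * (20 * a - 4 * y) / n := by
  have ha0 : 0 < a := by linarith
  have hn0 : 0 < n := by linarith
  obtain ⟨t, rfl⟩ : ∃ t, y = a * t := ⟨y / a, by field_simp⟩
  have ht1 : 1 < t := by
    by_contra h
    push Not at h
    nlinarith
  have ht2 : t < 17 := by
    by_contra h
    push Not at h
    nlinarith
  have ht0 : 0 < t := by linarith
  have e1 : (a * t - a) * (17 * a - a * t) ^ 3 / (a * t) = a ^ 3 * ((t - 1) * (17 - t) ^ 3 / t) := by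
    field_simp
  have e2 : (17 * a - a * t) ^ 2 * (20 * a - 4 * (a * t)) / n =
      a ^ 2 * ((a / n) * ((17 - t) ^ 2 * (20 - 4 * t))) := by
    field_simp
  have e3 : 6 * (-6 * (a * t) ^ 2 + 104 * a * (a * t) - 306 * a ^ 2) =
      a ^ 2 * (12 * (-3 * t ^ 2 + 52 * t - 153)) := by ring
  rw [e1, e2, e3]
  have hs : 0 < a / n := by positivity
  have hs2 : a / n ≤ 1 / 2 := by rw [div_le_iff₀ hn0]; linarith
  have hkey : 12 * (-3 * t ^ 2 + 52 * t - 153) <
      a * ((t - 1) * (17 - t) ^ 3 / t) + (a / n) * ((17 - t) ^ 2 * (20 - 4 * t)) := by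
    have hA : 0 < (t - 1) * (17 - t) ^ 3 / t := by
      have h3 : 0 < t - 1 := by linarith
      have h4 : 0 < 17 - t := by linarith
      positivity
    rcases le_or_gt t 5 with h5 | h5
    · have hB : 0 ≤ (a / n) * ((17 - t) ^ 2 * (20 - 4 * t)) :=
        mul_nonneg hs.le (mul_nonneg (sq_nonneg _) (by linarith))
      rcases le_or_gt t (37/10) with h6 | h6
      · have hC : 12 * (-3 * t ^ 2 + 52 * t - 153) < 0 := by nlinarith
        have := mul_pos ha0 hA
        linarith
      · have h7 : 384 < 5 * ((t - 1) * (17 - t) ^ 3 / t) := by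
          rw [mul_div_assoc', lt_div_iff₀ ht0]
          have h8 : (12 : ℝ) ^ 3 ≤ (17 - t) ^ 3 := pow_le_pow_left₀ (by norm_num) (by linarith) 3
          have h9 : (27 / 10 : ℝ) * 12 ^ 3 ≤ (t - 1) * (17 - t) ^ 3 :=
            mul_le_mul (by linarith) h8 (by norm_num) (by linarith)
          linarith
        have h9 : 5 * ((t - 1) * (17 - t) ^ 3 / t) ≤ a * ((t - 1) * (17 - t) ^ 3 / t) :=
          mul_le_mul_of_nonneg_right ha hA.le
        nlinarith
    · rcases le_or_gt t 16 with h6 | h6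
      · -- main range
        have hB : 0 ≤ (t - 1) * (17 - t) ^ 3 / t * (1 / 50) + (1 / n) * ((17 - t) ^ 2 * (20 - 4 * t)) := by
          have h7 : -(44 / 10000) * (17 - t) ^ 2 ≤ (1 / n) * ((17 - t) ^ 2 * (20 - 4 * t)) := by
            have h8 : -44 ≤ 20 - 4 * t := by linarith
            have h9 : 1 / n ≤ 1 / 10000 := one_div_le_one_div_of_le (by norm_num) hn
            have h10 : 0 < 1 / n := by positivity
            have h11 : (0:ℝ) ≤ (17 - t) ^ 2 := sq_nonneg _
            have h12 : (20 - 4 * t) ≤ 0 := by linarith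
            have h13 : -44 * (1 / 10000) ≤ (20 - 4 * t) * (1 / n) := by nlinarith
            calc -(44 / 10000) * (17 - t) ^ 2 = (17 - t) ^ 2 * (-44 * (1 / 10000)) := by ring
              _ ≤ (17 - t) ^ 2 * ((20 - 4 * t) * (1 / n)) := mul_le_mul_of_nonneg_left h13 h11
              _ = _ := by ring
          have h8 : (17 - t) ^ 2 * (1 / 2) ≤ (t - 1) * (17 - t) ^ 3 / t := by
            rw [le_div_iff₀ ht0]
            have h9 : t / 2 ≤ (t - 1) * (17 - t) := by nlinarith
            have h11 : (0:ℝ) ≤ (17 - t) ^ 2 := sq_nonneg _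
            calc (17 - t) ^ 2 * (1 / 2) * t = (17 - t) ^ 2 * (t / 2) := by ring
              _ ≤ (17 - t) ^ 2 * ((t - 1) * (17 - t)) := mul_le_mul_of_nonneg_left h9 h11
              _ = _ := by ring
          have h11 : (0:ℝ) ≤ (17 - t) ^ 2 := sq_nonneg _
          linarith
        have h7 : 12 * (-3 * t ^ 2 + 52 * t - 153) < (49 / 10) * ((t - 1) * (17 - t) ^ 3 / t) := by
          rw [mul_div_assoc', lt_div_iff₀ ht0]
          exact poly_ineq h5.le h6
        have h8 : a * ((t - 1) * (17 - t) ^ 3 / t) + (a / n) * ((17 - t) ^ 2 * (20 - 4 * t)) =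
            a * ((49 / 50) * ((t - 1) * (17 - t) ^ 3 / t)) +
            a * ((t - 1) * (17 - t) ^ 3 / t * (1 / 50) + (1 / n) * ((17 - t) ^ 2 * (20 - 4 * t))) := by
          ring
        rw [h8]
        have h9 := mul_nonneg ha0.le hB
        have h10 : 5 * ((49 / 50) * ((t - 1) * (17 - t) ^ 3 / t)) ≤
            a * ((49 / 50) * ((t - 1) * (17 - t) ^ 3 / t)) :=
          mul_le_mul_of_nonneg_right ha (by positivity)
        linarith
      · have hB : -24 ≤ (a / n) * ((17 - t) ^ 2 * (20 - 4 * t)) := by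
          have h7 : (17 - t) ^ 2 ≤ 1 := by nlinarith
          have h8 : -48 ≤ 20 - 4 * t := by linarith
          have h11 : (0:ℝ) ≤ (17 - t) ^ 2 := sq_nonneg _
          have h9 : -48 ≤ (17 - t) ^ 2 * (20 - 4 * t) := by nlinarith
          have h10 : (a / n) * (-48) ≤ (a / n) * ((17 - t) ^ 2 * (20 - 4 * t)) :=
            mul_le_mul_of_nonneg_left h9 hs.le
          linarith
        have hC : 12 * (-3 * t ^ 2 + 52 * t - 153) < -24 := by nlinarith
        have := mul_pos ha0 hA
        linarith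
  have ha2 : 0 < a ^ 2 := by positivity
  have := mul_lt_mul_of_pos_left hkey ha2
  calc a ^ 2 * (12 * (-3 * t ^ 2 + 52 * t - 153)) < _ := this
    _ = _ := by ring

end Pool.Agent.R259
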