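import Mathlib
import Pool.Agent.R259.Q3

set_option autoImplicit false

namespace Pool.Agent.R259

open Filter Topology Polynomial

/-- no long interval without a critical point -/
lemma gap_pos {Q : ℝ[X]} {n a : ℝ} (hode : Ode3 n Q) (hn : 10000 ≤ n) (ha : 5 ≤ a) (han : a ≤ n / 2)
    (hK : (X * derivative Q).eval a = 0)
    (hpos : ∀ y ∈ Set.Ioo a (17 * a), 0 < (X * derivative Q).eval y) : False := by
  have ha0 : 0 < a := by linarith
  set K : ℝ[X] := X * derivative Q with hKdef
  set W : ℝ[X] := (X - C a) * (C (17 * a) - X) ^ 3 with hW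
  set Ψ : ℝ[X] := -W * Q - derivative W * (X * derivative K) + X * derivative (derivative W) * K
    with hΨ
  have hode' : derivative (X * derivative K) = -Q + C (1 / n) * K := hode
  have hd : derivative Ψ = -W * derivative Q - C (1 / n) * derivative W * K +
      derivative (X * derivative (derivative W)) * K := by
    rw [hΨ, derivative_add, derivative_sub, derivative_mul, derivative_mul (f := derivative W),
      derivative_mul (f := X * derivative (derivative W)), hode', derivative_neg]
    ring
  have hWe : ∀ y, W.eval y = (y - a) * (17 * a - y) ^ 3 := by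
    intro y; simp [hW]
  have hW1 : ∀ y, (derivative W).eval y = (17 * a - y) ^ 2 * (20 * a - 4 * y) := by
    intro y
    simp only [hW, derivative_mul, derivative_sub, derivative_X, derivative_C, derivative_pow,
      eval_add, eval_mul, eval_sub, eval_X, eval_C, eval_pow, eval_one, eval_zero]
    norm_num
    ring
  have hW2 : ∀ y, (derivative (derivative W)).eval y = 6 * (17 * a - y) * (2 * y - 18 * a) := by
    intro y
    simp only [hW, derivative_mul, derivative_sub, derivative_X, derivative_C, derivative_pow,
      derivative_add, derivative_one, derivative_zero,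
      eval_add, eval_mul, eval_sub, eval_X, eval_C, eval_pow, eval_one, eval_zero]
    norm_num
    ring
  have hW3 : ∀ y, (derivative (X * derivative (derivative W))).eval y =
      6 * (-6 * y ^ 2 + 104 * a * y - 306 * a ^ 2) := by
    intro y
    simp only [hW, derivative_mul, derivative_sub, derivative_X, derivative_C, derivative_pow,
      derivative_add, derivative_one, derivative_zero,
      eval_add, eval_mul, eval_sub, eval_X, eval_C, eval_pow, eval_one, eval_zero]
    norm_num
    ring
  have hKe : ∀ y, K.eval y = y * (derivative Q).eval y := by intro y; simp [hKdef]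
  have hanti : StrictAntiOn (fun y => Ψ.eval y) (Set.Icc a (17 * a)) := by
    apply strictAntiOn_of_deriv_neg (convex_Icc _ _) Ψ.continuous.continuousOn
    intro y hy
    rw [interior_Icc] at hy
    have hy0 : 0 < y := ha0.trans hy.1
    have hKp := hpos y hy
    rw [Polynomial.deriv, hd]
    simp only [eval_add, eval_sub, eval_mul, eval_neg, eval_C]
    rw [hW1, hW3, hWe]
    have h1 : (derivative Q).eval y = K.eval y / y := by rw [hKe]; field_simp
    rw [h1]
    have h2 := gap_ineq hn ha han hy.1 hy.2
    have h3 : -((y - a) * (17 * a - y) ^ 3) * (K.eval y / y) -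
        1 / n * ((17 * a - y) ^ 2 * (20 * a - 4 * y)) * K.eval y +
        6 * (-6 * y ^ 2 + 104 * a * y - 306 * a ^ 2) * K.eval y =
        -(K.eval y * ((y - a) * (17 * a - y) ^ 3 / y + (17 * a - y) ^ 2 * (20 * a - 4 * y) / n -
          6 * (-6 * y ^ 2 + 104 * a * y - 306 * a ^ 2))) := by
      ring
    rw [h3]
    have := mul_pos hKp (sub_pos.2 h2)
    linarith
  have h1 := hanti (Set.left_mem_Icc.2 (by linarith)) (Set.right_mem_Icc.2 (by linarith))
    (by linarith : a < 17 * a)
  have hb : Ψ.eval (17 * a) = 0 := by
    simp only [hΨ, eval_add, eval_sub, eval_mul, eval_neg, eval_X]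
    rw [hW1, hW2, hWe]
    ring
  have hK' : 0 ≤ (derivative K).eval a := by
    have h2 : HasDerivAt (fun y => K.eval y) ((derivative K).eval a) a := K.hasDerivAt a
    have h3 : Tendsto (slope (fun y => K.eval y) a) (𝓝[>] a) (𝓝 ((derivative K).eval a)) :=
      (hasDerivAt_iff_tendsto_slope.1 h2).mono_left (nhdsWithin_mono _ (fun x hx => ne_of_gt hx))
    refine ge_of_tendsto h3 ?_
    have h4 : Set.Ioo a (17 * a) ∈ 𝓝[>] a := Ioo_mem_nhdsGT (by linarith)
    filter_upwards [h4] with y hy
    rw [slope_def_field, hK, sub_zero]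
    exact (div_pos (hpos y hy) (sub_pos.2 hy.1)).le
  have hae : Ψ.eval a = -((16 * a) ^ 3 * (a * (derivative K).eval a)) := by
    simp only [hΨ, eval_add, eval_sub, eval_mul, eval_neg, eval_X]
    rw [hW1, hW2, hWe, hK]
    ring
  simp only at h1
  rw [hb, hae] at h1
  have : 0 ≤ (16 * a) ^ 3 * (a * (derivative K).eval a) := by positivity
  linarith

/-- consecutive critical points: the energy increases -/
lemma step_energy {Q : ℝ[X]} {n a b : ℝ} (hode : Ode3 n Q) (hn : 0 < n) (ha : 0 < a) (hab : a ≤ b)
    (hb : b ≤ 17 * a) (hKa : (X * derivative Q).eval a = 0) (hKb : (X * derivative Q).eval b = 0) :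
    (Q.eval a) ^ 2 ≤ (Q.eval b) ^ 2 := by
  set K : ℝ[X] := X * derivative Q with hKdef
  have hode' : derivative (X * derivative K) = -Q + C (1 / n) * K := hode
  have hode2 : ∀ y, (derivative K).eval y + y * (derivative (derivative K)).eval y =
      -Q.eval y + K.eval y / n := by
    intro y
    have := congrArg (eval y) hode'
    simp only [derivative_mul, derivative_X, eval_add, eval_mul, eval_X, eval_neg, eval_C, one_mul] at this
    rw [this]; ring
  have hKe : ∀ y, K.eval y = y * (derivative Q).eval y := by intro y; simp [hKdef]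
  set σ : ℝ → ℝ := fun y => (y - 98 / 100 * a) * (173 / 10 * a - y) with hσ
  set σ' : ℝ → ℝ := fun y => (173 / 10 * a - y) - (y - 98 / 100 * a) with hσ'
  have hσpos : ∀ y ∈ Set.Icc a b, 0 < σ y := by
    intro y hy
    apply mul_pos
    · linarith [hy.1]
    · linarith [hy.2]
  have hσd : ∀ y, HasDerivAt σ (σ' y) y := by
    intro y
    have h1 := ((hasDerivAt_id y).sub_const (98 / 100 * a)).mul ((hasDerivAt_id y).const_sub (173 / 10 * a))
    refine h1.congr_deriv ?_
    simp only [hσ', id]; ring
  have hσd' : ∀ y, HasDerivAt σ' (-2) y := by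
    intro y
    have h1 := ((hasDerivAt_id y).const_sub (173 / 10 * a)).sub ((hasDerivAt_id y).sub_const (98 / 100 * a))
    refine h1.congr_deriv ?_
    norm_num
  set E : ℝ → ℝ := fun y => (Q.eval y) ^ 2 + 2 * (K.eval y * (derivative K).eval y) -
    (2 * (σ' y / σ y) - 1 / y) * (K.eval y) ^ 2 with hE
  have hEd : ∀ y ∈ Set.Icc a b, HasDerivAt E
      (2 * ((derivative K).eval y - σ' y / σ y * K.eval y) ^ 2 +
        (4 / σ y - 1 / y ^ 2 + 2 / (n * y)) * (K.eval y) ^ 2) y := by
    intro y hy
    have hy0 : 0 < y := ha.trans_le hy.1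
    have hs := hσpos y hy
    have h1 := (Q.hasDerivAt y).fun_pow 2
    have h2 := ((K.hasDerivAt y).mul ((derivative K).hasDerivAt y)).const_mul 2
    have h3 := ((((hσd' y).div (hσd y) hs.ne').const_mul 2).sub ((hasDerivAt_inv hy0.ne'))).mul
      ((K.hasDerivAt y).fun_pow 2)
    have h4 := (h1.add h2).sub h3
    refine (h4.congr_of_eventuallyEq ?_).congr_deriv ?_
    · filter_upwards with z
      simp only [hE, Pi.sub_apply, Pi.add_apply, Pi.mul_apply, Pi.div_apply, one_div]
    have ho := hode2 y
    have hQ' : (derivative Q).eval y = K.eval y / y := by rw [hKe]; field_simp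
    have hK'' : (derivative (derivative K)).eval y =
        (-Q.eval y + K.eval y / n - (derivative K).eval y) / y := by
      rw [eq_div_iff hy0.ne']; linarith
    rw [hQ', hK'']
    simp only [Pi.sub_apply, Pi.div_apply]
    field_simp
    ring
  have hmono : MonotoneOn E (Set.Icc a b) := by
    apply monotoneOn_of_deriv_nonneg (convex_Icc a b)
    · intro y hy
      exact (hEd y hy).continuousAt.continuousWithinAt
    · intro y hy
      rw [interior_Icc] at hy
      exact (hEd y (Set.Ioo_subset_Icc_self hy)).differentiableAt.differentiableWithinAt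
    · intro y hy
      rw [interior_Icc] at hy
      have hy' := Set.Ioo_subset_Icc_self hy
      rw [(hEd y hy').deriv]
      have hy0 : 0 < y := ha.trans_le hy'.1
      have hs := hσpos y hy'
      have h1 : 1 / y ^ 2 ≤ 4 / σ y := by
        rw [div_le_div_iff₀ (by positivity) hs]
        simp only [hσ]
        nlinarith [sq_nonneg (y - 1828 / 1000 * a)]
      have h2 : 0 < 2 / (n * y) := by positivity
      have h3 : 0 ≤ (4 / σ y - 1 / y ^ 2 + 2 / (n * y)) * (K.eval y) ^ 2 :=
        mul_nonneg (by linarith) (sq_nonneg _)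
      have h4 : 0 ≤ 2 * ((derivative K).eval y - σ' y / σ y * K.eval y) ^ 2 := by positivity
      linarith
  have := hmono (Set.left_mem_Icc.2 hab) (Set.right_mem_Icc.2 hab) hab
  simp only [hE, hKa, hKb] at this
  simpa using this

/-- the energy beyond `n/2` -/
lemma step_energy' {Q : ℝ[X]} {n a b : ℝ} (hode : Ode3 n Q) (hn : 0 < n) (ha : n / 2 ≤ a) (hab : a ≤ b)
    (hKa : (X * derivative Q).eval a = 0) (hKb : (X * derivative Q).eval b = 0) :
    (Q.eval a) ^ 2 ≤ (Q.eval b) ^ 2 := by
  have ha0 : 0 < a := by linarith
  set K : ℝ[X] := X * derivative Q with hKdef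
  have hode' : derivative (X * derivative K) = -Q + C (1 / n) * K := hode
  have hode2 : ∀ y, (derivative K).eval y + y * (derivative (derivative K)).eval y =
      -Q.eval y + K.eval y / n := by
    intro y
    have := congrArg (eval y) hode'
    simp only [derivative_mul, derivative_X, eval_add, eval_mul, eval_X, eval_neg, eval_C, one_mul] at this
    rw [this]; ring
  have hKe : ∀ y, K.eval y = y * (derivative Q).eval y := by intro y; simp [hKdef]
  set E : ℝ → ℝ := fun y => (Q.eval y) ^ 2 + 2 * (K.eval y * (derivative K).eval y) +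
    y⁻¹ * (K.eval y) ^ 2 with hE
  have hEd : ∀ y ∈ Set.Icc a b, HasDerivAt E
      (2 * ((derivative K).eval y) ^ 2 + (2 / (n * y) - 1 / y ^ 2) * (K.eval y) ^ 2) y := by
    intro y hy
    have hy0 : 0 < y := ha0.trans_le hy.1
    have h1 := (Q.hasDerivAt y).fun_pow 2
    have h2 := ((K.hasDerivAt y).mul ((derivative K).hasDerivAt y)).const_mul 2
    have h3 := (hasDerivAt_inv hy0.ne').mul ((K.hasDerivAt y).fun_pow 2)
    have h4 := (h1.add h2).add h3
    refine (h4.congr_of_eventuallyEq ?_).congr_deriv ?_
    · filter_upwards with z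
      simp only [hE, Pi.add_apply, Pi.mul_apply]
    have ho := hode2 y
    have hQ' : (derivative Q).eval y = K.eval y / y := by rw [hKe]; field_simp
    have hK'' : (derivative (derivative K)).eval y =
        (-Q.eval y + K.eval y / n - (derivative K).eval y) / y := by
      rw [eq_div_iff hy0.ne']; linarith
    rw [hQ', hK'']
    field_simp
    ring
  have hmono : MonotoneOn E (Set.Icc a b) := by
    apply monotoneOn_of_deriv_nonneg (convex_Icc a b)
    · intro y hy
      exact (hEd y hy).continuousAt.continuousWithinAt
    · intro y hy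
      rw [interior_Icc] at hy
      exact (hEd y (Set.Ioo_subset_Icc_self hy)).differentiableAt.differentiableWithinAt
    · intro y hy
      rw [interior_Icc] at hy
      have hy' := Set.Ioo_subset_Icc_self hy
      rw [(hEd y hy').deriv]
      have hy0 : 0 < y := ha0.trans_le hy'.1
      have h1 : 1 / y ^ 2 ≤ 2 / (n * y) := by
        rw [div_le_div_iff₀ (by positivity) (by positivity)]
        nlinarith [hy'.1]
      have h3 : 0 ≤ (2 / (n * y) - 1 / y ^ 2) * (K.eval y) ^ 2 :=
        mul_nonneg (by linarith) (sq_nonneg _)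
      have h4 : 0 ≤ 2 * ((derivative K).eval y) ^ 2 := by positivity
      linarith
  have := hmono (Set.left_mem_Icc.2 hab) (Set.right_mem_Icc.2 hab) hab
  simp only [hE, hKa, hKb] at this
  simpa using this

end Pool.Agent.R259
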