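import Mathlib
import Pool.Agent.R259.Q3b

set_option autoImplicit false

namespace Pool.Agent.R259

open Filter Topology Polynomial

lemma sign_const {R : ℝ[X]} {a b : ℝ} (h : ∀ y ∈ Set.Ioo a b, R.eval y ≠ 0) :
    (∀ y ∈ Set.Ioo a b, 0 < R.eval y) ∨ (∀ y ∈ Set.Ioo a b, R.eval y < 0) := by
  by_contra hcon
  push Not at hcon
  obtain ⟨⟨y1, hy1, h1⟩, ⟨y2, hy2, h2⟩⟩ := hcon
  have h3 : (0 : ℝ) ∈ (fun y => R.eval y) '' Set.Ioo a b :=
    (isPreconnected_Ioo.image _ R.continuous.continuousOn).Icc_subset
      (Set.mem_image_of_mem _ hy1) (Set.mem_image_of_mem _ hy2) ⟨h1, h2⟩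
  obtain ⟨y, hy, hy0⟩ := h3
  exact h y hy hy0

lemma mono_between {Q : ℝ[X]} {a b z : ℝ} (hab : a < b)
    (h : ∀ y ∈ Set.Ioo a b, (derivative Q).eval y ≠ 0) (hz : z ∈ Set.Icc a b) :
    |Q.eval z| ≤ max |Q.eval a| |Q.eval b| := by
  rcases sign_const h with h1 | h1
  · have hm : MonotoneOn (fun y => Q.eval y) (Set.Icc a b) := by
      apply monotoneOn_of_deriv_nonneg (convex_Icc a b) Q.continuous.continuousOn
        Q.differentiable.differentiableOn
      intro y hy
      rw [interior_Icc] at hy
      rw [Polynomial.deriv]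
      exact (h1 y hy).le
    have h2 : Q.eval a ≤ Q.eval z := hm (Set.left_mem_Icc.2 hab.le) hz hz.1
    have h3 : Q.eval z ≤ Q.eval b := hm hz (Set.right_mem_Icc.2 hab.le) hz.2
    rw [abs_le]
    constructor
    · have := neg_abs_le (Q.eval a)
      have := le_max_left |Q.eval a| |Q.eval b|
      linarith
    · exact h3.trans ((le_abs_self _).trans (le_max_right _ _))
  · have hm : AntitoneOn (fun y => Q.eval y) (Set.Icc a b) := by
      apply antitoneOn_of_deriv_nonpos (convex_Icc a b) Q.continuous.continuousOn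
        Q.differentiable.differentiableOn
      intro y hy
      rw [interior_Icc] at hy
      rw [Polynomial.deriv]
      exact (h1 y hy).le
    have h2 : Q.eval z ≤ Q.eval a := hm (Set.left_mem_Icc.2 hab.le) hz hz.1
    have h3 : Q.eval b ≤ Q.eval z := hm hz (Set.right_mem_Icc.2 hab.le) hz.2
    rw [abs_le]
    constructor
    · have := neg_abs_le (Q.eval b)
      have := le_max_right |Q.eval a| |Q.eval b|
      linarith
    · exact h2.trans ((le_abs_self _).trans (le_max_left _ _))

lemma dom_of_steps {Q : ℝ[X]} {e : ℝ} (he : 0 < e) (hQ0 : Q.eval 0 = 1)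
    (hA : ∀ y, 0 < y → y ≤ e → (derivative Q).eval y < 0) (hB : Q.eval e ≤ -1)
    (hC : ∀ a b, e < a → a < b → (derivative Q).eval a = 0 → (derivative Q).eval b = 0 →
      (∀ y ∈ Set.Ioo a b, (derivative Q).eval y ≠ 0) → (Q.eval a) ^ 2 ≤ (Q.eval b) ^ 2) :
    ∀ b, 0 < b → (derivative Q).eval b = 0 →
      1 ≤ |Q.eval b| ∧ ∀ z ∈ Set.Icc 0 b, |Q.eval z| ≤ |Q.eval b| := by
  have hne : derivative Q ≠ 0 := by
    intro h
    have := hA e he le_rfl
    rw [h] at this; simp at this
  have key : ∀ m : ℕ, ∀ b, ((derivative Q).roots.toFinset.filter (fun r => 0 < r ∧ r < b)).card = m →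
      0 < b → (derivative Q).eval b = 0 →
      1 ≤ |Q.eval b| ∧ ∀ z ∈ Set.Icc 0 b, |Q.eval z| ≤ |Q.eval b| := by
    intro m
    induction m using Nat.strong_induction_on with
    | _ m ih =>
      intro b hcard hb hb0
      set S := (derivative Q).roots.toFinset.filter (fun r => 0 < r ∧ r < b) with hS
      have hmem : ∀ r, r ∈ S ↔ (derivative Q).eval r = 0 ∧ 0 < r ∧ r < b := by
        intro r
        rw [hS, Finset.mem_filter, Multiset.mem_toFinset, mem_roots hne, IsRoot.def]
      rcases S.eq_empty_or_nonempty with hemp | hnonemp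
      · have hno : ∀ y ∈ Set.Ioo 0 b, (derivative Q).eval y ≠ 0 := by
          intro y hy h0
          have : y ∈ S := (hmem y).2 ⟨h0, hy.1, hy.2⟩
          rw [hemp] at this
          exact absurd this (Finset.notMem_empty _)
        have heb : e < b := by
          by_contra h
          push Not at h
          have := hA b hb h
          rw [hb0] at this
          exact lt_irrefl _ this
        have hneg : ∀ y ∈ Set.Ioo 0 b, (derivative Q).eval y < 0 := by
          rcases sign_const hno with h1 | h1
          · exact absurd (h1 e ⟨he, heb⟩) (not_lt.2 (hA e he le_rfl).le)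
          · exact h1
        have hm : AntitoneOn (fun y => Q.eval y) (Set.Icc 0 b) := by
          apply antitoneOn_of_deriv_nonpos (convex_Icc 0 b) Q.continuous.continuousOn
            Q.differentiable.differentiableOn
          intro y hy
          rw [interior_Icc] at hy
          rw [Polynomial.deriv]
          exact (hneg y hy).le
        have h1 : Q.eval b ≤ Q.eval e := hm ⟨he.le, heb.le⟩ (Set.right_mem_Icc.2 hb.le) heb.le
        have h2 : 1 ≤ |Q.eval b| := by
          rw [abs_of_nonpos (by linarith)]; linarith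
        refine ⟨h2, fun z hz => ?_⟩
        have h3 := mono_between hb hno hz
        rw [hQ0, abs_one, max_eq_right h2] at h3
        exact h3
      · set a := S.max' hnonemp with ha
        have haS : a ∈ S := S.max'_mem hnonemp
        obtain ⟨ha0, hapos, hab⟩ := (hmem a).1 haS
        have hsub : (derivative Q).roots.toFinset.filter (fun r => 0 < r ∧ r < a) ⊂ S := by
          rw [Finset.ssubset_iff_of_subset]
          · exact ⟨a, haS, by simp⟩
          · intro r hr
            rw [Finset.mem_filter, Multiset.mem_toFinset, mem_roots hne, IsRoot.def] at hr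
            exact (hmem r).2 ⟨hr.1, hr.2.1, hr.2.2.trans hab⟩
        have hlt := Finset.card_lt_card hsub
        rw [hcard] at hlt
        obtain ⟨h1, h2⟩ := ih _ hlt a rfl hapos ha0
        have hea : e < a := by
          by_contra h
          push Not at h
          have := hA a hapos h
          rw [ha0] at this
          exact lt_irrefl _ this
        have hno : ∀ y ∈ Set.Ioo a b, (derivative Q).eval y ≠ 0 := by
          intro y hy h0
          have h3 : y ∈ S := (hmem y).2 ⟨h0, hapos.trans hy.1, hy.2⟩
          have h4 := S.le_max' y h3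
          exact absurd hy.1 (not_lt.2 h4)
        have h3 := hC a b hea hab ha0 hb0 hno
        rw [sq_le_sq] at h3
        refine ⟨h1.trans h3, fun z hz => ?_⟩
        rcases le_total z a with h4 | h4
        · exact (h2 z ⟨hz.1, h4⟩).trans h3
        · have h5 := mono_between hab hno ⟨h4, hz.2⟩
          rwa [max_eq_right h3] at h5
  intro b hb hb0
  exact key _ b rfl hb hb0

lemma hC3 {Q : ℝ[X]} {n : ℝ} (hode : Ode3 n Q) (hn : 10000 ≤ n) : ∀ a b, 5 < a → a < b →
    (derivative Q).eval a = 0 → (derivative Q).eval b = 0 →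
    (∀ y ∈ Set.Ioo a b, (derivative Q).eval y ≠ 0) → (Q.eval a) ^ 2 ≤ (Q.eval b) ^ 2 := by
  intro a b ha hab ha0 hb0 hno
  have hKa : (X * derivative Q).eval a = 0 := by simp [ha0]
  have hKb : (X * derivative Q).eval b = 0 := by simp [hb0]
  rcases le_total a (n / 2) with h | h
  · apply step_energy hode (by linarith) (by linarith) hab.le _ hKa hKb
    by_contra h1
    push Not at h1
    rcases sign_const hno with h2 | h2
    · apply gap_pos hode hn ha.le h hKa
      intro y hy
      rw [eval_mul, eval_X]
      exact mul_pos (by linarith [hy.1]) (h2 y ⟨hy.1, hy.2.trans h1⟩)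
    · apply gap_pos hode.neg hn ha.le h (by simp [ha0])
      intro y hy
      rw [eval_mul, eval_X, derivative_neg, eval_neg]
      have := h2 y ⟨hy.1, hy.2.trans h1⟩
      exact mul_pos (by linarith [hy.1]) (by linarith)
  · exact step_energy' hode (by linarith) h hab.le hKa hKb

/-- the reflected polynomial -/
noncomputable def Qn (n : ℕ) : ℝ[X] := (pn 1 1 n).comp (C (-1) * X)

lemma Qn_eval (n : ℕ) (y : ℝ) : (Qn n).eval y = (pn 1 1 n).eval (-y) := by
  rw [Qn, eval_comp]; simp

lemma Qn_deriv_eval (n : ℕ) (y : ℝ) :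
    (derivative (Qn n)).eval y = -(derivative (pn 1 1 n)).eval (-y) := by
  rw [Qn, derivative_comp, eval_mul, eval_comp]; simp

lemma Qn_ode {n : ℕ} (hn : 0 < n) : Ode3 n (Qn n) := by
  unfold Ode3
  have hco : ∀ k, (Qn n).coeff k = (pn 1 1 n).coeff k * (-1) ^ k := by
    intro k; rw [Qn, comp_C_mul_X_coeff]
  ext k
  rw [coeff_add, coeff_neg, coeff_C_mul, coeff_X_deriv]
  rw [coeff_derivative, coeff_X_deriv, coeff_X_deriv, hco, hco]
  have := pn_ratio (b := 1) (b' := 1) one_pos one_pos hn k
  push_cast
  rw [pow_succ]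
  linear_combination (-(-1) ^ k) * this

end Pool.Agent.R259
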