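import Mathlib
import Pool.Agent.R259.Q3c

set_option autoImplicit false

namespace Pool.Agent.R259

open Filter Topology Polynomial

lemma alt5 {t : ℕ → ℝ} (h0 : ∀ m, 0 ≤ t m) (ha : ∀ m, 4 ≤ m → t (m + 1) ≤ t m) (K : ℕ) :
    ∑ m ∈ Finset.range (K + 4), (-1 : ℝ) ^ m * t m ≤ t 0 - t 1 + t 2 - t 3 + t 4 := by
  have h1 := alt_sum (t := fun m => t (m + 4)) (fun m => h0 _) (fun m => by
    have := ha (m + 4) (by omega)
    convert this using 2) K
  rw [Finset.sum_range_succ', Finset.sum_range_succ', Finset.sum_range_succ', Finset.sum_range_succ']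
  have h2 : ∑ m ∈ Finset.range K, (-1 : ℝ) ^ (m + 1 + 1 + 1 + 1) * t (m + 1 + 1 + 1 + 1) =
      ∑ m ∈ Finset.range K, (-1 : ℝ) ^ m * t (m + 4) := by
    refine Finset.sum_congr rfl fun m _ => ?_
    rw [show m + 1 + 1 + 1 + 1 = m + 4 by ring, pow_add]
    norm_num
  rw [h2]
  norm_num at h1 ⊢
  linarith [h1.2]

section
variable {n : ℕ}

lemma p3_pos (n k : ℕ) : 0 ≤ (pn 1 1 n).coeff k := pn_coeff_nonneg one_pos one_pos n k

lemma p3_step (hn : 0 < n) (k : ℕ) : ((k : ℝ) + 1) ^ 3 * (pn 1 1 n).coeff (k + 1) =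
    (1 - k / n) * (pn 1 1 n).coeff k := by
  have := pn_ratio (b := 1) (b' := 1) one_pos one_pos hn k
  linear_combination this

lemma p3_le (hn : 0 < n) (k : ℕ) : ((k : ℝ) + 1) ^ 3 * (pn 1 1 n).coeff (k + 1) ≤
    (pn 1 1 n).coeff k := by
  rw [p3_step hn]
  have h1 := p3_pos n k
  have h2 : (0 : ℝ) ≤ (k : ℝ) / n := by positivity
  nlinarith

lemma p3_vals (hn : 10000 ≤ n) : (pn 1 1 n).coeff 0 = 1 ∧ (pn 1 1 n).coeff 1 = 1 ∧
    (pn 1 1 n).coeff 2 ≤ 1 / 8 ∧ 9997 / 10000 / 216 ≤ (pn 1 1 n).coeff 3 ∧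
    (pn 1 1 n).coeff 4 ≤ 1 / 13824 := by
  have hn0 : 0 < n := by omega
  have hnr : (10000 : ℝ) ≤ n := by exact_mod_cast hn
  have h0 := pn_coeff_zero 1 1 n
  have s0 := p3_step hn0 0
  have s1 := p3_step hn0 1
  have s2 := p3_step hn0 2
  have l1 := p3_le hn0 1
  have l2 := p3_le hn0 2
  have l3 := p3_le hn0 3
  rw [h0] at s0
  norm_num at s0 s1 s2 l1 l2 l3
  rw [s0] at s1 l1
  have hi : (n : ℝ)⁻¹ ≤ 1 / 10000 := by
    rw [inv_eq_one_div]
    exact one_div_le_one_div_of_le (by norm_num) hnr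
  have hi0 : 0 < (n : ℝ)⁻¹ := by positivity
  have e1 : (1 : ℝ) / n = (n : ℝ)⁻¹ := one_div _
  have e2 : (2 : ℝ) / n = 2 * (n : ℝ)⁻¹ := by ring
  refine ⟨h0, s0, by linarith, ?_, by linarith⟩
  have h3 : (pn 1 1 n).coeff 2 = (1 - (n : ℝ)⁻¹) / 8 := by
    linarith
  rw [h3] at s2
  rw [e2] at s2
  nlinarith
end

lemma eval_neg_sum {P : ℝ[X]} {N : ℕ} (hN : P.natDegree < N) (y : ℝ) :
    P.eval (-y) = ∑ k ∈ Finset.range N, (-1 : ℝ) ^ k * (P.coeff k * y ^ k) := by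
  rw [eval_eq_sum_range' hN]
  refine Finset.sum_congr rfl fun k _ => ?_
  rw [neg_pow]; ring

lemma Q3_deriv_neg {n : ℕ} (hn : 10000 ≤ n) {y : ℝ} (hy0 : 0 < y) (hy : y ≤ 5) :
    (derivative (Qn n)).eval y < 0 := by
  rw [Qn_deriv_eval, neg_lt_zero]
  have hn0 : 0 < n := by omega
  have hdeg : (derivative (pn 1 1 n)).natDegree < n + 4 := by
    have h1 := natDegree_derivative_le (pn 1 1 n)
    rw [pn_natDegree one_pos one_pos hn0] at h1
    omega
  rw [eval_neg_sum hdeg]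
  have hc : ∀ m, 0 ≤ (derivative (pn 1 1 n)).coeff m := by
    intro m
    rw [coeff_derivative]
    exact mul_nonneg (p3_pos n _) (by positivity)
  have h1 := alt4 (t := fun m => (derivative (pn 1 1 n)).coeff m * y ^ m)
    (fun m => mul_nonneg (hc m) (pow_nonneg hy0.le m)) (fun m hm4 => by
      simp only [coeff_derivative]
      have h2 := p3_le hn0 (m + 1)
      have h3 := p3_pos n (m + 1)
      have h4 := p3_pos n (m + 1 + 1)
      have h5 : (0 : ℝ) < y ^ m := pow_pos hy0 m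
      push_cast at h2 ⊢
      have hm : (0 : ℝ) ≤ m := Nat.cast_nonneg m
      rw [pow_succ]
      have h6 : (pn 1 1 n).coeff (m + 1 + 1) * ((m : ℝ) + 1 + 1) * y ≤
          (pn 1 1 n).coeff (m + 1) * ((m : ℝ) + 1) := by
        have h7 : (pn 1 1 n).coeff (m + 1 + 1) * ((m : ℝ) + 1 + 1) * y ≤
            (pn 1 1 n).coeff (m + 1 + 1) * ((m : ℝ) + 1 + 1) * 5 :=
          mul_le_mul_of_nonneg_left hy (by positivity)
        have hm1 : (4 : ℝ) ≤ m := by exact_mod_cast hm4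
        have h9 : (5 : ℝ) ≤ ((m : ℝ) + 1 + 1) ^ 2 := by nlinarith
        have h10 : (pn 1 1 n).coeff (m + 1 + 1) * ((m : ℝ) + 1 + 1) * 5 ≤
            (pn 1 1 n).coeff (m + 1 + 1) * ((m : ℝ) + 1 + 1) * ((m : ℝ) + 1 + 1) ^ 2 :=
          mul_le_mul_of_nonneg_left h9 (by positivity)
        have h11 : (pn 1 1 n).coeff (m + 1) * 1 ≤ (pn 1 1 n).coeff (m + 1) * ((m : ℝ) + 1) :=
          mul_le_mul_of_nonneg_left (by linarith) h3
        have h12 : (pn 1 1 n).coeff (m + 1 + 1) * ((m : ℝ) + 1 + 1) * ((m : ℝ) + 1 + 1) ^ 2 =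
            ((m : ℝ) + 1 + 1) ^ 3 * (pn 1 1 n).coeff (m + 1 + 1) := by ring
        linarith
      calc (pn 1 1 n).coeff (m + 1 + 1) * ((m : ℝ) + 1 + 1) * (y ^ m * y) =
          ((pn 1 1 n).coeff (m + 1 + 1) * ((m : ℝ) + 1 + 1) * y) * y ^ m := by ring
        _ ≤ ((pn 1 1 n).coeff (m + 1) * ((m : ℝ) + 1)) * y ^ m :=
          mul_le_mul_of_nonneg_right h6 h5.le) n
  refine lt_of_lt_of_le ?_ h1
  obtain ⟨v0, v1, v2, v3, v4⟩ := p3_vals hn
  simp only [coeff_derivative]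
  norm_num
  rw [v1]
  have h2 : (pn 1 1 n).coeff 2 * 2 * y ≤ 1 / 8 * 2 * y := by
    apply mul_le_mul_of_nonneg_right _ hy0.le; linarith
  have h3 : 9997 / 10000 / 216 * 3 * y ^ 2 ≤ (pn 1 1 n).coeff 3 * 3 * y ^ 2 := by
    apply mul_le_mul_of_nonneg_right _ (by positivity); linarith
  have h4 : (pn 1 1 n).coeff 4 * 4 * y ^ 3 ≤ 1 / 13824 * 4 * y ^ 3 := by
    apply mul_le_mul_of_nonneg_right _ (by positivity); linarith
  have h5 : 0 ≤ (5 - y) * (1 / 4 - 9997 / 720000 * (5 + y) + (25 + 5 * y + y ^ 2) / 3456) := by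
    apply mul_nonneg (by linarith)
    nlinarith
  nlinarith

lemma Q3_five {n : ℕ} (hn : 10000 ≤ n) : (Qn n).eval 5 ≤ -1 := by
  rw [Qn_eval]
  have hn0 : 0 < n := by omega
  have hdeg : (pn 1 1 n).natDegree < n + 4 := by
    rw [pn_natDegree one_pos one_pos hn0]
    omega
  rw [eval_neg_sum hdeg]
  have h1 := alt5 (t := fun m => (pn 1 1 n).coeff m * 5 ^ m)
    (fun m => mul_nonneg (p3_pos n m) (by positivity)) (fun m hm => by
      have h2 := p3_le hn0 m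
      have h3 := p3_pos n (m + 1)
      have hm1 : (4 : ℝ) ≤ m := by exact_mod_cast hm
      have h4 : (5 : ℝ) ≤ ((m : ℝ) + 1) ^ 3 := by
        have : (5 : ℝ) ^ 3 ≤ ((m : ℝ) + 1) ^ 3 := pow_le_pow_left₀ (by norm_num) (by linarith) 3
        linarith
      have h5 : (pn 1 1 n).coeff (m + 1) * 5 ≤ (pn 1 1 n).coeff m := by nlinarith
      calc (pn 1 1 n).coeff (m + 1) * 5 ^ (m + 1) = ((pn 1 1 n).coeff (m + 1) * 5) * 5 ^ m := by
            rw [pow_succ]; ring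
        _ ≤ (pn 1 1 n).coeff m * 5 ^ m := mul_le_mul_of_nonneg_right h5 (by positivity)) n
  refine h1.trans ?_
  obtain ⟨v0, v1, v2, v3, v4⟩ := p3_vals hn
  simp only [v0, v1]
  norm_num
  linarith

/-- dominance for `b = b' = 1` -/
theorem dom3 {n : ℕ} (hn : 10000 ≤ n) : Dom (pn 1 1 n) := by
  have hn0 : 0 < n := by omega
  have hnr : (10000 : ℝ) ≤ n := by exact_mod_cast hn
  have h0 : (Qn n).eval 0 = 1 := by
    rw [Qn_eval, neg_zero, ← coeff_zero_eq_eval_zero, pn_coeff_zero]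
  have key := dom_of_steps (Q := Qn n) (e := 5) (by norm_num) h0
    (fun y hy0 hy => Q3_deriv_neg hn hy0 hy) (Q3_five hn) (hC3 (Qn_ode hn0) hnr)
  intro x hx hcrit
  have h1 : (derivative (Qn n)).eval (-x) = 0 := by
    rw [Qn_deriv_eval, neg_neg, hcrit, neg_zero]
  obtain ⟨h2, h3⟩ := key (-x) (by linarith) h1
  rw [Qn_eval, neg_neg] at h2 h3
  refine ⟨fun h => by rw [h] at h2; norm_num at h2, fun t ht0 ht1 => ?_⟩
  have h4 := h3 (t * (-x)) ⟨mul_nonneg ht0 (by linarith), by nlinarith⟩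
  rw [Qn_eval] at h4
  have h5 : -(t * -x) = t * x := by ring
  rwa [h5] at h4

end Pool.Agent.R259
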