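import Mathlib
import Pool.Agent.R259.Q3d
import Pool.Agent.R259.One

set_option autoImplicit false

namespace Pool.Agent.R259

open Filter Topology Polynomial MeasureTheory Set

section rp
variable {σ : ℝ}

/-- normalising constant -/
noncomputable def rc (σ : ℝ) : ℝ := (∫ t in Ioi (0:ℝ), Real.rpowIntegrand₀₁ σ t 1)⁻¹

lemma rc_pos (h : σ ∈ Ioo (0:ℝ) 1) : 0 < rc σ :=
  inv_pos.2 (Real.integral_rpowIntegrand₀₁_one_pos h)

/-- lower and upper ends -/
noncomputable def lo (N : ℕ) : ℝ := ((N : ℝ) + 1)⁻¹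

lemma lo_pos (N : ℕ) : 0 < lo N := by unfold lo; positivity

lemma lo_le (N : ℕ) : lo N ≤ (N : ℝ) + 1 := by
  unfold lo
  have h : (1 : ℝ) ≤ (N : ℝ) + 1 := by
    have : (0 : ℝ) ≤ N := Nat.cast_nonneg N
    linarith
  calc ((N : ℝ) + 1)⁻¹ ≤ 1 := inv_le_one_of_one_le₀ h
    _ ≤ _ := h

/-- truncated integrals -/
noncomputable def gN (σ : ℝ) (N k : ℕ) : ℝ :=
  rc σ * ∫ t in (lo N)..((N : ℝ) + 1), t ^ σ * (1 / ((k : ℝ) + t))

noncomputable def LN (σ : ℝ) (N : ℕ) : ℝ :=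
  rc σ * ∫ t in (lo N)..((N : ℝ) + 1), t ^ σ * (1 / t)

noncomputable def hN (σ : ℝ) (N k : ℕ) : ℝ := LN σ N + lo N - gN σ N k

lemma cont1 (σ : ℝ) (N k : ℕ) :
    ContinuousOn (fun t : ℝ => t ^ σ * (1 / ((k : ℝ) + t))) (uIcc (lo N) ((N : ℝ) + 1)) := by
  have hl := lo_pos N
  rw [uIcc_of_le (lo_le N)]
  apply ContinuousOn.mul
  · exact ContinuousOn.rpow_const (by fun_prop) (fun t ht => Or.inl (hl.trans_le ht.1).ne')
  · apply ContinuousOn.div continuousOn_const (by fun_prop)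
    intro t ht
    have : 0 < t := hl.trans_le ht.1
    positivity

lemma cont2 (σ : ℝ) (N : ℕ) :
    ContinuousOn (fun t : ℝ => t ^ σ * (1 / t)) (uIcc (lo N) ((N : ℝ) + 1)) := by
  have hl := lo_pos N
  rw [uIcc_of_le (lo_le N)]
  apply ContinuousOn.mul
  · exact ContinuousOn.rpow_const (by fun_prop) (fun t ht => Or.inl (hl.trans_le ht.1).ne')
  · apply ContinuousOn.div continuousOn_const (by fun_prop)
    intro t ht
    exact (hl.trans_le ht.1).ne'

lemma gN_NB (h : σ ∈ Ioo (0:ℝ) 1) (N : ℕ) : NB (gN σ N) (LN σ N) := by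
  have h1 : NB (fun k => ∫ t in (lo N)..((N : ℝ) + 1), t ^ σ * (1 / ((k : ℝ) + t)))
      (∫ t in (lo N)..((N : ℝ) + 1), t ^ σ * (1 / t)) := by
    refine NB.integral (lo_le N) (g := fun t k => t ^ σ * (1 / ((k : ℝ) + t)))
      (c := fun t => t ^ σ * (1 / t)) ?_ ?_ ?_
    · intro t ht
      have ht0 : 0 < t := (lo_pos N).trans_le ht.1
      have h2 := (NB.inv ht0).smul (t ^ σ)
      rwa [abs_of_nonneg (Real.rpow_nonneg ht0.le σ)] at h2
    · intro k
      exact (cont1 σ N k).intervalIntegrable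
    · exact (cont2 σ N).intervalIntegrable
  have h2 := h1.smul (rc σ)
  rw [abs_of_pos (rc_pos h)] at h2
  exact h2

lemma hN_eq (N k : ℕ) : hN σ N k - lo N =
    rc σ * ∫ t in (lo N)..((N : ℝ) + 1), Real.rpowIntegrand₀₁ σ t k := by
  have h1 : hN σ N k - lo N = LN σ N - gN σ N k := by rw [hN]; ring
  rw [h1, LN, gN, ← mul_sub, ← intervalIntegral.integral_sub (cont2 σ N).intervalIntegrable
    (cont1 σ N k).intervalIntegrable]
  congr 1
  apply intervalIntegral.integral_congr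
  intro t _
  simp only [Real.rpowIntegrand₀₁]
  rw [add_comm (k : ℝ) t]
  simp only [one_div]
  ring

lemma hN_tendsto (h : σ ∈ Ioo (0:ℝ) 1) (k : ℕ) :
    Tendsto (fun N => hN σ N k) atTop (𝓝 ((k : ℝ) ^ σ)) := by
  have hk : (0 : ℝ) ≤ k := Nat.cast_nonneg k
  have hlo : Tendsto lo atTop (𝓝 0) := tendsto_inv_atTop_zero.comp
    (tendsto_natCast_atTop_atTop.atTop_add tendsto_const_nhds)
  have hup : Tendsto (fun N : ℕ => (N : ℝ) + 1) atTop atTop :=
    tendsto_natCast_atTop_atTop.atTop_add tendsto_const_nhds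
  have hint := Real.integrableOn_rpowIntegrand₀₁_Ioi h hk
  have hval := Real.integral_rpowIntegrand₀₁_eq_rpow_mul_const h hk
  -- split at one
  have hii : ∀ a b : ℝ, 0 ≤ a → 0 ≤ b →
      IntervalIntegrable (fun t => Real.rpowIntegrand₀₁ σ t k) volume a b := by
    intro a b ha hb
    rw [intervalIntegrable_iff]
    exact hint.mono_set (fun t ht => lt_of_le_of_lt (le_min ha hb) ht.1)
  have h1 : Tendsto (fun N : ℕ => ∫ t in (0:ℝ)..((N : ℝ) + 1), Real.rpowIntegrand₀₁ σ t k) atTop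
      (𝓝 (∫ t in Ioi (0:ℝ), Real.rpowIntegrand₀₁ σ t k)) :=
    intervalIntegral_tendsto_integral_Ioi 0 hint hup
  have h2 : Tendsto (fun N : ℕ => ∫ t in (0:ℝ)..(lo N), Real.rpowIntegrand₀₁ σ t k) atTop (𝓝 0) := by
    have hcont : ContinuousOn (fun x => ∫ t in (0:ℝ)..x, Real.rpowIntegrand₀₁ σ t k) (Icc 0 1) := by
      have hu : Icc (0:ℝ) 1 = uIcc 0 1 := (uIcc_of_le zero_le_one).symm
      rw [hu]
      apply intervalIntegral.continuousOn_primitive_interval
      rw [uIcc_of_le zero_le_one]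
      have := (hii 0 1 le_rfl zero_le_one)
      rw [intervalIntegrable_iff_integrableOn_Icc_of_le zero_le_one] at this
      exact this
    have h3 := (hcont 0 (left_mem_Icc.2 zero_le_one)).tendsto
    rw [intervalIntegral.integral_same] at h3
    refine h3.comp (tendsto_nhdsWithin_iff.2 ⟨hlo, ?_⟩)
    refine Eventually.of_forall fun N => ⟨(lo_pos N).le, ?_⟩
    unfold lo
    apply inv_le_one_of_one_le₀
    have : (0 : ℝ) ≤ N := Nat.cast_nonneg N
    linarith
  have h3 := ((h1.sub h2).const_mul (rc σ)).add hlo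
  have h4 : rc σ * ((∫ t in Ioi (0:ℝ), Real.rpowIntegrand₀₁ σ t k) - 0) + 0 = (k : ℝ) ^ σ := by
    rw [hval, rc]
    have := Real.integral_rpowIntegrand₀₁_one_pos h
    field_simp
    ring
  rw [h4] at h3
  refine h3.congr fun N => ?_
  have h5 : (∫ t in (0:ℝ)..((N : ℝ) + 1), Real.rpowIntegrand₀₁ σ t k) -
      ∫ t in (0:ℝ)..(lo N), Real.rpowIntegrand₀₁ σ t k =
      ∫ t in (lo N)..((N : ℝ) + 1), Real.rpowIntegrand₀₁ σ t k := by
    rw [intervalIntegral.integral_interval_sub_left]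
    · exact hii _ _ le_rfl (by positivity)
    · exact hii _ _ le_rfl (lo_pos N).le
  rw [h5, ← hN_eq]
  ring

lemma hN_pos (h : σ ∈ Ioo (0:ℝ) 1) (N k : ℕ) : 0 < hN σ N k := by
  have h1 := hN_eq (σ := σ) N k
  have h2 : 0 ≤ ∫ t in (lo N)..((N : ℝ) + 1), Real.rpowIntegrand₀₁ σ t k := by
    apply intervalIntegral.integral_nonneg (lo_le N)
    intro t ht
    exact Real.rpowIntegrand₀₁_nonneg h.1 ((lo_pos N).le.trans ht.1) (Nat.cast_nonneg k)
  have h3 := mul_nonneg (rc_pos h).le h2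
  have h4 := lo_pos N
  linarith

lemma hN_le (h : σ ∈ Ioo (0:ℝ) 1) (N k : ℕ) : hN σ N k ≤ (k : ℝ) + 1 := by
  have hk : (0 : ℝ) ≤ k := Nat.cast_nonneg k
  have h1 := hN_eq (σ := σ) N k
  have hint := Real.integrableOn_rpowIntegrand₀₁_Ioi h hk
  have hval := Real.integral_rpowIntegrand₀₁_eq_rpow_mul_const h hk
  have h2 : ∫ t in (lo N)..((N : ℝ) + 1), Real.rpowIntegrand₀₁ σ t k ≤
      ∫ t in Ioi (0:ℝ), Real.rpowIntegrand₀₁ σ t k := by
    rw [intervalIntegral.integral_of_le (lo_le N)]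
    apply setIntegral_mono_set hint
    · refine ae_restrict_of_forall_mem measurableSet_Ioi fun t ht => ?_
      exact Real.rpowIntegrand₀₁_nonneg h.1 (le_of_lt ht) hk
    · exact Eventually.of_forall fun t ht => (lo_pos N).trans ht.1
  have h3 := mul_le_mul_of_nonneg_left h2 (rc_pos h).le
  rw [hval] at h3
  have h4 : rc σ * ((k : ℝ) ^ σ * ∫ t in Ioi (0:ℝ), Real.rpowIntegrand₀₁ σ t 1) = (k : ℝ) ^ σ := by
    rw [rc]
    have := Real.integral_rpowIntegrand₀₁_one_pos h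
    field_simp
  rw [h4] at h3
  have h5 : (k : ℝ) ^ σ ≤ k := by
    rcases Nat.eq_zero_or_pos k with rfl | hk0
    · rw [Nat.cast_zero, Real.zero_rpow h.1.ne']
    · have hk1 : (1 : ℝ) ≤ k := by exact_mod_cast hk0
      calc (k : ℝ) ^ σ ≤ (k : ℝ) ^ (1 : ℝ) := Real.rpow_le_rpow_of_exponent_le hk1 h.2.le
        _ = k := Real.rpow_one _
  have h6 : lo N ≤ 1 := by
    unfold lo
    apply inv_le_one_of_one_le₀
    have : (0 : ℝ) ≤ N := Nat.cast_nonneg N
    linarith
  linarith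

end rp

lemma T_theta (g : ℕ → ℝ) (P : ℝ[X]) (r : ℕ) :
    T (fun k => (k : ℝ) ^ r * g k) P = (fun Q : ℝ[X] => X * derivative Q)^[r] (T g P) := by
  induction r with
  | zero => simp
  | succ r ih =>
    rw [Function.iterate_succ_apply', ← ih]
    ext k
    rw [T_coeff, coeff_X_deriv, T_coeff]
    ring

lemma splits_theta {Q : ℝ[X]} (h : Q.Splits) (r : ℕ) :
    ((fun Q : ℝ[X] => X * derivative Q)^[r] Q).Splits := by
  induction r with
  | zero => exact h
  | succ r ih =>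
    rw [Function.iterate_succ_apply']
    exact Splits.X.mul (splits_derivative ih)

lemma p3_le_fact (n k : ℕ) : (pn 1 1 n).coeff k ≤ 1 / k.factorial := by
  rw [pn, T_coeff]
  have hp : poch 1 k = k.factorial := by
    induction k with
    | zero => simp [poch_zero]
    | succ k ih =>
      rw [poch_succ, ih, Nat.factorial_succ]; push_cast; ring
  have h1 := jn_coeff_le (b := 1) one_pos n k
  rw [jc] at h1
  have hf : (1 : ℝ) ≤ k.factorial := by exact_mod_cast Nat.one_le_iff_ne_zero.2 (Nat.factorial_ne_zero k)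
  rw [hp] at h1 ⊢
  have h2 : (jn 1 n).coeff k ≤ 1 := by
    refine h1.trans ?_
    rw [div_le_one (by positivity)]
    nlinarith
  calc 1 / (k.factorial : ℝ) * (jn 1 n).coeff k ≤ 1 / (k.factorial : ℝ) * 1 :=
        mul_le_mul_of_nonneg_left h2 (by positivity)
    _ = _ := mul_one _

lemma poch_one (k : ℕ) : poch 1 k = k.factorial := by
  induction k with
  | zero => simp [poch_zero]
  | succ k ih =>
    rw [poch_succ, ih, Nat.factorial_succ]; push_cast; ring

/-- multipliers used: `h N k → k ^ s` -/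
lemma mult_exists {s : ℝ} (hs : 0 < s) : ∃ (r : ℕ) (h : ℕ → ℕ → ℝ),
    (∀ N, (T (fun k => (k : ℝ) ^ r * h N k) (pn 1 1 (N + 10000))).Splits) ∧
    (∀ N k, 0 < h N k ∧ h N k ≤ (k : ℝ) + 1) ∧
    ∀ k : ℕ, Tendsto (fun N => (k : ℝ) ^ r * h N k) atTop (𝓝 ((k : ℝ) ^ s)) := by
  set r := ⌊s⌋₊ with hr
  set σ := s - r with hσ
  have h0 : (0 : ℝ) ≤ σ := sub_nonneg.2 (Nat.floor_le hs.le)
  have h1 : σ < 1 := by
    have := Nat.lt_floor_add_one s
    rw [hσ]; linarith
  rcases eq_or_lt_of_le h0 with h2 | h2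
  · refine ⟨r, fun _ _ => 1, fun N => ?_, fun N k => ⟨one_pos, ?_⟩, fun k => ?_⟩
    · rw [T_theta]
      apply splits_theta
      have : T (fun _ => 1) (pn 1 1 (N + 10000)) = pn 1 1 (N + 10000) := by
        ext k; rw [T_coeff, one_mul]
      rw [this]
      exact pn_splits one_pos one_pos _
    · have : (0 : ℝ) ≤ k := Nat.cast_nonneg k
      linarith
    · have : s = r := by linarith
      rw [this, Real.rpow_natCast]
      simp only [mul_one]
      exact tendsto_const_nhds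
  · have hmem : σ ∈ Ioo (0:ℝ) 1 := ⟨h2, h1⟩
    refine ⟨r, hN σ, fun N => ?_, fun N k => ⟨hN_pos hmem N k, hN_le hmem N k⟩, fun k => ?_⟩
    · rw [T_theta]
      apply splits_theta
      obtain ⟨d, hd, _⟩ := pn_mult (b := 1) (b' := 1) one_pos one_pos (n := N + 10000) (by omega)
        (dom3 (by omega)) (gN_NB hmem N) (L := LN σ N + lo N) (by linarith [lo_pos N]) (h := hN σ N)
        (fun k => rfl) (fun k => hN_pos hmem N k)
      exact hd.splits
    · have h3 := (hN_tendsto hmem k).const_mul ((k : ℝ) ^ r)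
      have h4 : (k : ℝ) ^ r * (k : ℝ) ^ σ = (k : ℝ) ^ s := by
        rcases Nat.eq_zero_or_pos k with rfl | hk
        · rw [Nat.cast_zero, Real.zero_rpow h2.ne', Real.zero_rpow hs.ne', mul_zero]
        · have hk0 : (0 : ℝ) < k := by exact_mod_cast hk
          rw [← Real.rpow_natCast, ← Real.rpow_add hk0, hσ]
          congr 1; ring
      rwa [h4] at h3

/-- approximating polynomials of `∑ k^s x^k / (k!)^3` -/
theorem lp3 {s : ℝ} (hs : 0 < s) : ∃ (p : ℕ → ℝ[X]) (B : ℕ → ℝ), (∀ N, (p N).Splits ∧ (p N).coeff 1 ≠ 0) ∧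
    (∀ k, Tendsto (fun N => (p N).coeff k) atTop (𝓝 ((k : ℝ) ^ s / (k.factorial : ℝ) ^ 3))) ∧
    (∀ r : ℝ, 0 ≤ r → Summable fun k => B k * r ^ k) ∧ ∀ N k, |(p N).coeff k| ≤ B k := by
  obtain ⟨r, h, h1, h2, h3⟩ := mult_exists hs
  refine ⟨fun N => T (fun k => (k : ℝ) ^ r * h N k) (pn 1 1 (N + 10000)),
    fun k => ((r + 1).factorial : ℝ) * Real.exp (k + 1) / k.factorial, fun N => ⟨h1 N, ?_⟩,
    ?_, ?_, ?_⟩
  · intro h5
    rw [T_coeff] at h5
    have h6 := (h2 N 1).1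
    have h7 : (pn 1 1 (N + 10000)).coeff 1 = 1 := (p3_vals (by omega)).2.1
    rw [h7] at h5
    simp at h5
    exact h6.ne' h5
  · intro k
    have h4 := (h3 k).mul ((tendsto_add_atTop_iff_nat 10000).2 (pn_coeff_tendsto 1 1 k))
    have h5 : (k : ℝ) ^ s * (1 / (k.factorial * poch 1 k * poch 1 k)) =
        (k : ℝ) ^ s / (k.factorial : ℝ) ^ 3 := by
      rw [poch_one]; ring
    rw [h5] at h4
    refine h4.congr fun N => ?_
    rw [T_coeff]
  · intro ρ hρ
    have h4 := (Real.summable_pow_div_factorial (Real.exp 1 * ρ)).mul_left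
      (((r + 1).factorial : ℝ) * Real.exp 1)
    refine h4.congr fun k => ?_
    have h5 : Real.exp ((k : ℝ) + 1) = (Real.exp 1) ^ k * Real.exp 1 := by
      rw [Real.exp_add, ← Real.exp_nat_mul, mul_one]
    simp only [h5]
    rw [mul_pow]
    ring
  · intro N k
    rw [T_coeff]
    obtain ⟨h4, h5⟩ := h2 N k
    have h6 := p3_pos (N + 10000) k
    have h7 := p3_le_fact (N + 10000) k
    have hk : (0 : ℝ) ≤ k := Nat.cast_nonneg k
    rw [abs_of_nonneg (by positivity)]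
    have h8 : (k : ℝ) ^ r * h N k ≤ ((r + 1).factorial : ℝ) * Real.exp (k + 1) := by
      have h9 : (k : ℝ) ^ r * h N k ≤ ((k : ℝ) + 1) ^ r * (k + 1) :=
        mul_le_mul (pow_le_pow_left₀ hk (by linarith) r) h5 h4.le (by positivity)
      rw [← pow_succ] at h9
      refine h9.trans ?_
      have h10 := Real.pow_div_factorial_le_exp ((k : ℝ) + 1) (by positivity) (r + 1)
      rw [div_le_iff₀ (by positivity)] at h10
      linarith
    calc (k : ℝ) ^ r * h N k * (pn 1 1 (N + 10000)).coeff k ≤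
        ((r + 1).factorial : ℝ) * Real.exp (k + 1) * (1 / k.factorial) :=
          mul_le_mul h8 h7 h6 (by positivity)
      _ = _ := by ring

lemma T_fact_splits {W : ℝ[X]} (hW : W.Splits) (j : ℕ) :
    (T (fun k => 1 / (k.factorial : ℝ) ^ j) W).Splits := by
  induction j with
  | zero =>
    have : T (fun k => 1 / (k.factorial : ℝ) ^ 0) W = W := by
      ext k; rw [T_coeff]; simp
    rw [this]; exact hW
  | succ j ih =>
    have : T (fun k => 1 / (k.factorial : ℝ) ^ (j + 1)) W =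
        T (fun k => 1 / (k.factorial : ℝ)) (T (fun k => 1 / (k.factorial : ℝ) ^ j) W) := by
      ext k; rw [T_coeff, T_coeff, T_coeff, pow_succ]
      have : (k.factorial : ℝ) ≠ 0 := by positivity
      field_simp
    rw [this]
    exact ms_of_limit (q := fun N => jn 1 N) (γ := fun k => 1 / (k.factorial : ℝ)) (by
      filter_upwards [eventually_gt_atTop 0] with N hN z hz
      obtain ⟨c, hc, hc0⟩ := jn_fac one_pos hN
      obtain ⟨i, hi, hzi⟩ := hc.zeros hz
      rw [hzi]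
      exact ⟨Complex.ofReal_im _, by rw [Complex.ofReal_re]; exact (hc0 i hi).le⟩) (by
      intro k
      have h1 := jn_coeff_tendsto 1 k
      have h2 : jc 1 k = 1 / (k.factorial : ℝ) / (k.factorial : ℝ) := by
        rw [jc, poch_one, div_div]
      rwa [h2] at h1) ih

/-- approximating polynomials of `∑ k^s x^k / (k!)^m`, `m ≥ 3` -/
theorem lpm {s : ℝ} (hs : 0 < s) {m : ℕ} (hm : 3 ≤ m) :
    ∃ p : ℕ → ℝ[X], (∀ N, (p N).Splits ∧ p N ≠ 0) ∧
    (∀ k, Tendsto (fun N => (p N).coeff k) atTop (𝓝 ((k : ℝ) ^ s / (k.factorial : ℝ) ^ m))) ∧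
    TendstoLocallyUniformlyOn (fun N (z : ℂ) => aeval z (p N))
      (fun z : ℂ => ∑' k : ℕ, (((k : ℝ) ^ s / (k.factorial : ℝ) ^ m : ℝ) : ℂ) * z ^ k) atTop univ := by
  obtain ⟨j, rfl⟩ : ∃ j, m = 3 + j := ⟨m - 3, by omega⟩
  obtain ⟨p, B, h1, h2, h3, h4⟩ := lp3 hs
  have hco : ∀ k, Tendsto (fun N => (T (fun k => 1 / (k.factorial : ℝ) ^ j) (p N)).coeff k) atTop
      (𝓝 ((k : ℝ) ^ s / (k.factorial : ℝ) ^ (3 + j))) := by
    intro k
    have h5 := (h2 k).const_mul (1 / (k.factorial : ℝ) ^ j)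
    have h6 : 1 / (k.factorial : ℝ) ^ j * ((k : ℝ) ^ s / (k.factorial : ℝ) ^ 3) =
        (k : ℝ) ^ s / (k.factorial : ℝ) ^ (3 + j) := by
      rw [pow_add]
      have : (k.factorial : ℝ) ≠ 0 := by positivity
      field_simp
    rw [h6] at h5
    refine h5.congr fun N => ?_
    rw [T_coeff]
  refine ⟨fun N => T (fun k => 1 / (k.factorial : ℝ) ^ j) (p N), fun N => ⟨T_fact_splits (h1 N).1 j, ?_⟩,
    hco, tlu_poly h3 ?_ hco⟩
  · intro h5
    have h6 := congrArg (fun q => q.coeff 1) h5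
    simp only [T_coeff, coeff_zero] at h6
    norm_num at h6
    exact (h1 N).2 h6
  · intro N k
    rw [T_coeff, abs_mul]
    have h5 : |1 / (k.factorial : ℝ) ^ j| ≤ 1 := by
      rw [abs_of_nonneg (by positivity)]
      have h6 : (1 : ℝ) ≤ k.factorial := by
        exact_mod_cast Nat.one_le_iff_ne_zero.2 (Nat.factorial_ne_zero k)
      rw [div_le_one (by positivity)]
      exact one_le_pow₀ h6
    calc |1 / (k.factorial : ℝ) ^ j| * |(p N).coeff k| ≤ 1 * |(p N).coeff k| :=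
          mul_le_mul_of_nonneg_right h5 (abs_nonneg _)
      _ ≤ B k := by rw [one_mul]; exact h4 N k

end Pool.Agent.R259
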