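import Mathlib

set_option autoImplicit false

namespace Pool.Agent.R259.Rom

open MeasureTheory Set Filter Topology Complex AddCircle

/-- Expansion of an even function on `[-1,1]` vanishing at `1` into the odd harmonics of
period `4`. -/
lemma antiperiodic_expansion (Ψ : ℝ → ℝ) (hc : Continuous Ψ) (heven : ∀ x, Ψ (-x) = Ψ x)
    (h1 : Ψ 1 = 0) (b : ℤ → ℝ)
    (hb : ∀ n : ℤ, b n = ∫ x in (0 : ℝ)..1, Ψ x * Real.cos (Real.pi * ((n : ℝ) - 1 / 2) * x))
    (hs : Summable b) (x : ℝ) (hx : x ∈ Icc (-1 : ℝ) 1) :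
    HasSum (fun n : ℤ => (b n : ℂ) * cexp (I * ((Real.pi * ((n : ℝ) - 1 / 2) : ℝ) : ℂ) * x))
      (Ψ x : ℂ) := by
  have : Fact (0 < (2 : ℝ)) := ⟨two_pos⟩
  set F : ℝ → ℂ := fun x => cexp (I * (Real.pi / 2 : ℝ) * x) * (Ψ x : ℂ) with hF
  have hFc : Continuous F := by
    rw [hF]
    exact (Complex.continuous_exp.comp (by fun_prop)).mul (continuous_ofReal.comp hc)
  have hFm1 : F (-1) = 0 := by
    simp only [hF]; rw [heven 1, h1]; simp
  have hF1 : F 1 = 0 := by
    simp only [hF]; rw [h1]; simp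
  have hcont : Continuous (liftIco (2 : ℝ) (-1) F) := by
    apply liftIco_continuous
    · rw [hFm1, show (-1 : ℝ) + 2 = 1 by norm_num, hF1]
    · exact hFc.continuousOn
  let G : C(AddCircle (2 : ℝ), ℂ) := ⟨liftIco (2 : ℝ) (-1) F, hcont⟩
  have hcoef : ∀ n : ℤ, fourierCoeff G n = (b n : ℂ) := by
    intro n
    have h0 : fourierCoeff G n = fourierCoeff (liftIco (2 : ℝ) (-1) F) n := rfl
    rw [h0, fourierCoeff_liftIco_eq, fourierCoeffOn_eq_integral]
    have e1 : (-1 : ℝ) + 2 - -1 = 2 := by norm_num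
    have e2 : (-1 : ℝ) + 2 = 1 := by norm_num
    have hint : ∀ x : ℝ, (fourier (-n)) ((x : ℝ) : AddCircle ((-1 : ℝ) + 2 - -1)) • F x =
        cexp (-(I * ((Real.pi * ((n : ℝ) - 1 / 2) : ℝ) : ℂ) * x)) * (Ψ x : ℂ) := by
      intro x
      rw [fourier_coe_apply, smul_eq_mul]
      simp only [hF]
      rw [← mul_assoc, ← Complex.exp_add, e1]
      congr 2
      push_cast
      ring
    simp_rw [hint]
    rw [e1, e2]
    have hI : ∀ a c : ℝ, IntervalIntegrable (fun x : ℝ =>
        cexp (-(I * ((Real.pi * ((n : ℝ) - 1 / 2) : ℝ) : ℂ) * x)) * (Ψ x : ℂ)) volume a c := by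
      intro a c
      apply Continuous.intervalIntegrable
      exact (Complex.continuous_exp.comp (by fun_prop)).mul (continuous_ofReal.comp hc)
    rw [← intervalIntegral.integral_add_adjacent_intervals (hI (-1) 0) (hI 0 1)]
    have hneg : ∫ x in (-1 : ℝ)..0,
        cexp (-(I * ((Real.pi * ((n : ℝ) - 1 / 2) : ℝ) : ℂ) * x)) * (Ψ x : ℂ) =
        ∫ x in (0 : ℝ)..1,
        cexp (I * ((Real.pi * ((n : ℝ) - 1 / 2) : ℝ) : ℂ) * x) * (Ψ x : ℂ) := by
      have := intervalIntegral.integral_comp_neg (a := 0) (b := 1) (fun x : ℝ =>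
        cexp (-(I * ((Real.pi * ((n : ℝ) - 1 / 2) : ℝ) : ℂ) * x)) * (Ψ x : ℂ))
      rw [neg_zero] at this
      rw [← this]
      apply intervalIntegral.integral_congr
      intro x _
      simp only
      rw [heven]
      congr 2
      push_cast
      ring
    rw [hneg, ← intervalIntegral.integral_add]
    · have e3 : ∀ x : ℝ, cexp (I * ((Real.pi * ((n : ℝ) - 1 / 2) : ℝ) : ℂ) * x) * (Ψ x : ℂ) +
          cexp (-(I * ((Real.pi * ((n : ℝ) - 1 / 2) : ℝ) : ℂ) * x)) * (Ψ x : ℂ) =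
          ((2 * (Ψ x * Real.cos (Real.pi * ((n : ℝ) - 1 / 2) * x)) : ℝ) : ℂ) := by
        intro x
        rw [← add_mul]
        have : cexp (I * ((Real.pi * ((n : ℝ) - 1 / 2) : ℝ) : ℂ) * x) +
            cexp (-(I * ((Real.pi * ((n : ℝ) - 1 / 2) : ℝ) : ℂ) * x)) =
            2 * Complex.cos ((Real.pi * ((n : ℝ) - 1 / 2) * x : ℝ) : ℂ) := by
          rw [Complex.cos]
          push_cast
          ring_nf
        rw [this, ← Complex.ofReal_cos]
        push_cast
        ring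
      simp_rw [e3]
      rw [intervalIntegral.integral_ofReal, intervalIntegral.integral_const_mul, ← hb n]
      rw [Complex.real_smul]
      push_cast
      ring
    · apply Continuous.intervalIntegrable
      exact (Complex.continuous_exp.comp (by fun_prop)).mul (continuous_ofReal.comp hc)
    · exact hI 0 1
  have hsum : Summable (fourierCoeff G) := by
    have : fourierCoeff G = fun n => ((b n : ℝ) : ℂ) := funext hcoef
    rw [this]
    exact Complex.ofRealCLM.summable hs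
  have hG : ∀ x ∈ Icc (-1 : ℝ) 1, G ((x : ℝ) : AddCircle (2 : ℝ)) = F x := by
    intro x hx
    rcases eq_or_lt_of_le hx.2 with h | h
    · have e : ((x : ℝ) : AddCircle (2 : ℝ)) = ((-1 : ℝ) : AddCircle (2 : ℝ)) := by
        rw [h]
        have := AddCircle.coe_add_period (2 : ℝ) (-1)
        rw [← this]
        norm_num
      rw [e, h, hF1, ← hFm1]
      show liftIco (2 : ℝ) (-1) F ((-1 : ℝ) : AddCircle (2 : ℝ)) = F (-1)
      rw [liftIco_coe_apply]
      constructor <;> norm_num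
    · show liftIco (2 : ℝ) (-1) F ((x : ℝ) : AddCircle (2 : ℝ)) = F x
      rw [liftIco_coe_apply]
      exact ⟨hx.1, by linarith⟩
  have hmain := has_pointwise_sum_fourier_series_of_summable hsum ((x : ℝ) : AddCircle (2 : ℝ))
  rw [hG x hx] at hmain
  have h2 := hmain.mul_left (cexp (-(I * (Real.pi / 2 : ℝ) * x)))
  have e4 : cexp (-(I * (Real.pi / 2 : ℝ) * x)) * F x = (Ψ x : ℂ) := by
    simp only [hF]
    rw [← mul_assoc, ← Complex.exp_add]
    simp
  rw [e4] at h2
  have e5 : (fun n : ℤ => (b n : ℂ) * cexp (I * ((Real.pi * ((n : ℝ) - 1 / 2) : ℝ) : ℂ) * x)) =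
      fun n : ℤ => cexp (-(I * (Real.pi / 2 : ℝ) * x)) *
        (fourierCoeff G n • (fourier n) ((x : ℝ) : AddCircle (2 : ℝ))) := by
    ext n
    rw [hcoef, fourier_coe_apply, smul_eq_mul]
    have e6 : cexp (-(I * (Real.pi / 2 : ℝ) * x)) * (((b n : ℝ) : ℂ) *
        cexp (2 * Real.pi * I * n * x / (2 : ℝ))) =
        ((b n : ℝ) : ℂ) * (cexp (-(I * (Real.pi / 2 : ℝ) * x)) *
        cexp (2 * Real.pi * I * n * x / (2 : ℝ))) := by ring
    rw [e6, ← Complex.exp_add]
    congr 2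
    push_cast
    ring
  rw [e5]
  exact h2

end Pool.Agent.R259.Rom
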