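import Mathlib

set_option autoImplicit false

namespace Pool.Agent.R259.Rom

open MeasureTheory Set Filter Topology

/-- `J s b = ∫_0^b t^{-s} cos t dt` -/
noncomputable def J (s b : ℝ) : ℝ := ∫ t in (0 : ℝ)..b, t ^ (-s) * Real.cos t

lemma J_int {s : ℝ} (hs : s < 1) (a b : ℝ) :
    IntervalIntegrable (fun t : ℝ => t ^ (-s) * Real.cos t) volume a b := by
  apply IntervalIntegrable.mul_continuousOn
  · exact intervalIntegral.intervalIntegrable_rpow' (by linarith)
  · exact Real.continuous_cos.continuousOn

/-- endpoints -/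
noncomputable def om (j : ℕ) : ℝ := Real.pi / 2 + j * Real.pi

lemma om_pos (j : ℕ) : 0 < om j := by
  unfold om; have := Real.pi_pos; positivity

lemma om_ge (j : ℕ) : (j : ℝ) + 1 ≤ om j := by
  unfold om
  have h := Real.pi_gt_three
  have hj : (0 : ℝ) ≤ j := by positivity
  nlinarith

lemma om_one_le (j : ℕ) : 1 ≤ om j := by
  have := om_ge j
  have hj : (0 : ℝ) ≤ j := by positivity
  linarith

lemma cos_om (j : ℕ) : Real.cos (om j) = 0 := by
  unfold om
  rw [Real.cos_add_nat_mul_pi, Real.cos_pi_div_two, mul_zero]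

lemma sin_om (j : ℕ) : Real.sin (om j) = (-1) ^ j := by
  unfold om
  rw [Real.sin_add_nat_mul_pi, Real.sin_pi_div_two, mul_one]

/-- half-wave areas -/
noncomputable def c (s : ℝ) (j : ℕ) : ℝ :=
  ∫ t in (0 : ℝ)..Real.pi, (t + om j) ^ (-s) * Real.sin t

lemma c_cont (s : ℝ) (j : ℕ) :
    ContinuousOn (fun t : ℝ => (t + om j) ^ (-s) * Real.sin t) (Icc 0 Real.pi) := by
  apply ContinuousOn.mul _ Real.continuous_sin.continuousOn
  apply ContinuousOn.rpow_const (by fun_prop)
  intro x hx
  left
  have := om_pos j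
  have := hx.1
  linarith

lemma c_int (s : ℝ) (j : ℕ) :
    IntervalIntegrable (fun t : ℝ => (t + om j) ^ (-s) * Real.sin t) volume 0 Real.pi := by
  apply ContinuousOn.intervalIntegrable
  rw [uIcc_of_le Real.pi_pos.le]
  exact c_cont s j

lemma J_step {s : ℝ} (hs : s < 1) (j : ℕ) :
    J s (om (j + 1)) = J s (om j) - (-1) ^ j * c s j := by
  have h1 : J s (om (j + 1)) = J s (om j) + ∫ t in (om j)..(om (j + 1)), t ^ (-s) * Real.cos t := by
    unfold J
    rw [intervalIntegral.integral_add_adjacent_intervals (J_int hs _ _) (J_int hs _ _)]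
  have h2 : ∫ t in (om j)..(om (j + 1)), t ^ (-s) * Real.cos t = - ((-1) ^ j * c s j) := by
    have h3 := intervalIntegral.integral_comp_add_right (a := 0) (b := Real.pi)
      (fun t : ℝ => t ^ (-s) * Real.cos t) (om j)
    have e1 : (0 : ℝ) + om j = om j := zero_add _
    have e2 : Real.pi + om j = om (j + 1) := by unfold om; push_cast; ring
    rw [e1, e2] at h3
    rw [← h3]
    unfold c
    rw [← intervalIntegral.integral_const_mul, ← intervalIntegral.integral_neg]
    apply intervalIntegral.integral_congr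
    intro t _
    simp only
    have : Real.cos (t + om j) = - ((-1) ^ j * Real.sin t) := by
      have e : t + om j = (t + Real.pi / 2) + j * Real.pi := by unfold om; ring
      rw [e, Real.cos_add_nat_mul_pi, Real.cos_add_pi_div_two]; ring
    rw [this]; ring
  rw [h1, h2]; ring

lemma c_nonneg {s : ℝ} (j : ℕ) : 0 ≤ c s j := by
  unfold c
  apply intervalIntegral.integral_nonneg Real.pi_pos.le
  intro t ht
  apply mul_nonneg
  · apply Real.rpow_nonneg
    have := om_pos j
    linarith [ht.1]
  · exact Real.sin_nonneg_of_nonneg_of_le_pi ht.1 ht.2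

lemma c_anti {s : ℝ} (hs : 0 ≤ s) (j : ℕ) : c s (j + 1) ≤ c s j := by
  unfold c
  apply intervalIntegral.integral_mono_on Real.pi_pos.le (c_int s _) (c_int s _)
  intro t ht
  apply mul_le_mul_of_nonneg_right _ (Real.sin_nonneg_of_nonneg_of_le_pi ht.1 ht.2)
  have := om_pos j
  have h2 : om (j + 1) = om j + Real.pi := by unfold om; push_cast; ring
  have h3 := Real.pi_pos
  apply Real.rpow_le_rpow_of_nonpos (by linarith [ht.1]) (by linarith) (by linarith)

lemma c_strict {s : ℝ} (hs : 0 < s) (j : ℕ) : c s (j + 1) < c s j := by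
  rw [← sub_pos]
  unfold c
  rw [← intervalIntegral.integral_sub (c_int s _) (c_int s _)]
  apply intervalIntegral.intervalIntegral_pos_of_pos_on ((c_int s _).sub (c_int s _)) _ Real.pi_pos
  intro t ht
  have h1 := Real.sin_pos_of_pos_of_lt_pi ht.1 ht.2
  have := om_pos j
  have h2 : om (j + 1) = om j + Real.pi := by unfold om; push_cast; ring
  have h3 := Real.pi_pos
  have h4 : (t + om (j + 1)) ^ (-s) < (t + om j) ^ (-s) := by
    apply Real.rpow_lt_rpow_of_neg (by linarith [ht.1]) (by linarith) (by linarith)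
  have h5 := mul_lt_mul_of_pos_right h4 h1
  linarith

lemma K_odd {s : ℝ} (h0 : 0 ≤ s) (hs : s < 1) (i : ℕ) :
    J s (om 3) ≤ J s (om (2 * i + 3)) := by
  induction i with
  | zero => exact le_rfl
  | succ i ih =>
    have h1 := J_step hs (2 * i + 3)
    have h2 := J_step hs (2 * i + 4)
    have e1 : ((-1 : ℝ)) ^ (2 * i + 3) = -1 := by
      rw [pow_add, pow_mul]; norm_num
    have e2 : ((-1 : ℝ)) ^ (2 * i + 4) = 1 := by
      rw [pow_add, pow_mul]; norm_num
    rw [e1] at h1
    rw [e2] at h2
    have h3 := c_anti h0 (2 * i + 3)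
    have e3 : 2 * (i + 1) + 3 = 2 * i + 4 + 1 := by ring
    rw [e3]
    have e4 : 2 * i + 3 + 1 = 2 * i + 4 := by ring
    rw [e4] at h1 h3
    linarith

lemma K_ge {s : ℝ} (h0 : 0 ≤ s) (hs : s < 1) (j : ℕ) (hj : j ≠ 1) :
    J s (om 3) ≤ J s (om j) := by
  have hev : ∀ i, J s (om 3) ≤ J s (om (2 * i + 2)) := by
    intro i
    have h1 := K_odd h0 hs i
    have h2 := J_step hs (2 * i + 2)
    have e2 : ((-1 : ℝ)) ^ (2 * i + 2) = 1 := by
      rw [pow_add, pow_mul]; norm_num
    rw [e2] at h2
    have h3 := c_nonneg (s := s) (2 * i + 2)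
    have e3 : 2 * i + 2 + 1 = 2 * i + 3 := by ring
    rw [e3] at h2
    linarith
  rcases Nat.even_or_odd' j with ⟨i, hi | hi⟩
  · match i, hi with
    | 0, hi =>
      rw [hi]
      have h1 := J_step hs 0
      have h2 := J_step hs 1
      have h3 := c_anti h0 0
      have h4 := hev 0
      simp only [pow_zero, pow_one, zero_add, mul_zero] at *
      linarith
    | (i + 1), hi =>
      rw [hi, show 2 * (i + 1) = 2 * i + 2 by ring]
      exact hev i
  · match i, hi with
    | 0, hi => exact absurd (by omega) hj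
    | (i + 1), hi =>
      rw [hi, show 2 * (i + 1) + 1 = 2 * i + 3 by ring]
      exact K_odd h0 hs i

/-- upper bound -/
lemma K_le {s : ℝ} (h0 : 0 ≤ s) (hs : s < 1) (j : ℕ) : J s (om j) ≤ J s (om 0) := by
  have hev : ∀ i, J s (om (2 * i)) ≤ J s (om 0) := by
    intro i
    induction i with
    | zero => exact le_rfl
    | succ i ih =>
      have h1 := J_step hs (2 * i)
      have h2 := J_step hs (2 * i + 1)
      have e1 : ((-1 : ℝ)) ^ (2 * i) = 1 := by rw [pow_mul]; norm_num
      have e2 : ((-1 : ℝ)) ^ (2 * i + 1) = -1 := by rw [pow_add, pow_mul]; norm_num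
      rw [e1] at h1
      rw [e2] at h2
      have h3 := c_anti h0 (2 * i)
      have e3 : 2 * (i + 1) = 2 * i + 1 + 1 := by ring
      rw [e3]
      linarith
  rcases Nat.even_or_odd' j with ⟨i, hi | hi⟩
  · rw [hi]; exact hev i
  · rw [hi]
    have h1 := J_step hs (2 * i)
    have e1 : ((-1 : ℝ)) ^ (2 * i) = 1 := by rw [pow_mul]; norm_num
    rw [e1] at h1
    have h3 := c_nonneg (s := s) (2 * i)
    have := hev i
    linarith

/-- continuity in the exponent -/
lemma J_continuousAt {b s0 : ℝ} (hb : 0 ≤ b) (h1 : s0 < 1) :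
    ContinuousAt (fun s => J s b) s0 := by
  unfold J
  obtain ⟨s1, hs1, hs1'⟩ := exists_between h1
  apply intervalIntegral.continuousAt_of_dominated_interval
    (bound := fun t : ℝ => t ^ (-s1) + t ^ (-(s0 - 1)))
  · have : ∀ᶠ s in 𝓝 s0, s < 1 := eventually_lt_nhds h1
    filter_upwards [this] with s hs
    exact (J_int hs 0 b).def'.aestronglyMeasurable
  · have hA : ∀ᶠ s in 𝓝 s0, s < s1 := eventually_lt_nhds hs1
    have hB : ∀ᶠ s in 𝓝 s0, s0 - 1 < s := eventually_gt_nhds (by linarith)
    filter_upwards [hA, hB] with s hs hs'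
    refine Eventually.of_forall fun t ht => ?_
    rw [uIoc_of_le hb] at ht
    have ht0 : 0 < t := ht.1
    rw [norm_mul, Real.norm_of_nonneg (Real.rpow_nonneg ht0.le _)]
    have h3 : ‖Real.cos t‖ ≤ 1 := Real.abs_cos_le_one t
    have h4 : t ^ (-s) * ‖Real.cos t‖ ≤ t ^ (-s) :=
      mul_le_of_le_one_right (Real.rpow_nonneg ht0.le _) h3
    refine h4.trans ?_
    rcases le_total t 1 with h | h
    · have := Real.rpow_le_rpow_of_exponent_ge ht0 h (show -s1 ≤ -s by linarith)
      have h5 := Real.rpow_nonneg ht0.le (-(s0 - 1))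
      linarith
    · have := Real.rpow_le_rpow_of_exponent_le h (show -s ≤ -(s0 - 1) by linarith)
      have h5 := Real.rpow_nonneg ht0.le (-s1)
      linarith
  · exact (intervalIntegral.intervalIntegrable_rpow' (by linarith)).add
      (intervalIntegral.intervalIntegrable_rpow' (by linarith))
  · refine Eventually.of_forall fun t ht => ?_
    rw [uIoc_of_le hb] at ht
    have ht0 : 0 < t := ht.1
    apply ContinuousAt.mul _ continuousAt_const
    exact ContinuousAt.rpow continuousAt_const (continuousAt_neg) (Or.inl ht0.ne')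

/-! ### coefficient formulas -/

lemma coef_A {α ω : ℝ} (h1 : 1 < α) (hω : 0 < ω) (hcos : Real.cos ω = 0) :
    ∫ x in (0 : ℝ)..1, (1 - x ^ α) * Real.cos (ω * x) =
      α * (α - 1) * ω ^ (-1 - α) * J (2 - α) ω := by
  -- first integration by parts
  have hI1 : ∫ x in (0 : ℝ)..1, (1 - x ^ α) * Real.cos (ω * x) =
      (α / ω) * ∫ x in (0 : ℝ)..1, x ^ (α - 1) * Real.sin (ω * x) := by
    have h := intervalIntegral.integral_mul_deriv_eq_deriv_mul (a := 0) (b := 1)
      (u := fun x : ℝ => 1 - x ^ α) (v := fun x : ℝ => Real.sin (ω * x) / ω)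
      (u' := fun x : ℝ => -(α * x ^ (α - 1))) (v' := fun x : ℝ => Real.cos (ω * x))
      (fun x _ => by
        have := (Real.hasDerivAt_rpow_const (x := x) (p := α) (Or.inr h1.le)).const_sub 1
        exact this)
      (fun x _ => by
        have h := ((hasDerivAt_id x).const_mul ω).sin.div_const ω
        convert! h using 1
        simp only [id_eq, mul_one]
        field_simp)
      (by
        apply ContinuousOn.intervalIntegrable
        apply ContinuousOn.neg
        apply ContinuousOn.mul continuousOn_const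
        apply ContinuousOn.rpow_const continuousOn_id
        intro x _; right; linarith)
      (by
        apply Continuous.intervalIntegrable
        fun_prop)
    rw [h]
    simp only [Real.one_rpow, sub_self, zero_mul, mul_zero, Real.sin_zero, zero_div, zero_sub]
    rw [← intervalIntegral.integral_const_mul, ← intervalIntegral.integral_neg]
    apply intervalIntegral.integral_congr
    intro x _
    simp only
    field_simp
  have hI2 : ∫ x in (0 : ℝ)..1, x ^ (α - 1) * Real.sin (ω * x) =
      ((α - 1) / ω) * ∫ x in (0 : ℝ)..1, x ^ (α - 2) * Real.cos (ω * x) := by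
    have h := intervalIntegral.integral_mul_deriv_eq_deriv_mul_of_hasDerivAt (a := 0) (b := 1)
      (u := fun x : ℝ => x ^ (α - 1)) (v := fun x : ℝ => -Real.cos (ω * x) / ω)
      (u' := fun x : ℝ => (α - 1) * x ^ (α - 2)) (v' := fun x : ℝ => Real.sin (ω * x))
      (by
        apply ContinuousOn.rpow_const continuousOn_id
        intro x _; right; linarith)
      (by fun_prop)
      (fun x hx => by
        rw [min_eq_left zero_le_one, max_eq_right zero_le_one] at hx
        have := Real.hasDerivAt_rpow_const (x := x) (p := α - 1) (Or.inl hx.1.ne')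
        convert! this using 3
        ring)
      (fun x _ => by
        have h := (((hasDerivAt_id x).const_mul ω).cos.neg).div_const ω
        convert! h using 1
        simp only [id_eq, mul_one]
        field_simp)
      (by
        apply IntervalIntegrable.const_mul
        exact intervalIntegral.intervalIntegrable_rpow' (by linarith))
      (by
        apply Continuous.intervalIntegrable
        fun_prop)
    rw [h]
    have e0 : (0 : ℝ) ^ (α - 1) = 0 := Real.zero_rpow (by linarith)
    simp only [Real.one_rpow, e0, mul_one, hcos, neg_zero, zero_div, mul_zero, zero_mul,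
      sub_zero, zero_sub]
    rw [← intervalIntegral.integral_const_mul, ← intervalIntegral.integral_neg]
    apply intervalIntegral.integral_congr
    intro x _
    simp only
    field_simp
  have hI3 : ∫ x in (0 : ℝ)..1, x ^ (α - 2) * Real.cos (ω * x) = ω ^ (1 - α) * J (2 - α) ω := by
    have h := intervalIntegral.integral_comp_mul_left (a := 0) (b := 1)
      (fun t : ℝ => (t / ω) ^ (α - 2) * Real.cos t) hω.ne'
    have e1 : ∫ x in (0 : ℝ)..1, x ^ (α - 2) * Real.cos (ω * x) =
        ∫ x in (0 : ℝ)..1, (ω * x / ω) ^ (α - 2) * Real.cos (ω * x) := by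
      apply intervalIntegral.integral_congr
      intro x _
      simp only
      rw [mul_div_cancel_left₀ x hω.ne']
    rw [e1, h]
    simp only [mul_zero, mul_one, smul_eq_mul]
    have e2 : ∫ x in (0 : ℝ)..ω, (x / ω) ^ (α - 2) * Real.cos x =
        ω ^ (2 - α) * J (2 - α) ω := by
      unfold J
      rw [← intervalIntegral.integral_const_mul]
      apply intervalIntegral.integral_congr
      intro x hx
      rw [uIcc_of_le hω.le] at hx
      simp only
      rw [Real.div_rpow hx.1 hω.le]
      have e3 : ω ^ (2 - α) = (ω ^ (α - 2))⁻¹ := by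
        rw [← Real.rpow_neg hω.le]; congr 1; ring
      rw [e3, show -(2 - α) = α - 2 by ring]
      ring
    rw [e2, ← mul_assoc]
    congr 1
    rw [show (1 : ℝ) - α = (2 - α) - 1 by ring, Real.rpow_sub_one hω.ne']
    field_simp
  rw [hI1, hI2, hI3]
  have e : ω ^ (1 - α) = ω ^ (-1 - α) * ω ^ 2 := by
    rw [← Real.rpow_natCast, ← Real.rpow_add hω]
    congr 1; push_cast; ring
  rw [e]
  field_simp

lemma coef_T {ω : ℝ} (hω : 0 < ω) (hne : ω ≠ 3 * Real.pi) :
    ∫ x in (0 : ℝ)..1, (1 + Real.cos (3 * Real.pi * x)) * Real.cos (ω * x) =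
      Real.sin ω * (9 * Real.pi ^ 2) / (ω * (9 * Real.pi ^ 2 - ω ^ 2)) := by
  have hpi := Real.pi_pos
  have h1 : 3 * Real.pi + ω ≠ 0 := by positivity
  have h2 : 3 * Real.pi - ω ≠ 0 := sub_ne_zero.2 (Ne.symm hne)
  have hF : ∀ x ∈ uIcc (0 : ℝ) 1, HasDerivAt (fun x : ℝ => Real.sin (ω * x) / ω +
      (Real.sin ((3 * Real.pi + ω) * x) / (3 * Real.pi + ω) +
        Real.sin ((3 * Real.pi - ω) * x) / (3 * Real.pi - ω)) / 2)
      ((1 + Real.cos (3 * Real.pi * x)) * Real.cos (ω * x)) x := by
    intro x _
    have a1 := ((hasDerivAt_id x).const_mul ω).sin.div_const ω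
    have a2 := ((hasDerivAt_id x).const_mul (3 * Real.pi + ω)).sin.div_const (3 * Real.pi + ω)
    have a3 := ((hasDerivAt_id x).const_mul (3 * Real.pi - ω)).sin.div_const (3 * Real.pi - ω)
    have := a1.add ((a2.add a3).div_const 2)
    convert! this using 1
    simp only [id_eq, mul_one]
    rw [mul_div_assoc, mul_div_assoc, mul_div_assoc, div_self hω.ne', div_self h1, div_self h2]
    have e1 : (3 * Real.pi + ω) * x = 3 * Real.pi * x + ω * x := by ring
    have e2 : (3 * Real.pi - ω) * x = 3 * Real.pi * x - ω * x := by ring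
    rw [e1, e2, Real.cos_add, Real.cos_sub]
    ring
  rw [intervalIntegral.integral_eq_sub_of_hasDerivAt hF (by
    apply Continuous.intervalIntegrable; fun_prop)]
  simp only [mul_one, mul_zero, Real.sin_zero, zero_div, add_zero, sub_zero]
  have s3 : Real.sin (3 * Real.pi) = 0 := by
    have := Real.sin_nat_mul_pi 3
    exact_mod_cast this
  have c3 : Real.cos (3 * Real.pi) = -1 := by
    have : (3 : ℝ) * Real.pi = Real.pi + 2 * Real.pi := by ring
    rw [this, Real.cos_add_two_pi, Real.cos_pi]
  rw [Real.sin_add, Real.sin_sub, s3, c3]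
  have h3 : 9 * Real.pi ^ 2 - ω ^ 2 = (3 * Real.pi + ω) * (3 * Real.pi - ω) := by ring
  rw [h3]
  field_simp
  ring

end Pool.Agent.R259.Rom
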