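import Mathlib
import Pool.Agent.R259.Rom1
import Pool.Agent.R259.Rom2

set_option autoImplicit false

namespace Pool.Agent.R259.Rom

open MeasureTheory Set Filter Topology Complex

/-- `φ` is the Fourier transform of a finite nonnegative Borel measure on `ℝ`. -/
def IsPosDef (φ : ℝ → ℂ) : Prop :=
  ∃ μ : Measure ℝ, IsFiniteMeasure μ ∧ ∀ ξ : ℝ, φ ξ = ∫ x : ℝ, cexp (I * ξ * x) ∂μ

lemma exp_cont (ξ : ℝ) : Continuous fun x : ℝ => cexp (I * ξ * x) := by fun_prop

lemma exp_norm (ξ x : ℝ) : ‖cexp (I * ξ * x)‖ = 1 := by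
  have : I * (ξ : ℂ) * x = ((ξ * x : ℝ) : ℂ) * I := by push_cast; ring
  rw [this, Complex.norm_exp_ofReal_mul_I]

lemma exp_integrable (ξ : ℝ) (μ : Measure ℝ) [IsFiniteMeasure μ] :
    Integrable (fun x : ℝ => cexp (I * ξ * x)) μ := by
  refine (integrable_const (1 : ℝ)).mono' (exp_cont ξ).aestronglyMeasurable ?_
  exact Eventually.of_forall fun x => (exp_norm ξ x).le

lemma IsPosDef.add {φ ψ : ℝ → ℂ} (h1 : IsPosDef φ) (h2 : IsPosDef ψ) :
    IsPosDef (fun ξ => φ ξ + ψ ξ) := by
  obtain ⟨μ, hμ, h1⟩ := h1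
  obtain ⟨ν, hν, h2⟩ := h2
  refine ⟨μ + ν, inferInstance, fun ξ => ?_⟩
  show φ ξ + ψ ξ = _
  rw [integral_add_measure (exp_integrable ξ μ) (exp_integrable ξ ν), h1, h2]

lemma isPosDef_exp (w a : ℝ) (hw : 0 ≤ w) : IsPosDef (fun ξ => (w : ℂ) * cexp (I * ξ * a)) := by
  refine ⟨ENNReal.ofReal w • Measure.dirac a, ⟨?_⟩, fun ξ => ?_⟩
  · simp
  · rw [integral_smul_measure, integral_dirac, ENNReal.toReal_ofReal hw, Complex.real_smul]

lemma isPosDef_sum {ι : Type} [Countable ι] (w f : ι → ℝ) (hw : ∀ i, 0 ≤ w i) (hs : Summable w) :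
    IsPosDef (fun ξ => ∑' i, (w i : ℂ) * cexp (I * ξ * (f i))) := by
  set μ : Measure ℝ := Measure.sum fun i => ENNReal.ofReal (w i) • Measure.dirac (f i) with hμ
  have hfin : IsFiniteMeasure μ := by
    constructor
    rw [hμ, Measure.sum_apply _ MeasurableSet.univ]
    simp only [Measure.smul_apply, measure_univ, smul_eq_mul, mul_one]
    rw [← ENNReal.ofReal_tsum_of_nonneg hw hs]
    exact ENNReal.ofReal_lt_top
  refine ⟨μ, hfin, fun ξ => ?_⟩
  have h := hasSum_integral_measure (f := fun x : ℝ => cexp (I * ξ * x)) (μ := fun i =>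
    ENNReal.ofReal (w i) • Measure.dirac (f i)) (exp_integrable ξ μ)
  rw [hμ, ← h.tsum_eq]
  refine tsum_congr fun i => ?_
  rw [integral_smul_measure, integral_dirac, ENNReal.toReal_ofReal (hw i), Complex.real_smul]

/-- the index of the frequency `π (n - 1/2)` -/
def idx (n : ℤ) : ℕ := if 1 ≤ n then (n - 1).toNat else (-n).toNat

lemma cos_idx (n : ℤ) (x : ℝ) :
    Real.cos (Real.pi * ((n : ℝ) - 1 / 2) * x) = Real.cos (om (idx n) * x) := by
  unfold idx om
  split_ifs with h
  · have e : ((n - 1).toNat : ℤ) = n - 1 := Int.toNat_of_nonneg (by omega)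
    have e' : (((n - 1).toNat : ℕ) : ℝ) = (n : ℝ) - 1 := by
      have := congrArg (fun z : ℤ => (z : ℝ)) e
      push_cast at this
      exact this
    rw [e']
    congr 1
    ring
  · have e : ((-n).toNat : ℤ) = -n := Int.toNat_of_nonneg (by omega)
    have e' : (((-n).toNat : ℕ) : ℝ) = -(n : ℝ) := by
      have := congrArg (fun z : ℤ => (z : ℝ)) e
      push_cast at this
      exact this
    rw [e', ← Real.cos_neg]
    congr 1
    ring

lemma summable_idx {β : ℕ → ℝ} (h : Summable β) : Summable fun n : ℤ => β (idx n) := by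
  apply Summable.of_nat_of_neg_add_one
  · rw [← summable_nat_add_iff 1]
    refine h.congr fun n => ?_
    congr 1
    unfold idx
    rw [if_pos (by push_cast; omega)]
    push_cast
    omega
  · have h1 := (summable_nat_add_iff 1).2 h
    refine h1.congr fun n => ?_
    congr 1

/-- **Key construction.** -/
lemma posDef_tau {α : ℝ} (h1 : 1 < α) (h2 : α < 2)
    (hK : 18 * Real.pi * |J (2 - α) (om 1)| ≤ J (2 - α) (om 3)) :
    ∃ φ : ℝ → ℂ, IsPosDef φ ∧ ∀ ξ ∈ Icc (-1 : ℝ) 1, φ ξ = ((1 - |ξ| ^ α : ℝ) : ℂ) := by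
  have hpi := Real.pi_pos
  have hpi3 := Real.pi_gt_three
  set s := 2 - α with hs
  have hs0 : 0 ≤ s := by linarith
  have hs1 : s < 1 := by linarith
  have hαα : 0 < α * (α - 1) := mul_pos (by linarith) (by linarith)
  set κ := α * (α - 1) * (om 1) ^ (-1 - α) * |J s (om 1)| with hκ
  have hκ0 : 0 ≤ κ := by
    have := om_pos 1
    positivity
  set η := 9 * Real.pi / 8 * κ with hη
  have hη0 : 0 ≤ η := by positivity
  set Ψ : ℝ → ℝ := fun x => 1 - |x| ^ α - η * (1 + Real.cos (3 * Real.pi * x)) with hΨ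
  have hΨc : Continuous Ψ := by
    have : Continuous fun x : ℝ => |x| ^ α :=
      continuous_abs.rpow_const fun x => Or.inr (by linarith)
    rw [hΨ]
    fun_prop
  have hΨe : ∀ x, Ψ (-x) = Ψ x := by
    intro x
    simp only [hΨ]
    rw [abs_neg, mul_neg, Real.cos_neg]
  have c3 : Real.cos (3 * Real.pi) = -1 := by
    have : (3 : ℝ) * Real.pi = Real.pi + 2 * Real.pi := by ring
    rw [this, Real.cos_add_two_pi, Real.cos_pi]
  have hΨ1 : Ψ 1 = 0 := by
    simp only [hΨ]
    rw [abs_one, Real.one_rpow, mul_one, c3]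
    ring
  -- the coefficients
  set β : ℕ → ℝ := fun j => ∫ x in (0 : ℝ)..1, Ψ x * Real.cos (om j * x) with hβ
  have hom3 : ∀ j, om j ≠ 3 * Real.pi := by
    intro j h
    have h3 := cos_om j
    rw [h, c3] at h3
    norm_num at h3
  have hβf : ∀ j, β j = α * (α - 1) * (om j) ^ (-1 - α) * J s (om j) -
      η * ((-1) ^ j * (9 * Real.pi ^ 2) / (om j * (9 * Real.pi ^ 2 - om j ^ 2))) := by
    intro j
    have e1 : β j = (∫ x in (0 : ℝ)..1, (1 - x ^ α) * Real.cos (om j * x)) -
        η * ∫ x in (0 : ℝ)..1, (1 + Real.cos (3 * Real.pi * x)) * Real.cos (om j * x) := by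
      rw [← intervalIntegral.integral_const_mul, ← intervalIntegral.integral_sub]
      · simp only [hβ]
        apply intervalIntegral.integral_congr
        intro x hx
        rw [uIcc_of_le zero_le_one] at hx
        simp only [hΨ]
        rw [abs_of_nonneg hx.1]
        ring
      · apply ContinuousOn.intervalIntegrable
        apply ContinuousOn.mul
        · apply ContinuousOn.sub continuousOn_const
          apply ContinuousOn.rpow_const continuousOn_id
          intro x _; right; linarith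
        · fun_prop
      · apply Continuous.intervalIntegrable
        fun_prop
    rw [e1, coef_A h1 (om_pos j) (cos_om j), coef_T (om_pos j) (hom3 j), sin_om]
  -- comparison `ω² ≤ 4 |9π² - ω²|` for `j ≠ 1`
  have hcmp : ∀ j, j ≠ 1 → om j ^ 2 ≤ 4 * |9 * Real.pi ^ 2 - om j ^ 2| := by
    intro j hj
    have e : om j ^ 2 = Real.pi ^ 2 / 4 * (2 * (j : ℝ) + 1) ^ 2 := by unfold om; ring
    have e2 : 9 * Real.pi ^ 2 - om j ^ 2 = Real.pi ^ 2 / 4 * (36 - (2 * (j : ℝ) + 1) ^ 2) := by
      rw [e]; ring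
    rw [e2, e, abs_mul, abs_of_pos (by positivity : 0 < Real.pi ^ 2 / 4)]
    have h5 : (2 * (j : ℝ) + 1) ^ 2 ≤ 4 * |36 - (2 * (j : ℝ) + 1) ^ 2| := by
      rcases Nat.lt_or_ge j 3 with h | h
      · have : j = 0 ∨ j = 2 := by omega
        rcases this with rfl | rfl <;> norm_num
      · have h6 : (3 : ℝ) ≤ j := by exact_mod_cast h
        rw [abs_sub_comm, abs_of_nonneg (by nlinarith)]
        nlinarith
    have := mul_le_mul_of_nonneg_left h5 (by positivity : 0 ≤ Real.pi ^ 2 / 4)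
    linarith
  -- bound of the correction term
  have hT : ∀ j, j ≠ 1 → |(-1) ^ j * (9 * Real.pi ^ 2) / (om j * (9 * Real.pi ^ 2 - om j ^ 2))| ≤
      36 * Real.pi ^ 2 / om j ^ 3 := by
    intro j hj
    have hω := om_pos j
    rw [abs_div, abs_mul ((-1) ^ j) _, abs_mul (om j) _, abs_pow, abs_neg, abs_one, one_pow,
      one_mul, abs_of_pos (by positivity : 0 < 9 * Real.pi ^ 2), abs_of_pos hω]
    have h3 : 0 < |9 * Real.pi ^ 2 - om j ^ 2| := by
      rw [abs_pos]
      have : 9 * Real.pi ^ 2 - om j ^ 2 = (3 * Real.pi + om j) * (3 * Real.pi - om j) := by ring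
      rw [this]
      exact mul_ne_zero (by positivity) (sub_ne_zero.2 (Ne.symm (hom3 j)))
    rw [div_le_div_iff₀ (by positivity) (by positivity)]
    have h4 := hcmp j hj
    have h5 : 9 * Real.pi ^ 2 * om j * om j ^ 2 ≤
        9 * Real.pi ^ 2 * om j * (4 * |9 * Real.pi ^ 2 - om j ^ 2|) :=
      mul_le_mul_of_nonneg_left h4 (by positivity)
    nlinarith [h5]
  have hK3 : 0 ≤ J s (om 3) := le_trans (by positivity) hK
  have hom1 : om 1 = 3 * Real.pi / 2 := by unfold om; push_cast; ring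
  have hηle : 36 * Real.pi ^ 2 * η ≤ α * (α - 1) * J s (om 3) := by
    have h3 : (om 1) ^ (-1 - α) ≤ 4 / (9 * Real.pi ^ 2) := by
      have h4 : (om 1) ^ (-1 - α) ≤ (om 1) ^ ((-2 : ℝ)) :=
        Real.rpow_le_rpow_of_exponent_le (om_one_le 1) (by linarith)
      refine h4.trans_eq ?_
      rw [hom1, show ((-2 : ℝ)) = -((2 : ℕ) : ℝ) by norm_num,
        Real.rpow_neg (by positivity), Real.rpow_natCast]
      field_simp
      norm_num
    have h5 : κ ≤ α * (α - 1) * (4 / (9 * Real.pi ^ 2)) * |J s (om 1)| := by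
      rw [hκ]
      apply mul_le_mul_of_nonneg_right _ (abs_nonneg _)
      exact mul_le_mul_of_nonneg_left h3 hαα.le
    have h6 : 36 * Real.pi ^ 2 * η ≤ 36 * Real.pi ^ 2 * (9 * Real.pi / 8 *
        (α * (α - 1) * (4 / (9 * Real.pi ^ 2)) * |J s (om 1)|)) := by
      rw [hη]
      apply mul_le_mul_of_nonneg_left _ (by positivity)
      exact mul_le_mul_of_nonneg_left h5 (by positivity)
    have h7 : 36 * Real.pi ^ 2 * (9 * Real.pi / 8 *
        (α * (α - 1) * (4 / (9 * Real.pi ^ 2)) * |J s (om 1)|)) =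
        α * (α - 1) * (18 * Real.pi * |J s (om 1)|) := by
      field_simp
      ring
    rw [h7] at h6
    exact h6.trans (mul_le_mul_of_nonneg_left hK hαα.le)
  -- positivity
  have hpow : ∀ j, 1 / om j ^ 3 ≤ (om j) ^ (-1 - α) := by
    intro j
    have h4 : (om j) ^ ((-3 : ℝ)) ≤ (om j) ^ (-1 - α) :=
      Real.rpow_le_rpow_of_exponent_le (om_one_le j) (by linarith)
    rw [show ((-3 : ℝ)) = -((3 : ℕ) : ℝ) by norm_num, Real.rpow_neg (om_pos j).le,
      Real.rpow_natCast] at h4
    rw [one_div]; exact h4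
  have hβ0 : ∀ j, 0 ≤ β j := by
    intro j
    rw [hβf j]
    by_cases hj : j = 1
    · subst hj
      have h4 : (-1 : ℝ) ^ 1 * (9 * Real.pi ^ 2) / (om 1 * (9 * Real.pi ^ 2 - om 1 ^ 2)) =
          -(8 / (9 * Real.pi)) := by
        rw [hom1]
        have h6 : 9 * Real.pi ^ 2 - (3 * Real.pi / 2) ^ 2 = 27 * Real.pi ^ 2 / 4 := by ring
        rw [h6]
        field_simp
        norm_num
      rw [h4, hη, hκ]
      have h5 : 9 * Real.pi / 8 * (α * (α - 1) * om 1 ^ (-1 - α) * |J s (om 1)|) *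
          -(8 / (9 * Real.pi)) = - (α * (α - 1) * om 1 ^ (-1 - α) * |J s (om 1)|) := by
        field_simp
      rw [h5]
      have h6 := neg_abs_le (J s (om 1))
      have h7 : 0 ≤ α * (α - 1) * om 1 ^ (-1 - α) :=
        mul_nonneg hαα.le (Real.rpow_nonneg (om_pos 1).le _)
      nlinarith [mul_nonneg h7 (by linarith : 0 ≤ J s (om 1) + |J s (om 1)|)]
    · have h4 := hT j hj
      have h5 := K_ge hs0 hs1 j hj
      have h6 : α * (α - 1) * (1 / om j ^ 3) * J s (om 3) ≤
          α * (α - 1) * om j ^ (-1 - α) * J s (om j) := by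
        apply mul_le_mul _ h5 hK3
        · exact mul_nonneg hαα.le (Real.rpow_nonneg (om_pos j).le _)
        · exact mul_le_mul_of_nonneg_left (hpow j) hαα.le
      have h7 : η * ((-1) ^ j * (9 * Real.pi ^ 2) / (om j * (9 * Real.pi ^ 2 - om j ^ 2))) ≤
          η * (36 * Real.pi ^ 2 / om j ^ 3) :=
        mul_le_mul_of_nonneg_left ((le_abs_self _).trans h4) hη0
      have h8 : η * (36 * Real.pi ^ 2 / om j ^ 3) ≤ α * (α - 1) * (1 / om j ^ 3) * J s (om 3) := by
        have h9 : 0 ≤ 1 / om j ^ 3 := by have := om_pos j; positivity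
        have h10 := mul_le_mul_of_nonneg_right hηle h9
        have e1 : η * (36 * Real.pi ^ 2 / om j ^ 3) = 36 * Real.pi ^ 2 * η * (1 / om j ^ 3) := by
          ring
        rw [e1]
        linarith
      linarith
  -- summability
  have hβs : Summable β := by
    have hdom : ∀ j, β (j + 2) ≤ (α * (α - 1) * |J s (om 0)| + η * (36 * Real.pi ^ 2)) *
        (1 / ((j : ℝ) + 1) ^ 2) := by
      intro j
      rw [hβf (j + 2)]
      have hω := om_pos (j + 2)
      have h4 := hT (j + 2) (by omega)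
      have h5 : J s (om (j + 2)) ≤ |J s (om 0)| := (K_le hs0 hs1 _).trans (le_abs_self _)
      have h6 : (om (j + 2)) ^ (-1 - α) ≤ 1 / om (j + 2) ^ 2 := by
        have h7 : (om (j + 2)) ^ (-1 - α) ≤ (om (j + 2)) ^ ((-2 : ℝ)) :=
          Real.rpow_le_rpow_of_exponent_le (om_one_le _) (by linarith)
        rw [show ((-2 : ℝ)) = -((2 : ℕ) : ℝ) by norm_num, Real.rpow_neg hω.le,
          Real.rpow_natCast] at h7
        rw [one_div]; exact h7
      have h8 : 1 / om (j + 2) ^ 2 ≤ 1 / ((j : ℝ) + 1) ^ 2 := by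
        apply one_div_le_one_div_of_le (by positivity)
        have := om_ge (j + 2)
        push_cast at this
        have hj : (0 : ℝ) ≤ j := by positivity
        apply pow_le_pow_left₀ (by positivity)
        linarith
      have h9 : 1 / om (j + 2) ^ 3 ≤ 1 / om (j + 2) ^ 2 := by
        apply one_div_le_one_div_of_le (by positivity)
        have h10 := om_one_le (j + 2)
        nlinarith [pow_pos hω 2]
      have hr0 : 0 ≤ (om (j + 2)) ^ (-1 - α) := Real.rpow_nonneg hω.le _
      have h11 : α * (α - 1) * om (j + 2) ^ (-1 - α) * J s (om (j + 2)) ≤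
          α * (α - 1) * (1 / ((j : ℝ) + 1) ^ 2) * |J s (om 0)| := by
        calc α * (α - 1) * om (j + 2) ^ (-1 - α) * J s (om (j + 2))
            ≤ α * (α - 1) * om (j + 2) ^ (-1 - α) * |J s (om 0)| :=
              mul_le_mul_of_nonneg_left h5 (mul_nonneg hαα.le hr0)
          _ ≤ _ := by
              apply mul_le_mul_of_nonneg_right _ (abs_nonneg _)
              exact mul_le_mul_of_nonneg_left (h6.trans h8) hαα.le
      have h12 : -(η * ((-1) ^ (j + 2) * (9 * Real.pi ^ 2) /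
          (om (j + 2) * (9 * Real.pi ^ 2 - om (j + 2) ^ 2)))) ≤
          η * (36 * Real.pi ^ 2) * (1 / ((j : ℝ) + 1) ^ 2) := by
        have h13 : -((-1) ^ (j + 2) * (9 * Real.pi ^ 2) /
          (om (j + 2) * (9 * Real.pi ^ 2 - om (j + 2) ^ 2))) ≤ 36 * Real.pi ^ 2 / om (j + 2) ^ 3 :=
          (neg_le_abs _).trans h4
        have h14 : 36 * Real.pi ^ 2 / om (j + 2) ^ 3 ≤
            36 * Real.pi ^ 2 * (1 / ((j : ℝ) + 1) ^ 2) := by
          rw [div_eq_mul_one_div]
          exact mul_le_mul_of_nonneg_left (h9.trans h8) (by positivity)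
        have h15 := mul_le_mul_of_nonneg_left (h13.trans h14) hη0
        linarith
      nlinarith [h11, h12]
    rw [← summable_nat_add_iff 2]
    refine Summable.of_nonneg_of_le (fun j => hβ0 _) hdom ?_
    apply Summable.mul_left
    have := (summable_nat_add_iff 1).2 (Real.summable_one_div_nat_pow.2 (by norm_num : 1 < 2))
    refine this.congr fun j => ?_
    push_cast
    rfl
  -- the positive definite function
  have hsumm : Summable fun n : ℤ => β (idx n) := summable_idx hβs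
  have hP := isPosDef_sum (fun n : ℤ => β (idx n)) (fun n : ℤ => Real.pi * ((n : ℝ) - 1 / 2))
    (fun n => hβ0 _) hsumm
  refine ⟨_, ((hP.add (isPosDef_exp η 0 hη0)).add
    (isPosDef_exp (η / 2) (3 * Real.pi) (by positivity))).add
    (isPosDef_exp (η / 2) (-(3 * Real.pi)) (by positivity)), fun ξ hξ => ?_⟩
  have hexp := antiperiodic_expansion Ψ hΨc hΨe hΨ1 (fun n => β (idx n)) (fun n => by
    simp only [hβ]
    apply intervalIntegral.integral_congr
    intro x _
    simp only
    rw [cos_idx]) hsumm ξ hξ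
  have e1 : ∑' n : ℤ, ((β (idx n) : ℝ) : ℂ) *
      cexp (I * ξ * ((Real.pi * ((n : ℝ) - 1 / 2) : ℝ) : ℂ)) = (Ψ ξ : ℂ) := by
    rw [← hexp.tsum_eq]
    refine tsum_congr fun n => ?_
    congr 2
    ring
  have e2 : ((η / 2 : ℝ) : ℂ) * cexp (I * ξ * ((3 * Real.pi : ℝ) : ℂ)) +
      ((η / 2 : ℝ) : ℂ) * cexp (I * ξ * ((-(3 * Real.pi) : ℝ) : ℂ)) =
      ((η * Real.cos (3 * Real.pi * ξ) : ℝ) : ℂ) := by
    rw [← mul_add]
    have e3 : cexp (I * ξ * ((3 * Real.pi : ℝ) : ℂ)) + cexp (I * ξ * ((-(3 * Real.pi) : ℝ) : ℂ)) =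
        2 * Complex.cos ((3 * Real.pi * ξ : ℝ) : ℂ) := by
      rw [Complex.cos]
      push_cast
      ring_nf
    rw [e3, ← Complex.ofReal_cos]
    push_cast
    ring
  rw [e1, add_assoc, e2]
  simp only [hΨ]
  simp only [Complex.ofReal_zero, mul_zero, Complex.exp_zero, mul_one]
  push_cast
  ring

end Pool.Agent.R259.Rom
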