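import Mathlib
import Pool.Agent.S06389
import Pool.Agent.R259.MS

set_option autoImplicit false

namespace Pool.Agent.R259

open Filter Topology Polynomial

lemma poly_eq_of_aeval {p q : ℝ[X]} (h : ∀ z : ℂ, aeval z p = aeval z q) : p = q := by
  have h1 : p.map (algebraMap ℝ ℂ) = q.map (algebraMap ℝ ℂ) := by
    apply Polynomial.funext
    intro z
    rw [eval_map_algebraMap, eval_map_algebraMap]
    exact h z
  exact map_injective _ (algebraMap ℝ ℂ).injective h1

lemma R_coeff (n : ℕ) (hn : 0 < n) (L : ℝ) (s : ℕ → ℝ) (k : ℕ) :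
    (Pool.Agent.S06389.R n L s).coeff k =
      Pool.Agent.S06389.ecoef n L s k * Pool.Agent.S06389.w k := by
  have h1 : Pool.Agent.S06389.R n L s = ∑ k ∈ Finset.range (n + 1),
      C (Pool.Agent.S06389.ecoef n L s k * Pool.Agent.S06389.w k) * X ^ k := by
    apply poly_eq_of_aeval
    intro z
    rw [Pool.Agent.S06389.R_expand n hn, map_sum]
    refine Finset.sum_congr rfl fun j _ => ?_
    rw [map_mul, aeval_C, Complex.coe_algebraMap, map_pow, aeval_X]
    push_cast
    ring
  rw [h1, finsetSum_coeff]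
  simp only [coeff_C_mul, coeff_X_pow]
  rcases Nat.lt_or_ge n k with h | h
  · rw [Pool.Agent.S06389.ecoef_eq_zero n L s k h, zero_mul, Finset.sum_eq_zero]
    intro j hj
    rw [Finset.mem_range] at hj
    rw [if_neg (by omega), mul_zero]
  · rw [Finset.sum_eq_single k]
    · simp
    · intro j _ hj
      rw [if_neg (by omega), mul_zero]
    · intro h2
      exact absurd (Finset.mem_range.2 (by omega)) h2

/-- Criterion: if `c k = lim (L_n - ∑_j s_{n,j} (j/n)^{2k})` with `∑_j |s_{n,j}| < L_n ≤ M`, then the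
sequence `k! c_k 4^k / (2k)!` is a multiplier sequence. -/
theorem toolkit_ms (c : ℕ → ℝ) (M : ℝ) (L : ℕ → ℝ) (s : ℕ → ℕ → ℝ)
    (hs : ∀ n, 0 < n → ∑ j ∈ Finset.range n, |s n j| < L n) (hL : ∀ n, 0 < n → L n ≤ M)
    (hc : ∀ k : ℕ, Tendsto (fun n : ℕ => L n - ∑ j ∈ Finset.range n, s n j * ((j : ℝ) / n) ^ (2 * k))
      atTop (𝓝 (c k))) :
    ∃ q : ℕ → ℝ[X], (∀ᶠ n in atTop, ∀ z : ℂ, aeval z (q n) = 0 → z.im = 0 ∧ z.re ≤ 0) ∧
      ∀ k, Tendsto (fun n => (q n).coeff k) atTop (𝓝 (c k * (4 ^ k / (2 * k).factorial))) := by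
  refine ⟨fun n => Pool.Agent.S06389.R n (L n) (s n), ?_, ?_⟩
  · filter_upwards [eventually_gt_atTop 0] with n hn z hz
    exact Pool.Agent.S06389.R_root n hn (L n) (s n) (hs n hn) z hz
  · intro k
    have hz : Tendsto (fun n : ℕ => 2 * M * ((k : ℝ) ^ 3 / (n : ℝ) ^ 2)) atTop (𝓝 0) := by
      have h1 : Tendsto (fun n : ℕ => ((n : ℝ) ^ 2)) atTop atTop :=
        (tendsto_pow_atTop two_ne_zero).comp tendsto_natCast_atTop_atTop
      have h2 := (h1.const_div_atTop ((k : ℝ) ^ 3)).const_mul (2 * M)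
      simpa using h2
    have hd : Tendsto (fun n : ℕ => Pool.Agent.S06389.ecoef n (L n) (s n) k -
        (L n - ∑ j ∈ Finset.range n, s n j * ((j : ℝ) / n) ^ (2 * k))) atTop (𝓝 0) := by
      apply squeeze_zero_norm' _ hz
      filter_upwards [eventually_gt_atTop 0] with n hn
      rw [Real.norm_eq_abs]
      refine (Pool.Agent.S06389.ecoef_approx n hn (L n) (s n) (hs n hn) k).trans ?_
      apply mul_le_mul_of_nonneg_right _ (by positivity)
      linarith [hL n hn]
    have h1 := (hd.add (hc k)).mul_const (4 ^ k / ((2 * k).factorial : ℝ))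
    simp only [zero_add, sub_add_cancel] at h1
    refine h1.congr' ?_
    filter_upwards [eventually_gt_atTop 0] with n hn
    rw [R_coeff n hn]
    rfl

end Pool.Agent.R259
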