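import Mathlib
import Pool.Agent.R259.Jac2

set_option autoImplicit false

namespace Pool.Agent.R259.Jac

open Filter Topology

variable {q : ℝ}

lemma tri_two (j : ℕ) : 2 * (j * (j + 1) / 2) = j * (j + 1) :=
  Nat.mul_div_cancel' (Nat.even_mul_succ_self j).two_dvd

lemma tri_succ (j : ℕ) : (j + 1) * (j + 1 + 1) / 2 = j * (j + 1) / 2 + (j + 1) := by
  have h1 := tri_two j
  have h2 := tri_two (j + 1)
  have h3 : (j + 1) * (j + 1 + 1) = j * (j + 1) + 2 * (j + 1) := by ring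
  omega

lemma t_succ (j : ℕ) (q : ℝ) :
    t (j + 1) q = (2 * (j : ℝ) + 3) * q ^ (j + 1) * q ^ (j * (j + 1) / 2) := by
  unfold t
  rw [tri_succ, pow_add]
  push_cast
  ring

/-- partial sums -/
noncomputable def P (n : ℕ) (q : ℝ) : ℝ := ∑ j ∈ Finset.range (n + 1), (-1 : ℝ) ^ j * t j q

/-- infinite alternating sums -/
lemma alt_tsum {a : ℕ → ℝ} (h0 : ∀ m, 0 ≤ a m) (ha : ∀ m, a (m + 1) ≤ a m) (hs : Summable a) :
    a 0 - a 1 ≤ ∑' m, (-1 : ℝ) ^ m * a m := by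
  have hs' : Summable fun m => (-1 : ℝ) ^ m * a m := by
    refine Summable.of_norm ?_
    refine hs.congr fun m => ?_
    rw [norm_mul, norm_pow, norm_neg, norm_one, one_pow, one_mul, Real.norm_of_nonneg (h0 m)]
  have h1 := hs'.hasSum.tendsto_sum_nat
  have h2 := (tendsto_add_atTop_iff_nat 2).2 h1
  refine ge_of_tendsto' h2 fun N => ?_
  rw [Finset.sum_range_succ', Finset.sum_range_succ']
  have h3 := alt_sum (t := fun m => a (m + 2)) (fun m => h0 _) (fun m => by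
    have := ha (m + 2); convert this using 2) N
  have h4 : ∑ m ∈ Finset.range N, (-1 : ℝ) ^ (m + 1 + 1) * a (m + 1 + 1) =
      ∑ m ∈ Finset.range N, (-1 : ℝ) ^ m * a (m + 2) := by
    refine Finset.sum_congr rfl fun m _ => ?_
    rw [pow_succ, pow_succ]; ring_nf
  rw [h4]
  norm_num
  linarith [h3.1]

/-- splitting of the full sum -/
lemma split_sum (h0 : 0 < q) (h1 : q < 1) (n : ℕ) :
    P n q = Gi q ^ 3 - (-1) ^ (n + 1) * ∑' k : ℕ, (-1 : ℝ) ^ k * t (n + 1 + k) q := by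
  rw [← jacobi h0 h1]
  have hs : Summable fun j : ℕ => (-1 : ℝ) ^ j * t j q := by
    refine Summable.of_norm ?_
    refine (t_summable h0.le h1).congr fun m => ?_
    rw [norm_mul, norm_pow, norm_neg, norm_one, one_pow, one_mul, Real.norm_of_nonneg (t_nonneg h0.le m)]
  rw [← hs.sum_add_tsum_nat_add (n + 1), ← tsum_mul_left]
  have : ∀ k : ℕ, (-1 : ℝ) ^ (k + (n + 1)) * t (k + (n + 1)) q =
      (-1) ^ (n + 1) * ((-1) ^ k * t (n + 1 + k) q) := by
    intro k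
    rw [pow_add, add_comm k (n + 1)]; ring
  simp_rw [this]
  unfold P
  ring

/-- pairing, even case -/
lemma P_even_pair (m : ℕ) (hm : ∀ i < m, t (2 * i + 1) q ≤ t (2 * i + 2) q) :
    t 0 q ≤ P (2 * m) q := by
  induction m with
  | zero => simp [P]
  | succ m ih =>
    have h1 := ih fun i hi => hm i (by omega)
    have h2 := hm m (Nat.lt_succ_self m)
    have : P (2 * (m + 1)) q = P (2 * m) q - t (2 * m + 1) q + t (2 * m + 2) q := by
      unfold P
      rw [show 2 * (m + 1) + 1 = 2 * m + 1 + 1 + 1 by ring, Finset.sum_range_succ _ (2 * m + 1 + 1),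
        Finset.sum_range_succ _ (2 * m + 1)]
      have e1 : (-1 : ℝ) ^ (2 * m + 1) = -1 := by rw [pow_succ, pow_mul]; norm_num
      have e2 : (-1 : ℝ) ^ (2 * m + 1 + 1) = 1 := by rw [pow_succ, e1]; norm_num
      rw [e1, e2]; ring
    rw [this]; linarith

lemma P_odd_pair (m : ℕ) (hm : ∀ i ≤ m, 1 ≤ i → t (2 * i) q ≤ t (2 * i + 1) q) :
    P (2 * m + 1) q ≤ t 0 q - t 1 q := by
  induction m with
  | zero =>
    unfold P
    rw [Finset.sum_range_succ, Finset.sum_range_succ, Finset.sum_range_zero]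
    norm_num
  | succ m ih =>
    have h1 := ih fun i hi => hm i (by omega)
    have h2 := hm (m + 1) le_rfl (by omega)
    have : P (2 * (m + 1) + 1) q = P (2 * m + 1) q + t (2 * (m + 1)) q - t (2 * (m + 1) + 1) q := by
      unfold P
      rw [show 2 * (m + 1) + 1 + 1 = 2 * m + 1 + 1 + 1 + 1 by ring,
        Finset.sum_range_succ _ (2 * m + 1 + 1 + 1), Finset.sum_range_succ _ (2 * m + 1 + 1)]
      have e1 : (-1 : ℝ) ^ (2 * m + 1 + 1) = 1 := by
        rw [show 2 * m + 1 + 1 = 2 * (m + 1) by ring, pow_mul]; norm_num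
      have e2 : (-1 : ℝ) ^ (2 * m + 1 + 1 + 1) = -1 := by rw [pow_succ, e1]; norm_num
      rw [e1, e2, show 2 * (m + 1) = 2 * m + 1 + 1 by ring]; ring
    rw [this]; linarith

/-- increasing range of the terms -/
lemma t_inc (h0 : 0 < q) {n : ℕ} (hn : (2 * (n : ℝ) - 1) ≤ (2 * n + 1) * q ^ n) {j : ℕ} (hj : j + 1 ≤ n) :
    t j q ≤ t (j + 1) q := by
  rw [t_succ]
  unfold t
  have hq : 0 ≤ q ^ (j * (j + 1) / 2) := by positivity
  apply mul_le_mul_of_nonneg_right _ hq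
  have hj' : ((j : ℝ) + 1) ≤ n := by exact_mod_cast hj
  have hj0 : (0 : ℝ) ≤ j := Nat.cast_nonneg j
  rcases le_or_gt 1 q with h1 | h1
  · have : 1 ≤ q ^ (j + 1) := one_le_pow₀ h1
    nlinarith
  · have h2 : q ^ n ≤ q ^ (j + 1) := pow_le_pow_of_le_one h0.le h1.le hj
    have h3 : (2 * (n : ℝ) + 1) * q ^ n ≤ (2 * n + 1) * q ^ (j + 1) := by gcongr
    have h4 : (2 * (n : ℝ) - 1) ≤ (2 * n + 1) * q ^ (j + 1) := hn.trans h3
    have h5 : q ^ (j + 1) ≤ 1 := pow_le_one₀ h0.le h1.le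
    -- (1 - u) n-linear
    nlinarith

/-- decreasing range of the terms -/
lemma t_dec (h0 : 0 < q) (h1 : q < 1) {n : ℕ} (hn : (2 * (n : ℝ) + 1) * q ^ n < 2 * n - 1) {j : ℕ}
    (hj : n ≤ j + 1) : t (j + 1) q < t j q := by
  rw [t_succ]
  unfold t
  have hq : 0 < q ^ (j * (j + 1) / 2) := by positivity
  apply mul_lt_mul_of_pos_right _ hq
  have hj' : (n : ℝ) ≤ j + 1 := by exact_mod_cast hj
  have hn0 : (0 : ℝ) ≤ n := Nat.cast_nonneg n
  have h2 : q ^ (j + 1) ≤ q ^ n := pow_le_pow_of_le_one h0.le h1.le hj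
  have h3 : (2 * (n : ℝ) + 1) * q ^ (j + 1) ≤ (2 * n + 1) * q ^ n := by gcongr
  have h4 : (2 * (n : ℝ) + 1) * q ^ (j + 1) < 2 * n - 1 := h3.trans_lt hn
  have h5 : q ^ (j + 1) < 1 := pow_lt_one₀ h0.le h1 (by omega)
  nlinarith

lemma not_inc_lt (h0 : 0 < q) {n : ℕ} (hn : (2 * (n : ℝ) + 1) * q ^ n < 2 * n - 1) : q < 1 := by
  by_contra h
  rw [not_lt] at h
  have : 1 ≤ q ^ n := one_le_pow₀ h
  have h2 : (0 : ℝ) ≤ n := Nat.cast_nonneg n
  nlinarith

/-- tail estimate -/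
lemma tail_ge (h0 : 0 < q) (h1 : q < 1) {n : ℕ} (hn : (2 * (n : ℝ) + 1) * q ^ n < 2 * n - 1) :
    t (n + 1) q - t (n + 2) q ≤ ∑' k : ℕ, (-1 : ℝ) ^ k * t (n + 1 + k) q := by
  have h2 := alt_tsum (a := fun k => t (n + 1 + k) q) (fun k => t_nonneg h0.le _)
    (fun k => (t_dec h0 h1 hn (j := n + 1 + k) (by omega)).le) ((summable_nat_add_iff (n + 1)).2 (t_summable h0.le h1) |>.congr
      fun k => by rw [add_comm])
  simpa using h2

/-- The even case. -/
theorem P_even_pos {n : ℕ} (hn : Even n) (hq : 0 ≤ q) : 0 < P n q := by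
  rcases hq.eq_or_lt with h0 | h0
  · have : P n q = 1 := by
      unfold P
      rw [Finset.sum_range_succ', ← h0]
      have : ∑ k ∈ Finset.range n, (-1 : ℝ) ^ (k + 1) * t (k + 1) 0 = 0 := by
        refine Finset.sum_eq_zero fun k _ => ?_
        rw [t_succ]; simp
      rw [this]; simp [t]
    rw [this]; exact one_pos
  rcases le_or_gt (2 * (n : ℝ) - 1) ((2 * n + 1) * q ^ n) with h | h
  · obtain ⟨m, rfl⟩ : ∃ m, n = 2 * m := by
      obtain ⟨r, hr⟩ := hn; exact ⟨r, by omega⟩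
    have h1 := P_even_pair (q := q) m fun i hi => t_inc h0 h (by omega)
    refine lt_of_lt_of_le (t_pos h0 0) h1
  · have h1 := not_inc_lt h0 h
    have h2 := tail_ge h0 h1 h
    have h3 := t_dec h0 h1 h (j := n + 1) (by omega)
    rw [split_sum h0 h1]
    have e : (-1 : ℝ) ^ (n + 1) = -1 := by rw [pow_succ, hn.neg_one_pow]; norm_num
    rw [e]
    have h4 : 0 < Gi q ^ 3 := pow_pos (Gi_pos h0 h1) 3
    have h5 : t (n + 1 + 1) q = t (n + 2) q := rfl
    rw [h5] at h3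
    linarith

/-- Odd case, increasing terms. -/
theorem P_odd_neg1 {n : ℕ} (hn : Odd n) (hn3 : 3 ≤ n) (h0 : 0 < q)
    (h : (2 * (n : ℝ) - 1) ≤ (2 * n + 1) * q ^ n) : P n q < 0 := by
  obtain ⟨m, rfl⟩ := hn
  have h1 := P_odd_pair (q := q) m fun i hi hi1 => t_inc h0 h (by omega)
  refine lt_of_le_of_lt h1 ?_
  have e0 : t 0 q = 1 := by simp [t]
  have e1 : t 1 q = 3 * q := by simp [t]; norm_num
  rw [e0, e1]
  rcases le_or_gt 1 q with h2 | h2
  · linarith
  · have h3 : q ^ (2 * m + 1) ≤ q ^ 1 := pow_le_pow_of_le_one h0.le h2.le (by omega)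
    rw [pow_one] at h3
    have h4 : (3 : ℝ) ≤ ((2 * m + 1 : ℕ) : ℝ) := by exact_mod_cast hn3
    nlinarith

end Pool.Agent.R259.Jac
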