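import Mathlib
import Pool.Agent.R259.Theta

set_option autoImplicit false

namespace Pool.Agent.R259.Jac

open Filter Topology

variable {q : ℝ}

lemma P_odd_split {n : ℕ} (hn : Odd n) (h0 : 0 < q) (h1 : q < 1) :
    P n q = Gi q ^ 3 - ∑' k : ℕ, (-1 : ℝ) ^ k * t (n + 1 + k) q := by
  rw [split_sum h0 h1]
  have e : (-1 : ℝ) ^ (n + 1) = 1 := by rw [pow_succ, hn.neg_one_pow]; norm_num
  rw [e, one_mul]

/-- Odd case, intermediate region. -/
theorem P_odd_neg2 {n : ℕ} (hn : Odd n) (hn3 : 3 ≤ n) (h0 : 0 < q)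
    (h : (2 * (n : ℝ) + 1) * q ^ n < 2 * n - 1)
    (hc : ((n : ℝ) + 1) * (2 * n + 3) ≤ (n + 3) * (2 * n + 5) * q ^ (n + 2)) : P n q < 0 := by
  have h1 := not_inc_lt h0 h
  have h2 := tail_ge h0 h1 h
  rw [P_odd_split hn h0 h1]
  have hn3' : (3 : ℝ) ≤ n := by exact_mod_cast hn3
  -- q^(n+2) ≥ 1/2
  have hhalf : 1 / 2 ≤ q ^ (n + 2) := by
    by_contra hcon
    rw [not_le] at hcon
    have : ((n : ℝ) + 3) * (2 * n + 5) * q ^ (n + 2) < (n + 3) * (2 * n + 5) * (1 / 2) := by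
      gcongr
    nlinarith
  have hG : G q n ≤ (1 / 2) ^ n := by
    unfold G
    calc ∏ i ∈ Finset.range n, (1 - q ^ (i + 1)) ≤ ∏ _i ∈ Finset.range n, (1 / 2 : ℝ) := by
          apply Finset.prod_le_prod
          · intro i _; exact (fac_pos h0.le h1 i).le
          · intro i hi
            have : q ^ (n + 2) ≤ q ^ (i + 1) := pow_le_pow_of_le_one h0.le h1.le (by
              have := Finset.mem_range.1 hi; omega)
            linarith
      _ = (1 / 2) ^ n := by rw [Finset.prod_const, Finset.card_range]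
  have hGi : Gi q ^ 3 ≤ ((1 / 2) ^ n) ^ 3 :=
    pow_le_pow_left₀ (Gi_pos h0 h1).le ((Gi_le h0 h1 n).trans hG) 3
  obtain ⟨m, rfl⟩ := hn
  have hT : (2 * m + 1 + 1) * (2 * m + 1 + 1 + 1) / 2 = (2 * m + 1 + 2) * (m + 1) := by
    rw [show (2 * m + 1 + 1) * (2 * m + 1 + 1 + 1) = 2 * ((2 * m + 1 + 2) * (m + 1)) by ring,
      Nat.mul_div_cancel_left _ (by norm_num)]
  have ht1 : t (2 * m + 1 + 1) q - t (2 * m + 1 + 2) q =
      (q ^ (2 * m + 1 + 2)) ^ (m + 1) * ((2 * ((2 * m + 1 : ℕ) : ℝ) + 3) -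
        (2 * ((2 * m + 1 : ℕ) : ℝ) + 5) * q ^ (2 * m + 1 + 2)) := by
    rw [show 2 * m + 1 + 2 = 2 * m + 1 + 1 + 1 by ring, t_succ (2 * m + 1 + 1)]
    unfold t
    rw [hT, ← pow_mul]
    push_cast
    ring
  have hq2 : q ^ (2 * m + 1 + 2) ≤ q ^ (2 * m + 1) := pow_le_pow_of_le_one h0.le h1.le (by omega)
  set N : ℝ := ((2 * m + 1 : ℕ) : ℝ) with hN
  have hA : 8 / (2 * N + 1) ≤ (2 * N + 3) - (2 * N + 5) * q ^ (2 * m + 1 + 2) := by
    rw [div_le_iff₀ (by linarith)]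
    have h3 : (2 * N + 1) * q ^ (2 * m + 1 + 2) ≤ 2 * N - 1 := by
      have : (2 * N + 1) * q ^ (2 * m + 1 + 2) ≤ (2 * N + 1) * q ^ (2 * m + 1) := by gcongr
      linarith
    nlinarith
  have hB : (1 / 2 : ℝ) ^ (m + 1) ≤ (q ^ (2 * m + 1 + 2)) ^ (m + 1) := by gcongr
  have hC : (1 / 2 : ℝ) ^ (m + 1) * (8 / (2 * N + 1)) ≤ t (2 * m + 1 + 1) q - t (2 * m + 1 + 2) q := by
    rw [ht1]
    have : 0 < 8 / (2 * N + 1) := by positivity
    gcongr
  have hD : ((1 / 2 : ℝ) ^ (2 * m + 1)) ^ 3 < (1 / 2 : ℝ) ^ (m + 1) * (8 / (2 * N + 1)) := by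
    rw [← pow_mul, mul_div_assoc', lt_div_iff₀ (by positivity)]
    have e : (1 / 2 : ℝ) ^ ((2 * m + 1) * 3) = (1 / 2) ^ (m + 1) * (1 / 2) ^ (5 * m + 2) := by
      rw [← pow_add]; congr 1; ring
    rw [e, mul_assoc]
    apply mul_lt_mul_of_pos_left _ (by positivity)
    have h4 : (2 * N + 1) < 8 * 2 ^ (5 * m + 2) := by
      have h5 : 4 * m + 3 < 8 * 2 ^ (5 * m + 2) := by
        have := Nat.lt_two_pow_self (n := 5 * m + 2)
        omega
      rw [hN]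
      have h6 : ((4 * m + 3 : ℕ) : ℝ) < ((8 * 2 ^ (5 * m + 2) : ℕ) : ℝ) := by exact_mod_cast h5
      push_cast at h6 ⊢
      linarith
    rw [one_div, inv_pow, inv_mul_lt_iff₀ (by positivity)]
    linarith
  linarith

/-- difference of consecutive terms -/
noncomputable def D (j : ℕ) (x : ℝ) : ℝ := t j x - t (j + 1) x

lemma D_deriv (j : ℕ) (x : ℝ) : HasDerivAt (D j)
    ((2 * (j : ℝ) + 1) * (((j * (j + 1) / 2 : ℕ) : ℝ) * x ^ (j * (j + 1) / 2 - 1)) -
      (2 * (j : ℝ) + 3) * (((j * (j + 1) / 2 + (j + 1) : ℕ) : ℝ) * x ^ (j * (j + 1) / 2 + (j + 1) - 1))) x := by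
  have e : D j = fun x => (2 * (j : ℝ) + 1) * x ^ (j * (j + 1) / 2) -
      (2 * (j : ℝ) + 3) * x ^ (j * (j + 1) / 2 + (j + 1)) := by
    ext y
    unfold D
    rw [t_succ, pow_add]
    unfold t
    ring
  rw [e]
  exact ((hasDerivAt_pow _ x).const_mul _).sub ((hasDerivAt_pow _ x).const_mul _)

/-- the lower region -/
def Low (n : ℕ) (y : ℝ) : Prop :=
  ((n : ℝ) + 3) * (2 * n + 5) * y ^ (n + 2) < (n + 1) * (2 * n + 3)

lemma D_deriv_pos {n j : ℕ} (hj : n + 1 ≤ j) {x y : ℝ} (hx : 0 < x) (hxy : x ≤ y) (hy1 : y < 1)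
    (hc : Low n y) : 0 < (2 * (j : ℝ) + 1) * (((j * (j + 1) / 2 : ℕ) : ℝ) * x ^ (j * (j + 1) / 2 - 1)) -
      (2 * (j : ℝ) + 3) * (((j * (j + 1) / 2 + (j + 1) : ℕ) : ℝ) *
        x ^ (j * (j + 1) / 2 + (j + 1) - 1)) := by
  unfold Low at hc
  have hj0 : 0 < j := by omega
  have hT : 1 ≤ j * (j + 1) / 2 := hj0.trans_le (le_tri j)
  have h2 := tri_two j
  set T := j * (j + 1) / 2 with hTdef
  have h2' : 2 * (T : ℝ) = j * (j + 1) := by exact_mod_cast h2
  have e : x ^ (T + (j + 1) - 1) = x ^ (T - 1) * x ^ (j + 1) := by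
    rw [← pow_add]; congr 1; omega
  rw [e]
  push_cast
  have hxp : 0 < x ^ (T - 1) := by positivity
  have hu : x ^ (j + 1) ≤ y ^ (n + 2) := by
    calc x ^ (j + 1) ≤ y ^ (j + 1) := pow_le_pow_left₀ hx.le hxy _
      _ ≤ y ^ (n + 2) := pow_le_pow_of_le_one (hx.le.trans hxy) hy1.le (by omega)
  set u := x ^ (j + 1) with hudef
  have hu0 : 0 < u := by positivity
  have hja : ((n : ℝ) + 1) ≤ j := by exact_mod_cast hj
  have hn0 : (0 : ℝ) ≤ n := Nat.cast_nonneg n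
  set a : ℝ := (n : ℝ) + 1 with ha
  have ha1 : 1 ≤ a := by linarith
  have h3 : (a + 2) * (2 * a + 3) * u < a * (2 * a + 1) := by
    have : (a + 2) * (2 * a + 3) * u ≤ (a + 2) * (2 * a + 3) * y ^ (n + 2) := by gcongr
    refine this.trans_lt ?_
    have e1 : (a + 2) * (2 * a + 3) = ((n : ℝ) + 3) * (2 * n + 5) := by rw [ha]; ring
    have e2 : a * (2 * a + 1) = ((n : ℝ) + 1) * (2 * n + 3) := by rw [ha]; ring
    rw [e1, e2]; exact hc
  have h4 : (2 * (j : ℝ) + 3) * (j + 2) * u < (2 * j + 1) * j := by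
    have h5 : a * (2 * a + 1) * ((2 * (j : ℝ) + 3) * (j + 2)) ≤
        (2 * j + 1) * j * ((a + 2) * (2 * a + 3)) := by
      nlinarith [mul_nonneg (sub_nonneg.2 hja) (show 0 ≤ 12 * (a * j) + 12 * (a + j) + 6 by positivity)]
    have h6 : 0 < (a + 2) * (2 * a + 3) := by positivity
    have h7 : 0 < (2 * (j : ℝ) + 3) * (j + 2) := by positivity
    have h8 : ((2 * (j : ℝ) + 3) * (j + 2)) * ((a + 2) * (2 * a + 3) * u) <
        ((2 * (j : ℝ) + 3) * (j + 2)) * (a * (2 * a + 1)) := mul_lt_mul_of_pos_left h3 h7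
    have h9 : ((a + 2) * (2 * a + 3)) * ((2 * (j : ℝ) + 3) * (j + 2) * u) <
        ((a + 2) * (2 * a + 3)) * ((2 * j + 1) * j) := by nlinarith
    exact lt_of_mul_lt_mul_left h9 h6.le
  have h10 : (2 * (j : ℝ) + 1) * ((T : ℝ) * x ^ (T - 1)) - (2 * (j : ℝ) + 3) * (((T : ℝ) + (j + 1)) *
      (x ^ (T - 1) * u)) = x ^ (T - 1) * (((j : ℝ) + 1) / 2) *
        ((2 * j + 1) * j - (2 * (j : ℝ) + 3) * (j + 2) * u) := by
    have : (T : ℝ) = j * (j + 1) / 2 := by linarith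
    rw [this]; ring
  rw [h10]
  have : 0 < (2 * (j : ℝ) + 1) * j - (2 * (j : ℝ) + 3) * (j + 2) * u := by linarith
  positivity

lemma D_strict {n j : ℕ} (hj : n + 1 ≤ j) {x y : ℝ} (hx : 0 < x) (hxy : x < y) (hy1 : y < 1)
    (hc : Low n y) : D j x < D j y := by
  have hcont : ContinuousOn (D j) (Set.Icc x y) := fun z _ =>
    (D_deriv j z).continuousAt.continuousWithinAt
  have hmono := strictMonoOn_of_deriv_pos (convex_Icc x y) hcont (by
    intro z hz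
    rw [interior_Icc] at hz
    rw [(D_deriv j z).deriv]
    exact D_deriv_pos hj (hx.trans hz.1) hz.2.le hy1 hc)
  exact hmono (Set.left_mem_Icc.2 hxy.le) (Set.right_mem_Icc.2 hxy.le) hxy

/-- comparison of values of `P` in the lower region -/
lemma P_diff {n : ℕ} (hn : Odd n) {x y : ℝ} (hx : 0 < x) (hxy : x < y) (hy1 : y < 1)
    (hc : Low n y) : P n y - P n x ≤ -(D (n + 1) y - D (n + 1) x) := by
  have hy : 0 < y := hx.trans hxy
  have hx1 : x < 1 := hxy.trans hy1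
  rw [P_odd_split hn hx hx1, P_odd_split hn hy hy1]
  have hG : Gi y ^ 3 ≤ Gi x ^ 3 := pow_le_pow_left₀ (Gi_pos hy hy1).le (Gi_antitone hx hxy.le hy1) 3
  have hsy : Summable fun k => t (n + 1 + k) y :=
    ((summable_nat_add_iff (n + 1)).2 (t_summable hy.le hy1)).congr fun k => by rw [add_comm]
  have hsx : Summable fun k => t (n + 1 + k) x :=
    ((summable_nat_add_iff (n + 1)).2 (t_summable hx.le hx1)).congr fun k => by rw [add_comm]
  have halt : ∀ {a : ℕ → ℝ}, (∀ k, 0 ≤ a k) → Summable a → Summable fun k => (-1 : ℝ) ^ k * a k := by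
    intro a ha hs
    refine Summable.of_norm ?_
    refine hs.congr fun m => ?_
    rw [norm_mul, norm_pow, norm_neg, norm_one, one_pow, one_mul, Real.norm_of_nonneg (ha m)]
  have hd := alt_tsum (a := fun k => t (n + 1 + k) y - t (n + 1 + k) x) (fun k => by
    rw [sub_nonneg]
    unfold t
    have : x ^ ((n + 1 + k) * (n + 1 + k + 1) / 2) ≤ y ^ ((n + 1 + k) * (n + 1 + k + 1) / 2) :=
      pow_le_pow_left₀ hx.le hxy.le _
    gcongr) (fun k => by
    have := (D_strict (j := n + 1 + k) (by omega) hx hxy hy1 hc).le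
    unfold D at this
    have e : n + 1 + (k + 1) = n + 1 + k + 1 := by ring
    rw [e]
    linarith) (hsy.sub hsx)
  have e1 : ∑' k : ℕ, (-1 : ℝ) ^ k * (t (n + 1 + k) y - t (n + 1 + k) x) =
      ∑' k : ℕ, (-1 : ℝ) ^ k * t (n + 1 + k) y - ∑' k : ℕ, (-1 : ℝ) ^ k * t (n + 1 + k) x := by
    rw [← (halt (fun k => t_nonneg hy.le _) hsy).tsum_sub (halt (fun k => t_nonneg hx.le _) hsx)]
    refine tsum_congr fun k => ?_
    ring
  rw [e1] at hd
  unfold D
  simp only [add_zero] at hd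
  linarith

lemma P_zero (n : ℕ) : P n 0 = 1 := by
  unfold P
  rw [Finset.sum_range_succ']
  have : ∑ k ∈ Finset.range n, (-1 : ℝ) ^ (k + 1) * t (k + 1) 0 = 0 := by
    refine Finset.sum_eq_zero fun k _ => ?_
    rw [t_succ]; simp
  rw [this]; simp [t]

/-- location of the zeros for odd `n` -/
lemma zero_low {n : ℕ} (hn : Odd n) (hn3 : 3 ≤ n) (h0 : 0 < q) (hP : P n q = 0) :
    q < 1 ∧ Low n q := by
  rcases le_or_gt (2 * (n : ℝ) - 1) ((2 * n + 1) * q ^ n) with h | h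
  · have := P_odd_neg1 hn hn3 h0 h
    linarith
  · refine ⟨not_inc_lt h0 h, ?_⟩
    by_contra hcon
    unfold Low at hcon
    rw [not_lt] at hcon
    have := P_odd_neg2 hn hn3 h0 h hcon
    linarith

/-- existence and uniqueness for odd `n` -/
theorem P_odd_unique {n : ℕ} (hn : Odd n) (hn3 : 3 ≤ n) :
    ∃ q0 : ℝ, 0 < q0 ∧ P n q0 = 0 ∧ ∀ q, 0 ≤ q → P n q = 0 → q = q0 := by
  have hcont : Continuous (P n) := by
    unfold P t
    fun_prop
  have h1 : P n 1 < 0 := P_odd_neg1 hn hn3 one_pos (by rw [one_pow]; linarith)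
  obtain ⟨q0, hq0, hz⟩ := intermediate_value_Ioo' (f := P n) zero_le_one hcont.continuousOn
    (show (0 : ℝ) ∈ Set.Ioo (P n 1) (P n 0) from ⟨h1, by rw [P_zero]; exact one_pos⟩)
  refine ⟨q0, hq0.1, hz, fun q hq hPq => ?_⟩
  have hq' : 0 < q := by
    rcases hq.eq_or_lt with h | h
    · rw [← h, P_zero] at hPq
      exact absurd hPq one_ne_zero
    · exact h
  obtain ⟨a1, a2⟩ := zero_low hn hn3 hq0.1 hz
  obtain ⟨b1, b2⟩ := zero_low hn hn3 hq' hPq
  rcases lt_trichotomy q q0 with h | h | h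
  · have h2 := P_diff hn hq' h a1 a2
    have h3 := D_strict (n := n) (j := n + 1) le_rfl hq' h a1 a2
    rw [hz, hPq] at h2
    linarith
  · exact h
  · have h2 := P_diff hn hq0.1 h b1 b2
    have h3 := D_strict (n := n) (j := n + 1) le_rfl hq0.1 h b1 b2
    rw [hz, hPq] at h2
    linarith

/-- simplicity for odd `n` -/
theorem P_odd_simple {n : ℕ} (hn : Odd n) (hn3 : 3 ≤ n) (h0 : 0 < q) (hP : P n q = 0) {d : ℝ}
    (hd : HasDerivAt (P n) d q) : d < 0 := by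
  obtain ⟨a1, a2⟩ := zero_low hn hn3 h0 hP
  have h2 := D_deriv (n + 1) q
  have h3 := D_deriv_pos (n := n) (j := n + 1) le_rfl h0 le_rfl a1 a2
  set d' := (2 * ((n + 1 : ℕ) : ℝ) + 1) * ((((n + 1) * (n + 1 + 1) / 2 : ℕ) : ℝ) *
    q ^ ((n + 1) * (n + 1 + 1) / 2 - 1)) - (2 * ((n + 1 : ℕ) : ℝ) + 3) *
      ((((n + 1) * (n + 1 + 1) / 2 + (n + 1 + 1) : ℕ) : ℝ) *
        q ^ ((n + 1) * (n + 1 + 1) / 2 + (n + 1 + 1) - 1)) with hd'
  have h4 : HasDerivAt (fun x => P n x + D (n + 1) x) (d + d') q := hd.add h2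
  rw [hasDerivAt_iff_tendsto_slope] at h4
  have h5 : Tendsto (slope (fun x => P n x + D (n + 1) x) q) (𝓝[>] q) (𝓝 (d + d')) :=
    h4.mono_left (nhdsWithin_mono _ (fun x hx => ne_of_gt hx))
  have h6 : d + d' ≤ 0 := by
    refine le_of_tendsto h5 ?_
    have e1 : ∀ᶠ x in 𝓝[>] q, x < 1 := nhdsWithin_le_nhds (eventually_lt_nhds a1)
    have e2 : ∀ᶠ x in 𝓝[>] q, Low n x := by
      apply nhdsWithin_le_nhds
      unfold Low at a2 ⊢
      have hc : Continuous fun x : ℝ => ((n : ℝ) + 3) * (2 * n + 5) * x ^ (n + 2) := by fun_prop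
      exact hc.continuousAt.eventually_lt continuousAt_const a2
    filter_upwards [e1, e2, self_mem_nhdsWithin] with x hx1 hx2 hx3
    have hx3' : q < x := hx3
    have h7 := P_diff hn h0 hx3' hx1 hx2
    rw [slope_def_field]
    apply div_nonpos_of_nonpos_of_nonneg
    · linarith
    · linarith
  linarith

end Pool.Agent.R259.Jac
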